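import Pool.Agent.H459R2.LHY.UpperB
import Pool.Agent.H46R2.LHY.LowA
import Pool.Agent.H728R2.LHY.Trig

/-!
# The trial state with general one-particle energies
-/

set_option autoImplicit false

open MeasureTheory UnitAddTorus
open scoped ComplexConjugate ENNReal

namespace Pool.Agent.H751R2.LHY.G80

noncomputable section

/-- one-particle energy `∑_i κ(p_i)` of a trigonometric polynomial -/
def kinG {N : ℕ} (B : Finset Mom) (a : (Fin N → Mom) → ℂ) (κ : Mom → ℝ) : ℝ :=
  ∑ M ∈ Fintype.piFinset (fun _ : Fin N => B), (∑ i, κ (M i)) * ‖a M‖ ^ 2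

theorem h80_K {B0 : Finset Mom} (hB0 : Sym B0) {c : Mom → ℝ} (hc : ∀ n, c (-n) = c n)
    {κ : Mom → ℝ} (hκ : ∀ n, κ (-n) = κ n) (hκ0 : κ 0 = 0) (ξ ξ' : B0 → Bool) :
    ∑ n ∈ insert 0 B0, ((κ n : ℝ) : ℂ) * (conj (h464_U B0 c ξ n) * h464_U B0 c ξ' n) =
      ((∑ n : B0, κ n * |c n| * sg (ξ n == ξ' n) : ℝ) : ℂ) := by
  rw [Finset.sum_insert hB0.zero]
  have h1 := h464_UU hB0 hc κ hκ ξ ξ'
  rw [h1, hκ0]
  push_cast
  simp

/-- coefficients of the trial state: norm, one-particle energy and the values of the function -/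
theorem trial_existsW (N : ℕ) {B0 : Finset Mom} (hB0 : Sym B0) {c : Mom → ℝ}
    (hc : ∀ n, c (-n) = c n) {κ : Mom → ℝ} (hκ : ∀ n, κ (-n) = κ n) (hκ0 : κ 0 = 0) :
    ∃ a : (Fin N → Mom) → ℂ,
      (∀ x : Cfg N, trig (insert 0 B0) a x = ∑ ξ : B0 → Bool, ∏ i, uf B0 c ξ (pos x i)) ∧
      nrm (insert 0 B0) a = 2 ^ Fintype.card B0 *
        ∑ η : B0 → Bool, zed (fun n : B0 => |c n|) η ^ N ∧
      kinG (insert 0 B0) a κ = 2 ^ Fintype.card B0 * (N * ∑ n : B0, κ n * |c n| *
        ∑ η : B0 → Bool, sg (η n) * zed (fun n : B0 => |c n|) η ^ (N - 1)) := by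
  classical
  set a : (Fin N → Mom) → ℂ := fun M => ∑ ξ : B0 → Bool, ∏ i, h464_U B0 c ξ (M i) with ha
  have hnorm : ∀ M, ((‖a M‖ ^ 2 : ℝ) : ℂ) = ∑ ξ : B0 → Bool, ∑ ξ' : B0 → Bool,
      ∏ l, (conj (h464_U B0 c ξ (M l)) * h464_U B0 c ξ' (M l)) := by
    intro M
    rw [Complex.ofReal_pow, ← Complex.conj_mul']
    simp only [ha, map_sum, Finset.sum_mul_sum, map_prod, Finset.prod_mul_distrib]
  refine ⟨a, ?_, ?_, ?_⟩
  · intro x
    unfold trig
    simp only [ha, Finset.sum_mul]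
    rw [Finset.sum_comm]
    refine Finset.sum_congr rfl fun ξ _ => ?_
    simp_rw [h464_uf hB0 hc]
    rw [Finset.prod_univ_sum]
    refine Finset.sum_congr rfl fun M _ => ?_
    rw [h464_mF_unc, Finset.prod_mul_distrib]
  · apply Complex.ofReal_injective
    unfold nrm
    rw [Complex.ofReal_sum]
    simp_rw [hnorm]
    rw [Finset.sum_comm]
    have h1 : ∀ ξ : B0 → Bool, ∑ M ∈ Fintype.piFinset (fun _ : Fin N => insert 0 B0),
        ∑ ξ' : B0 → Bool, ∏ l, (conj (h464_U B0 c ξ (M l)) * h464_U B0 c ξ' (M l)) =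
        ∑ ξ' : B0 → Bool, (fun η : B0 → Bool =>
          ((zed (fun n : B0 => |c n|) η : ℝ) : ℂ) ^ N) (fun n => ξ n == ξ' n) := by
      intro ξ
      rw [Finset.sum_comm]
      refine Finset.sum_congr rfl fun ξ' _ => ?_
      rw [← Finset.prod_univ_sum (fun _ : Fin N => insert 0 B0)
        (fun _ n => conj (h464_U B0 c ξ n) * h464_U B0 c ξ' n)]
      rw [Finset.prod_const, Finset.card_univ, Fintype.card_fin, h464_Z hB0 hc]
    rw [Finset.sum_congr rfl fun ξ _ => h1 ξ]
    refine (h464_xor (fun η : B0 → Bool =>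
      ((zed (fun n : B0 => |c n|) η : ℝ) : ℂ) ^ N)).trans ?_
    push_cast
    rfl
  · apply Complex.ofReal_injective
    unfold kinG
    rw [Complex.ofReal_sum]
    simp_rw [Complex.ofReal_mul, hnorm, Complex.ofReal_sum, Finset.sum_mul]
    rw [Finset.sum_comm]
    have h1 : ∀ i : Fin N, ∑ M ∈ Fintype.piFinset (fun _ : Fin N => insert 0 B0),
        ((κ (M i) : ℝ) : ℂ) * ∑ ξ : B0 → Bool, ∑ ξ' : B0 → Bool,
          ∏ l, (conj (h464_U B0 c ξ (M l)) * h464_U B0 c ξ' (M l)) =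
        ∑ ξ : B0 → Bool, ∑ ξ' : B0 → Bool, (fun η : B0 → Bool =>
          ((∑ n : B0, κ n * |c n| * sg (η n) : ℝ) : ℂ) *
          ((zed (fun n : B0 => |c n|) η : ℝ) : ℂ) ^ (N - 1)) (fun n => ξ n == ξ' n) := by
      intro i
      simp_rw [Finset.mul_sum]
      rw [Finset.sum_comm]
      refine Finset.sum_congr rfl fun ξ _ => ?_
      rw [Finset.sum_comm]
      refine Finset.sum_congr rfl fun ξ' _ => ?_
      rw [h464_pi_weight (insert 0 B0) (fun n => ((κ n : ℝ) : ℂ))
        (fun n => conj (h464_U B0 c ξ n) * h464_U B0 c ξ' n) i, h80_K hB0 hc hκ hκ0, h464_Z hB0 hc]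
    have h2 : ∀ i : Fin N, ∑ M ∈ Fintype.piFinset (fun _ : Fin N => insert 0 B0),
        ((κ (M i) : ℝ) : ℂ) * ∑ ξ : B0 → Bool, ∑ ξ' : B0 → Bool,
          ∏ l, (conj (h464_U B0 c ξ (M l)) * h464_U B0 c ξ' (M l)) =
        2 ^ Fintype.card B0 * ∑ η : B0 → Bool,
          ((∑ n : B0, κ n * |c n| * sg (η n) : ℝ) : ℂ) *
          ((zed (fun n : B0 => |c n|) η : ℝ) : ℂ) ^ (N - 1) := by
      intro i
      rw [h1 i]
      exact h464_xor (fun η : B0 → Bool => ((∑ n : B0, κ n * |c n| * sg (η n) : ℝ) : ℂ) *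
          ((zed (fun n : B0 => |c n|) η : ℝ) : ℂ) ^ (N - 1))
    rw [Finset.sum_congr rfl fun i _ => h2 i, Finset.sum_const, Finset.card_univ,
      Fintype.card_fin, nsmul_eq_mul]
    push_cast
    simp_rw [Finset.sum_mul, Finset.mul_sum]
    rw [Finset.sum_comm]
    refine Finset.sum_congr rfl fun n _ => Finset.sum_congr rfl fun η _ => ?_
    ring

theorem upperW (N : ℕ) {W : T3 → ℝ} (hW : Pot W)
    {B0 : Finset Mom} (hB0 : Sym B0) (c : Mom → ℝ) (hc : ∀ n, c (-n) = c n)
    {κ : Mom → ℝ} (hκ : ∀ n, κ (-n) = κ n) (hκ0 : κ 0 = 0) (hκn : ∀ n, 0 ≤ κ n) :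
    ∃ a : (Fin N → Mom) → ℂ, 0 < nrm (insert 0 B0) a ∧
      kinG (insert 0 B0) a κ + potF (insert 0 B0) a W ≤
        ((N : ℝ) ^ 2 / 2) * ((∫ y, W y * (1 - wf B0 c y) ^ 2) + 2 * ∑ n ∈ B0, κ n * c n ^ 2
          + 4 * (∫ y, W y) * (N * ∑ n ∈ B0, c n ^ 2) * (1 + N * ∑ n ∈ B0, c n ^ 2))
          * nrm (insert 0 B0) a := by
  classical
  obtain ⟨a, ha, hn, hk⟩ := trial_existsW N hB0 hc hκ hκ0
  refine ⟨a, ?_, ?_⟩
  · rw [hn]
    have := zed_pos (fun n : B0 => |c n|) (fun n => abs_nonneg _) N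
    positivity
  set h : B0 → ℝ := fun n : B0 => |c n| with hh
  have hh0 : ∀ κ, 0 ≤ h κ := fun n => abs_nonneg _
  set D : ℝ := 2 ^ Fintype.card B0 with hD
  have hD0 : 0 < D := by positivity
  set Z : ℕ → ℝ := fun k => ∑ η : B0 → Bool, zed h η ^ k with hZ
  have hZ0 : ∀ k, 0 < Z k := fun k => zed_pos h hh0 k
  have hZm : ∀ {k l : ℕ}, k ≤ l → Z k ≤ Z l := fun hkl => zed_mono h hh0 hkl
  set K : ℝ := ∫ y, W y with hK
  have hK0 : 0 ≤ K := integral_nonneg hW.nonneg
  set Q0 : ℝ := ∫ y, W y * (1 - wf B0 c y) ^ 2 with hQ0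
  have hQ00 : 0 ≤ Q0 := integral_nonneg fun y => mul_nonneg (hW.nonneg y) (sq_nonneg _)
  set C : ℝ := ∑ n ∈ B0, c n ^ 2 with hC
  have hCs : C = ∑ n : B0, h n ^ 2 := by
    rw [hC, ← Finset.sum_coe_sort]
    refine Finset.sum_congr rfl fun n _ => ?_
    simp [hh]
  have hC0 : 0 ≤ C := Finset.sum_nonneg fun n _ => sq_nonneg _
  have hN0 : (0 : ℝ) ≤ N := Nat.cast_nonneg N
  -- kinetic energy
  have hkin : kinG (insert 0 B0) a κ ≤ (N : ℝ) ^ 2 * (∑ n ∈ B0, κ n * c n ^ 2) *
      (D * Z N) := by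
    rw [hk, ← Finset.sum_coe_sort B0 (fun n => κ n * c n ^ 2)]
    have e1 : ∀ n : B0, κ (n : Mom) * h n * (∑ η : B0 → Bool, sg (η n) * zed h η ^ (N - 1)) ≤
        (N * Z N) * (κ (n : Mom) * c n ^ 2) := by
      intro n
      have h1 := (zed_one h hh0 (N - 1) n).2
      have h2 : 0 ≤ κ (n : Mom) * h n := mul_nonneg (hκn _) (hh0 n)
      have h3 : ((N - 1 : ℕ) : ℝ) * h n * Z (N - 1) ≤ N * h n * Z N := by
        have : ((N - 1 : ℕ) : ℝ) ≤ N := by exact_mod_cast Nat.sub_le N 1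
        have := hZm (Nat.sub_le N 1)
        have h0 := hh0 n
        have := hZ0 (N - 1)
        gcongr
      calc κ (n : Mom) * h n * (∑ η : B0 → Bool, sg (η n) * zed h η ^ (N - 1))
          ≤ κ (n : Mom) * h n * (N * h n * Z N) :=
            mul_le_mul_of_nonneg_left (h1.trans h3) h2
        _ = (N * Z N) * (κ (n : Mom) * h n ^ 2) := by ring
        _ = (N * Z N) * (κ (n : Mom) * c n ^ 2) := by
            simp only [hh, sq_abs]
    have e2 := Finset.sum_le_sum fun (n : B0) (_ : n ∈ Finset.univ) => e1 n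
    rw [← Finset.mul_sum] at e2
    have e3 : D * ((N : ℝ) * ∑ n : B0, κ (n : Mom) * h n *
        (∑ η : B0 → Bool, sg (η n) * zed h η ^ (N - 1))) ≤
        D * ((N : ℝ) * ((N * Z N) * ∑ n : B0, (κ (n : Mom) * c n ^ 2))) := by
      gcongr
    refine e3.trans (le_of_eq ?_)
    ring
  -- potential energy
  have hpot : potF (insert 0 B0) a W ≤ ((N : ℝ) ^ 2 / 2) *
      (Q0 + 4 * K * (N * C) * (1 + N * C)) * (D * Z N) := by
    obtain ⟨J, J2, hJ, hJ2, hsum⟩ := quad_sum hW hB0 hc (fun η => zed h η ^ (N - 2))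
    have hp := trial_pot N hW hB0 hc a ha
    have e1 : ∀ ξ ξ' : B0 → Bool,
        ((1 + ∑ n : B0, |c n| * (sg (ξ n) * sg (ξ' n)) : ℝ) : ℂ) ^ (N - 2) =
        ((zed h (fun n => ξ n == ξ' n) ^ (N - 2) : ℝ) : ℂ) := by
      intro ξ ξ'
      rw [Complex.ofReal_pow]
      congr 2
      unfold zed
      congr 1
      refine Finset.sum_congr rfl fun n _ => ?_
      rw [h459_sg_mul]
    simp_rw [e1] at hp
    rw [hsum] at hp
    set B : ℝ := D * ((∑ η : B0 → Bool, zed h η ^ (N - 2)) * Q0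
        + ∑ n : B0, |c n| * J n * (∑ η : B0 → Bool, sg (η n) * zed h η ^ (N - 2))
        + ∑ n : B0, ∑ n' ∈ Finset.univ.erase n, |c n| * |c n'| * J2 n n' *
            (∑ η : B0 → Bool, sg (η n) * sg (η n') * zed h η ^ (N - 2))) with hB
    have hp2 : potF (insert 0 B0) a W = (1 / 2) * (N * (N - 1)) * B := by
      apply Complex.ofReal_injective
      rw [hp]
      push_cast
      rfl
    have hBle : B ≤ D * (Z N * Q0 + 4 * K * (N * C) * Z N + 4 * K * (N * C) ^ 2 * Z N) := by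
      rw [hB]
      refine mul_le_mul_of_nonneg_left ?_ hD0.le
      have hZN := hZm (Nat.sub_le N 2)
      have hZN0 := hZ0 (N - 2)
      have hcast : ((N - 2 : ℕ) : ℝ) ≤ N := by exact_mod_cast Nat.sub_le N 2
      have b1 : (∑ η : B0 → Bool, zed h η ^ (N - 2)) * Q0 ≤ Z N * Q0 :=
        mul_le_mul_of_nonneg_right hZN hQ00
      have b2 : ∑ n : B0, |c n| * J n * (∑ η : B0 → Bool, sg (η n) * zed h η ^ (N - 2)) ≤
          4 * K * (N * C) * Z N := by
        have : ∀ n : B0, |c n| * J n * (∑ η : B0 → Bool, sg (η n) * zed h η ^ (N - 2)) ≤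
            (4 * K * N * Z N) * h n ^ 2 := by
          intro n
          obtain ⟨z0, z1⟩ := zed_one h hh0 (N - 2) n
          have z2 : ((N - 2 : ℕ) : ℝ) * h n * Z (N - 2) ≤ N * h n * Z N := by
            have h0 := hh0 n
            gcongr
          have z3 : (∑ η : B0 → Bool, sg (η n) * zed h η ^ (N - 2)) ≤ N * h n * Z N := z1.trans z2
          have j1 := (hJ n).1
          have j2 := (hJ n).2
          calc |c n| * J n * (∑ η : B0 → Bool, sg (η n) * zed h η ^ (N - 2))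
              ≤ |c n| * (4 * K) * (N * h n * Z N) := by
                apply mul_le_mul _ z3 z0 _
                · exact mul_le_mul_of_nonneg_left j2 (abs_nonneg _)
                · positivity
            _ = (4 * K * N * Z N) * h n ^ 2 := by
                simp only [hh]
                ring
        refine (Finset.sum_le_sum fun n _ => this n).trans (le_of_eq ?_)
        rw [← Finset.mul_sum, ← hCs]
        ring
      have b3 : ∑ n : B0, ∑ n' ∈ Finset.univ.erase n, |c n| * |c n'| * J2 n n' *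
            (∑ η : B0 → Bool, sg (η n) * sg (η n') * zed h η ^ (N - 2)) ≤
          4 * K * (N * C) ^ 2 * Z N := by
        have t1 : ∀ n : B0, ∀ n' ∈ Finset.univ.erase n, |c n| * |c n'| * J2 n n' *
            (∑ η : B0 → Bool, sg (η n) * sg (η n') * zed h η ^ (N - 2)) ≤
            (4 * K * N ^ 2 * Z N) * (h n ^ 2 * h n' ^ 2) := by
          intro n n' hn'
          have hne : n ≠ n' := (Finset.ne_of_mem_erase hn').symm
          obtain ⟨z0, z1⟩ := zed_two h hh0 (N - 2) hne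
          have z2 : ((N - 2 : ℕ) : ℝ) * h n * (((N - 2 : ℕ) : ℝ) * h n') * Z (N - 2) ≤
              (N * h n) * (N * h n') * Z N := by
            have h0 := hh0 n
            have h0' := hh0 n'
            gcongr
          have z3 := z1.trans z2
          have j2 := hJ2 n n' hne
          calc |c n| * |c n'| * J2 n n' *
                (∑ η : B0 → Bool, sg (η n) * sg (η n') * zed h η ^ (N - 2))
              ≤ |c n| * |c n'| * (4 * K) *
                (∑ η : B0 → Bool, sg (η n) * sg (η n') * zed h η ^ (N - 2)) := by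
                apply mul_le_mul_of_nonneg_right _ z0
                exact mul_le_mul_of_nonneg_left j2 (by positivity)
            _ ≤ |c n| * |c n'| * (4 * K) * ((N * h n) * (N * h n') * Z N) :=
                mul_le_mul_of_nonneg_left z3 (by positivity)
            _ = (4 * K * N ^ 2 * Z N) * (h n ^ 2 * h n' ^ 2) := by
                simp only [hh]
                ring
        have t2 : ∀ n : B0, ∑ n' ∈ Finset.univ.erase n, |c n| * |c n'| * J2 n n' *
            (∑ η : B0 → Bool, sg (η n) * sg (η n') * zed h η ^ (N - 2)) ≤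
            ∑ n' : B0, (4 * K * N ^ 2 * Z N) * (h n ^ 2 * h n' ^ 2) := by
          intro n
          refine (Finset.sum_le_sum (t1 n)).trans ?_
          refine Finset.sum_le_sum_of_subset_of_nonneg (Finset.subset_univ _) fun n' _ _ => ?_
          have := hZ0 N
          positivity
        refine (Finset.sum_le_sum fun n _ => t2 n).trans (le_of_eq ?_)
        rw [h459_dsum, ← hCs]
        ring
      linarith
    exact h459_final N hD0 (hZ0 N) hK0 hQ00 hC0 hp2 hBle
  rw [hn]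
  have := add_le_add hkin hpot
  refine this.trans (le_of_eq ?_)
  ring

/-- `kinG` and the occupation numbers -/
theorem kinG_eq {N : ℕ} (B : Finset Mom) (a : (Fin N → Mom) → ℂ) (κ : Mom → ℝ) :
    kinG B a κ = ∑ n ∈ B, κ n * occ B a n := by
  classical
  unfold kinG occ
  simp_rw [Finset.mul_sum]
  rw [Finset.sum_comm]
  apply Finset.sum_congr rfl
  intro M hM
  rw [Fintype.mem_piFinset] at hM
  have h1 : ∑ i, κ (M i) = ∑ n ∈ B,
      ((Finset.univ.filter (fun i => M i = n)).card : ℝ) * κ n := by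
    rw [← Finset.sum_fiberwise_of_maps_to (s := Finset.univ) (t := B) (g := M)
      (fun i _ => hM i)]
    apply Finset.sum_congr rfl
    intro n _
    rw [← nsmul_eq_mul, ← Finset.sum_const]
    apply Finset.sum_congr rfl
    intro i hi
    rw [(Finset.mem_filter.mp hi).2]
  rw [h1, Finset.sum_mul]
  apply Finset.sum_congr rfl
  intro n _
  ring

/-- occupation numbers of a trigonometric polynomial -/
theorem trig_occE {N : ℕ} (B : Finset Mom) (a : (Fin N → Mom) → ℂ) (P : Mom → Prop)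
    [DecidablePred P] :
    occE (trig B a) P = ENNReal.ofReal (∑ M ∈ Fintype.piFinset (fun _ : Fin N => B),
      ((Finset.univ.filter (fun i => P (M i))).card : ℝ) * ‖a M‖ ^ 2) := by
  classical
  unfold occE
  rw [tsum_eq_sum (s := Fintype.piFinset (fun _ : Fin N => B))]
  · rw [ENNReal.ofReal_sum_of_nonneg]
    · refine Finset.sum_congr rfl fun M hM => ?_
      rw [Gn.coef_trig, if_pos hM]
    · intro M _
      positivity
  · intro M hM
    rw [Gn.coef_trig, if_neg hM]
    simp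

end

end Pool.Agent.H751R2.LHY.G80
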