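import Pool.Agent.J6H80.BG.Low
import Pool.Agent.J6H80.BG.Tri
import Pool.Agent.H751R2.LHY.Main

/-!
# The gapped energy: the trial state bound
-/

set_option autoImplicit false

open MeasureTheory UnitAddTorus
open scoped ComplexConjugate ENNReal

namespace Pool.Agent.H751R2.LHY.G80

noncomputable section

/-- energy with a gap `Δ` for all particles with momentum in the set `D` -/
def enG {N : ℕ} (q : ℝ) (W : T3 → ℝ≥0∞) (Δ : ℝ) (D : Mom → Prop) [DecidablePred D]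
    (ψ : Cfg N → ℂ) : ℝ≥0∞ :=
  kinE q ψ + potE W ψ + ENNReal.ofReal Δ * occE ψ D

section

variable (D : Mom → Prop) [DecidablePred D]

/-- the one-particle energy with a gap -/
def kap (q Δ : ℝ) (n : Mom) : ℝ := q * sq n + if D n then Δ else 0

lemma kap_zero (q Δ : ℝ) (hD0 : ¬ D 0) : kap D q Δ 0 = 0 := by simp [kap, sq, hD0]

lemma kap_neg (q Δ : ℝ) (hDn : ∀ n, D (-n) ↔ D n) (n : Mom) : kap D q Δ (-n) = kap D q Δ n := by
  simp [kap, sq_neg, hDn]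

lemma kap_nonneg {q Δ : ℝ} (hq : 0 < q) (hΔ : 0 ≤ Δ) (n : Mom) : 0 ≤ kap D q Δ n := by
  unfold kap
  have := sq_nonneg' n
  split_ifs <;> positivity

lemma kinG_kap {N : ℕ} (B : Finset Mom) (a : (Fin N → Mom) → ℂ) (q Δ : ℝ) :
    kinG B a (kap D q Δ) = kinF B a q + Δ * ∑ M ∈ Fintype.piFinset (fun _ : Fin N => B),
      ((Finset.univ.filter (fun i => D (M i))).card : ℝ) * ‖a M‖ ^ 2 := by
  unfold kinG kinF
  rw [Finset.mul_sum, ← Finset.sum_add_distrib]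
  refine Finset.sum_congr rfl fun M _ => ?_
  have h1 : ∑ i, kap D q Δ (M i) = (∑ i, q * sq (M i)) +
      Δ * ((Finset.univ.filter (fun i => D (M i))).card : ℝ) := by
    rw [Finset.card_filter]
    push_cast
    rw [Finset.mul_sum, ← Finset.sum_add_distrib]
    refine Finset.sum_congr rfl fun i _ => ?_
    by_cases h : D (M i)
    · simp [kap, h]
    · simp [kap, h]
  rw [h1]
  ring

end

lemma kinG_nonneg {N : ℕ} (B : Finset Mom) (a : (Fin N → Mom) → ℂ) {κ : Mom → ℝ}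
    (hκ : ∀ n, 0 ≤ κ n) : 0 ≤ kinG B a κ :=
  Finset.sum_nonneg (fun M _ => mul_nonneg (Finset.sum_nonneg (fun i _ => hκ _)) (sq_nonneg _))

lemma kinG_scale {N : ℕ} (B : Finset Mom) (a : (Fin N → Mom) → ℂ) (t : ℝ) (κ : Mom → ℝ) :
    kinG B (fun M => (t : ℂ) * a M) κ = t ^ 2 * kinG B a κ := by
  simp only [kinG]
  rw [Finset.mul_sum]
  refine Finset.sum_congr rfl (fun M _ => ?_)
  rw [norm_mul, Complex.norm_real, mul_pow, Real.norm_eq_abs, sq_abs]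
  ring

lemma enG_trig (D : Mom → Prop) [DecidablePred D] {N : ℕ} (B : Finset Mom)
    (a : (Fin N → Mom) → ℂ) {q Δ : ℝ} (hq : 0 < q)
    (hΔ : 0 ≤ Δ) {W : T3 → ℝ} (hW : Pot W) (hWm : Measurable W) :
    enG q (fun y => ENNReal.ofReal (W y)) Δ D (trig B a) =
      ENNReal.ofReal (kinG B a (kap D q Δ) + potF B a W) := by
  have h0 : 0 ≤ ∑ M ∈ Fintype.piFinset (fun _ : Fin N => B),
      ((Finset.univ.filter (fun i => D (M i))).card : ℝ) * ‖a M‖ ^ 2 :=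
    Finset.sum_nonneg fun M _ => by positivity
  unfold enG
  rw [trig_kinE _ _ hq, trig_potE _ _ hW hWm, trig_occE, ← ENNReal.ofReal_mul hΔ,
    ← ENNReal.ofReal_add (kinF_nonneg _ _ hq) (potF_nonneg _ _ hW),
    ← ENNReal.ofReal_add (add_nonneg (kinF_nonneg _ _ hq) (potF_nonneg _ _ hW))
      (mul_nonneg hΔ h0), kinG_kap]
  congr 1
  ring

/-- the trial state bound for near-minimisers -/
lemma trialG {D : Mom → Prop} [DecidablePred D] (hD0 : ¬ D 0) (hDn : ∀ n, D (-n) ↔ D n)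
    {N : ℕ} {W : T3 → ℝ} (hW : Pot W) (hWm : Measurable W)
    {q I s Δ : ℝ} (hq : 0 < q) (hΔ : 0 ≤ Δ) (hI : ∫ y, W y = I) (hI0 : 0 < I) (hs : s = N * I)
    (hs0 : 0 < s)
    {B1 : Finset Mom} (hB1 : Sym B1) {c1 : Mom → ℝ} (hc1 : ∀ n, c1 (-n) = c1 n)
    (hQ : Qf W q (Δ + 3 * s) B1 c1 ≤ 3 * I) {η : ℝ} (hη : 0 ≤ η)
    {E : ℝ≥0∞}
    (hmin : ∀ φ : Cfg N → ℂ, MemLp φ 2 → ∫ x, ‖φ x‖ ^ 2 = 1 →
      E ≤ enG q (fun y => ENNReal.ofReal (W y)) Δ D φ + ENNReal.ofReal η) :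
    E ≤ ENNReal.ofReal (((N : ℝ) ^ 2 / 2) * Qf W q (Δ + 3 * s) B1 c1 + η) := by
  obtain ⟨a, ha0, ha⟩ := upperW N hW hB1 c1 hc1 (kap_neg D q Δ hDn) (kap_zero D q Δ hD0)
    (kap_nonneg D hq hΔ)
  set B := insert 0 B1
  set t : ℝ := 1 / Real.sqrt (nrm B a) with ht
  have ht2 : t ^ 2 = 1 / nrm B a := by
    rw [ht, div_pow, Real.sq_sqrt ha0.le, one_pow]
  have h1 := hmin (trig B (fun M => (t : ℂ) * a M)) (trig_memLp _ _) (by
    rw [trig_norm, nrm_scale, ht2]; field_simp)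
  have hk0 := kinG_nonneg B a (kap_nonneg D hq hΔ)
  have hp0 := potF_nonneg B a hW
  rw [enG_trig D _ _ hq hΔ hW hWm, kinG_scale, potF_scale, ← mul_add,
    ← ENNReal.ofReal_add (mul_nonneg (sq_nonneg _) (add_nonneg hk0 hp0)) hη, ht2] at h1
  refine h1.trans (ENNReal.ofReal_le_ofReal ?_)
  have hω : 0 ≤ ∑ n ∈ B1, c1 n ^ 2 := Finset.sum_nonneg (fun n _ => sq_nonneg _)
  set ω := ∑ n ∈ B1, c1 n ^ 2 with hωd
  have hWn : 0 ≤ ∫ y, W y * (1 - wf B1 c1 y) ^ 2 :=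
    integral_nonneg (fun y => mul_nonneg (hW.nonneg y) (sq_nonneg _))
  have hk : 0 ≤ ∑ n ∈ B1, kap D q Δ n * c1 n ^ 2 :=
    Finset.sum_nonneg (fun n _ => mul_nonneg (kap_nonneg D hq hΔ n) (sq_nonneg _))
  have hQe : (∫ y, W y * (1 - wf B1 c1 y) ^ 2)
      + 2 * ∑ n ∈ B1, kap D q Δ n * c1 n ^ 2 + 6 * s * ω ≤ Qf W q (Δ + 3 * s) B1 c1 := by
    unfold Qf
    rw [hωd, Finset.mul_sum, Finset.mul_sum, add_assoc, ← Finset.sum_add_distrib]
    refine add_le_add le_rfl (Finset.sum_le_sum fun n _ => ?_)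
    have h1 : kap D q Δ n ≤ q * sq n + Δ := by
      unfold kap
      split_ifs
      · exact le_rfl
      · linarith
    have h2 := mul_le_mul_of_nonneg_right h1 (sq_nonneg (c1 n))
    linarith
  have hNω : N * ω ≤ 1 / 2 := by
    have : 6 * s * ω ≤ 3 * I := by linarith
    rw [hs] at this
    have : (6 * (N * ω) - 3) * I ≤ 0 := by nlinarith
    nlinarith
  have hN0 : (0 : ℝ) ≤ N := by positivity
  have hNω0 : 0 ≤ N * ω := by positivity
  have h4 : 4 * I * (N * ω) * (1 + N * ω) ≤ 6 * s * ω := by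
    have : 4 * I * (N * ω) * (1 + N * ω) ≤ 4 * I * (N * ω) * (3 / 2) :=
      mul_le_mul_of_nonneg_left (by linarith) (by positivity)
    rw [hs]; linarith
  have h5 : (kinG B a (kap D q Δ) + potF B a W) / nrm B a ≤
      ((N : ℝ) ^ 2 / 2) * Qf W q (Δ + 3 * s) B1 c1 := by
    rw [div_le_iff₀ ha0]
    refine ha.trans ?_
    apply mul_le_mul_of_nonneg_right _ ha0.le
    apply mul_le_mul_of_nonneg_left _ (by positivity)
    rw [hI]
    linarith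
  have h6 : 1 / nrm B a * (kinG B a (kap D q Δ) + potF B a W) =
      (kinG B a (kap D q Δ) + potF B a W) / nrm B a := by
    ring
  rw [h6]
  linarith

/-- upper bound of the energy by the cut-off two-body functional -/
lemma upG {D : Mom → Prop} [DecidablePred D] (hD0 : ¬ D 0) (hDn : ∀ n, D (-n) ↔ D n)
    {N : ℕ} {W : T3 → ℝ} (hW : Pot W) (hWm : Measurable W)
    {q I s Δ : ℝ} (hq : 0 < q) (hΔ : 0 ≤ Δ) (hI : ∫ y, W y = I) (hI0 : 0 < I) (hs : s = N * I)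
    (hs0 : 0 < s) {η : ℝ} (hη : 0 ≤ η) {E : ℝ≥0∞}
    (hmin : ∀ φ : Cfg N → ℂ, MemLp φ 2 → ∫ x, ‖φ x‖ ^ 2 = 1 →
      E ≤ enG q (fun y => ENNReal.ofReal (W y)) Δ D φ + ENNReal.ofReal η) :
    E ≠ ⊤ ∧ E.toReal ≤ (N : ℝ) ^ 2 / 2 * I + η ∧
    ∀ ε : ℝ, 0 < ε → ∃ K0 : ℝ, ∀ K, K0 ≤ K → 0 ≤ K → ∀ B0 : Finset Mom, Sym B0 →
      ∀ c : Mom → ℝ,
        E.toReal ≤ (N : ℝ) ^ 2 / 2 * Qf (fun y => min (W y) K) q (Δ + 3 * s) B0 c + η + ε := by
  have hNI : 0 < N * I := hs ▸ hs0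
  have hNr : (0 : ℝ) < N := by
    by_contra h
    have h1 : (N : ℝ) = 0 := le_antisymm (not_lt.1 h) (Nat.cast_nonneg N)
    rw [h1, zero_mul] at hNI
    exact lt_irrefl _ hNI
  have hN2 : 0 < (N : ℝ) ^ 2 / 2 := by positivity
  have h0 := trialG hD0 hDn (N := N) hW hWm hq hΔ hI hI0 hs hs0 (boxM_sym 0) (c1 := fun _ => 0)
      (fun _ => rfl) (by rw [Qf_zero, hI]; linarith) hη hmin
  have hΔ3 : 0 < Δ + 3 * s := by linarith
  have htop : E ≠ ⊤ := ne_top_of_le_ne_top ENNReal.ofReal_ne_top h0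
  refine ⟨htop, ?_, ?_⟩
  · rw [Qf_zero, hI] at h0
    exact ENNReal.toReal_le_of_le_ofReal (by positivity) h0
  intro ε hε
  obtain ⟨K0, hK0⟩ := clip hW hWm hq hΔ3 (ε := min I (ε / ((N : ℝ) ^ 2 / 2)))
    (lt_min hI0 (by positivity))
  refine ⟨K0, fun K hK hKn B0 hS c => ?_⟩
  set WK : T3 → ℝ := fun y => min (W y) K with hWK
  have hWKp : Pot WK := pot_min hW hKn
  have hWKI : ∫ y, WK y ≤ I := by
    rw [← hI]
    exact integral_mono hWKp.int hW.int (fun y => min_le_left _ _)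
  obtain ⟨cB, hB⟩ := exists_scat hWKp hq hΔ3 hS
  have hQB : Qf WK q (Δ + 3 * s) B0 cB ≤ I := by
    rw [← scat_Q hWKp hB]; exact (gh_zero_le hWKp hq hΔ3 hB).trans hWKI
  obtain ⟨B1, hB1, c1, hc1, hQ1⟩ := hK0 K hK B0 hS cB hB.even (by rw [hI]; linarith)
  have hm1 := min_le_left I (ε / ((N : ℝ) ^ 2 / 2))
  have hm2 := min_le_right I (ε / ((N : ℝ) ^ 2 / 2))
  have hE := trialG hD0 hDn hW hWm hq hΔ hI hI0 hs hs0 hB1 hc1 (by linarith) hη hmin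
  have hQ1n : 0 ≤ Qf W q (Δ + 3 * s) B1 c1 := by
    unfold Qf
    refine add_nonneg (integral_nonneg (fun y => mul_nonneg (hW.nonneg y) (sq_nonneg _)))
      (Finset.sum_nonneg (fun n _ => mul_nonneg ?_ (sq_nonneg _)))
    have := sq_nonneg' n; positivity
  have hE2 : E.toReal ≤ ((N : ℝ) ^ 2 / 2) * Qf W q (Δ + 3 * s) B1 c1 + η :=
    ENNReal.toReal_le_of_le_ofReal (by positivity) hE
  have h1 : Qf W q (Δ + 3 * s) B1 c1 ≤ Qf WK q (Δ + 3 * s) B0 c + ε / ((N : ℝ) ^ 2 / 2) := by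
    have := scat_min hWKp hq hΔ3 hB c
    linarith
  have h2 := mul_le_mul_of_nonneg_left h1 hN2.le
  have h3 : (N : ℝ) ^ 2 / 2 * (ε / ((N : ℝ) ^ 2 / 2)) = ε := by field_simp
  rw [mul_add, h3] at h2
  linarith

end

end Pool.Agent.H751R2.LHY.G80
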