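import Pool.Agent.J6H80.BG.Cor2

/-!
# Occupation numbers of low and high momenta
-/

set_option autoImplicit false

open MeasureTheory UnitAddTorus
open scoped ENNReal ContDiff

namespace Pool.Agent.H751R2.LHY.G80


noncomputable section

/-- the number of particles outside the condensate is at least the one with low momenta -/
lemma low_le_depl {N : ℕ} {ψ : Cfg N → ℂ} (hψ : MemLp ψ 2) (hψ1 : ∫ x, ‖ψ x‖ ^ 2 = 1)
    (P : Mom → Prop) [DecidablePred P] (hP : ∀ n, P n → n ≠ 0) :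
    (occE ψ P).toReal ≤ N - (occE ψ (fun n => n = 0)).toReal := by
  have hN0 : (0 : ℝ) ≤ N := Nat.cast_nonneg N
  have hsplit := occE_split hψ hψ1
  have hf1 := occE_fin hψ hψ1 (fun n => n = 0)
  have hf2 := occE_fin hψ hψ1 (fun n => n ≠ 0)
  have h2 : (occE ψ (fun n => n = 0)).toReal + (occE ψ (fun n => n ≠ 0)).toReal = N := by
    rw [← ENNReal.toReal_add hf1 hf2, hsplit, ENNReal.toReal_ofReal hN0]
  have h3 := ENNReal.toReal_mono hf2 (occE_mono ψ P (fun n => n ≠ 0) hP)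
  linarith

/-- final form of the conclusion -/
lemma concl {N : ℕ} {ψ : Cfg N → ℂ} (hψ : MemLp ψ 2) (hψ1 : ∫ x, ‖ψ x‖ ^ 2 = 1)
    {t X A k : ℝ} (hk : 0 ≤ k)
    (h : A + k * (occE ψ (fun n => ¬ t * sq n ≤ X)).toReal ≤
      (occE ψ (fun n => n ≠ 0 ∧ t * sq n ≤ X)).toReal) :
    A + k * (occE ψ (fun n => X < t * ∑ a, (n a : ℝ) ^ 2)).toReal ≤
      (occE ψ (fun n => n ≠ 0 ∧ t * ∑ a, (n a : ℝ) ^ 2 ≤ X)).toReal ∧
    A ≤ N - (occE ψ (fun n => n = 0)).toReal := by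
  have e1 : occE ψ (fun n => X < t * ∑ a, (n a : ℝ) ^ 2) =
      occE ψ (fun n => ¬ t * sq n ≤ X) :=
    le_antisymm (occE_mono ψ _ _ fun n hn => not_le.2 hn)
      (occE_mono ψ _ _ fun n hn => not_le.1 hn)
  have e2 : occE ψ (fun n => n ≠ 0 ∧ t * ∑ a, (n a : ℝ) ^ 2 ≤ X) =
      occE ψ (fun n => n ≠ 0 ∧ t * sq n ≤ X) :=
    le_antisymm (occE_mono ψ _ _ fun n hn => hn) (occE_mono ψ _ _ fun n hn => hn)
  rw [e1, e2]
  refine ⟨h, ?_⟩
  have h1 := low_le_depl hψ hψ1 (fun n => n ≠ 0 ∧ t * sq n ≤ X) (fun n hn => hn.1)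
  have h2 : 0 ≤ k * (occE ψ (fun n => ¬ t * sq n ≤ X)).toReal :=
    mul_nonneg hk ENNReal.toReal_nonneg
  linarith

end

end Pool.Agent.H751R2.LHY.G80
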