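import Pool.Agent.J6H80.BG.Cor1

/-!
# The gapped energy: from finitely many momenta to all momenta
-/

set_option autoImplicit false

open MeasureTheory UnitAddTorus
open scoped ComplexConjugate ENNReal

namespace Pool.Agent.H751R2.LHY.G80

noncomputable section

lemma occE_add {N : ℕ} (ψ : Cfg N → ℂ) (P P' Q : Mom → Prop) [DecidablePred P]
    [DecidablePred P'] [DecidablePred Q] (hd : ∀ n, P n → ¬ P' n) (hQ : ∀ n, Q n ↔ P n ∨ P' n) :
    occE ψ Q = occE ψ P + occE ψ P' := by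
  unfold occE
  rw [← ENNReal.tsum_add]
  refine tsum_congr fun M => ?_
  rw [← ENNReal.ofReal_add (by positivity) (by positivity), ← add_mul]
  congr 2
  have hdis : Disjoint (Finset.univ.filter (fun i => P (M i)))
      (Finset.univ.filter (fun i => P' (M i))) := by
    rw [Finset.disjoint_filter]
    intro i _ h0 h1
    exact hd _ h0 h1
  have h2 := Finset.card_union_of_disjoint hdis
  have h3 : Finset.univ.filter (fun i => Q (M i)) = (Finset.univ.filter (fun i => P (M i))) ∪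
      (Finset.univ.filter (fun i => P' (M i))) := by
    ext i
    simp [hQ]
  rw [h3, h2]
  push_cast
  ring

lemma occE_true {N : ℕ} {ψ : Cfg N → ℂ} (hψ : MemLp ψ 2) (hψ1 : ∫ x, ‖ψ x‖ ^ 2 = 1)
    (Q : Mom → Prop) [DecidablePred Q] (hQ : ∀ n, Q n) : occE ψ Q = ENNReal.ofReal N := by
  have hpar := parseval hψ
  rw [hψ1] at hpar
  unfold occE
  have hs : HasSum (fun M : Fin N → Mom => (N : ℝ) * ‖coef ψ M‖ ^ 2) (N * 1) :=
      hpar.mul_left _
  have h1 : ∀ M : Fin N → Mom, ((Finset.univ.filter (fun i => Q (M i))).card : ℝ) = N := by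
    intro M
    have : Finset.univ.filter (fun i => Q (M i)) = Finset.univ := by
      ext i; simp [hQ]
    rw [this]
    simp
  simp_rw [h1]
  rw [← ENNReal.ofReal_tsum_of_nonneg (fun M => by positivity) hs.summable, hs.tsum_eq, mul_one]

lemma occE_split {N : ℕ} {ψ : Cfg N → ℂ} (hψ : MemLp ψ 2) (hψ1 : ∫ x, ‖ψ x‖ ^ 2 = 1) :
    occE ψ (fun n => n = 0) + occE ψ (fun n => n ≠ 0) = ENNReal.ofReal N := by
  classical
  rw [← occE_true hψ hψ1 (fun _ => True) (fun _ => trivial)]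
  exact (occE_add ψ _ _ _ (fun n h => by simpa using h) (fun n => by simp [em])).symm

lemma occE_mono {N : ℕ} (ψ : Cfg N → ℂ) (P Q : Mom → Prop) [DecidablePred P]
    [DecidablePred Q] (h : ∀ n, P n → Q n) : occE ψ P ≤ occE ψ Q := by
  unfold occE
  refine ENNReal.tsum_le_tsum fun M => ENNReal.ofReal_le_ofReal ?_
  apply mul_le_mul_of_nonneg_right _ (sq_nonneg _)
  exact_mod_cast Finset.card_le_card (Finset.monotone_filter_right _ (fun i _ hi => h _ hi))

lemma occE_fin {N : ℕ} {ψ : Cfg N → ℂ} (hψ : MemLp ψ 2) (hψ1 : ∫ x, ‖ψ x‖ ^ 2 = 1)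
    (P : Mom → Prop) [DecidablePred P] : occE ψ P ≠ ⊤ := by
  classical
  refine ne_top_of_le_ne_top (ENNReal.ofReal_ne_top (r := (N : ℝ))) ?_
  rw [← occE_true hψ hψ1 (fun _ => True) (fun _ => trivial)]
  exact occE_mono ψ _ _ (fun _ _ => trivial)

/-- convergence of the occupation numbers -/
lemma occ_tendsto {N : ℕ} {ψ : Cfg N → ℂ} (hψ : MemLp ψ 2) (hψ1 : ∫ x, ‖ψ x‖ ^ 2 = 1)
    (P : Mom → Prop) [DecidablePred P] :
    Filter.Tendsto (fun R : ℕ => ∑ n ∈ (boxM R).filter P, occ (boxM R) (coef ψ) n) Filter.atTop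
      (nhds (occE ψ P).toReal) := by
  classical
  have h0 : ∀ M : Fin N → Mom,
      0 ≤ ((Finset.univ.filter (fun i => P (M i))).card : ℝ) * ‖coef ψ M‖ ^ 2 := fun M =>
    mul_nonneg (Nat.cast_nonneg _) (sq_nonneg _)
  have hs : HasSum (fun M : Fin N → Mom =>
      ((Finset.univ.filter (fun i => P (M i))).card : ℝ) * ‖coef ψ M‖ ^ 2)
      (occE ψ P).toReal := by
    have hs := ENNReal.summable_toReal (occE_fin hψ hψ1 P)
    simp only [ENNReal.toReal_ofReal (h0 _)] at hs
    have := hs.hasSum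
    unfold occE
    rw [ENNReal.tsum_toReal_eq (fun _ => ENNReal.ofReal_ne_top)]
    simp only [ENNReal.toReal_ofReal (h0 _)]
    exact this
  have h2 := Gn.tendsto_bx hs
  refine h2.congr fun R => ?_
  unfold occ
  rw [Finset.sum_comm]
  refine Finset.sum_congr rfl fun M hM => ?_
  rw [← Finset.sum_mul]
  congr 1
  have h2 := Finset.card_eq_sum_card_fiberwise (s := Finset.univ.filter (fun i => P (M i)))
    (t := (boxM R).filter P) (f := fun i => M i) (by
      intro i hi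
      simp only [Finset.coe_filter, Finset.mem_univ, true_and, Set.mem_ofPred_eq] at hi ⊢
      exact ⟨Fintype.mem_piFinset.1 hM i, hi⟩)
  rw [h2]
  push_cast
  refine Finset.sum_congr rfl fun n hn => ?_
  congr 2
  ext i
  simp only [Finset.mem_filter, Finset.mem_univ, true_and]
  constructor
  · intro h; exact h.2
  · intro h
    exact ⟨by rw [h]; exact (Finset.mem_filter.1 hn).2, h⟩

/-- the weighted sum of the occupation numbers -/
lemma occ_sum_tendsto {N : ℕ} (Δ t : ℝ) (D : Mom → Prop) [DecidablePred D] (hD0 : ¬ D 0)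
    (S : Mom → Prop)
    [DecidablePred S] (hS0 : ¬ S 0) {ψ : Cfg N → ℂ} (hψ : MemLp ψ 2)
    (hψ1 : ∫ x, ‖ψ x‖ ^ 2 = 1) :
    Filter.Tendsto (fun R : ℕ => ∑ n ∈ (boxM R).erase 0,
      ((if D n then Δ else 0) + if S n then t else 0) * occ (boxM R) (coef ψ) n) Filter.atTop
      (nhds (Δ * (occE ψ D).toReal + t * (occE ψ S).toReal)) := by
  classical
  have h1 := (occ_tendsto hψ hψ1 D).const_mul Δ
  have h2 := (occ_tendsto hψ hψ1 S).const_mul t
  refine (h1.add h2).congr fun R => ?_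
  have e : ∀ (P : Mom → Prop) [DecidablePred P], ¬ P 0 →
      (boxM R).filter P = ((boxM R).erase 0).filter P := by
    intro P _ hP0
    ext n
    simp only [Finset.mem_filter, Finset.mem_erase]
    constructor
    · rintro ⟨h, h'⟩
      exact ⟨⟨fun h0 => hP0 (h0 ▸ h'), h⟩, h'⟩
    · rintro ⟨⟨_, h⟩, h'⟩
      exact ⟨h, h'⟩
  rw [e D hD0, e S hS0, Finset.sum_filter, Finset.sum_filter, Finset.mul_sum, Finset.mul_sum,
    ← Finset.sum_add_distrib]
  refine Finset.sum_congr rfl fun n _ => ?_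
  split_ifs <;> ring

/-- passage to the limit -/
lemma limG {N : ℕ} {W : T3 → ℝ} (hW : Pot W) (hWm : Measurable W) {q Δ t : ℝ} (hq : 0 < q)
    (hΔ : 0 ≤ Δ) (D : Mom → Prop) [DecidablePred D] (hD0 : ¬ D 0)
    (S : Mom → Prop) [DecidablePred S] (hS0 : ¬ S 0)
    {ψ : Cfg N → ℂ} (hψ : MemLp ψ 2) (hψ1 : ∫ x, ‖ψ x‖ ^ 2 = 1)
    (hfin : enG q (fun y => ENNReal.ofReal (W y)) Δ D ψ ≠ ⊤) {K : ℝ} (hK : 0 ≤ K) (C : ℝ)
    {ε : ℝ} (hε : 0 < ε) :
    ∀ᶠ R : ℕ in Filter.atTop, ∀ X : ℝ, |X| ≤ C → nrm (boxM R) (coef ψ) * X ≤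
      kinF (boxM R) (coef ψ) q + potF (boxM R) (coef ψ) (fun y => min (W y) K) +
        ∑ n ∈ (boxM R).erase 0, ((if D n then Δ else 0) + if S n then t else 0) *
          occ (boxM R) (coef ψ) n →
      X ≤ (enG q (fun y => ENNReal.ofReal (W y)) Δ D ψ).toReal + t * (occE ψ S).toReal + ε := by
  have hkp : kinE q ψ + potE (fun y => ENNReal.ofReal (W y)) ψ ≠ ⊤ :=
    ne_top_of_le_ne_top hfin le_self_add
  have hktop : kinE q ψ ≠ ⊤ := ne_top_of_le_ne_top hkp le_self_add
  have hptop : potE (fun y => ENNReal.ofReal (W y)) ψ ≠ ⊤ :=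
    ne_top_of_le_ne_top hkp le_add_self
  have hotop := occE_fin hψ hψ1 D
  set WK : T3 → ℝ := fun y => min (W y) K with hWK
  have hWKp : Pot WK := pot_min hW hK
  have hWKm : Measurable WK := hWm.min measurable_const
  have hWKle : ∀ y, WK y ≤ W y := fun y => min_le_left _ _
  have hlim2 : Filter.Tendsto (fun R : ℕ => kinF (boxM R) (coef ψ) q +
      potF (boxM R) (coef ψ) WK) Filter.atTop
      (nhds ((kinE q ψ).toReal + (potE (fun y => ENNReal.ofReal (WK y)) ψ).toReal)) :=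
    (kinF_tendsto hq hψ hktop).add (potF_tendsto hWKp hWKm (C := K)
      (fun y => min_le_right _ _) hψ)
  have hlim1 := nrm_tendsto hψ
  rw [hψ1] at hlim1
  have hpm : (potE (fun y => ENNReal.ofReal (WK y)) ψ).toReal ≤
      (potE (fun y => ENNReal.ofReal (W y)) ψ).toReal :=
    ENNReal.toReal_mono hptop (potE_mono (fun y => ENNReal.ofReal_le_ofReal (hWKle y)) ψ)
  have hEr : (enG q (fun y => ENNReal.ofReal (W y)) Δ D ψ).toReal =
      (kinE q ψ).toReal + (potE (fun y => ENNReal.ofReal (W y)) ψ).toReal +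
        Δ * (occE ψ D).toReal := by
    unfold enG
    rw [ENNReal.toReal_add hkp (ENNReal.mul_ne_top ENNReal.ofReal_ne_top hotop),
      ENNReal.toReal_add hktop hptop, ENNReal.toReal_mul, ENNReal.toReal_ofReal hΔ]
  have hC1 : 0 < ε / (2 * (|C| + 1)) := by positivity
  have ev1 := hlim2.eventually (gt_mem_nhds (show (kinE q ψ).toReal +
    (potE (fun y => ENNReal.ofReal (WK y)) ψ).toReal < (kinE q ψ).toReal +
    (potE (fun y => ENNReal.ofReal (WK y)) ψ).toReal + ε / 4 by linarith))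
  have ev3 := (occ_sum_tendsto Δ t D hD0 S hS0 hψ hψ1).eventually (gt_mem_nhds
    (show Δ * (occE ψ D).toReal + t * (occE ψ S).toReal <
      Δ * (occE ψ D).toReal + t * (occE ψ S).toReal + ε / 4 by linarith))
  have ev2 := (Metric.tendsto_nhds.1 hlim1) _ hC1
  filter_upwards [ev1, ev2, ev3] with R h1 h2 h3 X hX hle
  rw [Real.dist_eq] at h2
  have h4 : (1 - nrm (boxM R) (coef ψ)) * X ≤ ε / 2 := by
    have hXC : |X| ≤ |C| + 1 := by
      have := le_abs_self C
      linarith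
    calc (1 - nrm (boxM R) (coef ψ)) * X ≤ |(1 - nrm (boxM R) (coef ψ)) * X| := le_abs_self _
      _ = |nrm (boxM R) (coef ψ) - 1| * |X| := by rw [abs_mul, abs_sub_comm]
      _ ≤ ε / (2 * (|C| + 1)) * (|C| + 1) := by
          apply mul_le_mul h2.le hXC (abs_nonneg _) hC1.le
      _ = ε / 2 := by
          have : |C| + 1 ≠ 0 := by positivity
          field_simp
  rw [hEr]
  nlinarith

end

end Pool.Agent.H751R2.LHY.G80
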