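import Pool.Agent.J6H80.BG.Cor2

/-!
# Comparison of the scattering solution with `e / a_n`
-/

set_option autoImplicit false

open MeasureTheory UnitAddTorus
open scoped ComplexConjugate ENNReal

namespace Pool.Agent.H751R2.LHY.G80

noncomputable section

lemma sc_pos {a w θ : ℝ} (ha : 0 < a) (hθ : θ ≤ 1 / 8) (hw : |w - a| ≤ 2 * θ * a) :
    3 / 4 * a ≤ w := by
  have h1 := abs_le.1 hw
  nlinarith [h1.1]

lemma sc_abs {a w x s θ : ℝ} (ha : 0 < a) (hs : 0 ≤ s) (hθ : θ ≤ 1 / 8)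
    (hw : |w - a| ≤ 2 * θ * a) (hx : |x| ≤ s / 2) : |x / w| ≤ s / a := by
  have h1 := sc_pos ha hθ hw
  have hw0 : 0 < w := by linarith
  rw [abs_div, abs_of_pos hw0, div_le_div_iff₀ hw0 ha]
  nlinarith [abs_nonneg x, mul_nonneg hs ha.le, mul_le_mul_of_nonneg_left h1 hs]

lemma sc_sq {a w x s θ : ℝ} (ha : 0 < a) (hs : 0 ≤ s) (hθ : θ ≤ 1 / 8)
    (hw : |w - a| ≤ 2 * θ * a) (hx : |x| ≤ s / 2) : (x / w) ^ 2 ≤ s ^ 2 * (1 / a ^ 2) := by
  have h1 := sc_abs ha hs hθ hw hx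
  calc (x / w) ^ 2 = |x / w| ^ 2 := (sq_abs _).symm
    _ ≤ (s / a) ^ 2 := pow_le_pow_left₀ (abs_nonneg _) h1 2
    _ = s ^ 2 * (1 / a ^ 2) := by rw [div_pow]; ring

lemma sc_diff {a w x s θ e d : ℝ} (ha : 0 < a) (hs : 0 ≤ s) (hθ0 : 0 ≤ θ) (hθ : θ ≤ 1 / 8)
    (hw : |w - a| ≤ 2 * θ * a) (hx : |x| ≤ s / 2) (he0 : 0 ≤ e) (hes : e ≤ s)
    (hd : |x - e| ≤ d) :
    |(x / w) ^ 2 - (e / a) ^ 2| ≤ (2 * s * (2 * θ * s + d)) * (1 / a ^ 2) := by
  have h1 := sc_pos ha hθ hw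
  have hw0 : 0 < w := by linarith
  have h2 := sc_abs ha hs hθ hw hx
  have h3 : |x / w - x / a| ≤ 2 * θ * s / a := by
    have e1 : x / w - x / a = x * (a - w) / (w * a) := by field_simp
    rw [e1, abs_div, abs_mul, abs_of_pos (mul_pos hw0 ha), div_le_div_iff₀ (mul_pos hw0 ha) ha]
    have h5 : |a - w| ≤ 2 * θ * a := by rw [abs_sub_comm]; exact hw
    have h6 : |x| * |a - w| ≤ s / 2 * (2 * θ * a) :=
      mul_le_mul hx h5 (abs_nonneg _) (by linarith)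
    have h7 : s / 2 * (2 * θ * a) ≤ 2 * θ * s * w := by
      have : θ * s * a ≤ θ * s * (2 * w) := mul_le_mul_of_nonneg_left (by linarith) (by positivity)
      linarith
    calc |x| * |a - w| * a ≤ 2 * θ * s * w * a :=
          mul_le_mul_of_nonneg_right (h6.trans h7) ha.le
      _ = 2 * θ * s * (w * a) := by ring
  have h4 : |x / a - e / a| ≤ d / a := by
    rw [← sub_div, abs_div, abs_of_pos ha]
    exact div_le_div_of_nonneg_right hd ha.le
  have h5 : |x / w - e / a| ≤ (2 * θ * s + d) / a := by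
    have e1 : x / w - e / a = (x / w - x / a) + (x / a - e / a) := by ring
    rw [e1, add_div]
    exact (abs_add_le _ _).trans (add_le_add h3 h4)
  have h6 : |x / w + e / a| ≤ 2 * s / a := by
    have e1 : |e / a| ≤ s / a := by
      rw [abs_of_nonneg (div_nonneg he0 ha.le)]
      exact div_le_div_of_nonneg_right hes ha.le
    calc |x / w + e / a| ≤ |x / w| + |e / a| := abs_add_le _ _
      _ ≤ s / a + s / a := add_le_add h2 e1
      _ = 2 * s / a := by ring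
  have e2 : (x / w) ^ 2 - (e / a) ^ 2 = (x / w + e / a) * (x / w - e / a) := by ring
  have hd0 : 0 ≤ d := (abs_nonneg _).trans hd
  rw [e2, abs_mul]
  calc |x / w + e / a| * |x / w - e / a| ≤ (2 * s / a) * ((2 * θ * s + d) / a) :=
        mul_le_mul h6 h5 (abs_nonneg _) (by positivity)
    _ = (2 * s * (2 * θ * s + d)) * (1 / a ^ 2) := by
        field_simp

lemma int_sub_cs_mono {W WK : T3 → ℝ} (hW : Pot W) (hWK : Pot WK) (hle : ∀ y, WK y ≤ W y)
    (n : Mom) : ∫ y, WK y * (1 - cs n y) ≤ ∫ y, W y * (1 - cs n y) := by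
  have hcs1 : Continuous fun y => (1 : ℝ) - cs n y := continuous_const.sub (h464_cs_cont n)
  refine integral_mono (h464_int_mul hWK.int hcs1) (h464_int_mul hW.int hcs1) fun y => ?_
  exact mul_le_mul_of_nonneg_right (hle y) (by linarith [cs_le_one n y])

/-- comparison of `N² ∑ c_n²` with `∑ (e / a_n)²` -/
lemma occ_cmp {N : ℕ} {W : T3 → ℝ} (hW : Pot W) {q I s Δ θ τ γ e P T TP : ℝ} (hq : 0 < q)
    (hI : ∫ y, W y ≤ I) (hI0 : 0 ≤ I) (hs : s = N * I) (hs0 : 0 < s) (hΔ : 0 < Δ)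
    (hθ0 : 0 ≤ θ) (hθ : θ ≤ 1 / 8) (hτ : 0 ≤ τ)
    (he0 : 0 ≤ e) (hes : e ≤ s)
    {B0 : Finset Mom} {w : Mom → ℝ}
    (hwa : ∀ n ∈ B0, |w n - (q * sq n + Δ)| ≤ 2 * θ * (q * sq n + Δ))
    {c : Mom → ℝ} (hc : ScatW W w B0 c)
    (hnear : ∀ n, q * sq n ≤ P → 2 * ∫ y, W y * (1 - cs n y) ≤ τ ^ 2 * I)
    (hT : ∀ F : Finset Mom, ∑ n ∈ F, 1 / (q * sq n + Δ) ^ 2 ≤ T)
    (hTP : ∀ F : Finset Mom, (∀ n ∈ F, P < q * sq n) →
      ∑ n ∈ F, 1 / (q * sq n + Δ) ^ 2 ≤ TP) :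
    (∀ F : Finset Mom, F ⊆ B0 →
      (N : ℝ) ^ 2 * ∑ n ∈ F, c n ^ 2 ≤ s ^ 2 * ∑ n ∈ F, 1 / (q * sq n + Δ) ^ 2) ∧
    (|N / 2 * QW W w B0 c - e| ≤ γ → ∀ F : Finset Mom, F ⊆ B0 →
      |(N : ℝ) ^ 2 * ∑ n ∈ F, c n ^ 2 - ∑ n ∈ F, (e / (q * sq n + Δ)) ^ 2| ≤
        (s ^ 2 * (4 * θ + τ) + 2 * s * γ) * T + s ^ 2 * TP) := by
  have hN0 : (0 : ℝ) ≤ N := Nat.cast_nonneg N
  set a : Mom → ℝ := fun n => q * sq n + Δ with ha
  have hκ : ∀ n, 0 ≤ q * sq n := fun n => mul_nonneg hq.le (sq_nonneg' n)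
  have ha0 : ∀ n, 0 < a n := fun n => by simp only [ha]; have := hκ n; linarith
  have hwpos : ∀ n ∈ B0, 0 < w n := fun n hn => by
    have := sc_pos (ha0 n) hθ (hwa n hn)
    have := ha0 n
    linarith
  have hgI : ∀ n, |gh W B0 c n| ≤ I := fun n =>
    (ghW_le hW hwpos hc n).trans hI
  have hx : ∀ n, |N / 2 * gh W B0 c n| ≤ s / 2 := by
    intro n
    rw [abs_mul, abs_of_nonneg (by positivity : (0 : ℝ) ≤ N / 2), hs]
    have := mul_le_mul_of_nonneg_left (hgI n) hN0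
    linarith
  have hc2 : ∀ n ∈ B0, (N : ℝ) ^ 2 * c n ^ 2 = (N / 2 * gh W B0 c n / w n) ^ 2 := by
    intro n hn
    have h1 := hc.eq n hn
    have h2 := (hwpos n hn).ne'
    rw [h1]
    field_simp
  refine ⟨fun F hF => ?_, fun hγ F hF => ?_⟩
  · rw [Finset.mul_sum]
    calc ∑ n ∈ F, (N : ℝ) ^ 2 * c n ^ 2 ≤ ∑ n ∈ F, s ^ 2 * (1 / (q * sq n + Δ) ^ 2) := by
          refine Finset.sum_le_sum fun n hn => ?_
          rw [hc2 n (hF hn)]
          exact sc_sq (ha0 n) hs0.le hθ (hwa n (hF hn)) (hx n)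
      _ = s ^ 2 * ∑ n ∈ F, 1 / (q * sq n + Δ) ^ 2 := by rw [Finset.mul_sum]
  · have hγ0 : 0 ≤ γ := (abs_nonneg _).trans hγ
    have hQ : gh W B0 c 0 = QW W w B0 c := scatW_Q hW hc
    rw [← hQ] at hγ
    set D : ℝ := s ^ 2 * (4 * θ + τ) + 2 * s * γ with hD
    have hD0 : 0 ≤ D := by positivity
    have key : ∀ n ∈ F, |(N : ℝ) ^ 2 * c n ^ 2 - (e / (q * sq n + Δ)) ^ 2| ≤
        D * (1 / (q * sq n + Δ) ^ 2) +
          s ^ 2 * (if P < q * sq n then 1 / (q * sq n + Δ) ^ 2 else 0) := by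
      intro n hn
      rw [hc2 n (hF hn)]
      have hwn := hwa n (hF hn)
      by_cases hP : P < q * sq n
      · rw [if_pos hP]
        have h1 := sc_sq (ha0 n) hs0.le hθ hwn (hx n)
        have h2 : (e / a n) ^ 2 ≤ s ^ 2 * (1 / a n ^ 2) := by
          rw [div_pow, mul_one_div]
          exact div_le_div_of_nonneg_right (pow_le_pow_left₀ he0 hes 2) (by positivity)
        have h3 : 0 ≤ D * (1 / a n ^ 2) := mul_nonneg hD0 (by positivity)
        have h4 : 0 ≤ (N / 2 * gh W B0 c n / w n) ^ 2 := sq_nonneg _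
        have h5 : 0 ≤ (e / a n) ^ 2 := sq_nonneg _
        rw [abs_le]
        constructor
        · change -(D * (1 / a n ^ 2) + s ^ 2 * (1 / a n ^ 2)) ≤ _ - (e / a n) ^ 2
          linarith
        · change _ - (e / a n) ^ 2 ≤ D * (1 / a n ^ 2) + s ^ 2 * (1 / a n ^ 2)
          linarith
      · rw [if_neg hP, mul_zero, add_zero]
        push Not at hP
        have h1 := ghW_near hW hwpos hc n
        have hWnn : 0 ≤ ∫ y, W y := integral_nonneg hW.nonneg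
        have h2 : (gh W B0 c 0 - gh W B0 c n) ^ 2 ≤ (τ * I) ^ 2 := by
          refine h1.trans ?_
          calc (∫ y, W y) * (2 * ∫ y, W y * (1 - cs n y)) ≤ I * (τ ^ 2 * I) := by
                apply mul_le_mul hI (hnear n hP) _ hI0
                have : 0 ≤ ∫ y, W y * (1 - cs n y) :=
                  integral_nonneg fun y => mul_nonneg (hW.nonneg y) (by linarith [cs_le_one n y])
                linarith
            _ = (τ * I) ^ 2 := by ring
        have h3 : |gh W B0 c 0 - gh W B0 c n| ≤ τ * I :=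
          abs_le_of_sq_le_sq h2 (by positivity)
        have h4 : |N / 2 * gh W B0 c n - e| ≤ τ * s / 2 + γ := by
          have e1 : N / 2 * gh W B0 c n - e = (N / 2 * gh W B0 c 0 - e) -
              N / 2 * (gh W B0 c 0 - gh W B0 c n) := by ring
          rw [e1]
          calc |(N / 2 * gh W B0 c 0 - e) - N / 2 * (gh W B0 c 0 - gh W B0 c n)| ≤
              |N / 2 * gh W B0 c 0 - e| + |N / 2 * (gh W B0 c 0 - gh W B0 c n)| := abs_sub _ _
            _ ≤ γ + N / 2 * (τ * I) := by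
                rw [abs_mul, abs_of_nonneg (by positivity : (0 : ℝ) ≤ N / 2)]
                exact add_le_add hγ (mul_le_mul_of_nonneg_left h3 (by positivity))
            _ = τ * s / 2 + γ := by rw [hs]; ring
        have h5 := sc_diff (ha0 n) hs0.le hθ0 hθ hwn (hx n) he0 hes h4
        refine h5.trans (le_of_eq ?_)
        rw [hD]
        simp only [ha]
        ring
    have e1 : (N : ℝ) ^ 2 * ∑ n ∈ F, c n ^ 2 - ∑ n ∈ F, (e / (q * sq n + Δ)) ^ 2 =
        ∑ n ∈ F, ((N : ℝ) ^ 2 * c n ^ 2 - (e / (q * sq n + Δ)) ^ 2) := by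
      rw [Finset.mul_sum, ← Finset.sum_sub_distrib]
    rw [e1]
    refine (Finset.abs_sum_le_sum_abs _ _).trans ((Finset.sum_le_sum key).trans ?_)
    rw [Finset.sum_add_distrib, ← Finset.mul_sum, ← Finset.mul_sum, ← Finset.sum_filter]
    refine add_le_add (mul_le_mul_of_nonneg_left (hT F) hD0)
      (mul_le_mul_of_nonneg_left (hTP _ fun n hn => (Finset.mem_filter.1 hn).2) (sq_nonneg _))

end

end Pool.Agent.H751R2.LHY.G80
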