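import Pool.Agent.J6H80.BG.Cor3

/-!
# The core estimates on one torus
-/

set_option autoImplicit false

open MeasureTheory UnitAddTorus
open scoped ComplexConjugate ENNReal

namespace Pool.Agent.H751R2.LHY.G80

noncomputable section

/-- the hypotheses on one torus -/
structure TorH (N : ℕ) (W : T3 → ℝ) (q I s Δ θ τ γ e P T TP Mc TM : ℝ) : Prop where
  hW : Pot W
  hWm : Measurable W
  hq : 0 < q
  hI : ∫ y, W y = I
  hI0 : 0 < I
  hs : s = N * I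
  hs0 : 0 < s
  hΔ : 0 < Δ
  hθ0 : 0 < θ
  hθ : θ ≤ 1 / 8
  hsθ : 2 * s ≤ θ * Δ
  hM : 1 ≤ θ * Mc
  hτ : 0 ≤ τ
  he0 : 0 ≤ e
  hes : e ≤ s
  hnear : ∀ n, q * sq n ≤ P → 2 * ∫ y, W y * (1 - cs n y) ≤ τ ^ 2 * I
  hT : ∀ F : Finset Mom, ∑ n ∈ F, 1 / (q * sq n + Δ) ^ 2 ≤ T
  hTP : ∀ F : Finset Mom, (∀ n ∈ F, P < q * sq n) → ∑ n ∈ F, 1 / (q * sq n + Δ) ^ 2 ≤ TP
  hTM : ∀ F : Finset Mom, (∀ n ∈ F, Mc * Δ < q * sq n) → ∑ n ∈ F, 1 / (q * sq n + Δ) ^ 2 ≤ TM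
  hGL : ∃ K1 : ℝ, ∀ K, K1 ≤ K → 0 ≤ K → ∀ B0 : Finset Mom, Sym B0 → ∀ c : Mom → ℝ,
    (∀ n, c (-n) = c n) → e - γ ≤ N / 2 * Qf (fun y => min (W y) K) q (Δ / 2) B0 c
  hGU : ∀ᶠ R : ℕ in Filter.atTop, ∃ c : Mom → ℝ,
    N / 2 * Qf W q (2 * Δ) ((boxM R).erase 0) c ≤ e + γ

/-- symmetric sets of nonzero momenta which contain all small ones -/
structure DH (D : Mom → Prop) (q Δ Mc : ℝ) : Prop where
  zero : ¬ D 0
  neg : ∀ n, D (-n) ↔ D n
  low : ∀ n, n ≠ 0 → q * sq n ≤ Mc * Δ → D n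

lemma boxM_tendsto : Filter.Tendsto boxM Filter.atTop Filter.atTop := by
  refine Filter.tendsto_atTop_finset_of_monotone ?_ ?_
  · intro R R' h n hn
    simp only [boxM, Fintype.mem_piFinset, Finset.mem_Icc] at hn ⊢
    intro a
    have := hn a
    have h' : (R : ℤ) ≤ R' := by exact_mod_cast h
    omega
  · intro n
    refine ⟨∑ a, (n a).natAbs, ?_⟩
    simp only [boxM, Fintype.mem_piFinset, Finset.mem_Icc]
    intro a
    have h1 : (n a).natAbs ≤ ∑ a, (n a).natAbs :=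
      Finset.single_le_sum (f := fun a => (n a).natAbs) (fun _ _ => Nat.zero_le _)
        (Finset.mem_univ a)
    have h2 : (((n a).natAbs : ℕ) : ℤ) ≤ ((∑ a, (n a).natAbs : ℕ) : ℤ) := by exact_mod_cast h1
    omega

lemma Qf_mono_pot {W WK : T3 → ℝ} (hW : Pot W) (hWK : Pot WK) (hle : ∀ y, WK y ≤ W y)
    (q μ : ℝ) (B0 : Finset Mom) (c : Mom → ℝ) : Qf WK q μ B0 c ≤ Qf W q μ B0 c := by
  unfold Qf
  gcongr
  · exact h464_int_mul hWK.int ((continuous_const.sub (h464_wf_cont B0 c)).pow 2)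
  · exact h464_int_mul hW.int ((continuous_const.sub (h464_wf_cont B0 c)).pow 2)
  · intro y
    exact mul_le_mul_of_nonneg_right (hle y) (sq_nonneg _)

lemma QW_mono_w (W : T3 → ℝ) {w w' : Mom → ℝ} (B0 : Finset Mom) (h : ∀ n ∈ B0, w n ≤ w' n)
    (c : Mom → ℝ) : QW W w B0 c ≤ QW W w' B0 c := by
  unfold QW
  refine add_le_add le_rfl (Finset.sum_le_sum fun n hn => ?_)
  exact mul_le_mul_of_nonneg_right (by linarith [h n hn]) (sq_nonneg _)

/-- the weights -/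
def wt (q s Δ t : ℝ) (D S : Mom → Prop) [DecidablePred D] [DecidablePred S] (n : Mom) : ℝ :=
  q * sq n + (if D n then Δ else 0) + (if S n then t else 0) - 2 * s

/-- the two-body functional for the two sets of weights -/
lemma QW_Qf_diff (W : T3 → ℝ) (q s Δ t : ℝ) (D S : Mom → Prop) [DecidablePred D]
    [DecidablePred S] (B0 : Finset Mom) (c : Mom → ℝ) :
    Qf W q (Δ + 3 * s) B0 c = QW W (wt q s Δ t D S) B0 c + 10 * s * ∑ n ∈ B0, c n ^ 2 -
      2 * t * ∑ n ∈ B0.filter S, c n ^ 2 + 2 * Δ * ∑ n ∈ B0.filter (fun n => ¬ D n), c n ^ 2 := by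
  unfold Qf QW wt
  rw [Finset.sum_filter, Finset.sum_filter, Finset.mul_sum, Finset.mul_sum, Finset.mul_sum,
    add_assoc, add_sub_assoc, add_assoc,
    ← Finset.sum_add_distrib, ← Finset.sum_sub_distrib, ← Finset.sum_add_distrib]
  congr 1
  refine Finset.sum_congr rfl fun n _ => ?_
  by_cases h1 : S n <;> by_cases h2 : D n <;> simp [h1, h2] <;> ring

lemma wt_neg (q s Δ t : ℝ) {D S : Mom → Prop} [DecidablePred D] [DecidablePred S]
    (hDn : ∀ n, D (-n) ↔ D n) (hSn : ∀ n, S (-n) ↔ S n) (n : Mom) :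
    wt q s Δ t D S (-n) = wt q s Δ t D S n := by
  unfold wt
  rw [sq_neg]
  simp only [hSn, hDn]

section

variable {N : ℕ} {W : T3 → ℝ} {q I s Δ θ τ γ e P T TP Mc TM : ℝ}

lemma TorH.T_nonneg (h : TorH N W q I s Δ θ τ γ e P T TP Mc TM) : 0 ≤ T := by
  have := h.hT ∅
  simpa using this

lemma TorH.TM_nonneg (h : TorH N W q I s Δ θ τ γ e P T TP Mc TM) : 0 ≤ TM := by
  have := h.hTM ∅ (by simp)
  simpa using this

lemma TorH.N_pos (h : TorH N W q I s Δ θ τ γ e P T TP Mc TM) : (0 : ℝ) < N := by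
  have hNI : 0 < N * I := h.hs ▸ h.hs0
  by_contra h'
  have h1 : (N : ℝ) = 0 := le_antisymm (not_lt.1 h') (Nat.cast_nonneg N)
  rw [h1, zero_mul] at hNI
  exact lt_irrefl _ hNI

lemma TorH.summable (h : TorH N W q I s Δ θ τ γ e P T TP Mc TM) (S : Mom → Prop)
    [DecidablePred S] :
    Summable (fun n : Mom => if S n then (e / (q * sq n + Δ)) ^ 2 else 0) := by
  have h1 : Summable (fun n : Mom => 1 / (q * sq n + Δ) ^ 2) :=
    summable_of_sum_le (fun n => by positivity) h.hT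
  refine Summable.of_nonneg_of_le (fun n => ?_) (fun n => ?_) (h1.mul_left (e ^ 2))
  · split_ifs
    · exact sq_nonneg _
    · exact le_rfl
  · split_ifs
    · rw [div_pow]
      exact le_of_eq (by ring)
    · positivity

/-- the weights are admissible -/
lemma TorH.w_bd (h : TorH N W q I s Δ θ τ γ e P T TP Mc TM) {t : ℝ} (ht : |t| ≤ θ * Δ)
    {D S : Mom → Prop} [DecidablePred D] [DecidablePred S] (hD : DH D q Δ Mc)
    {n : Mom} (hn : n ≠ 0) :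
    |wt q s Δ t D S n - (q * sq n + Δ)| ≤ 2 * θ * (q * sq n + Δ) ∧ Δ / 2 ≤ wt q s Δ t D S n ∧
    wt q s Δ t D S n ≤ q * sq n + 2 * Δ ∧
    q * sq n + Δ / 2 ≤ wt q s Δ t D S n + (if D n then 0 else Δ) := by
  have hs0 := h.hs0
  have hΔ := h.hΔ
  have hθ := h.hθ
  have hθ0 := h.hθ0
  have hsθ := h.hsθ
  have hM := h.hM
  have hθΔ : θ * Δ ≤ Δ / 8 := by nlinarith
  have hκ : 0 ≤ q * sq n := mul_nonneg h.hq.le (sq_nonneg' n)
  have hif : |(if S n then t else 0)| ≤ θ * Δ := by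
    split_ifs
    · exact ht
    · rw [abs_zero]; positivity
  obtain ⟨x, hx⟩ : ∃ x, x = (if S n then t else 0) := ⟨_, rfl⟩
  have hx1 : -(θ * Δ) ≤ x := by rw [hx]; exact (abs_le.1 hif).1
  have hx2 : x ≤ θ * Δ := by rw [hx]; exact (abs_le.1 hif).2
  have hθκ : 0 ≤ θ * (q * sq n) := by positivity
  unfold wt
  rw [← hx]
  by_cases hDn : D n
  · rw [if_pos hDn, if_pos hDn]
    refine ⟨?_, by linarith, by linarith, by linarith⟩
    rw [abs_le]
    constructor <;> linarith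
  · rw [if_neg hDn, if_neg hDn]
    have hbig : Mc * Δ < q * sq n := by
      by_contra h'
      exact hDn (hD.low n hn (not_lt.1 h'))
    have h1 : Δ ≤ θ * (q * sq n) := by
      have k1 := mul_le_mul_of_nonneg_left hbig.le hθ0.le
      have k2 := mul_le_mul_of_nonneg_right hM hΔ.le
      linarith
    have h2 : 8 * Δ ≤ q * sq n := by
      have : θ * (q * sq n) ≤ 1 / 8 * (q * sq n) := mul_le_mul_of_nonneg_right hθ hκ
      linarith
    refine ⟨?_, by linarith, by linarith, by linarith⟩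
    rw [abs_le]
    constructor <;> linarith

lemma mem_erase_ne {R : ℕ} {n : Mom} (hn : n ∈ (boxM R).erase 0) : n ≠ 0 :=
  (Finset.mem_erase.1 hn).1

/-- the estimates for the solution of the scattering equation -/
lemma TorH.cmp (h : TorH N W q I s Δ θ τ γ e P T TP Mc TM) {t : ℝ} (ht : |t| ≤ θ * Δ)
    {D S : Mom → Prop} [DecidablePred D] [DecidablePred S] (hD : DH D q Δ Mc)
    {K : ℝ} (hK : 0 ≤ K) (γ' : ℝ) {R : ℕ} {c : Mom → ℝ}
    (hc : ScatW (fun y => min (W y) K) (wt q s Δ t D S) ((boxM R).erase 0) c) :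
    ((N : ℝ) ^ 2 * ∑ n ∈ (boxM R).erase 0, c n ^ 2 ≤ s ^ 2 * T) ∧
    ((N : ℝ) ^ 2 * ∑ n ∈ ((boxM R).erase 0).filter (fun n => ¬ D n), c n ^ 2 ≤ s ^ 2 * TM) ∧
    (|N / 2 * QW (fun y => min (W y) K) (wt q s Δ t D S) ((boxM R).erase 0) c - e| ≤ γ' →
      |(N : ℝ) ^ 2 * ∑ n ∈ ((boxM R).erase 0).filter S, c n ^ 2 -
        ∑ n ∈ ((boxM R).erase 0).filter S, (e / (q * sq n + Δ)) ^ 2| ≤
        (s ^ 2 * (4 * θ + τ) + 2 * s * γ') * T + s ^ 2 * TP) := by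
  have hWKp : Pot (fun y => min (W y) K) := pot_min h.hW hK
  have hWKI : ∫ y, min (W y) K ≤ I := by
    rw [← h.hI]
    exact integral_mono hWKp.int h.hW.int (fun y => min_le_left _ _)
  obtain ⟨h1, h2⟩ := occ_cmp hWKp h.hq hWKI h.hI0.le h.hs h.hs0 h.hΔ h.hθ0.le h.hθ h.hτ h.he0
    h.hes (fun n hn => (h.w_bd ht hD (mem_erase_ne hn)).1) hc
    (P := P) (γ := γ') (fun n hn => (mul_le_mul_of_nonneg_left
      (int_sub_cs_mono h.hW hWKp (fun y => min_le_left _ _) n) (by norm_num)).trans (h.hnear n hn))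
    h.hT h.hTP
  refine ⟨(h1 _ (Finset.Subset.refl _)).trans (mul_le_mul_of_nonneg_left (h.hT _) (sq_nonneg _)),
    (h1 _ (Finset.filter_subset _ _)).trans (mul_le_mul_of_nonneg_left (h.hTM _ ?_)
      (sq_nonneg _)), fun hγ => h2 hγ _ (Finset.filter_subset _ _)⟩
  intro n hn
  have hn1 := mem_erase_ne (Finset.mem_filter.1 hn).1
  by_contra h'
  exact (Finset.mem_filter.1 hn).2 (hD.low n hn1 (not_lt.1 h'))

/-- the minimal value is close to `2 e / N` -/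
lemma TorH.gq (h : TorH N W q I s Δ θ τ γ e P T TP Mc TM) {t : ℝ} (ht : |t| ≤ θ * Δ)
    {D S : Mom → Prop} [DecidablePred D] [DecidablePred S] (hD : DH D q Δ Mc)
    {K : ℝ} (hK : 0 ≤ K) {R : ℕ}
    (hL : ∀ B0 : Finset Mom, Sym B0 → ∀ c : Mom → ℝ,
      (∀ n, c (-n) = c n) → e - γ ≤ N / 2 * Qf (fun y => min (W y) K) q (Δ / 2) B0 c)
    (hU : ∃ c : Mom → ℝ, N / 2 * Qf W q (2 * Δ) ((boxM R).erase 0) c ≤ e + γ)
    {c : Mom → ℝ}
    (hc : ScatW (fun y => min (W y) K) (wt q s Δ t D S) ((boxM R).erase 0) c) :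
    |N / 2 * QW (fun y => min (W y) K) (wt q s Δ t D S) ((boxM R).erase 0) c - e| ≤
      γ + Δ * (s ^ 2 * TM) / N := by
  have hWKp : Pot (fun y => min (W y) K) := pot_min h.hW hK
  have hN0 := h.N_pos
  have hΔ := h.hΔ
  have hTM := h.TM_nonneg
  obtain ⟨-, hω, -⟩ := h.cmp ht hD hK 0 hc
  set ωD : ℝ := ∑ n ∈ ((boxM R).erase 0).filter (fun n => ¬ D n), c n ^ 2 with hωD
  set Q : ℝ := QW (fun y => min (W y) K) (wt q s Δ t D S) ((boxM R).erase 0) c with hQ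
  have hwpos : ∀ n ∈ (boxM R).erase 0, 0 < wt q s Δ t D S n := fun n hn => by
    have := (h.w_bd (S := S) ht hD (mem_erase_ne hn)).2.1
    linarith
  rw [abs_le]
  constructor
  · have h1 := hL _ (boxM_sym R) c hc.even
    have h2 : Qf (fun y => min (W y) K) q (Δ / 2) ((boxM R).erase 0) c ≤ Q + 2 * Δ * ωD := by
      rw [hQ, hωD]
      unfold Qf QW
      rw [Finset.sum_filter, Finset.mul_sum, add_assoc, ← Finset.sum_add_distrib]
      refine add_le_add le_rfl (Finset.sum_le_sum fun n hn => ?_)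
      have h3 := (h.w_bd (S := S) ht hD (mem_erase_ne hn)).2.2.2
      have h4 := mul_le_mul_of_nonneg_right h3 (sq_nonneg (c n))
      by_cases h5 : D n
      · simp only [h5, if_true, not_true_eq_false, if_false] at h4 ⊢
        linarith
      · simp only [h5, if_true, not_false_eq_true, if_false] at h4 ⊢
        linarith
    have h3 := mul_le_mul_of_nonneg_left h2 (by positivity : (0 : ℝ) ≤ N / 2)
    have h4 : N / 2 * (Q + 2 * Δ * ωD) = N / 2 * Q + Δ * ((N : ℝ) ^ 2 * ωD) / N := by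
      field_simp
    have h5 : Δ * ((N : ℝ) ^ 2 * ωD) / N ≤ Δ * (s ^ 2 * TM) / N := by
      gcongr
    linarith
  · obtain ⟨c', hc'⟩ := hU
    have h1 : Q ≤ Qf W q (2 * Δ) ((boxM R).erase 0) c' := by
      calc Q ≤ QW (fun y => min (W y) K) (wt q s Δ t D S) ((boxM R).erase 0) c' :=
            scatW_min hWKp hwpos hc c'
        _ ≤ QW (fun y => min (W y) K) (fun n => q * sq n + 2 * Δ) ((boxM R).erase 0) c' :=
            QW_mono_w _ _ (fun n hn => (h.w_bd ht hD (mem_erase_ne hn)).2.2.1) _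
        _ = Qf (fun y => min (W y) K) q (2 * Δ) ((boxM R).erase 0) c' :=
            QW_eq_Qf _ _ _ _ _
        _ ≤ Qf W q (2 * Δ) ((boxM R).erase 0) c' :=
            Qf_mono_pot h.hW hWKp (fun y => min_le_left _ _) _ _ _ _
    have h2 := mul_le_mul_of_nonneg_left h1 (by positivity : (0 : ℝ) ≤ N / 2)
    have h3 : 0 ≤ Δ * (s ^ 2 * TM) / N := by positivity
    linarith

/-- the lower bound of the energy in the finite box, prepared for the limit -/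
lemma TorH.low (h : TorH N W q I s Δ θ τ γ e P T TP Mc TM) {t : ℝ} (ht : |t| ≤ θ * Δ)
    {D S : Mom → Prop} [DecidablePred D] [DecidablePred S] (hD : DH D q Δ Mc)
    (hSn : ∀ n, S (-n) ↔ S n) {K : ℝ} (hK : 0 ≤ K) {R : ℕ}
    {c : Mom → ℝ}
    (hc : ScatW (fun y => min (W y) K) (wt q s Δ t D S) ((boxM R).erase 0) c)
    (a : (Fin N → Mom) → ℂ) :
    nrm (boxM R) a * ((N : ℝ) ^ 2 / 2 *
      QW (fun y => min (W y) K) (wt q s Δ t D S) ((boxM R).erase 0) c - s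
      - s * (s ^ 2 * T))
      ≤ kinF (boxM R) a q + potF (boxM R) a (fun y => min (W y) K)
        + ∑ n ∈ (boxM R).erase 0, ((if D n then Δ else 0) + if S n then t else 0) *
          occ (boxM R) a n := by
  have hWKp : Pot (fun y => min (W y) K) := pot_min h.hW hK
  have hWKI : ∫ y, min (W y) K ≤ I := by
    rw [← h.hI]
    exact integral_mono hWKp.int h.hW.int (fun y => min_le_left _ _)
  have hs0 := h.hs0
  have hΔ := h.hΔ
  have hθ := h.hθ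
  have hθ0 := h.hθ0
  have hsθ := h.hsθ
  have hθΔ : θ * Δ ≤ Δ / 8 := by nlinarith
  have hNI : N * ∫ y, min (W y) K ≤ s := by
    rw [h.hs]
    exact mul_le_mul_of_nonneg_left hWKI (Nat.cast_nonneg N)
  have h1 := lowerW2 hWKp (q := q) hNI (μ := Δ / 2) (by linarith) (by linarith) (boxM_sym R)
    (w := wt q s Δ t D S) (fun n hn => (h.w_bd ht hD (mem_erase_ne hn)).2.1)
    (wt_neg q s Δ t hD.neg hSn) hc
    (fun n => (if D n then Δ else 0) + if S n then t else 0) (fun n _ => by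
      unfold wt; linarith) a
  rw [insert_box R] at h1
  refine le_trans (mul_le_mul_of_nonneg_left ?_ (Finset.sum_nonneg (fun _ _ => sq_nonneg _))) h1
  have h2 := (h.cmp ht hD hK 0 hc).1
  have h3 : s ^ 2 / (Δ / 2) ≤ s := by
    rw [div_le_iff₀ (by linarith)]
    nlinarith
  have h4 : s ^ 2 / (Δ / 2) * ((N : ℝ) ^ 2 * ∑ n ∈ (boxM R).erase 0, c n ^ 2) ≤
      s * (s ^ 2 * T) := by
    apply mul_le_mul h3 h2 _ hs0.le
    exact mul_nonneg (sq_nonneg _) (Finset.sum_nonneg fun _ _ => sq_nonneg _)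
  linarith

/-- the core estimate for the occupation of a symmetric set `S` of momenta (one direction) -/
theorem TorH.coreS (h : TorH N W q I s Δ θ τ γ e P T TP Mc TM) {η : ℝ} (hη : 0 ≤ η)
    {D : Mom → Prop} [DecidablePred D] (hD : DH D q Δ Mc)
    (S : Mom → Prop) [DecidablePred S] (hS0 : ¬ S 0) (hSn : ∀ n, S (-n) ↔ S n)
    {ψ : Cfg N → ℂ} (hψ : MemLp ψ 2) (hψ1 : ∫ x, ‖ψ x‖ ^ 2 = 1)
    (hmin : ∀ φ : Cfg N → ℂ, MemLp φ 2 → ∫ x, ‖φ x‖ ^ 2 = 1 →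
      enG q (fun y => ENNReal.ofReal (W y)) Δ D ψ ≤
        enG q (fun y => ENNReal.ofReal (W y)) Δ D φ + ENNReal.ofReal η)
    {σ : ℝ} (hσ : σ = 1 ∨ σ = -1) :
    θ * Δ * (σ * (∑' n : Mom, if S n then (e / (q * sq n + Δ)) ^ 2 else 0) -
      ((s ^ 2 * (4 * θ + τ) + 2 * s * (γ + Δ * (s ^ 2 * TM) / N)) * T + s ^ 2 * TP)) -
      6 * s * (s ^ 2 * T) - Δ * (s ^ 2 * TM) - s - η ≤
      θ * Δ * (σ * (occE ψ S).toReal) := by
  have hs0 := h.hs0
  have hΔ := h.hΔ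
  have hθ := h.hθ
  have hθ0 := h.hθ0
  have hsθ := h.hsθ
  have hθΔ : θ * Δ ≤ Δ / 8 := by nlinarith
  have hθΔ0 : 0 < θ * Δ := mul_pos hθ0 hΔ
  obtain ⟨hEtop, -, hup⟩ := upG hD.zero hD.neg h.hW h.hWm h.hq hΔ.le h.hI h.hI0 h.hs hs0 hη hmin
  set E : ℝ := (enG q (fun y => ENNReal.ofReal (W y)) Δ D ψ).toReal with hE
  set Z : ℝ := ∑' n : Mom, if S n then (e / (q * sq n + Δ)) ^ 2 else 0 with hZ
  set γ' : ℝ := γ + Δ * (s ^ 2 * TM) / N with hγ'
  set Y : ℝ := (s ^ 2 * (4 * θ + τ) + 2 * s * γ') * T + s ^ 2 * TP with hY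
  set O : ℝ := (occE ψ S).toReal with hO
  set t : ℝ := θ * Δ * σ with ht
  have hσa : |σ| = 1 := by rcases hσ with h' | h' <;> simp [h']
  have htabs : |t| ≤ θ * Δ := by
    rw [ht, abs_mul, hσa, abs_of_pos hθΔ0, mul_one]
  -- it suffices to prove it up to small errors
  suffices hmain : ∀ ε : ℝ, 0 < ε →
      θ * Δ * (σ * Z - Y - ε) - 6 * s * (s ^ 2 * T) - Δ * (s ^ 2 * TM) - s - η - 2 * ε ≤
        θ * Δ * (σ * O) by
    refine le_of_forall_pos_le_add fun ε' hε' => ?_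
    have h1 := hmain (ε' / (θ * Δ + 2)) (by positivity)
    have h2 : (θ * Δ + 2) * (ε' / (θ * Δ + 2)) = ε' := by field_simp
    nlinarith
  intro ε hε
  obtain ⟨K1, hK1⟩ := h.hGL
  obtain ⟨K0, hK0⟩ := hup ε hε
  set K := max (max K0 K1) 0 with hK
  have hKK0 : K0 ≤ K := (le_max_left _ _).trans (le_max_left _ _)
  have hKK1 : K1 ≤ K := (le_max_right _ _).trans (le_max_left _ _)
  have hKn : 0 ≤ K := le_max_right _ _
  have hWKp : Pot (fun y => min (W y) K) := pot_min h.hW hKn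
  set X : ℝ := E - η - ε - s - 6 * s * (s ^ 2 * T) - Δ * (s ^ 2 * TM) +
    θ * Δ * (σ * Z - Y - ε) with hX
  -- the truncated sum
  have hsum := (h.summable S).hasSum
  rw [← hZ] at hsum
  have htail := (Metric.tendsto_nhds.1 (hsum.comp boxM_tendsto)) ε hε
  have hlim := limG h.hW h.hWm h.hq hΔ.le (t := t) D hD.zero S hS0 hψ hψ1 hEtop hKn |X| hε
  obtain ⟨R, hR1, hR2, hR3⟩ := (htail.and (hlim.and h.hGU)).exists
  have hwpos : ∀ n ∈ (boxM R).erase 0, 0 < wt q s Δ t D S n := fun n hn => by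
    have := (h.w_bd (S := S) htabs hD (mem_erase_ne hn)).2.1
    linarith
  obtain ⟨c, hc⟩ := exists_scatW hWKp (boxM_sym R) (w := wt q s Δ t D S) hwpos
    (wt_neg q s Δ t hD.neg hSn)
  have hlow := h.low htabs hD hSn hKn hc (coef ψ)
  have hgq := h.gq htabs hD hKn (hK1 K hKK1 hKn) hR3 hc
  obtain ⟨hω, hωD, hcmp⟩ := h.cmp htabs hD hKn γ' hc
  have hωS := hcmp hgq
  have hupR := hK0 K hKK0 hKn _ (boxM_sym R) c
  rw [QW_Qf_diff _ q s Δ t D S] at hupR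
  -- the truncated sum, rewritten
  have hsumR : ∑ n ∈ boxM R, (if S n then (e / (q * sq n + Δ)) ^ 2 else 0) =
      ∑ n ∈ ((boxM R).erase 0).filter S, (e / (q * sq n + Δ)) ^ 2 := by
    rw [Finset.sum_filter]
    refine (Finset.sum_erase _ ?_).symm
    rw [if_neg hS0]
  rw [Function.comp_apply, hsumR, Real.dist_eq] at hR1
  set A : ℝ := ∑ n ∈ ((boxM R).erase 0).filter S, (e / (q * sq n + Δ)) ^ 2 with hA
  set ωS : ℝ := ∑ n ∈ ((boxM R).erase 0).filter S, c n ^ 2 with hωSd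
  set ωD : ℝ := ∑ n ∈ ((boxM R).erase 0).filter (fun n => ¬ D n), c n ^ 2 with hωDd
  set ω : ℝ := ∑ n ∈ (boxM R).erase 0, c n ^ 2 with hωd
  set Q : ℝ := QW (fun y => min (W y) K) (wt q s Δ t D S) ((boxM R).erase 0) c with hQ
  have hJ : θ * Δ * (σ * Z - Y - ε) ≤ t * ((N : ℝ) ^ 2 * ωS) := by
    have h1 := abs_le.1 hωS
    have h2 := abs_lt.1 hR1
    have h3 : σ * Z - Y - ε ≤ σ * ((N : ℝ) ^ 2 * ωS) := by
      rcases hσ with h' | h'
      · rw [h']; linarith [h1.1, h2.1]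
      · rw [h']; linarith [h1.2, h2.2]
    have h4 := mul_le_mul_of_nonneg_left h3 hθΔ0.le
    rw [ht]
    linarith
  have hXle : X ≤ (N : ℝ) ^ 2 / 2 * Q - s - s * (s ^ 2 * T) := by
    rw [hX]
    have h5 : 5 * s * ((N : ℝ) ^ 2 * ω) ≤ 5 * s * (s ^ 2 * T) :=
      mul_le_mul_of_nonneg_left hω (by linarith)
    have h6 : Δ * ((N : ℝ) ^ 2 * ωD) ≤ Δ * (s ^ 2 * TM) :=
      mul_le_mul_of_nonneg_left hωD hΔ.le
    have e1 : (N : ℝ) ^ 2 / 2 * (Q + 10 * s * ω - 2 * t * ωS + 2 * Δ * ωD) =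
      (N : ℝ) ^ 2 / 2 * Q + 5 * s * ((N : ℝ) ^ 2 * ω) - t * ((N : ℝ) ^ 2 * ωS) +
        Δ * ((N : ℝ) ^ 2 * ωD) := by ring
    rw [e1] at hupR
    linarith
  have hnn : 0 ≤ nrm (boxM R) (coef ψ) := Finset.sum_nonneg (fun _ _ => sq_nonneg _)
  have hfin := hR2 X le_rfl ((mul_le_mul_of_nonneg_left hXle hnn).trans hlow)
  rw [← hE, ← hO] at hfin
  rw [hX] at hfin
  have e2 : t * O = θ * Δ * (σ * O) := by rw [ht]; ring
  linarith

/-- the energy -/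
theorem TorH.coreE (h : TorH N W q I s Δ θ τ γ e P T TP Mc TM) {η : ℝ} (hη : 0 ≤ η)
    {D : Mom → Prop} [DecidablePred D] (hD : DH D q Δ Mc)
    {ψ : Cfg N → ℂ} (hψ : MemLp ψ 2) (hψ1 : ∫ x, ‖ψ x‖ ^ 2 = 1)
    (hmin : ∀ φ : Cfg N → ℂ, MemLp φ 2 → ∫ x, ‖φ x‖ ^ 2 = 1 →
      enG q (fun y => ENNReal.ofReal (W y)) Δ D ψ ≤
        enG q (fun y => ENNReal.ofReal (W y)) Δ D φ + ENNReal.ofReal η) :
    enG q (fun y => ENNReal.ofReal (W y)) Δ D ψ ≠ ⊤ ∧
    |(enG q (fun y => ENNReal.ofReal (W y)) Δ D ψ).toReal - e * N| ≤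
      γ * N + 2 * (Δ * (s ^ 2 * TM)) + 5 * s * (s ^ 2 * T) + s + η := by
  have hs0 := h.hs0
  have hΔ := h.hΔ
  have hθ0 := h.hθ0
  have hθΔ0 : 0 < θ * Δ := mul_pos hθ0 hΔ
  obtain ⟨hEtop, -, hup⟩ := upG hD.zero hD.neg h.hW h.hWm h.hq hΔ.le h.hI h.hI0 h.hs hs0 hη hmin
  refine ⟨hEtop, ?_⟩
  set E : ℝ := (enG q (fun y => ENNReal.ofReal (W y)) Δ D ψ).toReal with hE
  have hT0 := h.T_nonneg
  have hTM0 := h.TM_nonneg
  have hN0 := h.N_pos
  refine le_of_forall_pos_le_add fun ε hε => ?_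
  obtain ⟨K1, hK1⟩ := h.hGL
  obtain ⟨K0, hK0⟩ := hup ε hε
  set K := max (max K0 K1) 0 with hK
  have hKK0 : K0 ≤ K := (le_max_left _ _).trans (le_max_left _ _)
  have hKK1 : K1 ≤ K := (le_max_right _ _).trans (le_max_left _ _)
  have hKn : 0 ≤ K := le_max_right _ _
  have hWKp : Pot (fun y => min (W y) K) := pot_min h.hW hKn
  set γ' : ℝ := γ + Δ * (s ^ 2 * TM) / N with hγ'
  have hγN : N * γ' = γ * N + Δ * (s ^ 2 * TM) := by
    rw [hγ']; field_simp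
  set X : ℝ := N * (e - γ') - s - s * (s ^ 2 * T) with hX
  have htabs : |(0 : ℝ)| ≤ θ * Δ := by rw [abs_zero]; exact hθΔ0.le
  have hlim := limG h.hW h.hWm h.hq hΔ.le (t := 0) D hD.zero (fun _ => False)
    (fun h => h) hψ hψ1 hEtop hKn |X| hε
  obtain ⟨R, hR2, hR3⟩ := (hlim.and h.hGU).exists
  have hwpos : ∀ n ∈ (boxM R).erase 0, 0 < wt q s Δ 0 D (fun _ => False) n := fun n hn => by
    have := (h.w_bd (S := fun _ => False) htabs hD (mem_erase_ne hn)).2.1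
    linarith
  obtain ⟨c, hc⟩ := exists_scatW hWKp (boxM_sym R) (w := wt q s Δ 0 D (fun _ => False)) hwpos
    (wt_neg q s Δ 0 hD.neg (fun _ => Iff.rfl))
  have hlow := h.low htabs hD (fun _ => Iff.rfl) hKn hc (coef ψ)
  have hg := abs_le.1 (h.gq htabs hD hKn (hK1 K hKK1 hKn) hR3 hc)
  rw [← hγ'] at hg
  obtain ⟨hω, hωD, -⟩ := h.cmp htabs hD hKn γ' hc
  have hupR := hK0 K hKK0 hKn _ (boxM_sym R) c
  rw [QW_Qf_diff _ q s Δ 0 D (fun _ => False)] at hupR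
  set ω : ℝ := ∑ n ∈ (boxM R).erase 0, c n ^ 2 with hωd
  set ωD : ℝ := ∑ n ∈ ((boxM R).erase 0).filter (fun n => ¬ D n), c n ^ 2 with hωDd
  set Q : ℝ := QW (fun y => min (W y) K) (wt q s Δ 0 D (fun _ => False))
    ((boxM R).erase 0) c with hQ
  have hXle : X ≤ (N : ℝ) ^ 2 / 2 * Q - s - s * (s ^ 2 * T) := by
    rw [hX]
    have h5 := mul_le_mul_of_nonneg_left hg.1 hN0.le
    have e1 : (N : ℝ) * (N / 2 * Q - e) = (N : ℝ) ^ 2 / 2 * Q - N * e := by ring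
    rw [e1] at h5
    linarith
  have hnn : 0 ≤ nrm (boxM R) (coef ψ) := Finset.sum_nonneg (fun _ _ => sq_nonneg _)
  have hfin := hR2 X le_rfl ((mul_le_mul_of_nonneg_left hXle hnn).trans hlow)
  rw [← hE, zero_mul, add_zero] at hfin
  have h5 : 5 * s * ((N : ℝ) ^ 2 * ω) ≤ 5 * s * (s ^ 2 * T) :=
    mul_le_mul_of_nonneg_left hω (by linarith)
  have h6' : Δ * ((N : ℝ) ^ 2 * ωD) ≤ Δ * (s ^ 2 * TM) :=
    mul_le_mul_of_nonneg_left hωD hΔ.le
  have e1 : (N : ℝ) ^ 2 / 2 * (Q + 10 * s * ω -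
      2 * 0 * ∑ n ∈ ((boxM R).erase 0).filter (fun _ => False), c n ^ 2 + 2 * Δ * ωD) =
      (N : ℝ) ^ 2 / 2 * Q + 5 * s * ((N : ℝ) ^ 2 * ω) + Δ * ((N : ℝ) ^ 2 * ωD) := by ring
  rw [e1] at hupR
  have h6 := mul_le_mul_of_nonneg_left hg.2 hN0.le
  have e2 : (N : ℝ) * (N / 2 * Q - e) = (N : ℝ) ^ 2 / 2 * Q - N * e := by ring
  rw [e2] at h6
  have h7 : 0 ≤ s * (s ^ 2 * T) := by positivity
  have h8 : 0 ≤ Δ * (s ^ 2 * TM) := by positivity
  rw [abs_le]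
  constructor
  · rw [hX] at hfin
    linarith
  · linarith

end

end

end Pool.Agent.H751R2.LHY.G80
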