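import Pool.Agent.H751R2.LHY.Main

/-!
# Statements of three modules on the two-body problem and a lattice sum

Context: sharp depletion and momentum distribution of the dilute Bose gas with a gap
(MP_4952d6_mp). Library: `Pool.Agent.H751R2.LHY.*` (`Defs`, `Fin1`, `Fin2`, `Main`).
-/

set_option autoImplicit false

open MeasureTheory UnitAddTorus
open scoped ENNReal ContDiff

namespace Pool.Agent.J6H80.BG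

open Pool.Agent.H751R2.LHY

noncomputable section

/-- the energy `∫ ((1/m) |∇ f|² + v f²)` -/
def dirE (m : ℝ) (v f : (Fin 3 → ℝ) → ℝ) : ℝ :=
  ∫ x : Fin 3 → ℝ, (1 / m * ∑ a, (fderiv ℝ f x (Pi.single a 1)) ^ 2 + v x * f x ^ 2)

/-- smooth functions equal to one outside a bounded set -/
def IsTest (f : (Fin 3 → ℝ) → ℝ) : Prop :=
  ContDiff ℝ ∞ f ∧ ∃ r : ℝ, ∀ x, r < ‖x‖ → f x = 1

/-- the infimum of `∫ ((1/m) |∇ f|² + v f²)` over the test functions; equal to `4 π a / m` -/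
def scatG (m : ℝ) (v : (Fin 3 → ℝ) → ℝ) : ℝ := sInf {E | ∃ f, IsTest f ∧ E = dirE m v f}

/-- LAT. `q^{3/2} ∑_{n ∈ ℤ³} 1 / (q |n|² + Δ)² → π² / √Δ` as `q → 0`.

Proof: `1 / A² = ∫_0^∞ t e^{-tA} dt`, so (Tonelli, in `ℝ≥0∞`) the sum is
`∫_0^∞ t e^{-tΔ} θ(qt)³ dt` with `θ(x) = ∑_{k ∈ ℤ} e^{-x k²}`, and
`√(π/x) - 1 ≤ θ(x) ≤ √(π/x) + 1` (monotone comparison of `∑_{k ≥ 1}` and `∑_{k ≥ 0}` with
`∫_0^∞ e^{-x t²} dt = √(π/x) / 2`). As `t ↦ t³` is increasing,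
`q^{3/2}` times the sum lies between `∫ t e^{-tΔ} (√(π/t) - √q)³ dt` and the same with `+ √q`; both
converge to `π^{3/2} ∫ t^{-1/2} e^{-tΔ} dt = π² / √Δ` (expand the cube; Gamma integrals
`Real.integral_rpow_mul_exp_neg_mul_Ioi`). -/
def S_LAT : Prop :=
  ∀ Δ : ℝ, 0 < Δ → ∀ ε : ℝ, 0 < ε → ∃ q₀ : ℝ, 0 < q₀ ∧ ∀ q : ℝ, 0 < q → q < q₀ →
    Summable (fun n : Fin 3 → ℤ => 1 / (q * H751R2.LHY.sq n + Δ) ^ 2) ∧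
    |q * √q * ∑' n : Fin 3 → ℤ, 1 / (q * H751R2.LHY.sq n + Δ) ^ 2 - Real.pi ^ 2 / √Δ| ≤ ε

/-- SL, lower bound of the two-body functional on a large torus by the scattering energy.
`Wr v ℓ` is the periodisation of `v` in the variable `y = x / ℓ` (`Fin1`), `Qf` is in `Defs`.

Proof: write `G = scatG m v`, `u = wf B0 c` (trigonometric polynomial on the torus, real, even,
`∫ u² = ∑ c²`, `∫ |∇_y u|² = ∑ (2π)² |n|² c²` since `B0` is symmetric and `c` even),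
`ω = ∑ c²`, `Q = Qf ...`. Then `2 μ ω ≤ Q`. If `ℓ³ Q ≥ G` we are done. Otherwise take a smooth
`χ : ℝ³ → [0,1]`, `χ = 1` for `‖x‖ ≤ L`, `χ = 0` for `‖x‖ ≥ 2 L`, `|∇ χ| ≤ C / L` (a fixed bump
function of `x / L`), `ℓ > 4 L`, and the test function `f x = 1 - χ x * u (x / ℓ)`.
As `f² ≤ (1 - χ) + χ (1 - u)²` : `∫ v f² ≤ ∫_{‖x‖ > L} v + ∫ v (1 - u(x/ℓ))²`, and the last term is
`ℓ³ ∫ W (1 - u)²` (`Wr_integral`). Gradient: `|∇ (χ u)|² ≤ (1 + α) χ² |∇ u|² + (1 + 1/α) u² |∇ χ|²`,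
all supported in the box `‖x‖ ≤ ℓ / 2`, whose integrals are `ℓ³` times torus integrals
(`perPot_lint` with `v` the indicator of the box `[-ℓ/2, ℓ/2)³`, whose periodisation is `1`). So
`G ≤ dirE m v f ≤ (1 + α) ℓ³ Q + ∫_{‖x‖ > L} v + (1 + 1/α) (1/m) (C/L)² ℓ³ ω` with
`ℓ³ ω ≤ ℓ³ Q / (2 μ) ≤ G / (2 μ)`. Choose `α`, then `L`, then `ℓ₀`. -/
def S_SL : Prop :=
  ∀ m : ℝ, 0 < m → ∀ v : (Fin 3 → ℝ) → ℝ, Measurable v → Integrable v → (∀ x, 0 ≤ v x) →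
    (∀ x, v (-x) = v x) → ∀ μ : ℝ, 0 < μ → ∀ ε : ℝ, 0 < ε → ∃ ℓ₀ : ℝ, 0 < ℓ₀ ∧
      ∀ ℓ : ℝ, ℓ₀ ≤ ℓ → ∀ B0 : Finset Mom, Sym B0 → ∀ c : Mom → ℝ, (∀ n, c (-n) = c n) →
        scatG m v - ε ≤
          ℓ ^ 3 * Qf (Wr v ℓ) (1 / (2 * m) * (2 * Real.pi / ℓ) ^ 2) μ B0 c

/-- SU, upper bound.

Proof: take a test function `f` with `dirE m v f ≤ scatG m v + ε / 4`; replacing `f` by
`(f(x) + f(-x)) / 2` (convexity, `v` even) we may assume `f` even. `w = 1 - f` is smooth, even, with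
compact support in `‖x‖ ≤ r`. For `ℓ > 2 r + 1` let `c n = ℓ⁻³ ŵ(n/ℓ)`,
`ŵ(ξ) = ∫ w(x) cos(2π x·ξ) dx`. This is the Fourier coefficient `mFourierCoeff` of the
periodisation `U(y) = ∑_{k} w(ℓ (y + k))` on the torus; by smoothness `∑ |c n| < ∞` (for instance
`|n|⁴ |c n| ≤ C`, and `tail_sum` of the library), hence `U = ∑ c n mFourier n` uniformly
(`hasSum_mFourier_series_of_summable`) and `wf ((boxM R).erase 0) c → U - c 0` uniformly as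
`R → ∞`, `|c 0| ≤ ℓ⁻³ ∫ |w|`. `∫ W (1 - U)² = ℓ⁻³ ∫ v(x) (1 - U(x/ℓ))² dx` (`Wr_integral`), where
`U(x/ℓ) = w(x)` for `‖x‖ ≤ ℓ/2` and `U` is bounded, `∫_{‖x‖ > ℓ/2} v → 0`. By Bessel for `∂_a U`:
`∑ 2 κ_n c_n² ≤ ℓ⁻³ ∫ (1/m) |∇ w|²`, `κ_n = 1/(2m) (2π/ℓ)² |n|²`, and `2 μ ∑ c_n² ≤ 2 μ ℓ⁻³ ∫ w²`.
Choose `δ` with `2 δ ∫ w² ≤ ε / 4`. -/
def S_SU : Prop :=
  ∀ m : ℝ, 0 < m → ∀ v : (Fin 3 → ℝ) → ℝ, Measurable v → Integrable v → (∀ x, 0 ≤ v x) →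
    (∀ x, v (-x) = v x) → ∀ ε : ℝ, 0 < ε → ∃ δ : ℝ, 0 < δ ∧ ∀ μ : ℝ, 0 < μ → μ ≤ δ →
      ∃ ℓ₀ : ℝ, 0 < ℓ₀ ∧ ∀ ℓ : ℝ, ℓ₀ ≤ ℓ → ∃ R₀ : ℕ, ∀ R : ℕ, R₀ ≤ R →
        ∃ c : Mom → ℝ, (∀ n, c (-n) = c n) ∧
        ℓ ^ 3 * Qf (Wr v ℓ) (1 / (2 * m) * (2 * Real.pi / ℓ) ^ 2) μ ((boxM R).erase 0) c ≤
          scatG m v + ε

end

end Pool.Agent.J6H80.BG
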