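import Pool.Agent.J6H80.BG.Cor4
import Pool.Agent.J6H80.BG.Stm

/-!
# The hypotheses on one torus hold for large tori
-/

set_option autoImplicit false

open MeasureTheory UnitAddTorus
open scoped ComplexConjugate ENNReal ContDiff

namespace Pool.Agent.H751R2.LHY.G80

open Pool.Agent.J6H80.BG

noncomputable section

lemma dirE_nonneg {m : ℝ} (hm : 0 < m) {v : (Fin 3 → ℝ) → ℝ} (h0 : ∀ x, 0 ≤ v x)
    (f : (Fin 3 → ℝ) → ℝ) : 0 ≤ dirE m v f := by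
  refine integral_nonneg fun x => ?_
  have h1 : 0 ≤ ∑ a, (fderiv ℝ f x (Pi.single a 1)) ^ 2 :=
    Finset.sum_nonneg fun _ _ => sq_nonneg _
  have h2 := mul_nonneg (h0 x) (sq_nonneg (f x))
  have h3 : 0 ≤ 1 / m * ∑ a, (fderiv ℝ f x (Pi.single a 1)) ^ 2 := by positivity
  exact add_nonneg h3 h2

lemma scatG_le {m : ℝ} (hm : 0 < m) {v : (Fin 3 → ℝ) → ℝ} (h0 : ∀ x, 0 ≤ v x) :
    scatG m v ≤ ∫ x, v x := by
  refine csInf_le ⟨0, ?_⟩ ⟨fun _ => 1, ⟨contDiff_const, 0, fun _ _ => rfl⟩, ?_⟩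
  · rintro E ⟨f, _, rfl⟩
    exact dirE_nonneg hm h0 f
  · unfold dirE
    refine integral_congr_ae (Filter.Eventually.of_forall fun x => ?_)
    simp

lemma q_small {b q₀ : ℝ} (hb : 0 < b) (hq₀ : 0 < q₀) :
    ∃ L : ℝ, 0 < L ∧ ∀ ℓ : ℝ, L ≤ ℓ → b * (2 * Real.pi / ℓ) ^ 2 < q₀ := by
  have hPi := Real.pi_pos
  refine ⟨b * (2 * Real.pi) ^ 2 / q₀ + 1, by positivity, fun ℓ hℓ => ?_⟩
  have h0 : 0 < b * (2 * Real.pi) ^ 2 / q₀ := by positivity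
  have hℓ1 : 1 ≤ ℓ := by linarith
  have hℓ0 : 0 < ℓ := by linarith
  have h1 : b * (2 * Real.pi / ℓ) ^ 2 = b * (2 * Real.pi) ^ 2 / ℓ ^ 2 := by
    rw [div_pow]; ring
  rw [h1, div_lt_iff₀ (by positivity)]
  have h2 : b * (2 * Real.pi) ^ 2 / q₀ < ℓ := by linarith
  rw [div_lt_iff₀ hq₀] at h2
  have h3 : ℓ ≤ ℓ ^ 2 := by nlinarith
  nlinarith

/-- the constant `P₀` with `q √q = P₀ / ℓ³` -/
def P0 (b : ℝ) : ℝ := b * Real.sqrt b * (2 * Real.pi) ^ 3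

lemma P0_pos {b : ℝ} (hb : 0 < b) : 0 < P0 b := by
  have := Real.sqrt_pos.2 hb
  have := Real.pi_pos
  unfold P0
  positivity

lemma q_sqrt {b ℓ q : ℝ} (hb : 0 < b) (hℓ : 0 < ℓ) (hq : q = b * (2 * Real.pi / ℓ) ^ 2) :
    q * Real.sqrt q = P0 b / ℓ ^ 3 := by
  have hPi := Real.pi_pos
  have hsq : Real.sqrt q = Real.sqrt b * (2 * Real.pi / ℓ) := by
    rw [hq, Real.sqrt_mul hb.le, Real.sqrt_sq (by positivity)]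
  rw [hsq, hq, P0]; field_simp

/-- finite sums are bounded by the lattice sum -/
lemma lat_fin {b ℓ q Δ : ℝ} (hb : 0 < b) (hℓ : 0 < ℓ) (hΔ : 0 < Δ)
    (hq : q = b * (2 * Real.pi / ℓ) ^ 2)
    (h1 : Summable (fun n : Fin 3 → ℤ => 1 / (q * sq n + Δ) ^ 2))
    (h2 : |q * √q * ∑' n : Fin 3 → ℤ, 1 / (q * sq n + Δ) ^ 2 - Real.pi ^ 2 / √Δ| ≤
      Real.pi ^ 2 / √Δ) (F : Finset Mom) :
    ∑ n ∈ F, 1 / (q * sq n + Δ) ^ 2 ≤ 2 * Real.pi ^ 2 * ℓ ^ 3 / (P0 b * √Δ) := by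
  have hP0 := P0_pos hb
  have hsΔ := Real.sqrt_pos.2 hΔ
  refine (h1.sum_le_tsum F fun n _ => by positivity).trans ?_
  have h3 := (abs_le.1 h2).2
  rw [q_sqrt hb hℓ hq] at h3
  set SS := ∑' n : Fin 3 → ℤ, 1 / (q * sq n + Δ) ^ 2
  have h4 : P0 b / ℓ ^ 3 * SS ≤ 2 * (Real.pi ^ 2 / √Δ) := by linarith
  have h5 : SS = ℓ ^ 3 / P0 b * (P0 b / ℓ ^ 3 * SS) := by
    field_simp
  rw [h5]
  calc ℓ ^ 3 / P0 b * (P0 b / ℓ ^ 3 * SS) ≤ ℓ ^ 3 / P0 b * (2 * (Real.pi ^ 2 / √Δ)) :=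
        mul_le_mul_of_nonneg_left h4 (by positivity)
    _ = 2 * Real.pi ^ 2 * ℓ ^ 3 / (P0 b * √Δ) := by field_simp

variable {v : (Fin 3 → ℝ) → ℝ}

/-- lower bound of the cut-off two-body functional -/
lemma hGL_lemma (hSL : S_SL) {m : ℝ} (hm : 0 < m) (hvm : Measurable v)
    (hv : Integrable v) (h0 : ∀ x, 0 ≤ v x) (he : ∀ x, v (-x) = v x) {ε : ℝ} (hε : 0 < ε)
    {Δ : ℝ} (hΔ : 0 < Δ) : ∃ L : ℝ, 0 < L ∧ ∀ ℓ : ℝ, L ≤ ℓ →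
      ∀ (N : ℕ) (ρ : ℝ), 0 < ρ → (N : ℝ) = ρ * ℓ ^ 3 →
      ∃ K1 : ℝ, ∀ K, K1 ≤ K → 0 ≤ K → ∀ B0 : Finset Mom, Sym B0 → ∀ c : Mom → ℝ,
        (∀ n, c (-n) = c n) → ρ * scatG m v / 2 - ρ * ε ≤
          N / 2 * Qf (fun y => min (Wr v ℓ y) K) (1 / (2 * m) * (2 * Real.pi / ℓ) ^ 2)
            (Δ / 2) B0 c := by
  obtain ⟨LL, hLL, hL2⟩ := hSL m hm v hvm hv h0 he (Δ / 2) (by positivity) ε hε
  refine ⟨LL, by positivity, fun ℓ hℓ N ρ hρ hN => ?_⟩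
  have hℓ0 : 0 < ℓ := by linarith
  have hPi := Real.pi_pos
  have hL3 := hL2 ℓ (by linarith)
  have hW := Wr_pot hvm hv he hℓ0
  have hWm := Wr_meas hvm ℓ
  set q : ℝ := 1 / (2 * m) * (2 * Real.pi / ℓ) ^ 2 with hq
  have hq0 : 0 < q := by positivity
  obtain ⟨K1, hK1⟩ := clip hW hWm hq0 (μ := Δ / 2) (by positivity) (ε := ε / ℓ ^ 3)
    (by positivity)
  refine ⟨K1, fun K hK hKn B0 hB0 c hc => ?_⟩
  set Q : ℝ := Qf (fun y => min (Wr v ℓ y) K) q (Δ / 2) B0 c with hQ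
  have hlo : scatG m v - 2 * ε ≤ ℓ ^ 3 * Q := by
    by_cases hbig : Q ≤ (∫ y, Wr v ℓ y) + 1
    · obtain ⟨B1, hB1, c1, hc1, hQ1⟩ := hK1 K hK _ hB0 c hc hbig
      have h3 := hL3 B1 hB1 c1 hc1
      have h4 : ℓ ^ 3 * Qf (Wr v ℓ) q (Δ / 2) B1 c1 ≤ ℓ ^ 3 * (Q + ε / ℓ ^ 3) :=
        mul_le_mul_of_nonneg_left (by linarith) (by positivity)
      have h5 : ℓ ^ 3 * (Q + ε / ℓ ^ 3) = ℓ ^ 3 * Q + ε := by field_simp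
      linarith
    · push Not at hbig
      have h1 : ∫ y, Wr v ℓ y ≤ Q := by linarith
      rw [Wr_int_one hvm hv h0 hℓ0] at h1
      have h2 := mul_le_mul_of_nonneg_left h1 (by positivity : 0 ≤ ℓ ^ 3)
      have h3 : ℓ ^ 3 * ((∫ x, v x) / ℓ ^ 3) = ∫ x, v x := by field_simp
      have h4 := scatG_le hm h0 (v := v)
      linarith
  have e1 : N / 2 * Q = ρ / 2 * (ℓ ^ 3 * Q) := by
    rw [hN]; ring
  rw [e1]
  have h6 := mul_le_mul_of_nonneg_left hlo (by positivity : 0 ≤ ρ / 2)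
  linarith

/-- upper bound of the two-body functional -/
lemma hGU_lemma (hSU : S_SU) {m : ℝ} (hm : 0 < m) (hvm : Measurable v)
    (hv : Integrable v) (h0 : ∀ x, 0 ≤ v x) (he : ∀ x, v (-x) = v x) {ε : ℝ} (hε : 0 < ε) :
    ∃ δ : ℝ, 0 < δ ∧ ∀ Δ : ℝ, 0 < Δ → Δ ≤ δ → ∃ L : ℝ, 0 < L ∧ ∀ ℓ : ℝ, L ≤ ℓ →
      ∀ (N : ℕ) (ρ : ℝ), 0 < ρ → (N : ℝ) = ρ * ℓ ^ 3 →
      ∀ᶠ R : ℕ in Filter.atTop, ∃ c : Mom → ℝ,
        N / 2 * Qf (Wr v ℓ) (1 / (2 * m) * (2 * Real.pi / ℓ) ^ 2) (2 * Δ)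
          ((boxM R).erase 0) c ≤ ρ * scatG m v / 2 + ρ * ε := by
  obtain ⟨δ, hδ, hU⟩ := hSU m hm v hvm hv h0 he ε hε
  refine ⟨δ / 2, by positivity, fun Δ hΔ hΔδ => ?_⟩
  obtain ⟨LU, hLU, hU2⟩ := hU (2 * Δ) (by positivity) (by linarith)
  refine ⟨LU, by positivity, fun ℓ hℓ N ρ hρ hN => ?_⟩
  have hℓ0 : 0 < ℓ := by linarith
  obtain ⟨R0, hR0⟩ := hU2 ℓ (by linarith)
  filter_upwards [Filter.eventually_ge_atTop R0] with R hR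
  obtain ⟨c', hc', hQ'⟩ := hR0 R hR
  refine ⟨c', ?_⟩
  have h6 := mul_le_mul_of_nonneg_left hQ' (by positivity : 0 ≤ ρ / 2)
  rw [hN]
  have : 0 < ρ * ε := by positivity
  linarith

/-- the scattering energy is positive -/
lemma scatG_pos (hSU : S_SU) {m : ℝ} (hm : 0 < m) (hvm : Measurable v)
    (hv : Integrable v) (h0 : ∀ x, 0 ≤ v x) (he : ∀ x, v (-x) = v x) (hne : 0 < ∫ x, v x) :
    0 < scatG m v := by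
  obtain ⟨k, hk1, hA0⟩ := exists_trunc hvm hv h0 hne
  obtain ⟨A, hA⟩ : ∃ A, A = ∫ x, vt v k x := ⟨_, rfl⟩
  rw [← hA] at hA0
  obtain ⟨b, hb⟩ : ∃ b, b = 1 / (2 * m) := ⟨_, rfl⟩
  have hb0 : 0 < b := by rw [hb]; positivity
  obtain ⟨gs, hgs⟩ : ∃ gs, gs = A ^ 2 / (A + (7 * A ^ 2 + k * A) / b) := ⟨_, rfl⟩
  have hk0 : 0 < k := by linarith
  have hgs0 : 0 < gs := by rw [hgs]; positivity
  have hPi := Real.pi_pos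
  refine lt_of_lt_of_le (half_pos hgs0) ?_
  obtain ⟨δ, hδ, hU⟩ := hSU m hm v hvm hv h0 he (gs / 2) (by positivity)
  obtain ⟨L, hL, hU2⟩ := hU δ hδ le_rfl
  obtain ⟨ℓ, hℓ⟩ : ∃ ℓ, ℓ = L + 2 * k + 1 := ⟨_, rfl⟩
  have hℓ0 : 0 < ℓ := by linarith
  obtain ⟨R0, hR0⟩ := hU2 ℓ (by linarith)
  obtain ⟨c, hc, hQ⟩ := hR0 R0 le_rfl
  have h1 := hQ_lemma hvm hv h0 he hk1 hA hA0 hb0 (by linarith : 1 ≤ ℓ) (by linarith : 2 * k < ℓ)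
    hδ.le k le_rfl _ (boxM_sym R0) c
  rw [← hgs] at h1
  have h2 := Qf_mono_pot (Wr_pot hvm hv he hℓ0) (pot_min (Wr_pot hvm hv he hℓ0) hk0.le)
    (fun y => min_le_left _ _) (b * (2 * Real.pi / ℓ) ^ 2) δ ((boxM R0).erase 0) c
  rw [← hb] at hQ
  have h3 := mul_le_mul_of_nonneg_left (h1.trans h2) (by positivity : 0 ≤ ℓ ^ 3)
  have h4 : ℓ ^ 3 * (gs / ℓ ^ 3) = gs := by field_simp
  linarith

/-- the hypotheses on one torus hold for large tori -/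
lemma mkTor (hLAT : S_LAT) (hSL : S_SL) (hSU : S_SU) {m : ℝ} (hm : 0 < m) (hvm : Measurable v)
    (hv : Integrable v) (h0 : ∀ x, 0 ≤ v x) (he : ∀ x, v (-x) = v x) (hne : 0 < ∫ x, v x)
    {θ τ ε Mc : ℝ} (hθ0 : 0 < θ) (hθ : θ ≤ 1 / 8) (hτ : 0 < τ) (hε : 0 < ε) (hM0 : 0 < Mc)
    (hM : 1 ≤ θ * Mc) :
    ∃ P δ : ℝ, 0 < P ∧ 0 < δ ∧ ∀ ρ Δ : ℝ, 0 < ρ → 0 < Δ → Δ ≤ δ →
      2 * (ρ * ∫ x, v x) ≤ θ * Δ →
      ∃ L : ℝ, 0 < L ∧ ∀ ℓ : ℝ, L ≤ ℓ → ∀ N : ℕ, (N : ℝ) = ρ * ℓ ^ 3 →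
        TorH N (Wr v ℓ) (1 / (2 * m) * (2 * Real.pi / ℓ) ^ 2) ((∫ x, v x) / ℓ ^ 3)
          (ρ * ∫ x, v x) Δ θ τ (ρ * ε) (ρ * scatG m v / 2) P
          (2 * Real.pi ^ 2 * ℓ ^ 3 / (P0 (1 / (2 * m)) * √Δ))
          (4 * (2 * Real.pi ^ 2 * ℓ ^ 3 / (P0 (1 / (2 * m)) * √P))) Mc
          (4 * (2 * Real.pi ^ 2 * ℓ ^ 3 / (P0 (1 / (2 * m)) * √(Mc * Δ)))) := by
  obtain ⟨V0, hV0⟩ : ∃ V0, V0 = ∫ x, v x := ⟨_, rfl⟩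
  rw [← hV0] at hne ⊢
  obtain ⟨b, hb⟩ : ∃ b, b = 1 / (2 * m) := ⟨_, rfl⟩
  have hb0 : 0 < b := by rw [hb]; positivity
  obtain ⟨δc, hδc, hnear⟩ := near_cos hvm hv (ε := τ ^ 2 * V0 / 2) (by positivity)
  obtain ⟨δ, hδ, hG⟩ := hGU_lemma hSU hm hvm hv h0 he hε
  obtain ⟨P, hP⟩ : ∃ P, P = b * δc := ⟨_, rfl⟩
  have hP0 : 0 < P := by rw [hP]; positivity
  have hPi := Real.pi_pos
  refine ⟨P, δ, hP0, hδ, fun ρ Δ hρ hΔ hΔδ hsθ => ?_⟩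
  have hsΔ := Real.sqrt_pos.2 hΔ
  have hsP := Real.sqrt_pos.2 hP0
  have hMΔ : 0 < Mc * Δ := by positivity
  have hsM := Real.sqrt_pos.2 hMΔ
  obtain ⟨q1, hq1, hlat1⟩ := hLAT Δ hΔ (Real.pi ^ 2 / √Δ) (by positivity)
  obtain ⟨q2, hq2, hlat2⟩ := hLAT P hP0 (Real.pi ^ 2 / √P) (by positivity)
  obtain ⟨q3, hq3, hlat3⟩ := hLAT (Mc * Δ) hMΔ (Real.pi ^ 2 / √(Mc * Δ)) (by positivity)
  obtain ⟨L1, hL1, hL1'⟩ := q_small hb0 hq1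
  obtain ⟨L2, hL2, hL2'⟩ := q_small hb0 hq2
  obtain ⟨L3, hL3, hG3⟩ := hG Δ hΔ hΔδ
  obtain ⟨L4, hL4, hG4⟩ := hGL_lemma hSL hm hvm hv h0 he hε hΔ
  obtain ⟨L5, hL5, hL5'⟩ := q_small hb0 hq3
  refine ⟨L1 + L2 + L3 + L4 + L5, by positivity, fun ℓ hℓ N hN => ?_⟩
  have hℓ0 : 0 < ℓ := by linarith
  obtain ⟨q, hq⟩ : ∃ q, q = b * (2 * Real.pi / ℓ) ^ 2 := ⟨_, rfl⟩
  have hq0 : 0 < q := by rw [hq]; positivity
  have hκ : ∀ n, 0 ≤ q * sq n := fun n => mul_nonneg hq0.le (sq_nonneg' n)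
  obtain ⟨hs1, hb1⟩ := hlat1 q hq0 (by rw [hq]; exact hL1' ℓ (by linarith))
  obtain ⟨hs2, hb2⟩ := hlat2 q hq0 (by rw [hq]; exact hL2' ℓ (by linarith))
  obtain ⟨hs3, hb3⟩ := hlat3 q hq0 (by rw [hq]; exact hL5' ℓ (by linarith))
  have hGU := hG3 ℓ (by linarith) N ρ hρ hN
  have hGL := hG4 ℓ (by linarith) N ρ hρ hN
  have hGV : scatG m v ≤ V0 := by rw [hV0]; exact scatG_le hm h0
  have hGp : 0 ≤ scatG m v := (scatG_pos hSU hm hvm hv h0 he (hV0 ▸ hne)).le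
  have hlarge : ∀ P' : ℝ, 0 < P' → Summable (fun n : Fin 3 → ℤ => 1 / (q * sq n + P') ^ 2) →
      |q * √q * ∑' n : Fin 3 → ℤ, 1 / (q * sq n + P') ^ 2 - Real.pi ^ 2 / √P'| ≤
        Real.pi ^ 2 / √P' → ∀ F : Finset Mom, (∀ n ∈ F, P' < q * sq n) →
      ∑ n ∈ F, 1 / (q * sq n + Δ) ^ 2 ≤ 4 * (2 * Real.pi ^ 2 * ℓ ^ 3 / (P0 b * √P')) := by
    intro P' hP' k1 k2 F hF
    calc ∑ n ∈ F, 1 / (q * sq n + Δ) ^ 2 ≤ ∑ n ∈ F, 4 * (1 / (q * sq n + P') ^ 2) := by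
          refine Finset.sum_le_sum fun n hn => ?_
          have h1 := hF n hn
          have h2 := hκ n
          rw [mul_one_div, div_le_div_iff₀ (by positivity) (by positivity)]
          have h3 : q * sq n + P' ≤ 2 * (q * sq n + Δ) := by linarith
          have h4 : (q * sq n + P') ^ 2 ≤ (2 * (q * sq n + Δ)) ^ 2 :=
            pow_le_pow_left₀ (by positivity) h3 2
          linarith
      _ = 4 * ∑ n ∈ F, 1 / (q * sq n + P') ^ 2 := by rw [Finset.mul_sum]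
      _ ≤ 4 * (2 * Real.pi ^ 2 * ℓ ^ 3 / (P0 b * √P')) :=
          mul_le_mul_of_nonneg_left (lat_fin hb0 hℓ0 hP' hq k1 k2 F) (by norm_num)
  rw [← hb, ← hq] at hGU hGL ⊢
  exact {
    hW := Wr_pot hvm hv he hℓ0
    hWm := Wr_meas hvm ℓ
    hq := hq0
    hI := by rw [Wr_int_one hvm hv h0 hℓ0, hV0]
    hI0 := by positivity
    hs := by rw [hN]; field_simp
    hs0 := by positivity
    hΔ := hΔ
    hθ0 := hθ0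
    hθ := hθ
    hsθ := hsθ
    hM := hM
    hτ := hτ.le
    he0 := by positivity
    hes := by nlinarith
    hnear := by
      intro n hn
      rw [Wr_cos hvm hv h0 hℓ0 n]
      have h1 : ∑ a, (2 * Real.pi / ℓ * (n a : ℝ)) ^ 2 ≤ δc := by
        have h2 : ∑ a, (2 * Real.pi / ℓ * (n a : ℝ)) ^ 2 = (2 * Real.pi / ℓ) ^ 2 * sq n := by
          rw [sq, Finset.mul_sum]
          exact Finset.sum_congr rfl (fun a _ => by ring)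
        rw [h2]
        have h3 : b * ((2 * Real.pi / ℓ) ^ 2 * sq n) ≤ b * δc := by
          rw [hq, hP] at hn; linarith
        exact le_of_mul_le_mul_left h3 hb0
      have h5 := (hnear _ h1).le
      have h6 := mul_le_mul_of_nonneg_left h5 (show 0 ≤ 2 * (1 / ℓ ^ 3) by positivity)
      calc 2 * (1 / ℓ ^ 3 * ∫ x : Fin 3 → ℝ, v x *
            (1 - Real.cos (∑ a, 2 * Real.pi / ℓ * (n a : ℝ) * x a)))
          ≤ 2 * (1 / ℓ ^ 3) * (τ ^ 2 * V0 / 2) := by linarith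
        _ = τ ^ 2 * (V0 / ℓ ^ 3) := by ring
    hT := lat_fin hb0 hℓ0 hΔ hq hs1 hb1
    hTP := hlarge P hP0 hs2 hb2
    hTM := hlarge (Mc * Δ) hMΔ hs3 hb3
    hGL := hGL
    hGU := hGU }

end

end Pool.Agent.H751R2.LHY.G80
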