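import Pool.Agent.J6H80.BG.Fin1

/-!
# The choice of the parameters
-/

set_option autoImplicit false

open MeasureTheory UnitAddTorus
open scoped ComplexConjugate ENNReal ContDiff

namespace Pool.Agent.H751R2.LHY.G80

open Pool.Agent.J6H80.BG

noncomputable section

/-- total energy on the torus of side `ℓ`, with the additional energy `Δ` for every particle with
momentum label in `D` -/
def gapE {N : ℕ} (m : ℝ) (v : (Fin 3 → ℝ) → ℝ) (ℓ Δ : ℝ) (D : Set Mom) [DecidablePred (· ∈ D)]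
    (ψ : Cfg N → ℂ) : ℝ≥0∞ :=
  kinE (1 / (2 * m) * (2 * Real.pi / ℓ) ^ 2) ψ + potE (perPot v ℓ) ψ +
    ENNReal.ofReal Δ * occE ψ (· ∈ D)

lemma gapE_eq {N : ℕ} {m : ℝ} {v : (Fin 3 → ℝ) → ℝ} (hvm : Measurable v) (hv : Integrable v)
    {ℓ : ℝ} (hℓ : 0 < ℓ) (Δ : ℝ) (D : Set Mom) [DecidablePred (· ∈ D)] (ψ : Cfg N → ℂ) :
    gapE m v ℓ Δ D ψ = enG (1 / (2 * m) * (2 * Real.pi / ℓ) ^ 2)
      (fun y => ENNReal.ofReal (Wr v ℓ y)) Δ (· ∈ D) ψ := by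
  unfold gapE enG
  rw [potE_congr (perPot_ae hvm hv hℓ) ψ]

/-- the estimate of the error terms -/
lemma fin_num {ρ V0 ℓ Nr p r θ τ ε ε2 K c P A M : ℝ} (hρ : 0 < ρ) (hV0 : 0 < V0) (hℓ : 0 < ℓ)
    (hN : Nr = ρ * ℓ ^ 3) (hp : 0 < p) (hr : 0 < r) (hr1 : r ≤ 1) (hθ0 : 0 < θ) (hθ : θ ≤ 1 / 8)
    (hε : 0 < ε) (hε2 : 0 < ε2) (hP : 0 < P) (hM : 0 < M)
    (hA : A = 2 * Real.pi ^ 2 * V0 ^ 2 / p)
    (h1 : 32 * A * θ ≤ ε) (h2 : 8 * A * τ ≤ ε) (h3 : 32 * A * ε2 ≤ V0 * ε) (h3' : 16 * ε2 ≤ ε)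
    (h4 : 32 * A * r ≤ ε * √P) (h5 : 48 * V0 * A ≤ ε * θ * K) (hK : K * ρ ≤ r ^ 2)
    (h6 : 8 * V0 ≤ θ * r * ε * Nr) (h7 : 8 * c ≤ θ * ε) (hc : 0 < c)
    (h8 : 4 * A ≤ ε2 * M) (h9 : 32 * A ≤ θ * ε * M) :
    (((ρ * V0) ^ 2 * (4 * θ + τ) + 2 * (ρ * V0) * (ρ * ε2 +
        r ^ 2 * ((ρ * V0) ^ 2 * (4 * (2 * Real.pi ^ 2 * ℓ ^ 3 / (p * (M * r))))) / Nr)) *
        (2 * Real.pi ^ 2 * ℓ ^ 3 / (p * r)) +
      (ρ * V0) ^ 2 * (4 * (2 * Real.pi ^ 2 * ℓ ^ 3 / (p * √P))) ≤ ε / 2 * (ρ / r * Nr)) ∧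
    (6 * (ρ * V0) * ((ρ * V0) ^ 2 * (2 * Real.pi ^ 2 * ℓ ^ 3 / (p * r))) +
      r ^ 2 * ((ρ * V0) ^ 2 * (4 * (2 * Real.pi ^ 2 * ℓ ^ 3 / (p * (M * r))))) + ρ * V0 +
      c * (ρ * r) * Nr ≤ θ * r ^ 2 * (ε / 2 * (ρ / r * Nr))) ∧
    (ρ * ε2 * Nr + 2 * (r ^ 2 * ((ρ * V0) ^ 2 *
        (4 * (2 * Real.pi ^ 2 * ℓ ^ 3 / (p * (M * r)))))) +
      5 * (ρ * V0) * ((ρ * V0) ^ 2 * (2 * Real.pi ^ 2 * ℓ ^ 3 / (p * r))) + ρ * V0 +
      c * (ρ * r) * Nr ≤ ε * ρ * Nr) := by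
  have hPi := Real.pi_pos
  have hsP := Real.sqrt_pos.2 hP
  have hN0 : 0 < Nr := by rw [hN]; positivity
  have hA0 : 0 < A := by rw [hA]; positivity
  obtain ⟨U, hU⟩ : ∃ U, U = ρ / r * Nr := ⟨_, rfl⟩
  have hU0 : 0 < U := by rw [hU]; positivity
  have hrU : r * U = ρ * Nr := by rw [hU]; field_simp
  have hρN : 0 < ρ * Nr := by positivity
  have e1 : (ρ * V0) ^ 2 * (2 * Real.pi ^ 2 * ℓ ^ 3 / (p * r)) = A * U := by
    rw [hA, hU, hN]; field_simp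
  have e2 : (ρ * V0) ^ 2 * (4 * (2 * Real.pi ^ 2 * ℓ ^ 3 / (p * √P))) =
      4 * A * r / √P * U := by
    rw [hA, hU, hN]; field_simp
  have e5 : (ρ * V0) ^ 2 * (4 * (2 * Real.pi ^ 2 * ℓ ^ 3 / (p * (M * r)))) =
      4 * A / M * U := by
    rw [hA, hU, hN]; field_simp
  have e6 : r ^ 2 * (4 * A / M * U) = 4 * A / M * r * (ρ * Nr) := by
    rw [← hrU]; ring
  have hAM : 4 * A / M ≤ ε2 := by
    rw [div_le_iff₀ hM]; exact h8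
  have hAM0 : 0 ≤ 4 * A / M := by positivity
  have hAMr : 4 * A / M * r ≤ ε2 := by
    calc 4 * A / M * r ≤ 4 * A / M * 1 := mul_le_mul_of_nonneg_left hr1 hAM0
      _ ≤ ε2 := by rw [mul_one]; exact hAM
  rw [← hU, e5]
  refine ⟨?_, ?_, ?_⟩
  · have e7 : r ^ 2 * (4 * A / M * U) / Nr = 4 * A / M * r * ρ := by
      rw [e6]; field_simp
    rw [e7]
    obtain ⟨g', hg'⟩ : ∃ g', g' = ρ * ε2 + 4 * A / M * r * ρ := ⟨_, rfl⟩
    have hg2 : g' ≤ 2 * ρ * ε2 := by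
      have := mul_le_mul_of_nonneg_right hAMr hρ.le
      rw [hg']; linarith
    have e4 : ((ρ * V0) ^ 2 * (4 * θ + τ) + 2 * (ρ * V0) * g') *
        (2 * Real.pi ^ 2 * ℓ ^ 3 / (p * r)) ≤ (4 * θ + τ) * (A * U) + 4 * ε2 * A / V0 * U := by
      have k0 : 0 ≤ 2 * Real.pi ^ 2 * ℓ ^ 3 / (p * r) := by positivity
      have k1 : 2 * (ρ * V0) * g' * (2 * Real.pi ^ 2 * ℓ ^ 3 / (p * r)) ≤
          2 * (ρ * V0) * (2 * ρ * ε2) * (2 * Real.pi ^ 2 * ℓ ^ 3 / (p * r)) := by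
        gcongr
      have k2 : 2 * (ρ * V0) * (2 * ρ * ε2) * (2 * Real.pi ^ 2 * ℓ ^ 3 / (p * r)) =
          4 * ε2 * A / V0 * U := by
        rw [hA, hU, hN]; field_simp
        ring
      rw [← e1]
      linarith
    rw [← hg', e2]
    refine (add_le_add_left e4 _).trans ?_
    have f1 : 4 * A * r / √P ≤ ε / 8 := by
      rw [div_le_div_iff₀ hsP (by norm_num)]
      linarith
    have f2 : 4 * ε2 * A / V0 ≤ ε / 8 := by
      rw [div_le_div_iff₀ hV0 (by norm_num)]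
      linarith
    have f3 : (4 * θ + τ) * A ≤ ε / 4 := by linarith
    have g1 := mul_le_mul_of_nonneg_right f1 hU0.le
    have g2 := mul_le_mul_of_nonneg_right f2 hU0.le
    have g3 := mul_le_mul_of_nonneg_right f3 hU0.le
    linarith
  · rw [e1]
    have f1 : 6 * (ρ * V0) * A ≤ θ * r ^ 2 * (ε / 8) := by
      have k1 : ρ * (48 * V0 * A) ≤ ρ * (ε * θ * K) := mul_le_mul_of_nonneg_left h5 hρ.le
      have k2 : ε * θ * (K * ρ) ≤ ε * θ * r ^ 2 := mul_le_mul_of_nonneg_left hK (by positivity)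
      linarith
    have g1 := mul_le_mul_of_nonneg_right f1 hU0.le
    have f2 : ρ * V0 ≤ θ * r ^ 2 * (ε / 8 * U) := by
      have k1 := mul_le_mul_of_nonneg_left h6 hρ.le
      have k2 : θ * r ^ 2 * (ε / 8 * U) = θ * r * (ε / 8) * (ρ * Nr) := by
        rw [← hrU]; ring
      rw [k2]
      linarith
    have f3 : c * (ρ * r) * Nr ≤ θ * r ^ 2 * (ε / 8 * U) := by
      have k2 : θ * r ^ 2 * (ε / 8 * U) = θ * r * (ε / 8) * (ρ * Nr) := by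
        rw [← hrU]; ring
      rw [k2]
      have k1 := mul_le_mul_of_nonneg_right h7 (by positivity : 0 ≤ r * (ρ * Nr))
      linarith
    have f4 : r ^ 2 * (4 * A / M * U) ≤ θ * r ^ 2 * (ε / 8 * U) := by
      have k1 : 4 * A / M ≤ θ * (ε / 8) := by
        rw [div_le_iff₀ hM]; linarith
      have k2 := mul_le_mul_of_nonneg_left k1 (by positivity : 0 ≤ r ^ 2 * U)
      linarith
    linarith
  · rw [e1]
    have f1 : 5 * (ρ * V0) * (A * U) ≤ ε / 8 * (ρ * Nr) := by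
      have hKr : ρ * (48 * V0 * A) ≤ ε * θ * r ^ 2 := by
        have k1 : ρ * (48 * V0 * A) ≤ ρ * (ε * θ * K) := mul_le_mul_of_nonneg_left h5 hρ.le
        have k2 : ε * θ * (K * ρ) ≤ ε * θ * r ^ 2 := mul_le_mul_of_nonneg_left hK (by positivity)
        linarith
      have k3 : ε * θ * r ^ 2 ≤ ε * (1 / 8) * r := by
        have : θ * r ^ 2 ≤ 1 / 8 * r := by nlinarith
        calc ε * θ * r ^ 2 = ε * (θ * r ^ 2) := by ring
          _ ≤ ε * (1 / 8 * r) := mul_le_mul_of_nonneg_left this hε.le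
          _ = ε * (1 / 8) * r := by ring
      have k4 : 5 * (ρ * V0) * A ≤ ε / 8 * r := by
        have : 0 < ρ * V0 * A := by positivity
        linarith
      have := mul_le_mul_of_nonneg_right k4 hU0.le
      calc 5 * (ρ * V0) * (A * U) = 5 * (ρ * V0) * A * U := by ring
        _ ≤ ε / 8 * r * U := this
        _ = ε / 8 * (ρ * Nr) := by rw [← hrU]; ring
    have f2 : ρ * V0 ≤ ε / 8 * (ρ * Nr) := by
      have k1 : θ * r * ε * Nr ≤ 1 * ε * Nr := by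
        have : θ * r ≤ 1 := by nlinarith
        have := mul_le_mul_of_nonneg_right this (by positivity : 0 ≤ ε * Nr)
        linarith
      have k2 := mul_le_mul_of_nonneg_left (h6.trans k1) hρ.le
      linarith
    have f3 : c * (ρ * r) * Nr ≤ ε / 8 * (ρ * Nr) := by
      have k1 : c * r ≤ ε / 8 := by
        have k2 : c * r ≤ c * 1 := mul_le_mul_of_nonneg_left hr1 hc.le
        have k3 : θ * ε ≤ 1 * ε := mul_le_mul_of_nonneg_right (by linarith) hε.le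
        linarith
      have := mul_le_mul_of_nonneg_right k1 hρN.le
      linarith
    have f4 : ρ * ε2 * Nr ≤ ε / 16 * (ρ * Nr) := by
      have := mul_le_mul_of_nonneg_right (by linarith : ε2 ≤ ε / 16) hρN.le
      linarith
    have f5 : r ^ 2 * (4 * A / M * U) ≤ ε / 16 * (ρ * Nr) := by
      rw [e6]
      have := mul_le_mul_of_nonneg_right (hAMr.trans (by linarith : ε2 ≤ ε / 16)) hρN.le
      linarith
    have : 0 < ε * (ρ * Nr) := by positivity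
    linarith

/-- energy and occupation numbers on large tori -/
theorem fin_main (hLAT : S_LAT) (hSL : S_SL) (hSU : S_SU) {m : ℝ} (hm : 0 < m)
    {v : (Fin 3 → ℝ) → ℝ} (hvm : Measurable v)
    (hv : Integrable v) (h0 : ∀ x, 0 ≤ v x) (he : ∀ x, v (-x) = v x) (hne : 0 < ∫ x, v x)
    {ε : ℝ} (hε : 0 < ε) :
    ∃ K M δ c : ℝ, 0 < K ∧ 0 < M ∧ 0 < δ ∧ 0 < c ∧ ∀ ρ Δ : ℝ, 0 < ρ → K * ρ ≤ Δ → Δ ≤ δ →
      ∃ L : ℝ, 0 < L ∧ ∀ ℓ : ℝ, L ≤ ℓ → ∀ N : ℕ, (N : ℝ) = ρ * ℓ ^ 3 →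
      ∀ (D : Set Mom) [DecidablePred (· ∈ D)], 0 ∉ D → (∀ n ∈ D, -n ∈ D) →
      (∀ n : Mom, n ≠ 0 → 1 / (2 * m) * (2 * Real.pi / ℓ) ^ 2 * sq n ≤ M * Δ → n ∈ D) →
      ∀ ψ : Cfg N → ℂ, MemLp ψ 2 → ∫ x, ‖ψ x‖ ^ 2 = 1 →
      (∀ φ : Cfg N → ℂ, MemLp φ 2 → ∫ x, ‖φ x‖ ^ 2 = 1 →
        gapE m v ℓ Δ D ψ ≤ gapE m v ℓ Δ D φ + ENNReal.ofReal (c * (ρ * √Δ) * N)) →
      gapE m v ℓ Δ D ψ ≠ ⊤ ∧
      |(gapE m v ℓ Δ D ψ).toReal - ρ * scatG m v / 2 * N| ≤ ε * ρ * N ∧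
      ∀ (S : Mom → Prop) [DecidablePred S], ¬ S 0 → (∀ n, S n → S (-n)) →
        |(occE ψ S).toReal - ∑' n : Mom, (if S n then
          (ρ * scatG m v / 2 / (1 / (2 * m) * (2 * Real.pi / ℓ) ^ 2 * sq n + Δ)) ^ 2 else 0)| ≤
          ε * (ρ / √Δ * N) := by
  obtain ⟨V0, hV0⟩ : ∃ V0, V0 = ∫ x, v x := ⟨_, rfl⟩
  have hne' := hne
  rw [← hV0] at hne
  obtain ⟨b, hb⟩ : ∃ b, b = 1 / (2 * m) := ⟨_, rfl⟩
  have hb0 : 0 < b := by rw [hb]; positivity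
  have hp := P0_pos hb0
  have hPi := Real.pi_pos
  obtain ⟨A, hA⟩ : ∃ A, A = 2 * Real.pi ^ 2 * V0 ^ 2 / P0 b := ⟨_, rfl⟩
  have hA0 : 0 < A := by rw [hA]; positivity
  obtain ⟨θ, hθd⟩ : ∃ θ, θ = min (1 / 8) (ε / (32 * A)) := ⟨_, rfl⟩
  have hθ0 : 0 < θ := by rw [hθd]; exact lt_min (by norm_num) (by positivity)
  have hθ : θ ≤ 1 / 8 := by rw [hθd]; exact min_le_left _ _
  have h1 : 32 * A * θ ≤ ε := by
    have : θ ≤ ε / (32 * A) := by rw [hθd]; exact min_le_right _ _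
    rw [le_div_iff₀ (by positivity)] at this
    linarith
  obtain ⟨τ, hτd⟩ : ∃ τ, τ = ε / (8 * A) := ⟨_, rfl⟩
  have hτ0 : 0 < τ := by rw [hτd]; positivity
  have h2 : 8 * A * τ ≤ ε := by rw [hτd]; apply le_of_eq; field_simp
  obtain ⟨ε2, hε2⟩ : ∃ ε2, ε2 = min (V0 * ε / (32 * A)) (ε / 16) := ⟨_, rfl⟩
  have hε20 : 0 < ε2 := by rw [hε2]; exact lt_min (by positivity) (by positivity)
  have h3 : 32 * A * ε2 ≤ V0 * ε := by
    have : ε2 ≤ V0 * ε / (32 * A) := by rw [hε2]; exact min_le_left _ _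
    rw [le_div_iff₀ (by positivity)] at this
    linarith
  have h3' : 16 * ε2 ≤ ε := by
    have : ε2 ≤ ε / 16 := by rw [hε2]; exact min_le_right _ _
    linarith
  obtain ⟨x, hx⟩ : ∃ x, x = 4 * A / ε2 + 32 * A / (θ * ε) + 1 / θ + 1 := ⟨_, rfl⟩
  have x1 : 0 < 4 * A / ε2 := by positivity
  have x2 : 0 < 32 * A / (θ * ε) := by positivity
  have x3 : 0 < 1 / θ := by positivity
  have hx0 : 0 < x := by rw [hx]; positivity
  have h8 : 4 * A ≤ ε2 * x := by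
    have : 4 * A / ε2 ≤ x := by linarith
    rw [div_le_iff₀ hε20] at this
    linarith
  have h9 : 32 * A ≤ θ * ε * x := by
    have : 32 * A / (θ * ε) ≤ x := by linarith
    rw [div_le_iff₀ (by positivity)] at this
    linarith
  have hxθ : 1 ≤ θ * x ^ 2 := by
    have k1 : 1 / θ ≤ x := by linarith
    rw [div_le_iff₀ hθ0] at k1
    have k2 : x ≤ x ^ 2 := by nlinarith
    have k3 := mul_le_mul_of_nonneg_left k2 hθ0.le
    linarith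
  obtain ⟨M, hMd⟩ : ∃ M, M = x ^ 2 := ⟨_, rfl⟩
  have hM0 : 0 < M := by rw [hMd]; positivity
  have hsM : √M = x := by rw [hMd]; exact Real.sqrt_sq hx0.le
  rw [← hMd] at hxθ
  obtain ⟨P, δ1, hP, hδ1, hmk⟩ := mkTor hLAT hSL hSU hm hvm hv h0 he hne' hθ0 hθ hτ0 hε20 hM0 hxθ
  have hsP := Real.sqrt_pos.2 hP
  obtain ⟨K, hK⟩ : ∃ K, K = 48 * V0 * A / (ε * θ) + 2 * V0 / θ := ⟨_, rfl⟩
  have hK0 : 0 < K := by rw [hK]; positivity
  have h5 : 48 * V0 * A ≤ ε * θ * K := by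
    have e1 : ε * θ * K = 48 * V0 * A + 2 * V0 * ε := by rw [hK]; field_simp
    rw [e1]
    have : 0 < 2 * V0 * ε := by positivity
    linarith
  have hKθ : 2 * V0 ≤ θ * K := by
    have e1 : θ * K = 48 * V0 * A / ε + 2 * V0 := by rw [hK]; field_simp
    rw [e1]
    have : 0 < 48 * V0 * A / ε := by positivity
    linarith
  obtain ⟨δ, hδ⟩ : ∃ δ, δ = min δ1 (min 1 ((ε * √P / (32 * A)) ^ 2)) := ⟨_, rfl⟩
  have hδ0 : 0 < δ := by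
    rw [hδ]; exact lt_min hδ1 (lt_min one_pos (by positivity))
  refine ⟨K, M, δ, θ * ε / 8, hK0, hM0, hδ0, by positivity, fun ρ Δ hρ hKΔ hΔδ => ?_⟩
  have hΔ0 : 0 < Δ := lt_of_lt_of_le (by positivity) hKΔ
  obtain ⟨r, hr⟩ : ∃ r, r = √Δ := ⟨_, rfl⟩
  have hr0 : 0 < r := by rw [hr]; exact Real.sqrt_pos.2 hΔ0
  have hr2 : r ^ 2 = Δ := by rw [hr]; exact Real.sq_sqrt hΔ0.le
  have hΔδ1 : Δ ≤ δ1 := hΔδ.trans (by rw [hδ]; exact min_le_left _ _)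
  have hΔ1 : Δ ≤ 1 := hΔδ.trans (by rw [hδ]; exact (min_le_right _ _).trans (min_le_left _ _))
  have hΔP : Δ ≤ (ε * √P / (32 * A)) ^ 2 :=
    hΔδ.trans (by rw [hδ]; exact (min_le_right _ _).trans (min_le_right _ _))
  have hr1 : r ≤ 1 := by
    rw [hr]; exact Real.sqrt_le_one.mpr hΔ1
  have h4 : 32 * A * r ≤ ε * √P := by
    have : r ≤ ε * √P / (32 * A) := by
      rw [hr]; exact Real.sqrt_le_iff.mpr ⟨by positivity, hΔP⟩
    rw [le_div_iff₀ (by positivity)] at this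
    linarith
  have hsθ : 2 * (ρ * ∫ x, v x) ≤ θ * Δ := by
    rw [← hV0]
    have k1 := mul_le_mul_of_nonneg_right hKθ hρ.le
    have k2 := mul_le_mul_of_nonneg_left hKΔ hθ0.le
    linarith
  obtain ⟨L1, hL1, hmk1⟩ := hmk ρ Δ hρ hΔ0 hΔδ1 hsθ
  refine ⟨L1 + 1 + 8 * V0 / (θ * r * ε * ρ), by positivity,
    fun ℓ hℓ N hN D _ hD0 hDn hDl ψ hψ hψ1 hmin => ?_⟩
  have hpos : 0 < 8 * V0 / (θ * r * ε * ρ) := by positivity
  have hℓ1 : 1 ≤ ℓ := by linarith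
  have hℓ0 : 0 < ℓ := by linarith
  have h6 : 8 * V0 ≤ θ * r * ε * N := by
    have k1 : 8 * V0 / (θ * r * ε * ρ) ≤ ℓ := by linarith
    rw [div_le_iff₀ (by positivity)] at k1
    have k2 : ℓ ≤ ℓ ^ 3 := by nlinarith [sq_nonneg ℓ, sq_nonneg (ℓ - 1)]
    have k3 := mul_le_mul_of_nonneg_left k2 (by positivity : 0 ≤ θ * r * ε * ρ)
    rw [hN]
    linarith
  have tor := hmk1 ℓ (by linarith) N hN
  have hDH : DH (· ∈ D) (1 / (2 * m) * (2 * Real.pi / ℓ) ^ 2) Δ M :=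
    ⟨hD0, fun n => ⟨fun h => by have := hDn _ h; rwa [neg_neg] at this, hDn n⟩, hDl⟩
  have hMr : √(M * Δ) = x * r := by rw [Real.sqrt_mul hM0.le, hsM, hr]
  rw [← hV0, hMr] at tor
  obtain ⟨n1, n2, n3⟩ := fin_num hρ hne hℓ0 hN hp hr0 hr1 hθ0 hθ hε hε20 hP hx0 hA h1 h2 h3 h3'
    h4 h5 (by rw [hr2]; exact hKΔ) h6 (le_of_eq (by ring) : 8 * (θ * ε / 8) ≤ θ * ε)
    (by positivity) h8 h9
  have hη0 : 0 ≤ θ * ε / 8 * (ρ * √Δ) * N := by positivity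
  have hmin' : ∀ φ : Cfg N → ℂ, MemLp φ 2 → ∫ x, ‖φ x‖ ^ 2 = 1 →
      enG (1 / (2 * m) * (2 * Real.pi / ℓ) ^ 2) (fun y => ENNReal.ofReal (Wr v ℓ y)) Δ (· ∈ D) ψ ≤
        enG (1 / (2 * m) * (2 * Real.pi / ℓ) ^ 2) (fun y => ENNReal.ofReal (Wr v ℓ y)) Δ
          (· ∈ D) φ + ENNReal.ofReal (θ * ε / 8 * (ρ * √Δ) * N) := by
    intro φ hφ hφ1
    rw [← gapE_eq hvm hv hℓ0, ← gapE_eq hvm hv hℓ0]
    exact hmin φ hφ hφ1
  rw [← hb, ← hr] at tor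
  rw [← hb] at hmin' hDH
  obtain ⟨hE1, hE2⟩ := tor.coreE hη0 hDH hψ hψ1 hmin'
  rw [gapE_eq hvm hv hℓ0, ← hb]
  refine ⟨hE1, ?_, ?_⟩
  · refine hE2.trans ?_
    rw [← hr, ← hr2]
    exact n3
  · intro S _ hS0 hSn
    have hSn' : ∀ n, S (-n) ↔ S n := fun n => ⟨fun h' => by
      have := hSn _ h'; rwa [neg_neg] at this, hSn n⟩
    have c1 := tor.coreS hη0 hDH S hS0 hSn' hψ hψ1 hmin' (σ := 1) (Or.inl rfl)
    have c2 := tor.coreS hη0 hDH S hS0 hSn' hψ hψ1 hmin' (σ := -1) (Or.inr rfl)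
    rw [← hr] at c1 c2 ⊢
    rw [hr2] at n1 n2
    have hθΔ0 : 0 < θ * Δ := mul_pos hθ0 hΔ0
    set Z : ℝ := ∑' n : Mom, (if S n then
      (ρ * scatG m v / 2 / (b * (2 * Real.pi / ℓ) ^ 2 * sq n + Δ)) ^ 2 else 0) with hZ
    set O : ℝ := (occE ψ S).toReal with hO
    set U : ℝ := ρ / r * N with hU
    set Y : ℝ := ((ρ * V0) ^ 2 * (4 * θ + τ) + 2 * (ρ * V0) * (ρ * ε2 +
        Δ * ((ρ * V0) ^ 2 * (4 * (2 * Real.pi ^ 2 * ℓ ^ 3 / (P0 b * (x * r))))) / N)) *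
        (2 * Real.pi ^ 2 * ℓ ^ 3 / (P0 b * r)) +
      (ρ * V0) ^ 2 * (4 * (2 * Real.pi ^ 2 * ℓ ^ 3 / (P0 b * √P))) with hY
    have hU0 : 0 ≤ U := by rw [hU]; positivity
    have d1 : θ * Δ * (1 * Z - Y - ε / 2 * U) ≤ θ * Δ * (1 * O) := by
      linarith
    have d2 : θ * Δ * (-1 * Z - Y - ε / 2 * U) ≤ θ * Δ * (-1 * O) := by
      linarith
    have d3 := le_of_mul_le_mul_left d1 hθΔ0
    have d4 := le_of_mul_le_mul_left d2 hθΔ0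
    rw [abs_le]
    constructor <;> linarith

end

end Pool.Agent.H751R2.LHY.G80
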