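import Pool.Agent.J6H80.BG.Fin2

/-!
# The final statement
-/

set_option autoImplicit false

open MeasureTheory UnitAddTorus
open scoped ComplexConjugate ENNReal ContDiff

namespace Pool.Agent.H751R2.LHY.G80

open Pool.Agent.J6H80.BG

noncomputable section

/-- the scattering length -/
def scatLen (m : ℝ) (v : (Fin 3 → ℝ) → ℝ) : ℝ := m / (4 * Real.pi) * scatG m v

lemma scatLen_e {m : ℝ} (hm : 0 < m) (v : (Fin 3 → ℝ) → ℝ) (ρ : ℝ) :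
    2 * Real.pi * scatLen m v * ρ / m = ρ * scatG m v / 2 := by
  have hPi := Real.pi_pos
  unfold scatLen
  field_simp
  ring

lemma target_eq {m G ρ ℓ r Nr : ℝ} (hm : 0 < m) (hρ : 0 < ρ) (hr : 0 < r)
    (hN : Nr = ρ * ℓ ^ 3) :
    √2 * Real.pi * (m / (4 * Real.pi) * G) ^ 2 * ρ / (√m * r) * Nr =
      (ρ * G / 2) ^ 2 * (Real.pi ^ 2 / r) * (ℓ ^ 3 / P0 (1 / (2 * m))) := by
  have hPi := Real.pi_pos
  have h2 : (0 : ℝ) < √2 := Real.sqrt_pos.2 (by norm_num)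
  have hsm : 0 < √m := Real.sqrt_pos.2 hm
  have e2 : √2 ^ 2 = 2 := Real.sq_sqrt (by norm_num)
  have em : √m ^ 2 = m := Real.sq_sqrt hm.le
  have hb : √(1 / (2 * m)) = 1 / (√2 * √m) := by
    rw [Real.sqrt_div zero_le_one, Real.sqrt_one, Real.sqrt_mul (by norm_num)]
  rw [P0, hb, hN]
  field_simp
  rw [em]
  ring

theorem gapped (hLAT : S_LAT) (hSL : S_SL) (hSU : S_SU) {m : ℝ} (hm : 0 < m)
    {v : (Fin 3 → ℝ) → ℝ} (hvm : Measurable v)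
    (hv : Integrable v) (h0 : ∀ x, 0 ≤ v x) (he : ∀ x, v (-x) = v x) (hne : 0 < ∫ x, v x) :
    0 < scatLen m v ∧ ∀ ε : ℝ, 0 < ε →
    ∃ K M δ c : ℝ, 0 < K ∧ 0 < M ∧ 0 < δ ∧ 0 < c ∧ ∀ ρ Δ : ℝ, 0 < ρ → K * ρ ≤ Δ → Δ ≤ δ →
      ∃ N₀ : ℕ, ∀ N : ℕ, N₀ ≤ N → ∀ ℓ : ℝ, 0 < ℓ → (N : ℝ) = ρ * ℓ ^ 3 →
      ∀ (D : Set Mom) [DecidablePred (· ∈ D)], 0 ∉ D → (∀ n ∈ D, -n ∈ D) →
      (∀ n : Mom, n ≠ 0 →
        1 / (2 * m) * (2 * Real.pi / ℓ) ^ 2 * (∑ a, (n a : ℝ) ^ 2) ≤ M * Δ → n ∈ D) →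
      ∀ ψ : Cfg N → ℂ, MemLp ψ 2 → ∫ x, ‖ψ x‖ ^ 2 = 1 →
      (∀ φ : Cfg N → ℂ, MemLp φ 2 → ∫ x, ‖φ x‖ ^ 2 = 1 →
        gapE m v ℓ Δ D ψ ≤ gapE m v ℓ Δ D φ + ENNReal.ofReal (c * (ρ * √Δ) * N)) →
      gapE m v ℓ Δ D ψ ≠ ⊤ ∧
      |(gapE m v ℓ Δ D ψ).toReal - 2 * Real.pi * scatLen m v * ρ / m * N| ≤ ε * ρ * N ∧
      (∀ (S : Set Mom) [DecidablePred (· ∈ S)], 0 ∉ S → (∀ n ∈ S, -n ∈ S) →
        |(occE ψ (· ∈ S)).toReal - ∑' n : Mom, (if n ∈ S then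
          (2 * Real.pi * scatLen m v * ρ / m /
            (1 / (2 * m) * (2 * Real.pi / ℓ) ^ 2 * (∑ a, (n a : ℝ) ^ 2) + Δ)) ^ 2 else 0)| ≤
          ε * (ρ / √Δ) * N) ∧
      |(N - (occE ψ (fun n => n = 0)).toReal) -
          √2 * Real.pi * scatLen m v ^ 2 * ρ / √(m * Δ) * N| ≤ ε * (ρ / √Δ) * N := by
  have hG0 := scatG_pos hSU hm hvm hv h0 he hne
  have hPi := Real.pi_pos
  refine ⟨by unfold scatLen; positivity, fun ε hε => ?_⟩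
  obtain ⟨K, M, δ, c, hK, hM, hδ, hc, hmain⟩ := fin_main hLAT hSL hSU hm hvm hv h0 he hne
    (ε := ε / 2) (by positivity)
  refine ⟨K, M, δ, c, hK, hM, hδ, hc, fun ρ Δ hρ hKΔ hΔδ => ?_⟩
  have hΔ0 : 0 < Δ := lt_of_lt_of_le (by positivity) hKΔ
  obtain ⟨r, hr⟩ : ∃ r, r = √Δ := ⟨_, rfl⟩
  have hr0 : 0 < r := by rw [hr]; exact Real.sqrt_pos.2 hΔ0
  have hr2 : r ^ 2 = Δ := by rw [hr]; exact Real.sq_sqrt hΔ0.le
  obtain ⟨b, hb⟩ : ∃ b, b = 1 / (2 * m) := ⟨_, rfl⟩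
  have hb0 : 0 < b := by rw [hb]; positivity
  have hp := P0_pos hb0
  obtain ⟨G, hG⟩ : ∃ G, G = scatG m v := ⟨_, rfl⟩
  rw [← hG] at hG0
  obtain ⟨L1, hL1, hmain1⟩ := hmain ρ Δ hρ hKΔ hΔδ
  obtain ⟨q1, hq1, hlat⟩ := hLAT Δ hΔ0 (ε * P0 b / (G ^ 2 * r)) (by positivity)
  obtain ⟨L2, hL2, hL2'⟩ := q_small hb0 hq1
  obtain ⟨L, hL⟩ : ∃ L, L = L1 + L2 + 1 + G ^ 2 / (ε * r ^ 3) := ⟨_, rfl⟩
  have hGε : 0 < G ^ 2 / (ε * r ^ 3) := by positivity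
  have hL0 : 0 < L := by rw [hL]; positivity
  obtain ⟨N₀, hN₀⟩ := exists_nat_ge (ρ * L ^ 3)
  refine ⟨N₀, fun N hN ℓ hℓ hNℓ D _ hD0 hDn hDl ψ hψ hψ1 hmin => ?_⟩
  have hℓL : L ≤ ℓ := by
    by_contra h
    push Not at h
    have h1 : ρ * L ^ 3 ≤ ρ * ℓ ^ 3 := by
      rw [← hNℓ]
      exact hN₀.trans (by exact_mod_cast hN)
    have h2 : ℓ ^ 3 < L ^ 3 := pow_lt_pow_left₀ h hℓ.le (by norm_num)
    have h3 := mul_lt_mul_of_pos_left h2 hρ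
    linarith
  obtain ⟨hE1, hE2, hS⟩ := hmain1 ℓ (by linarith) N hNℓ D hD0 hDn hDl ψ hψ hψ1 hmin
  have hN0 : (0 : ℝ) ≤ N := Nat.cast_nonneg N
  have hρN : 0 ≤ ρ * (N : ℝ) := by positivity
  have hU0 : 0 ≤ ρ / r * N := by positivity
  refine ⟨hE1, ?_, ?_, ?_⟩
  · rw [scatLen_e hm]
    refine hE2.trans ?_
    nlinarith
  · intro S _ hS0 hSn
    rw [scatLen_e hm]
    refine (hS (· ∈ S) hS0 hSn).trans ?_
    rw [← hr]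
    nlinarith
  · have h1 := hS (fun n => n ≠ 0) (fun h => h rfl) (fun n hn => neg_ne_zero.mpr hn)
    have hsplit := occE_split hψ hψ1
    have hf1 := occE_fin hψ hψ1 (fun n => n = 0)
    have hf2 := occE_fin hψ hψ1 (fun n => n ≠ 0)
    have h2 : (occE ψ (fun n => n = 0)).toReal + (occE ψ (fun n => n ≠ 0)).toReal = N := by
      rw [← ENNReal.toReal_add hf1 hf2, hsplit, ENNReal.toReal_ofReal hN0]
    have h3 : (N : ℝ) - (occE ψ (fun n => n = 0)).toReal =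
        (occE ψ (fun n => n ≠ 0)).toReal := by linarith
    rw [h3]
    obtain ⟨q, hq⟩ : ∃ q, q = b * (2 * Real.pi / ℓ) ^ 2 := ⟨_, rfl⟩
    have hq0 : 0 < q := by rw [hq]; positivity
    obtain ⟨hsum, hval⟩ := hlat q hq0 (by rw [hq]; exact hL2' ℓ (by linarith))
    rw [← hb, ← hq, ← hr, ← hG] at h1
    rw [q_sqrt hb0 hℓ hq, ← hr] at hval
    have hκ : ∀ n, 0 ≤ q * sq n := fun n => mul_nonneg hq0.le (sq_nonneg' n)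
    -- the sum over the nonzero momenta
    have hZ : ∑' n : Mom, (if n ≠ 0 then (ρ * G / 2 / (q * sq n + Δ)) ^ 2 else 0) =
        (ρ * G / 2) ^ 2 * (∑' n : Fin 3 → ℤ, 1 / (q * sq n + Δ) ^ 2) -
          (ρ * G / 2) ^ 2 / Δ ^ 2 := by
      have e0 : ∀ n : Mom, (if n ≠ 0 then (ρ * G / 2 / (q * sq n + Δ)) ^ 2 else 0) =
          (ρ * G / 2) ^ 2 * (1 / (q * sq n + Δ) ^ 2) -
            (if n = 0 then (ρ * G / 2) ^ 2 / Δ ^ 2 else 0) := by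
        intro n
        by_cases hn : n = 0
        · subst hn
          simp only [ne_eq, not_true_eq_false, if_false, if_true]
          have : sq (0 : Mom) = 0 := by simp [sq]
          rw [this]
          field_simp
          ring
        · rw [if_pos hn, if_neg hn]
          rw [div_pow]; ring
      simp_rw [e0]
      have s2 : Summable (fun n : Mom => if n = 0 then (ρ * G / 2) ^ 2 / Δ ^ 2 else 0) := by
        refine summable_of_ne_finset_zero (s := {0}) fun n hn => ?_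
        rw [if_neg (by simpa using hn)]
      rw [(hsum.mul_left _).tsum_sub s2, tsum_mul_left]
      congr 1
      rw [tsum_eq_single (0 : Mom) (fun n hn => if_neg hn), if_pos rfl]
    rw [hZ] at h1
    have hsm : √(m * Δ) = √m * r := by rw [Real.sqrt_mul hm.le, hr]
    rw [hsm, scatLen, ← hG, target_eq hm hρ hr0 hNℓ, ← hb, ← hr]
    set SS := ∑' n : Fin 3 → ℤ, 1 / (q * sq n + Δ) ^ 2 with hSS
    set O := (occE ψ (fun n => n ≠ 0)).toReal with hO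
    have f1 : |(ρ * G / 2) ^ 2 * SS -
        (ρ * G / 2) ^ 2 * (Real.pi ^ 2 / r) * (ℓ ^ 3 / P0 b)| ≤ ε / 4 * (ρ / r * N) := by
      have e1 : (ρ * G / 2) ^ 2 * SS - (ρ * G / 2) ^ 2 * (Real.pi ^ 2 / r) * (ℓ ^ 3 / P0 b) =
          (ρ * G / 2) ^ 2 * (ℓ ^ 3 / P0 b) * (P0 b / ℓ ^ 3 * SS - Real.pi ^ 2 / r) := by
        field_simp
      rw [e1, abs_mul, abs_of_pos (by positivity : 0 < (ρ * G / 2) ^ 2 * (ℓ ^ 3 / P0 b))]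
      refine (mul_le_mul_of_nonneg_left hval (by positivity)).trans (le_of_eq ?_)
      rw [hNℓ]
      field_simp
      ring
    have f2 : (ρ * G / 2) ^ 2 / Δ ^ 2 ≤ ε / 4 * (ρ / r * N) := by
      have k1 : G ^ 2 / (ε * r ^ 3) ≤ ℓ ^ 3 := by
        have k2 : G ^ 2 / (ε * r ^ 3) ≤ ℓ := by linarith
        have k3 : 1 ≤ ℓ := by linarith
        have k4 : ℓ ≤ ℓ ^ 3 := by nlinarith [sq_nonneg ℓ, sq_nonneg (ℓ - 1)]
        linarith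
      rw [div_le_iff₀ (by positivity)] at k1
      rw [← hr2, hNℓ, div_le_iff₀ (by positivity)]
      have k5 : ε / 4 * (ρ / r * (ρ * ℓ ^ 3)) * (r ^ 2) ^ 2 =
          ρ ^ 2 / 4 * (ℓ ^ 3 * (ε * r ^ 3)) := by
        field_simp
      rw [k5]
      have k6 := mul_le_mul_of_nonneg_left k1 (by positivity : 0 ≤ ρ ^ 2 / 4)
      linarith
    have f3 : 0 ≤ (ρ * G / 2) ^ 2 / Δ ^ 2 := by positivity
    have g1 := abs_le.1 h1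
    have g2 := abs_le.1 f1
    rw [abs_le]
    constructor <;> linarith [g1.1, g1.2, g2.1, g2.2]

/-- the part on the occupation numbers -/
theorem gapped2 (hLAT : S_LAT) (hSL : S_SL) (hSU : S_SU) {m : ℝ} (hm : 0 < m)
    {v : (Fin 3 → ℝ) → ℝ} (hvm : Measurable v)
    (hv : Integrable v) (h0 : ∀ x, 0 ≤ v x) (he : ∀ x, v (-x) = v x) (hne : 0 < ∫ x, v x) :
    0 < scatLen m v ∧ ∀ ε : ℝ, 0 < ε →
    ∃ K M δ c : ℝ, 0 < K ∧ 0 < M ∧ 0 < δ ∧ 0 < c ∧ ∀ ρ Δ : ℝ, 0 < ρ → K * ρ ≤ Δ → Δ ≤ δ →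
      ∃ N₀ : ℕ, ∀ N : ℕ, N₀ ≤ N → ∀ ℓ : ℝ, 0 < ℓ → (N : ℝ) = ρ * ℓ ^ 3 →
      ∀ (D : Set Mom) [DecidablePred (· ∈ D)], 0 ∉ D → (∀ n ∈ D, -n ∈ D) →
      (∀ n : Mom, n ≠ 0 →
        1 / (2 * m) * (2 * Real.pi / ℓ) ^ 2 * (∑ a, (n a : ℝ) ^ 2) ≤ M * Δ → n ∈ D) →
      ∀ ψ : Cfg N → ℂ, MemLp ψ 2 → ∫ x, ‖ψ x‖ ^ 2 = 1 →
      (∀ φ : Cfg N → ℂ, MemLp φ 2 → ∫ x, ‖φ x‖ ^ 2 = 1 →
        gapE m v ℓ Δ D ψ ≤ gapE m v ℓ Δ D φ + ENNReal.ofReal (c * (ρ * √Δ) * N)) →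
      (∀ (S : Set Mom) [DecidablePred (· ∈ S)], 0 ∉ S → (∀ n ∈ S, -n ∈ S) →
        |(occE ψ (· ∈ S)).toReal - ∑' n : Mom, (if n ∈ S then
          (2 * Real.pi * scatLen m v * ρ / m /
            (1 / (2 * m) * (2 * Real.pi / ℓ) ^ 2 * (∑ a, (n a : ℝ) ^ 2) + Δ)) ^ 2 else 0)| ≤
          ε * (ρ / √Δ) * N) ∧
      |(N - (occE ψ (fun n => n = 0)).toReal) -
          √2 * Real.pi * scatLen m v ^ 2 * ρ / √(m * Δ) * N| ≤ ε * (ρ / √Δ) * N := by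
  obtain ⟨h1, h2⟩ := gapped hLAT hSL hSU hm hvm hv h0 he hne
  refine ⟨h1, fun ε hε => ?_⟩
  obtain ⟨K, M, δ, c, hK, hM, hδ, hc, h3⟩ := h2 ε hε
  refine ⟨K, M, δ, c, hK, hM, hδ, hc, fun ρ Δ hρ hKΔ hΔδ => ?_⟩
  obtain ⟨N₀, h4⟩ := h3 ρ Δ hρ hKΔ hΔδ
  refine ⟨N₀, fun N hN ℓ hℓ hNℓ D _ hD0 hDn hDl ψ hψ hψ1 hmin => ?_⟩
  exact (h4 N hN ℓ hℓ hNℓ D hD0 hDn hDl ψ hψ hψ1 hmin).2.2

end

end Pool.Agent.H751R2.LHY.G80
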