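import Pool.Agent.J6H80.BG.GapK

/-!
# Two-sided bounds for the depletion in the model with a gap of `k` chemical potentials
-/

set_option autoImplicit false

open MeasureTheory UnitAddTorus
open scoped ENNReal ContDiff

namespace Pool.Agent.H751R2.LHY.G80

open Pool.Agent.J6H80.BG

noncomputable section

/-- the numbers of excited particles with low and with high momenta -/
lemma depl_split {N : ℕ} {ψ : Cfg N → ℂ} (hψ : MemLp ψ 2) (hψ1 : ∫ x, ‖ψ x‖ ^ 2 = 1)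
    (P : Mom → Prop) [DecidablePred P] (hP0 : P 0) :
    (N : ℝ) - (occE ψ (fun n => n = 0)).toReal =
      (occE ψ (fun n => n ≠ 0 ∧ P n)).toReal + (occE ψ (fun n => ¬ P n)).toReal := by
  classical
  have hN0 : (0 : ℝ) ≤ N := Nat.cast_nonneg N
  have hsplit := occE_split hψ hψ1
  have hf1 := occE_fin hψ hψ1 (fun n => n = 0)
  have hf2 := occE_fin hψ hψ1 (fun n => n ≠ 0)
  have h2 : (occE ψ (fun n => n = 0)).toReal + (occE ψ (fun n => n ≠ 0)).toReal = N := by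
    rw [← ENNReal.toReal_add hf1 hf2, hsplit, ENNReal.toReal_ofReal hN0]
  have h3 : occE ψ (fun n => n ≠ 0) = occE ψ (fun n => n ≠ 0 ∧ P n) + occE ψ (fun n => ¬ P n) := by
    refine occE_add ψ _ _ _ (fun n h => ?_) (fun n => ?_)
    · exact not_not.2 h.2
    · constructor
      · intro h
        by_cases hp : P n
        · exact Or.inl ⟨h, hp⟩
        · exact Or.inr hp
      · rintro (h | h)
        · exact h.1
        · intro h0
          exact h (h0 ▸ hP0)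
  rw [h3, ENNReal.toReal_add (occE_fin hψ hψ1 _) (occE_fin hψ hψ1 _)] at h2
  linarith

theorem gapF (hSU : S_SU) (hTU : S_TU) (hGMU : S_GMU) (hEUK : S_EUK) {m : ℝ} (hm : 0 < m)
    {v : (Fin 3 → ℝ) → ℝ}
    (hvm : Measurable v) (hv : Integrable v) (h0 : ∀ x, 0 ≤ v x) (he : ∀ x, v (-x) = v x)
    (hne : 0 < ∫ x, v x) {k y ε : ℝ} (hk : 0 ≤ k) (hy : 0 < y) (hky : k ≠ y + 1 + 1 / (4 * y))
    (hε : 0 < ε) :
    ∃ c M ρ₀ : ℝ, 0 < c ∧ 0 < M ∧ 0 < ρ₀ ∧
      ∀ ρ : ℝ, 0 < ρ → ρ ≤ ρ₀ →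
      ∃ N₀ : ℕ, ∀ N : ℕ, N₀ ≤ N → ∀ ℓ : ℝ, 0 < ℓ → (N : ℝ) = ρ * ℓ ^ 3 →
      ∀ (D : Set Mom) [DecidablePred (· ∈ D)], 0 ∉ D →
      (∀ n : Mom, n ≠ 0 →
        (2 * Real.pi / ℓ) ^ 2 * (∑ a, (n a : ℝ) ^ 2) ≤ M * ρ * scatLen m v → n ∈ D) →
      ∀ ψ : Cfg N → ℂ, MemLp ψ 2 → ∫ x, ‖ψ x‖ ^ 2 = 1 →
      (∀ φ : Cfg N → ℂ, MemLp φ 2 → ∫ x, ‖φ x‖ ^ 2 = 1 →
        gapE m v ℓ (k * (4 * Real.pi * scatLen m v * ρ / m)) D ψ ≤
          gapE m v ℓ (k * (4 * Real.pi * scatLen m v * ρ / m)) D φ +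
          ENNReal.ofReal (c * (ρ * √ρ) * N)) →
      (k < y + 1 + 1 / (4 * y) →
        ((√(8 * Real.pi * y) - √(8 * Real.pi * k + 4 * m * (∫ x, v x) / scatLen m v)) /
          (2 * (y + 1 + 1 / (4 * y) - k)) - ε) * √(ρ * scatLen m v ^ 3) * N ≤
        N - (occE ψ (fun n => n = 0)).toReal) ∧
      (y + 1 + 1 / (4 * y) < k →
        N - (occE ψ (fun n => n = 0)).toReal ≤
        ((√(8 * Real.pi * k + 4 * m * (∫ x, v x) / scatLen m v) - √(8 * Real.pi * y)) /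
          (2 * (k - (y + 1 + 1 / (4 * y)))) + ε) * √(ρ * scatLen m v ^ 3) * N) := by
  have hPi := Real.pi_pos
  have hG0 : 0 < scatG m v := scatG_pos hSU hm hvm hv h0 he hne
  have ha0 : 0 < scatLen m v := by rw [scatLen]; positivity
  have hgap : ∀ ρ : ℝ, 4 * Real.pi * scatLen m v * ρ / m = ρ * scatG m v := by
    intro ρ
    rw [scatLen]; field_simp
  have hlam : 8 * Real.pi * k + 4 * m * (∫ x, v x) / scatLen m v =
      8 * Real.pi * (k + 2 * (∫ x, v x) / scatG m v) := by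
    rw [scatLen]; field_simp; ring
  simp only [hgap, hlam]
  obtain ⟨x, hx⟩ : ∃ x, x = √(8 * Real.pi * y) -
    √(8 * Real.pi * (k + 2 * (∫ x, v x) / scatG m v)) := ⟨_, rfl⟩
  obtain ⟨δ, hδ⟩ : ∃ δ, δ = |y + 1 + 1 / (4 * y) - k| := ⟨_, rfl⟩
  have hδ0 : 0 < δ := by
    rw [hδ]
    exact abs_pos.2 (sub_ne_zero.2 (Ne.symm hky))
  obtain ⟨e, hee⟩ : ∃ e, e = min (δ / 2) (ε * δ / (|x| / (2 * δ) + 1 / 2 + ε)) := ⟨_, rfl⟩
  have hden : 0 < |x| / (2 * δ) + 1 / 2 + ε := by positivity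
  have he0 : 0 < e := by rw [hee]; exact lt_min (by positivity) (by positivity)
  have heδ : e ≤ δ / 2 := by rw [hee]; exact min_le_left _ _
  have hex : e * (|x| / (2 * δ) + 1 / 2 + ε) ≤ ε * δ := by
    have : e ≤ ε * δ / (|x| / (2 * δ) + 1 / 2 + ε) := by rw [hee]; exact min_le_right _ _
    rwa [le_div_iff₀ hden] at this
  obtain ⟨c, kap, M₀, ρ₀, hc, hkap, hM₀, hρ₀, H⟩ := gapK hSU hTU hGMU hEUK hm hvm hv h0 he hne
    (k := k) (y := y) (ε := e) hk hy he0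
  obtain ⟨M, hM⟩ : ∃ M, M = max M₀ ((δ / kap) ^ 2) := ⟨_, rfl⟩
  have hMM₀ : M₀ ≤ M := by rw [hM]; exact le_max_left _ _
  have hMk : δ ≤ kap * √M := by
    have h1 : δ / kap ≤ √M := Real.le_sqrt_of_sq_le (by rw [hM]; exact le_max_right _ _)
    rw [div_le_iff₀ hkap] at h1
    linarith
  refine ⟨c, M, ρ₀, hc, by linarith, hρ₀, fun ρ hρ hρρ => ?_⟩
  obtain ⟨N₀, H1⟩ := H ρ hρ hρρ M hMM₀
  refine ⟨N₀, fun N hN ℓ hℓ hNℓ D _ hD0 hDl ψ hψ hψ1 hmin => ?_⟩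
  have h1 := H1 N hN ℓ hℓ hNℓ D hD0 hDl ψ hψ hψ1 hmin
  have hP0 : (2 * Real.pi / ℓ) ^ 2 * sq (0 : Mom) ≤ M * ρ * scatLen m v := by
    have : sq (0 : Mom) = 0 := by simp [sq]
    have hM0 : 0 < M := by linarith
    rw [this, mul_zero]
    positivity
  have hN1 := depl_split hψ hψ1
    (fun n => (2 * Real.pi / ℓ) ^ 2 * sq n ≤ M * ρ * scatLen m v) hP0
  rw [hN1]
  rw [← hx] at h1 ⊢
  have hxneg : √(8 * Real.pi * (k + 2 * (∫ x, v x) / scatG m v)) - √(8 * Real.pi * y) = -x := by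
    rw [hx]; ring
  rw [hxneg]
  set OL : ℝ := (occE ψ (fun n => n ≠ 0 ∧
    (2 * Real.pi / ℓ) ^ 2 * sq n ≤ M * ρ * scatLen m v)).toReal
  set OH : ℝ := (occE ψ (fun n =>
    ¬ (2 * Real.pi / ℓ) ^ 2 * sq n ≤ M * ρ * scatLen m v)).toReal
  have hOL : 0 ≤ OL := ENNReal.toReal_nonneg
  have hOH : 0 ≤ OH := ENNReal.toReal_nonneg
  obtain ⟨Y, hY⟩ : ∃ Y, Y = √(ρ * scatLen m v ^ 3) * N := ⟨_, rfl⟩
  have hY0 : 0 ≤ Y := by rw [hY]; positivity
  have hxa := le_abs_self x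
  have hxb := neg_abs_le x
  have hkH : δ * OH ≤ kap * √M * OH := mul_le_mul_of_nonneg_right hMk hOH
  have h2 : (x - e) / 2 * Y + kap * √M * OH ≤ (y + 1 + 1 / (4 * y) - k + e) * OL := by
    rw [hY, ← mul_assoc]; exact h1
  refine ⟨fun hlt => ?_, fun hlt => ?_⟩
  · have hδe : δ = y + 1 + 1 / (4 * y) - k := by rw [hδ, abs_of_pos (by linarith)]
    rw [← hδe] at h2 ⊢
    rw [mul_assoc, ← hY]
    have h3 : (δ + e) * ((x / (2 * δ) - ε) * Y) ≤ (δ + e) * OL := by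
      have h4 : (δ + e) * (x / (2 * δ) - ε) ≤ (x - e) / 2 := by
        have h5 : (δ + e) * (x / (2 * δ) - ε) = x / 2 + e * (x / (2 * δ)) - ε * δ - e * ε := by
          field_simp
          ring
        have h6 : e * (x / (2 * δ)) ≤ e * (|x| / (2 * δ)) :=
          mul_le_mul_of_nonneg_left (div_le_div_of_nonneg_right hxa (by positivity)) he0.le
        rw [h5]
        have h7 : 0 < e * ε := by positivity
        linarith
      have h8 := mul_le_mul_of_nonneg_right h4 hY0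
      have h9 : 0 ≤ kap * √M * OH := by positivity
      linarith
    have h10 := le_of_mul_le_mul_left h3 (by linarith)
    linarith
  · have hδe : δ = k - (y + 1 + 1 / (4 * y)) := by
      rw [hδ, abs_of_neg (by linarith)]; ring
    have h2' : (x - e) / 2 * Y + δ * OH ≤ (-δ + e) * OL := by
      have : y + 1 + 1 / (4 * y) - k + e = -δ + e := by rw [hδe]; ring
      rw [this] at h2
      linarith
    rw [← hδe, mul_assoc, ← hY]
    have h3 : (δ - e) * (OL + OH) ≤ (δ - e) * ((-x / (2 * δ) + ε) * Y) := by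
      have h4 : (e - x) / 2 ≤ (δ - e) * (-x / (2 * δ) + ε) := by
        have h5 : (δ - e) * (-x / (2 * δ) + ε) = -x / 2 + e * (x / (2 * δ)) + ε * δ - e * ε := by
          field_simp
          ring
        have h6 : e * (-|x| / (2 * δ)) ≤ e * (x / (2 * δ)) :=
          mul_le_mul_of_nonneg_left (div_le_div_of_nonneg_right hxb (by positivity)) he0.le
        have h7 : e * (-|x| / (2 * δ)) = -(e * (|x| / (2 * δ))) := by ring
        rw [h5]
        linarith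
      have h8 := mul_le_mul_of_nonneg_right h4 hY0
      have h9 : 0 ≤ e * OH := by positivity
      linarith
    exact le_of_mul_le_mul_left h3 (by linarith)

end

end Pool.Agent.H751R2.LHY.G80
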