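import Pool.Agent.J6H80.BG.Stm5

/-!
# Statement of a module: the energy of the ground state in the model with a gap of order `ρ`

Target (MP_4952d6_mp): condensation with the rate of Lee, Huang and Yang for `H_N + k ρ g N_D`,
`g = 4 π a / m`, for every `k > 2`.
-/

set_option autoImplicit false

open MeasureTheory UnitAddTorus
open scoped ENNReal ContDiff

namespace Pool.Agent.J6H80.BG

open Pool.Agent.H751R2.LHY Pool.Agent.H751R2.LHY.G80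

noncomputable section

/-- EUK. `S_EU` with the additional energy `K ρ` for every particle with nonzero momentum (module
with hypothesis `S_UP`; for `K = 0` it is `S_EU`).

Proof: adapt `Pool/Agent/J6H8/BG/EU.lean` (`trialE`, `eu`, for `K = 0`). Put `V1 = V0 + K / 2` and
take `μ = (2 + θ) ρ V1` and `S = √(2 ρ V1)` (`2 ρ V1 = 2 ρ V0 + K ρ`) in the place of `(2 + θ) ρ V0` and
`√(2 ρ V0)`; only `∫ Wr v ℓ = V0 / ℓ³` keeps `V0`. In `trialE` replace the hypothesis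
`μ = (2 + θ) s` by `Δ + (2 + θ) s ≤ μ`, `Δ = K ρ`, and apply `upperW` to
`κ n = q |n|² + (if n = 0 then 0 else Δ)`: `kinG B a κ` is `kinF B a q` plus `Δ` times the sum of the
`occ B a n` over `n ≠ 0` (see `trialG` in `Pool/Agent/J6H80/BG/Cor1.lean` and `enG_trig`), and
`2 Δ ω + 4 s ω (1 + N ω) ≤ 2 μ ω`. -/
def S_EUK : Prop :=
  ∀ m : ℝ, 0 < m → ∀ v : (Fin 3 → ℝ) → ℝ, Measurable v → Integrable v → (∀ x, 0 ≤ v x) →
    (∀ x, v (-x) = v x) → 0 < ∫ x, v x → ∀ K : ℝ, 0 ≤ K → ∀ ε : ℝ, 0 < ε → ∃ ρ₀ : ℝ, 0 < ρ₀ ∧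
      ∀ ρ : ℝ, 0 < ρ → ρ ≤ ρ₀ → ∃ N₀ : ℕ, ∀ N : ℕ, N₀ ≤ N → ∀ ℓ : ℝ, 0 < ℓ → (N : ℝ) = ρ * ℓ ^ 3 →
      ∃ φ : Cfg N → ℂ, MemLp φ 2 ∧ ∫ x, ‖φ x‖ ^ 2 = 1 ∧
        kinE (1 / (2 * m) * (2 * Real.pi / ℓ) ^ 2) φ + potE (perPot v ℓ) φ +
            ENNReal.ofReal (K * ρ) * occE φ (fun n => n ≠ 0) ≤
          ENNReal.ofReal (ρ / 2 * (scatG m v +
            (scatG m v ^ 2 * Real.pi ^ 2 / P0 (1 / (2 * m)) + ε) *
              √(2 * ρ * (∫ x, v x) + K * ρ)) * N)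

end

end Pool.Agent.J6H80.BG
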