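import Pool.Agent.J6H80.BG.UnivM

/-!
# The energy and the numbers of excited particles with low and with high momenta
-/

set_option autoImplicit false

open MeasureTheory UnitAddTorus
open scoped ComplexConjugate ENNReal ContDiff

namespace Pool.Agent.H751R2.LHY.G80

open Pool.Agent.J6H80.BG Pool.Agent.H751R2.LHY.ClipH44

noncomputable section

theorem univL0 (hTU : S_TU) (hGMU : S_GMU) {m : ℝ} (hm : 0 < m)
    {V : (Fin 3 → ℝ) → ℝ≥0∞} (hVm : Measurable V) {R₀ : ℝ}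
    (hVt : ∫⁻ x in {x | R₀ < ‖x‖}, V x ≠ ⊤) {G : ℝ} (hG0 : 0 < G)
    (hsup : ∀ w, Cls V w → scatG m w ≤ G)
    (hlim : ∀ ε : ℝ, 0 < ε → ∃ w, Cls V w ∧ G ≤ scatG m w + ε)
    {a : ℝ} (ha : a = m / (4 * Real.pi) * G)
    {y ε : ℝ} (hy : 0 < y) (hε : 0 < ε) :
    ∃ kap M₀ ρ₀ : ℝ, 0 < kap ∧ 0 < M₀ ∧ 0 < ρ₀ ∧ ∀ ρ : ℝ, 0 < ρ → ρ ≤ ρ₀ → ∀ M : ℝ, M₀ ≤ M →
      ∃ N₀ : ℕ, ∀ N : ℕ, N₀ ≤ N → ∀ ℓ : ℝ, 0 < ℓ → (N : ℝ) = ρ * ℓ ^ 3 →
      ∀ ψ : Cfg N → ℂ, MemLp ψ 2 → ∫ x, ‖ψ x‖ ^ 2 = 1 →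
      kinE (1 / (2 * m) * (2 * Real.pi / ℓ) ^ 2) ψ + potE (perE V ℓ) ψ ≠ ⊤ →
      ρ * G / 2 * (1 + (√(8 * Real.pi * y) - 2 * ε) * √(ρ * a ^ 3)) * N +
        kap * √M * (ρ * G / 2) *
          (occE ψ (fun n => ¬ (2 * Real.pi / ℓ) ^ 2 * sq n ≤ M * ρ * a)).toReal ≤
        (kinE (1 / (2 * m) * (2 * Real.pi / ℓ) ^ 2) ψ + potE (perE V ℓ) ψ).toReal +
        ρ * G * (y + 1 + 1 / (4 * y) + ε) *
          (occE ψ (fun n => n ≠ 0 ∧ (2 * Real.pi / ℓ) ^ 2 * sq n ≤ M * ρ * a)).toReal := by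
  have hPi := Real.pi_pos
  obtain ⟨b, hb⟩ : ∃ b, b = 1 / (2 * m) := ⟨_, rfl⟩
  have hb0 : 0 < b := by rw [hb]; positivity
  have hp := P0_pos hb0
  have ha0 : 0 < a := by rw [ha]; positivity
  obtain ⟨B, hB⟩ : ∃ B, B = y + 1 + 1 / (4 * y) := ⟨_, rfl⟩
  have hB1 : 1 ≤ B := by
    have : 0 < 1 / (4 * y) := by positivity
    rw [hB]; linarith
  rw [← hB]
  -- the small parameters
  obtain ⟨e3, he3⟩ : ∃ e3, e3 = min G (G * ε / 3 / (3 / (4 * y) + 1)) := ⟨_, rfl⟩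
  have he30 : 0 < e3 := by rw [he3]; exact lt_min hG0 (by positivity)
  have he3G : e3 ≤ G := by rw [he3]; exact min_le_left _ _
  have he3x : e3 * (3 / (4 * y) + 1) ≤ G * ε / 3 := by
    have : e3 ≤ G * ε / 3 / (3 / (4 * y) + 1) := by rw [he3]; exact min_le_right _ _
    rwa [le_div_iff₀ (by positivity)] at this
  obtain ⟨Lc, hLc⟩ : ∃ Lc, Lc = y * G + (G + e3) ^ 2 / (4 * (y * G)) + (G + e3) := ⟨_, rfl⟩
  have hLcG : G ≤ Lc := by
    have : 0 < y * G + (G + e3) ^ 2 / (4 * (y * G)) := by positivity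
    rw [hLc]; linarith
  have hLcB' : G * B ≤ Lc := by
    have k1 : G / (4 * y) ≤ (G + e3) ^ 2 / (4 * (y * G)) := by
      rw [div_le_div_iff₀ (by positivity) (by positivity)]
      have k2 : G ^ 2 ≤ (G + e3) ^ 2 := by nlinarith
      calc G * (4 * (y * G)) = G ^ 2 * (4 * y) := by ring
        _ ≤ (G + e3) ^ 2 * (4 * y) := mul_le_mul_of_nonneg_right k2 (by positivity)
    have k3 : G * B = y * G + G + G / (4 * y) := by rw [hB]; field_simp
    rw [hLc, k3]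
    linarith
  have hLcB : Lc ≤ G * B + G * ε / 3 := by
    have k1 : (G + e3) ^ 2 / (4 * (y * G)) ≤ G / (4 * y) + e3 * (3 / (4 * y)) := by
      rw [div_le_iff₀ (by positivity)]
      have k2 : (G / (4 * y) + e3 * (3 / (4 * y))) * (4 * (y * G)) = G ^ 2 + 3 * e3 * G := by
        field_simp
      rw [k2]
      nlinarith
    have k3 : G * B = y * G + G + G / (4 * y) := by rw [hB]; field_simp
    rw [hLc, k3]
    linarith
  obtain ⟨e2, he2⟩ : ∃ e2, e2 = 2 * G * ε / (3 * √(y * G / a ^ 3)) := ⟨_, rfl⟩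
  have hsy : 0 < √(y * G / a ^ 3) := Real.sqrt_pos.2 (by positivity)
  have he20 : 0 < e2 := by rw [he2]; positivity
  obtain ⟨δ1, hδ1, hGM1⟩ := hGMU m hm V hVm R₀ hVt G hG0 e2 he20
  obtain ⟨δ2, hδ2, hTU1⟩ := hTU m hm G hG0 (e3 / 2) (by positivity) (by linarith)
  obtain ⟨ρ₀, hρ₀⟩ : ∃ ρ₀, ρ₀ = min (δ1 / (y * G)) (δ2 / (y * G)) := ⟨_, rfl⟩
  have hLc00 : 0 < Lc := by linarith
  obtain ⟨k0, hk0⟩ : ∃ k0, k0 = ε / (2304 * Real.pi) := ⟨_, rfl⟩
  have hk00 : 0 < k0 := by rw [hk0]; positivity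
  have hk01 : 128 * Real.pi * k0 = ε / 18 := by rw [hk0]; field_simp; norm_num
  obtain ⟨r0, hr0⟩ : ∃ r0, r0 = 2304 * Real.pi * (y + 4) / ε + 32 * Real.pi * k0 +
    128 * Real.pi := ⟨_, rfl⟩
  have hr00 : 0 < r0 := by rw [hr0]; positivity
  refine ⟨2 * k0, r0 ^ 2, ρ₀, by positivity, by positivity,
    by rw [hρ₀]; exact lt_min (by positivity) (by positivity), fun ρ hρ hρρ M hM => ?_⟩
  obtain ⟨r, hr⟩ : ∃ r, r = √M := ⟨_, rfl⟩
  have hr1 : r0 ≤ r := by rw [hr]; exact Real.le_sqrt_of_sq_le hM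
  have hr2 : 0 < r := by linarith
  have hMr : M = r ^ 2 := by
    rw [hr]; exact (Real.sq_sqrt ((sq_nonneg r0).trans hM)).symm
  have hr3 : 128 * Real.pi * (y + k0 * r + 4) ≤ ε / 9 * r := by
    have j1 : 2304 * Real.pi * (y + 4) / ε ≤ r := by
      have : 0 < 32 * Real.pi * k0 + 128 * Real.pi := by positivity
      linarith
    rw [div_le_iff₀ hε] at j1
    have j2 : 128 * Real.pi * (y + k0 * r + 4) = 2304 * Real.pi * (y + 4) / 18 +
        128 * Real.pi * k0 * r := by ring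
    rw [j2, hk01]
    linarith
  have hr4 : 2 * (k0 * r + 4) ≤ r ^ 2 / (8 * Real.pi) := by
    rw [le_div_iff₀ (by positivity)]
    have j1 : 32 * Real.pi * k0 ≤ r := by
      have : 0 < 2304 * Real.pi * (y + 4) / ε + 128 * Real.pi := by positivity
      linarith
    have j2 : 128 * Real.pi ≤ r := by
      have : 0 < 2304 * Real.pi * (y + 4) / ε + 32 * Real.pi * k0 := by positivity
      linarith
    have j3 : 1 ≤ r := by
      have : 3 < Real.pi := Real.pi_gt_three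
      linarith
    have j4 : 32 * Real.pi * k0 * r ≤ r * r := mul_le_mul_of_nonneg_right j1 hr2.le
    have j5 : 128 * Real.pi ≤ r * r := by nlinarith
    nlinarith
  rw [← hr]
  obtain ⟨μ, hμd⟩ : ∃ μ, μ = y * ρ * G := ⟨_, rfl⟩
  have hμ0 : 0 < μ := by rw [hμd]; positivity
  have hyG : 0 < y * G := by positivity
  have hμ1 : μ ≤ δ1 := by
    have : ρ ≤ δ1 / (y * G) := hρρ.trans (by rw [hρ₀]; exact min_le_left _ _)
    rw [le_div_iff₀ hyG] at this
    rw [hμd]; linarith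
  have hμ2 : μ ≤ δ2 := by
    have : ρ ≤ δ2 / (y * G) := hρρ.trans (by rw [hρ₀]; exact min_le_right _ _)
    rw [le_div_iff₀ hyG] at this
    rw [hμd]; linarith
  obtain ⟨Z, hZ⟩ : ∃ Z, Z = √(ρ * a ^ 3) := ⟨_, rfl⟩
  have hZ0 : 0 < Z := by rw [hZ]; exact Real.sqrt_pos.2 (by positivity)
  rw [← hZ]
  -- the choice of the integrable potential
  have hs8 : 0 ≤ √(8 * Real.pi * y) := Real.sqrt_nonneg _
  obtain ⟨θ, hθ⟩ : ∃ θ, θ = min (G / 2) (G * ε * Z / (9 * (1 + 2 * √(8 * Real.pi * y) * Z))) :=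
    ⟨_, rfl⟩
  have hθ0 : 0 < θ := by rw [hθ]; exact lt_min (by positivity) (by positivity)
  have hθG : θ ≤ G / 2 := by rw [hθ]; exact min_le_left _ _
  have hθZ : θ * (1 + 2 * √(8 * Real.pi * y) * Z) ≤ G * ε * Z / 9 := by
    have h1 : θ ≤ G * ε * Z / (9 * (1 + 2 * √(8 * Real.pi * y) * Z)) := by
      rw [hθ]; exact min_le_right _ _
    rw [le_div_iff₀ (by positivity)] at h1
    linarith
  obtain ⟨w, hw, hGw⟩ := hlim θ hθ0
  have hwG := hsup w hw
  obtain ⟨L1, hL1, hGM2⟩ := hGM1 w hw (by linarith) hwG μ hμ0 hμ1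
  obtain ⟨L2, hL2, hTU2⟩ := hTU1 w hw.meas hw.int hw.nonneg hw.even hwG μ hμ0 hμ2
  -- the energy of second order
  have hsec := second_eq (y := y) hm hG0 hρ hy
  rw [← hb, ← ha, ← hμd, ← hZ] at hsec
  have hsμ : √μ = √(y * G / a ^ 3) * Z := by
    rw [hZ, hμd, ← Real.sqrt_mul (by positivity)]
    congr 1
    field_simp
  have he2μ : e2 * √μ = 2 * G * ε / 3 * Z := by
    rw [he2, hsμ]; field_simp
  obtain ⟨g2, hg2⟩ : ∃ g2, g2 = G + G * (√(8 * Real.pi * y) * Z) - 7 * G * ε / 9 * Z := ⟨_, rfl⟩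
  have hg2w : g2 ≤ scatG m w + (scatG m w ^ 2 * Real.pi ^ 2 / P0 b - e2) * √μ := by
    have k1 : G ^ 2 - 2 * G * θ ≤ scatG m w ^ 2 := by nlinarith
    have k2 : 0 ≤ Real.pi ^ 2 / P0 b * √μ := by positivity
    have k3 := mul_le_mul_of_nonneg_right k1 k2
    have k4 : G ^ 2 * (Real.pi ^ 2 / P0 b * √μ) = G * (√(8 * Real.pi * y) * Z) := by
      rw [← hsec]; ring
    have k5 : G * (G * (Real.pi ^ 2 / P0 b * √μ)) = G * (√(8 * Real.pi * y) * Z) := by
      rw [← k4]; ring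
    have k6 : G * (Real.pi ^ 2 / P0 b * √μ) = √(8 * Real.pi * y) * Z :=
      mul_left_cancel₀ hG0.ne' k5
    have k7 : (G ^ 2 - 2 * G * θ) * (Real.pi ^ 2 / P0 b * √μ) =
        G * (√(8 * Real.pi * y) * Z) - 2 * θ * (√(8 * Real.pi * y) * Z) := by
      rw [sub_mul, k4]
      have : 2 * G * θ * (Real.pi ^ 2 / P0 b * √μ) = 2 * θ * (G * (Real.pi ^ 2 / P0 b * √μ)) := by
        ring
      rw [this, k6]
    have k8 : (scatG m w ^ 2 * Real.pi ^ 2 / P0 b - e2) * √μ =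
        scatG m w ^ 2 * (Real.pi ^ 2 / P0 b * √μ) - 2 * G * ε / 3 * Z := by
      rw [sub_mul, he2μ]; ring
    rw [k8, hg2]
    rw [k7] at k3
    have k9 : θ * (1 + 2 * √(8 * Real.pi * y) * Z) = θ + 2 * θ * (√(8 * Real.pi * y) * Z) := by ring
    rw [k9] at hθZ
    linarith
  -- the lattice sum at high momenta
  obtain ⟨P1, hP1⟩ : ∃ P1, P1 = r ^ 2 * ρ * G / (8 * Real.pi) := ⟨_, rfl⟩
  have hP10 : 0 < P1 := by rw [hP1]; positivity
  have hsP1 : 0 < √P1 := Real.sqrt_pos.2 hP10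
  obtain ⟨q1, hq1, hlat⟩ := Pool.Agent.J6H48.BG.lat P1 hP10 (Real.pi ^ 2 / √P1) (by positivity)
  obtain ⟨L3, hL3, hL3'⟩ := q_small hb0 hq1
  obtain ⟨N₀, hN₀⟩ := exists_nat_ge (ρ * (L1 + L2 + L3) ^ 3 + 3 * |g2| / (2 * (G * ε * Z)))
  refine ⟨N₀ + 1, fun N hN ℓ hℓ hNℓ ψ hψ hψ1 hE => ?_⟩
  have hN1 : 1 ≤ N := by omega
  have hNr : (1 : ℝ) ≤ N := by exact_mod_cast hN1
  have hN0 : (0 : ℝ) < N := by linarith
  have hNN₀ : (N₀ : ℝ) ≤ N := by exact_mod_cast (by omega : N₀ ≤ N)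
  have hpos1 : 0 ≤ 3 * |g2| / (2 * (G * ε * Z)) := by positivity
  have hℓL : L1 + L2 + L3 ≤ ℓ := by
    by_contra h
    push Not at h
    have h1 : ρ * (L1 + L2 + L3) ^ 3 ≤ ρ * ℓ ^ 3 := by
      rw [← hNℓ]; linarith
    have h2 : ℓ ^ 3 < (L1 + L2 + L3) ^ 3 := pow_lt_pow_left₀ h hℓ.le (by norm_num)
    have h3 := mul_lt_mul_of_pos_left h2 hρ
    linarith
  have hNg : 3 * |g2| ≤ 2 * (G * ε * Z) * N := by
    have h1 : 3 * |g2| / (2 * (G * ε * Z)) ≤ N := by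
      have : 0 ≤ ρ * (L1 + L2 + L3) ^ 3 := by positivity
      linarith
    rw [div_le_iff₀ (by positivity)] at h1
    linarith
  -- the torus
  have hWp := Wr_pot hw.meas hw.int hw.even hℓ
  have hWm := Wr_meas hw.meas ℓ
  obtain ⟨q, hq⟩ : ∃ q, q = b * (2 * Real.pi / ℓ) ^ 2 := ⟨_, rfl⟩
  have hq0 : 0 < q := by rw [hq]; positivity
  have hPeq : ∀ n : Mom, ((2 * Real.pi / ℓ) ^ 2 * sq n ≤ M * ρ * a) = (q * sq n ≤ P1) := by
    intro n
    have h1 : q * sq n = b * ((2 * Real.pi / ℓ) ^ 2 * sq n) := by rw [hq]; ring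
    have h2 : P1 = b * (M * ρ * a) := by
      rw [hP1, hb, ha, hMr]; field_simp; norm_num
    rw [h1, h2]
    exact propext (mul_le_mul_iff_right₀ hb0).symm
  simp only [hPeq]
  set OL : ℝ := (occE ψ (fun n => n ≠ 0 ∧ q * sq n ≤ P1)).toReal with hOL
  set OH : ℝ := (occE ψ (fun n => ¬ q * sq n ≤ P1)).toReal with hOH
  obtain ⟨hs1, hb1⟩ := hlat q hq0 (by rw [hq]; exact hL3' ℓ (by linarith))
  have hκ : ∀ n, 0 ≤ q * sq n := fun n => mul_nonneg hq0.le (sq_nonneg' n)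
  have hcong : potE (fun y => ENNReal.ofReal (Wr w ℓ y)) ψ =
      potE (perPot w ℓ) ψ := (potE_congr (perPot_ae hw.meas hw.int hℓ) ψ).symm
  have hEV : potE (fun y => ENNReal.ofReal (Wr w ℓ y)) ψ ≤ potE (perE V ℓ) ψ := by
    rw [hcong]
    exact potE_mono (fun y => perPot_le hw ℓ y) ψ
  obtain ⟨K1, hK1⟩ := hGM2 ℓ (by linarith)
  have hR0 := hTU2 ℓ (by linarith)
  rw [← hb, ← hq] at hK1 hR0
  rw [← hb, ← hq] at hE ⊢
  have hEle := add_le_add (le_refl (kinE q ψ)) hEV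
  have hEtop : kinE q ψ + potE (fun y => ENNReal.ofReal (Wr w ℓ y)) ψ ≠ ⊤ :=
    ne_top_of_le_ne_top hE hEle
  have hE1 : (kinE q ψ + potE (fun y => ENNReal.ofReal (Wr w ℓ y)) ψ).toReal ≤
      (kinE q ψ + potE (perE V ℓ) ψ).toReal := ENNReal.toReal_mono hE hEle
  have hLpos : 0 ≤ ρ * Lc := by
    have : 0 < Lc := by linarith
    positivity
  have hℓ3 : 0 < ℓ ^ 3 := by positivity
  obtain ⟨γ, hγ⟩ : ∃ γ, γ = ρ * (G + e3) := ⟨_, rfl⟩
  have hγ0 : 0 < γ := by rw [hγ]; positivity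
  have hγ2 : γ ≤ 2 * (ρ * G) := by
    rw [hγ]
    have := mul_le_mul_of_nonneg_left he3G hρ.le
    linarith
  obtain ⟨s, hs⟩ : ∃ s, s = k0 * r * (ρ * G) := ⟨_, rfl⟩
  have hs0 : 0 < s := by rw [hs]; positivity
  have hsP : 2 * (s + 2 * γ) ≤ P1 := by
    have j1 : P1 = r ^ 2 / (8 * Real.pi) * (ρ * G) := by rw [hP1]; ring
    have j2 := mul_le_mul_of_nonneg_right hr4 (by positivity : 0 ≤ ρ * G)
    rw [j1, hs]
    linarith
  obtain ⟨D, hD⟩ : ∃ D, D = μ + s + 2 * γ := ⟨_, rfl⟩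
  have hDμ : μ ≤ D := by linarith
  have hDP : 2 * (D - μ) ≤ P1 := by rw [hD]; linarith
  have hDle : D ≤ ρ * G * (y + k0 * r + 4) := by
    rw [hD, hs, hμd]; linarith
  have hcore := coreV hN1 hWp hWm (q := q) (μ := μ) (L := ρ * Lc) (s := s) (P1 := P1)
    (X0 := G * ε * ρ * Z / (9 * N)) (gm := g2 / ℓ ^ 3)
    hq0 hμ0 hLpos hP10.le (by positivity) hψ hψ1 hEtop ⟨K1, fun K hK hKn => by
      have hWKp : Pot (fun y => min (Wr w ℓ y) K) := pot_min hWp hKn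
      filter_upwards [hK1 K hK hKn, hR0 K hKn, pos_lim hWKp hKn (fun y => min_le_right _ _) hq0 hμ0
        (show 0 < e3 / 2 / ℓ ^ 3 by positivity)] with R hR1 hR2 hR3 c hc
      have hQ := scat_Q hWKp hc
      have hlo : g2 / ℓ ^ 3 ≤ gh (fun y => min (Wr w ℓ y) K) ((boxM R).erase 0) c 0 := by
        rw [hQ, div_le_iff₀ hℓ3]
        have := hR1 c
        linarith
      have hup : gh (fun y => min (Wr w ℓ y) K) ((boxM R).erase 0) c 0 ≤
          (G + e3 / 2) / ℓ ^ 3 := by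
        rw [le_div_iff₀ hℓ3]
        have h1 := hR2 c hc
        linarith
      have hga : ∀ n, |gh (fun y => min (Wr w ℓ y) K) ((boxM R).erase 0) c n| ≤
          (G + e3) / ℓ ^ 3 := by
        intro n
        have h7 := gh_abs_le hWKp ((boxM R).erase 0) c n
        have h8 := hR3 c hc
        have h9 : (G + e3) / ℓ ^ 3 = (G + e3 / 2) / ℓ ^ 3 + e3 / 2 / ℓ ^ 3 := by
          field_simp; ring
        rw [h9]
        linarith
      have hga2 : ∀ n, |gh (fun y => min (Wr w ℓ y) K) ((boxM R).erase 0) c n| ≤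
          2 * G / ℓ ^ 3 := by
        intro n
        refine (hga n).trans ?_
        rw [div_le_div_iff_of_pos_right hℓ3]
        linarith
      refine ⟨hlo, fun n => q * sq n + μ - if q * sq n ≤ P1 then 0 else D, fun n => ?_,
        fun n => ?_, ?_, fun n => ?_⟩
      · have h1 := hκ n
        change 0 < q * sq n + μ - if q * sq n ≤ P1 then 0 else D
        split_ifs with h2
        · linarith
        · push Not at h2
          linarith
      · simp only [Pool.Agent.H751R2.LHY.sq_neg]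
      · have h1 := sum_weight hq0 hμ0 hDμ hDP hc hga2
          (lat_high hb0 hℓ hP10 hq hs1 hb1 ((boxM R).erase 0))
        have h2 := coef_high (ε := ε) (D := D) (kap := k0) (y := y) (N := (N : ℝ)) (Z := Z) hm hG0
          hρ hr2 hℓ hNℓ (hZ.trans (by rw [ha])) hDle hr3
        rw [← hb, ← hP1] at h2
        exact h1.trans (add_le_add le_rfl h2)
      set g0 := gh (fun y => min (Wr w ℓ y) K) ((boxM R).erase 0) c 0 with hg0d
      have h6 := hga n
      set gn := gh (fun y => min (Wr w ℓ y) K) ((boxM R).erase 0) c n with hgnd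
      have hg0N : g0 * N ≤ γ := by
        have h1 := mul_le_mul_of_nonneg_right hup hN0.le
        have h2 : (G + e3 / 2) / ℓ ^ 3 * N = ρ * (G + e3 / 2) := by
          rw [hNℓ]; field_simp
        have : 0 < ρ * e3 := by positivity
        rw [hγ]
        linarith
      have h7 : |N * gn| ≤ γ := by
        rw [abs_mul, abs_of_pos hN0]
        have h8 := mul_le_mul_of_nonneg_left h6 hN0.le
        have h9 : (N : ℝ) * ((G + e3) / ℓ ^ 3) = γ := by
          rw [hNℓ, hγ]; field_simp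
        linarith
      have h8 : (N * gn) ^ 2 ≤ γ ^ 2 := by
        rw [← sq_abs (N * gn)]
        exact pow_le_pow_left₀ (abs_nonneg _) h7 2
      have h9 := hκ n
      by_cases h10 : q * sq n ≤ P1
      · simp only [if_pos h10, sub_zero]
        have hmain : (N * gn) ^ 2 / (4 * (q * sq n + μ)) ≤
            ρ * ((G + e3) ^ 2 / (4 * (y * G))) := by
          calc (N * gn) ^ 2 / (4 * (q * sq n + μ)) ≤ γ ^ 2 / (4 * μ) := by
                apply div_le_div₀ (sq_nonneg _) h8 (by positivity)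
                linarith
            _ = ρ * ((G + e3) ^ 2 / (4 * (y * G))) := by
                rw [hμd, hγ]; field_simp
        have hμρ : μ = ρ * (y * G) := by rw [hμd]; ring
        rw [hγ] at hg0N
        rw [hLc]
        linarith
      · simp only [if_neg h10]
        push Not at h10
        have hw : γ / 4 ≤ q * sq n + μ - D := by
          rw [hD]; linarith
        have hw0 : 0 < q * sq n + μ - D := by linarith
        have hmain : (N * gn) ^ 2 / (4 * (q * sq n + μ - D)) ≤ γ := by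
          rw [div_le_iff₀ (by positivity)]
          have : γ * γ ≤ γ * (4 * (q * sq n + μ - D)) :=
            mul_le_mul_of_nonneg_left (by linarith) hγ0.le
          linarith
        rw [hD] at hmain ⊢
        linarith⟩
  -- conclusion
  have hscal : (1 / 2) * (g2 / ℓ ^ 3) * ((N : ℝ) ^ 2 - N) = ρ / 2 * g2 * N - ρ / 2 * g2 := by
    rw [hNℓ]; field_simp
  rw [hscal] at hcore
  have habs : g2 ≤ |g2| := le_abs_self _
  have tX : G * ε * ρ * Z / (9 * N) * (N : ℝ) ^ 2 = ρ * (G * ε / 9 * (Z * N)) := by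
    field_simp
  rw [tX, hs] at hcore
  have hOL0 : 0 ≤ OL := ENNReal.toReal_nonneg
  have t1 : ρ * Lc * OL ≤ ρ * G * (B + ε) * OL := by
    have u1 : Lc ≤ G * (B + ε) := by
      have : 0 < G * ε := by positivity
      linarith
    have u2 : ρ * Lc ≤ ρ * G * (B + ε) := by
      calc ρ * Lc ≤ ρ * (G * (B + ε)) := mul_le_mul_of_nonneg_left u1 hρ.le
        _ = ρ * G * (B + ε) := by ring
    exact mul_le_mul_of_nonneg_right u2 hOL0
  have t5 : ρ / 2 * g2 * N = ρ * G / 2 * (1 + (√(8 * Real.pi * y) - 2 * ε) * Z) * N +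
      ρ * (11 * G * ε / 18 * (Z * N)) := by
    rw [hg2]; ring
  have t6 : ρ / 2 * g2 ≤ ρ * (G * ε / 3 * (Z * N)) := by
    have t7 : g2 ≤ 2 * (G * ε * Z) * N / 3 := by linarith
    have t8 := mul_le_mul_of_nonneg_left t7 (by positivity : 0 ≤ ρ / 2)
    linarith
  have t9 : 0 ≤ ρ * (G * ε * (Z * N)) := by positivity
  have t10 : 2 * k0 * r * (ρ * G / 2) * OH = k0 * r * (ρ * G) * OH := by ring
  rw [t10]
  linarith

end

end Pool.Agent.H751R2.LHY.G80
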