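import Pool.Agent.J6H80.BG.HcM
import Pool.Agent.J6H80.BG.UnivL
import Pool.Agent.J6H80.BG.ConM
import Pool.Agent.J6H80.BG.Stm6
import Pool.Agent.J6H80.BG.Fin2

/-!
# The model with a gap of `k` chemical potentials: two-sided bounds for the depletion
-/

set_option autoImplicit false

open MeasureTheory UnitAddTorus
open scoped ENNReal ContDiff

namespace Pool.Agent.H751R2.LHY.G80

open Pool.Agent.J6H80.BG

noncomputable section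

/-- the energy inequality for an integrable potential -/
theorem softL (hSU : S_SU) (hTU : S_TU) (hGMU : S_GMU) {m : ℝ} (hm : 0 < m)
    {v : (Fin 3 → ℝ) → ℝ}
    (hvm : Measurable v) (hv : Integrable v) (h0 : ∀ x, 0 ≤ v x) (he : ∀ x, v (-x) = v x)
    (hne : 0 < ∫ x, v x) {y ε : ℝ} (hy : 0 < y) (hε : 0 < ε) :
    ∃ kap M₀ ρ₀ : ℝ, 0 < kap ∧ 0 < M₀ ∧ 0 < ρ₀ ∧ ∀ ρ : ℝ, 0 < ρ → ρ ≤ ρ₀ → ∀ M : ℝ, M₀ ≤ M →
      ∃ N₀ : ℕ, ∀ N : ℕ, N₀ ≤ N → ∀ ℓ : ℝ, 0 < ℓ → (N : ℝ) = ρ * ℓ ^ 3 →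
      ∀ ψ : Cfg N → ℂ, MemLp ψ 2 → ∫ x, ‖ψ x‖ ^ 2 = 1 →
      kinE (1 / (2 * m) * (2 * Real.pi / ℓ) ^ 2) ψ + potE (perPot v ℓ) ψ ≠ ⊤ →
      ρ * scatG m v / 2 * (1 + (√(8 * Real.pi * y) - 2 * ε) * √(ρ * scatLen m v ^ 3)) * N +
        kap * √M * (ρ * scatG m v / 2) *
          (occE ψ (fun n => ¬ (2 * Real.pi / ℓ) ^ 2 * sq n ≤ M * ρ * scatLen m v)).toReal ≤
        (kinE (1 / (2 * m) * (2 * Real.pi / ℓ) ^ 2) ψ + potE (perPot v ℓ) ψ).toReal +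
        ρ * scatG m v * (y + 1 + 1 / (4 * y) + ε) *
          (occE ψ (fun n => n ≠ 0 ∧
            (2 * Real.pi / ℓ) ^ 2 * sq n ≤ M * ρ * scatLen m v)).toReal := by
  have hG := scatG_pos hSU hm hvm hv h0 he hne
  have hcls : Cls (fun x => ENNReal.ofReal (v x)) v := ⟨hvm, hv, h0, he, fun x => le_rfl⟩
  refine univL0 (V := fun x => ENNReal.ofReal (v x)) hTU hGMU hm hvm.ennreal_ofReal (R₀ := 0) ?_ hG
    (fun w hw => scatG_mono hm hv hw.int hw.nonneg fun x => ?_)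
    (fun ε hε => ⟨v, hcls, by linarith⟩) rfl hy hε
  · refine ne_top_of_le_ne_top ?_ (setLIntegral_le_lintegral _ _)
    rw [← ofReal_integral_eq_lintegral_ofReal hv (Filter.Eventually.of_forall h0)]
    exact ENNReal.ofReal_ne_top
  · exact (ENNReal.ofReal_le_ofReal_iff (h0 x)).1 (hw.le x)

/-- the inequality for the numbers of excited particles in the model with a gap -/
theorem gapK (hSU : S_SU) (hTU : S_TU) (hGMU : S_GMU) (hEUK : S_EUK) {m : ℝ} (hm : 0 < m)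
    {v : (Fin 3 → ℝ) → ℝ}
    (hvm : Measurable v) (hv : Integrable v) (h0 : ∀ x, 0 ≤ v x) (he : ∀ x, v (-x) = v x)
    (hne : 0 < ∫ x, v x) {k y ε : ℝ} (hk : 0 ≤ k) (hy : 0 < y) (hε : 0 < ε) :
    ∃ c kap M₀ ρ₀ : ℝ, 0 < c ∧ 0 < kap ∧ 0 < M₀ ∧ 0 < ρ₀ ∧
      ∀ ρ : ℝ, 0 < ρ → ρ ≤ ρ₀ → ∀ M : ℝ, M₀ ≤ M →
      ∃ N₀ : ℕ, ∀ N : ℕ, N₀ ≤ N → ∀ ℓ : ℝ, 0 < ℓ → (N : ℝ) = ρ * ℓ ^ 3 →
      ∀ (D : Set Mom) [DecidablePred (· ∈ D)], 0 ∉ D →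
      (∀ n : Mom, n ≠ 0 → (2 * Real.pi / ℓ) ^ 2 * sq n ≤ M * ρ * scatLen m v → n ∈ D) →
      ∀ ψ : Cfg N → ℂ, MemLp ψ 2 → ∫ x, ‖ψ x‖ ^ 2 = 1 →
      (∀ φ : Cfg N → ℂ, MemLp φ 2 → ∫ x, ‖φ x‖ ^ 2 = 1 →
        gapE m v ℓ (k * (ρ * scatG m v)) D ψ ≤ gapE m v ℓ (k * (ρ * scatG m v)) D φ +
          ENNReal.ofReal (c * (ρ * √ρ) * N)) →
      (√(8 * Real.pi * y) - √(8 * Real.pi * (k + 2 * (∫ x, v x) / scatG m v)) - ε) / 2 *
          √(ρ * scatLen m v ^ 3) * N +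
        kap * √M * (occE ψ (fun n =>
          ¬ (2 * Real.pi / ℓ) ^ 2 * sq n ≤ M * ρ * scatLen m v)).toReal ≤
        (y + 1 + 1 / (4 * y) - k + ε) * (occE ψ (fun n =>
          n ≠ 0 ∧ (2 * Real.pi / ℓ) ^ 2 * sq n ≤ M * ρ * scatLen m v)).toReal := by
  obtain ⟨G, hG⟩ : ∃ G, G = scatG m v := ⟨_, rfl⟩
  have hG0 : 0 < G := by rw [hG]; exact scatG_pos hSU hm hvm hv h0 he hne
  obtain ⟨V0, hV0⟩ : ∃ V0, V0 = ∫ x, v x := ⟨_, rfl⟩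
  have hPi := Real.pi_pos
  have hV00 : 0 < V0 := by rw [hV0]; exact hne
  obtain ⟨b, hb⟩ : ∃ b, b = 1 / (2 * m) := ⟨_, rfl⟩
  have hb0 : 0 < b := by rw [hb]; positivity
  have hp := P0_pos hb0
  obtain ⟨a, ha⟩ : ∃ a, a = m / (4 * Real.pi) * G := ⟨_, rfl⟩
  have ha0 : 0 < a := by rw [ha]; positivity
  have hscat : scatLen m v = a := by rw [scatLen, ha, hG]
  obtain ⟨y0, hy0⟩ : ∃ y0, y0 = k + 2 * V0 / G := ⟨_, rfl⟩
  have hy00 : 0 < y0 := by rw [hy0]; positivity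
  obtain ⟨e', he'⟩ : ∃ e', e' = G * ε / (8 * √(y0 * G / a ^ 3)) := ⟨_, rfl⟩
  have hsy : 0 < √(y0 * G / a ^ 3) := Real.sqrt_pos.2 (by positivity)
  have he'0 : 0 < e' := by rw [he']; positivity
  have hKG : 0 ≤ k * G := by positivity
  obtain ⟨ρ1, hρ1, H1⟩ := hEUK m hm v hvm hv h0 he hne (k * G) hKG e' he'0
  obtain ⟨kap, M₀, ρ2, hkap, hM₀, hρ2, H2⟩ := softL hSU hTU hGMU hm hvm hv h0 he hne
    (y := y) (ε := ε / 8) hy (by positivity)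
  obtain ⟨c, hc⟩ : ∃ c, c = G * ε / 16 * √(a ^ 3) := ⟨_, rfl⟩
  have ha3 : 0 < √(a ^ 3) := Real.sqrt_pos.2 (by positivity)
  refine ⟨c, kap / 2, M₀, min ρ1 ρ2, by rw [hc]; positivity, by positivity, hM₀,
    lt_min hρ1 hρ2, fun ρ hρ hρρ M hM => ?_⟩
  obtain ⟨N1, H3⟩ := H1 ρ hρ (hρρ.trans (min_le_left _ _))
  obtain ⟨N2, H4⟩ := H2 ρ hρ (hρρ.trans (min_le_right _ _)) M hM
  refine ⟨N1 + N2, fun N hN ℓ hℓ hNℓ D _ hD0 hDl ψ hψ hψ1 hmin => ?_⟩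
  obtain ⟨φ, hφ, hφ1, hφE⟩ := H3 N (by omega) ℓ hℓ hNℓ
  obtain ⟨Z, hZ⟩ : ∃ Z, Z = √(ρ * a ^ 3) := ⟨_, rfl⟩
  have hZ0 : 0 < Z := by rw [hZ]; exact Real.sqrt_pos.2 (by positivity)
  have hN0 : (0 : ℝ) ≤ N := Nat.cast_nonneg N
  have hΔ0 : 0 ≤ k * (ρ * G) := by positivity
  -- the upper bound
  have hE : gapE m v ℓ (k * (ρ * scatG m v)) D ψ ≤
      ENNReal.ofReal (ρ * G / 2 * (1 + (√(8 * Real.pi * y0) + ε / 4) * Z) * N) := by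
    have hgap : gapE m v ℓ (k * (ρ * scatG m v)) D φ ≤
        kinE (1 / (2 * m) * (2 * Real.pi / ℓ) ^ 2) φ + potE (perPot v ℓ) φ +
          ENNReal.ofReal (k * G * ρ) * occE φ (fun n => n ≠ 0) := by
      unfold gapE
      rw [← hG, show k * (ρ * G) = k * G * ρ by ring]
      refine add_le_add le_rfl (mul_le_mul_right (occE_mono φ _ _ fun n hn h => ?_) _)
      exact hD0 (h ▸ hn)
    refine ((hmin φ hφ hφ1).trans (add_le_add (hgap.trans hφE) le_rfl)).trans ?_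
    rw [← hG, ← hV0, ← hb]
    have h2 : √(2 * ρ * V0 + k * G * ρ) = √(y0 * ρ * G) := by
      congr 1
      rw [hy0]; field_simp; ring
    have h3 := second_eq (y := y0) hm hG0 hρ hy00
    rw [← hb, ← ha, ← hZ] at h3
    have h4 : √(y0 * ρ * G) = √(y0 * G / a ^ 3) * Z := by
      rw [hZ, ← Real.sqrt_mul (by positivity)]
      congr 1
      field_simp
    have h5 : e' * √(y0 * ρ * G) = G * ε / 8 * Z := by
      rw [he', h4]; field_simp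
    have h6 : √ρ * √(a ^ 3) = Z := by
      rw [hZ, Real.sqrt_mul hρ.le]
    have hpos : 0 ≤ ρ / 2 * (G + (G ^ 2 * Real.pi ^ 2 / P0 b + e') *
        √(2 * ρ * V0 + k * G * ρ)) * N := by
      have : 0 ≤ √(2 * ρ * V0 + k * G * ρ) := Real.sqrt_nonneg _
      positivity
    have hpos2 : 0 ≤ c * (ρ * √ρ) * N := by
      have : 0 ≤ c := by rw [hc]; positivity
      positivity
    rw [← ENNReal.ofReal_add hpos hpos2]
    refine ENNReal.ofReal_le_ofReal ?_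
    have h8 : (G ^ 2 * Real.pi ^ 2 / P0 b + e') * √(2 * ρ * V0 + k * G * ρ) =
        G * (√(8 * Real.pi * y0) * Z) + G * ε / 8 * Z := by
      rw [add_mul, h2, h5, h3]
    have h9 : c * (ρ * √ρ) * N = ρ * G / 2 * (ε / 8 * Z) * N := by
      rw [hc, ← h6]; ring
    rw [h8, h9]
    have h11 : ρ / 2 * (G + (G * (√(8 * Real.pi * y0) * Z) + G * ε / 8 * Z)) * N +
        ρ * G / 2 * (ε / 8 * Z) * N =
        ρ * G / 2 * (1 + (√(8 * Real.pi * y0) + ε / 4) * Z) * N := by ring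
    linarith
  have hs0 : 0 ≤ √(8 * Real.pi * y0) := Real.sqrt_nonneg _
  have hRpos : 0 ≤ ρ * G / 2 * (1 + (√(8 * Real.pi * y0) + ε / 4) * Z) * N := by positivity
  have hfin : kinE (1 / (2 * m) * (2 * Real.pi / ℓ) ^ 2) ψ + potE (perPot v ℓ) ψ ≠ ⊤ := by
    refine ne_top_of_le_ne_top ENNReal.ofReal_ne_top (le_trans ?_ hE)
    unfold gapE
    exact le_self_add
  have h12 := H4 N (by omega) ℓ hℓ hNℓ ψ hψ hψ1 hfin
  rw [← hG] at hE h12 ⊢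
  rw [hscat] at h12 hDl ⊢
  rw [← hV0, ← hy0]
  rw [← hZ] at h12 ⊢
  set E : ℝ := (kinE (1 / (2 * m) * (2 * Real.pi / ℓ) ^ 2) ψ + potE (perPot v ℓ) ψ).toReal
  set OL : ℝ := (occE ψ (fun n => n ≠ 0 ∧ (2 * Real.pi / ℓ) ^ 2 * sq n ≤ M * ρ * a)).toReal
    with hOL
  set OH : ℝ := (occE ψ (fun n => ¬ (2 * Real.pi / ℓ) ^ 2 * sq n ≤ M * ρ * a)).toReal
  have hOL0 : 0 ≤ OL := ENNReal.toReal_nonneg
  have hOD : OL ≤ (occE ψ (· ∈ D)).toReal :=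
    ENNReal.toReal_mono (occE_fin hψ hψ1 _) (occE_mono ψ _ _ fun n hn => hDl n hn.1 hn.2)
  have hE2 : E + k * (ρ * G) * (occE ψ (· ∈ D)).toReal ≤
      ρ * G / 2 * (1 + (√(8 * Real.pi * y0) + ε / 4) * Z) * N := by
    have h1 := ENNReal.toReal_le_of_le_ofReal hRpos hE
    unfold gapE at h1
    rwa [ENNReal.toReal_add hfin
      (ENNReal.mul_ne_top ENNReal.ofReal_ne_top (occE_fin hψ hψ1 _)), ENNReal.toReal_mul,
      ENNReal.toReal_ofReal hΔ0] at h1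
  have hE3 : k * (ρ * G) * OL ≤ k * (ρ * G) * (occE ψ (· ∈ D)).toReal :=
    mul_le_mul_of_nonneg_left hOD hΔ0
  have hρG : 0 < ρ * G := by positivity
  have hfinal : ρ * G * ((√(8 * Real.pi * y) - √(8 * Real.pi * y0) - ε) / 2 * Z * N +
      kap / 2 * √M * OH) ≤ ρ * G * ((y + 1 + 1 / (4 * y) - k + ε) * OL) := by
    have t1 : 0 ≤ ρ * G * (ε * OL) := by positivity
    have t2 : 0 ≤ ρ * G * (ε * (Z * N)) := by positivity
    linarith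
  exact le_of_mul_le_mul_left hfinal hρG

end

end Pool.Agent.H751R2.LHY.G80
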