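import Pool.Agent.J6H80.BG.LowU
import Pool.Agent.J6H80.BG.Fin3

/-!
# Lower bound on the depletion with an explicit constant
-/

set_option autoImplicit false

open MeasureTheory UnitAddTorus
open scoped ComplexConjugate ENNReal ContDiff

namespace Pool.Agent.H751R2.LHY.G80

open Pool.Agent.J6H80.BG

noncomputable section

lemma scat_to_W {W : T3 → ℝ} {q μ : ℝ} {B0 : Finset Mom} {c : Mom → ℝ}
    (hc : Scat W q μ B0 c) : ScatW W (fun n => q * sq n + μ) B0 c where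
  even := hc.even
  eq n hn := by rw [hc.eq n hn]; ring

/-- the core inequality -/
theorem coreU (hPAIR : S_PAIR) {N : ℕ} (hN : 1 ≤ N) {W : T3 → ℝ} (hW : Pot W)
    (hWm : Measurable W) {q μ L gm : ℝ} (hq : 0 < q) (hμ : 0 < μ) (hL0 : 0 ≤ L)
    {ψ : Cfg N → ℂ} (hψ : MemLp ψ 2) (hψ1 : ∫ x, ‖ψ x‖ ^ 2 = 1)
    (hfin : kinE q ψ + potE (fun y => ENNReal.ofReal (W y)) ψ ≠ ⊤)
    (hyp : ∃ K1 : ℝ, ∀ K, K1 ≤ K → 0 ≤ K → ∀ᶠ R : ℕ in Filter.atTop, ∀ c : Mom → ℝ,
      Scat (fun y => min (W y) K) q μ ((boxM R).erase 0) c →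
      gm ≤ gh (fun y => min (W y) K) ((boxM R).erase 0) c 0 ∧
      ∀ n, μ + (N * gh (fun y => min (W y) K) ((boxM R).erase 0) c n) ^ 2 /
        (4 * (q * sq n + μ)) + gh (fun y => min (W y) K) ((boxM R).erase 0) c 0 * N ≤ L) :
    (1 / 2) * gm * ((N : ℝ) ^ 2 - N) ≤
      (kinE q ψ + potE (fun y => ENNReal.ofReal (W y)) ψ).toReal +
        L * (occE ψ (fun n => n ≠ 0)).toReal := by
  have hotop := occE_fin hψ hψ1 (fun n => n ≠ 0)
  have hEtop : enG q (fun y => ENNReal.ofReal (W y)) L (fun n => n ≠ 0) ψ ≠ ⊤ := by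
    unfold enG
    exact ENNReal.add_ne_top.2 ⟨hfin, ENNReal.mul_ne_top ENNReal.ofReal_ne_top hotop⟩
  have hEr : (enG q (fun y => ENNReal.ofReal (W y)) L (fun n => n ≠ 0) ψ).toReal =
      (kinE q ψ + potE (fun y => ENNReal.ofReal (W y)) ψ).toReal +
        L * (occE ψ (fun n => n ≠ 0)).toReal := by
    unfold enG
    rw [ENNReal.toReal_add hfin (ENNReal.mul_ne_top ENNReal.ofReal_ne_top hotop),
      ENNReal.toReal_mul, ENNReal.toReal_ofReal hL0]
  rw [← hEr]
  have hNr : (1 : ℝ) ≤ N := by exact_mod_cast hN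
  refine le_of_forall_pos_le_add fun ε hε => ?_
  obtain ⟨K1, hK1⟩ := hyp
  set K := max K1 0 with hK
  have hKK1 : K1 ≤ K := le_max_left _ _
  have hKn : 0 ≤ K := le_max_right _ _
  have hWKp : Pot (fun y => min (W y) K) := pot_min hW hKn
  set X : ℝ := (1 / 2) * gm * ((N : ℝ) ^ 2 - N) with hX
  have hlim := limG hW hWm hq hL0 (t := 0) (fun n => n ≠ 0) (fun h => h rfl) (fun _ => False)
    (fun h => h) hψ hψ1 hEtop hKn |X| hε
  obtain ⟨R, hR2, hR3⟩ := (hlim.and (hK1 K hKK1 hKn)).exists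
  obtain ⟨c, hc⟩ := exists_scat hWKp hq hμ (boxM_sym R)
  obtain ⟨h1, h2⟩ := hR3 c hc
  have hκ : ∀ n, 0 ≤ q * sq n := fun n => mul_nonneg hq.le (sq_nonneg' n)
  have hlow := lowerU hPAIR hWKp (q := q) (boxM_sym R) (w := fun n => q * sq n + μ)
    (fun n _ => by have := hκ n; linarith) (fun n => by simp only [sq_neg]) (scat_to_W hc)
    (fun n => (if n ≠ 0 then L else 0) + if (fun _ : Mom => False) n then (0 : ℝ) else 0)
    (fun n hn => by
      have h3 := h2 n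
      have h4 := mem_erase_ne hn
      rw [if_pos h4]
      simp only [if_false, add_zero]
      linarith) (coef ψ)
  rw [insert_box R] at hlow
  have hnn : 0 ≤ nrm (boxM R) (coef ψ) := Finset.sum_nonneg (fun _ _ => sq_nonneg _)
  have hXle : X ≤ 1 / 2 * gh (fun y => min (W y) K) ((boxM R).erase 0) c 0 *
      ((N : ℝ) ^ 2 - N) := by
    rw [hX]
    have h5 : 0 ≤ (N : ℝ) ^ 2 - N := by nlinarith
    have := mul_le_mul_of_nonneg_right h1 h5
    linarith
  have hfin2 := hR2 X le_rfl ((mul_le_mul_of_nonneg_left hXle hnn).trans hlow)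
  rw [zero_mul, add_zero] at hfin2
  exact hfin2

/-- the relation between the two expressions of the energy of second order -/
lemma second_eq {m G ρ y : ℝ} (hm : 0 < m) (hG : 0 < G) (hρ : 0 < ρ) (hy : 0 < y) :
    G ^ 2 * Real.pi ^ 2 / P0 (1 / (2 * m)) * √(y * ρ * G) =
      G * (√(8 * Real.pi * y) * √(ρ * (m / (4 * Real.pi) * G) ^ 3)) := by
  have hPi := Real.pi_pos
  have hb : √(1 / (2 * m)) = 1 / √(2 * m) := by
    rw [Real.sqrt_div zero_le_one, Real.sqrt_one]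
  have h2m : 0 < √(2 * m) := Real.sqrt_pos.2 (by positivity)
  have e2m : √(2 * m) ^ 2 = 2 * m := Real.sq_sqrt (by positivity)
  have e1 : √(8 * Real.pi * y) * √(ρ * (m / (4 * Real.pi) * G) ^ 3) =
      √(2 * m) * √(y * ρ * G) * (m * G / (4 * Real.pi)) := by
    rw [← Real.sqrt_mul (by positivity), ← Real.sqrt_mul (by positivity)]
    have e3 : 8 * Real.pi * y * (ρ * (m / (4 * Real.pi) * G) ^ 3) =
        2 * m * (y * ρ * G) * (m * G / (4 * Real.pi)) ^ 2 := by
      field_simp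
      ring
    rw [e3, Real.sqrt_mul (by positivity), Real.sqrt_sq (by positivity)]
  rw [e1, P0, hb]
  field_simp
  norm_num

theorem univ (hSU : S_SU) (hPAIR : S_PAIR) (hGM : S_GM) {m : ℝ} (hm : 0 < m)
    {v : (Fin 3 → ℝ) → ℝ} (hvm : Measurable v)
    (hv : Integrable v) (h0 : ∀ x, 0 ≤ v x) (he : ∀ x, v (-x) = v x) (hne : 0 < ∫ x, v x)
    {lam y ε : ℝ} (hlam : 0 ≤ lam) (hy : 0 < y) (hε : 0 < ε) :
    ∃ ρ₀ : ℝ, 0 < ρ₀ ∧ ∀ ρ : ℝ, 0 < ρ → ρ ≤ ρ₀ →
      ∃ N₀ : ℕ, ∀ N : ℕ, N₀ ≤ N → ∀ ℓ : ℝ, 0 < ℓ → (N : ℝ) = ρ * ℓ ^ 3 →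
      ∀ ψ : Cfg N → ℂ, MemLp ψ 2 → ∫ x, ‖ψ x‖ ^ 2 = 1 →
      kinE (1 / (2 * m) * (2 * Real.pi / ℓ) ^ 2) ψ + potE (perPot v ℓ) ψ ≤
        ENNReal.ofReal (2 * Real.pi * scatLen m v * ρ / m *
          (1 + lam * √(ρ * scatLen m v ^ 3)) * N) →
      ((√(8 * Real.pi * y) - lam) / (2 * (y + 1 + 1 / (4 * y))) - ε) *
        √(ρ * scatLen m v ^ 3) * N ≤ N - (occE ψ (fun n => n = 0)).toReal := by
  obtain ⟨G, hG⟩ : ∃ G, G = scatG m v := ⟨_, rfl⟩
  have hG0 : 0 < G := by rw [hG]; exact scatG_pos hSU hm hvm hv h0 he hne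
  obtain ⟨V0, hV0⟩ : ∃ V0, V0 = ∫ x, v x := ⟨_, rfl⟩
  have hne' := hne
  rw [← hV0] at hne
  have hPi := Real.pi_pos
  obtain ⟨b, hb⟩ : ∃ b, b = 1 / (2 * m) := ⟨_, rfl⟩
  have hb0 : 0 < b := by rw [hb]; positivity
  have hp := P0_pos hb0
  obtain ⟨a, ha⟩ : ∃ a, a = m / (4 * Real.pi) * G := ⟨_, rfl⟩
  have ha0 : 0 < a := by rw [ha]; positivity
  have hscat : scatLen m v = a := by rw [scatLen, ha, hG]
  obtain ⟨x, hx⟩ : ∃ x, x = √(8 * Real.pi * y) - lam := ⟨_, rfl⟩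
  obtain ⟨B, hB⟩ : ∃ B, B = y + 1 + 1 / (4 * y) := ⟨_, rfl⟩
  have hB1 : 1 ≤ B := by
    have : 0 < 1 / (4 * y) := by positivity
    rw [hB]; linarith
  rw [hscat, ← hx, ← hB]
  -- the small parameters
  obtain ⟨e3, he3⟩ : ∃ e3, e3 = min G (G * ε / (3 * (|x| + 1)) / (3 / (4 * y) + 1)) := ⟨_, rfl⟩
  have hx1 : 0 < |x| + 1 := by positivity
  have he30 : 0 < e3 := by rw [he3]; exact lt_min hG0 (by positivity)
  have he3G : e3 ≤ G := by rw [he3]; exact min_le_left _ _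
  have he3x : e3 * (3 / (4 * y) + 1) ≤ G * ε / (3 * (|x| + 1)) := by
    have : e3 ≤ G * ε / (3 * (|x| + 1)) / (3 / (4 * y) + 1) := by rw [he3]; exact min_le_right _ _
    rwa [le_div_iff₀ (by positivity)] at this
  obtain ⟨Lc, hLc⟩ : ∃ Lc, Lc = y * G + (G + e3) ^ 2 / (4 * (y * G)) + (G + e3) := ⟨_, rfl⟩
  have hLcG : G ≤ Lc := by
    have : 0 < y * G + (G + e3) ^ 2 / (4 * (y * G)) := by positivity
    rw [hLc]; linarith
  have hLcB : Lc ≤ G * B + G * ε / (3 * (|x| + 1)) := by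
    have k1 : (G + e3) ^ 2 / (4 * (y * G)) ≤ G / (4 * y) + e3 * (3 / (4 * y)) := by
      rw [div_le_iff₀ (by positivity)]
      have k2 : (G / (4 * y) + e3 * (3 / (4 * y))) * (4 * (y * G)) = G ^ 2 + 3 * e3 * G := by
        field_simp
      rw [k2]
      nlinarith
    have k3 : G * B = y * G + G + G / (4 * y) := by rw [hB]; field_simp
    rw [hLc, k3]
    linarith
  obtain ⟨e2, he2⟩ : ∃ e2, e2 = 2 * G * ε / (3 * √(y * G / a ^ 3)) := ⟨_, rfl⟩
  have hsy : 0 < √(y * G / a ^ 3) := Real.sqrt_pos.2 (by positivity)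
  have he20 : 0 < e2 := by rw [he2]; positivity
  obtain ⟨τ, hτ⟩ : ∃ τ, τ = e3 / (2 * V0) := ⟨_, rfl⟩
  have hτ0 : 0 < τ := by rw [hτ]; positivity
  obtain ⟨δ1, hδ1, hGM1⟩ := hGM m hm v hvm hv h0 he hne' e2 he20
  obtain ⟨δ2, hδ2, hSU1⟩ := hSU m hm v hvm hv h0 he (e3 / 2) (by positivity)
  obtain ⟨δc, hδc, hnear⟩ := near_cos hvm hv (ε := τ ^ 2 * V0 / 2) (by positivity)
  obtain ⟨P, hP⟩ : ∃ P, P = b * δc := ⟨_, rfl⟩
  have hP0 : 0 < P := by rw [hP]; positivity
  obtain ⟨ρ₀, hρ₀⟩ : ∃ ρ₀, ρ₀ = min (δ1 / (y * G)) (min (δ2 / (y * G))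
    (P * G ^ 2 / (y * G * V0 ^ 2))) := ⟨_, rfl⟩
  refine ⟨ρ₀, by rw [hρ₀]; exact lt_min (by positivity) (lt_min (by positivity) (by positivity)),
    fun ρ hρ hρρ => ?_⟩
  obtain ⟨μ, hμd⟩ : ∃ μ, μ = y * ρ * G := ⟨_, rfl⟩
  have hμ0 : 0 < μ := by rw [hμd]; positivity
  have hyG : 0 < y * G := by positivity
  have hμ1 : μ ≤ δ1 := by
    have : ρ ≤ δ1 / (y * G) := hρρ.trans (by rw [hρ₀]; exact min_le_left _ _)
    rw [le_div_iff₀ hyG] at this
    rw [hμd]; linarith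
  have hμ2 : μ ≤ δ2 := by
    have : ρ ≤ δ2 / (y * G) :=
      hρρ.trans (by rw [hρ₀]; exact (min_le_right _ _).trans (min_le_left _ _))
    rw [le_div_iff₀ hyG] at this
    rw [hμd]; linarith
  have hμP : μ * V0 ^ 2 ≤ P * G ^ 2 := by
    have : ρ ≤ P * G ^ 2 / (y * G * V0 ^ 2) :=
      hρρ.trans (by rw [hρ₀]; exact (min_le_right _ _).trans (min_le_right _ _))
    rw [le_div_iff₀ (by positivity)] at this
    rw [hμd]; linarith
  obtain ⟨L1, hL1, hGM2⟩ := hGM1 μ hμ0 hμ1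
  obtain ⟨L2, hL2, hSU2⟩ := hSU1 μ hμ0 hμ2
  obtain ⟨g2, hg2⟩ : ∃ g2, g2 = G + (G ^ 2 * Real.pi ^ 2 / P0 b - e2) * √μ := ⟨_, rfl⟩
  obtain ⟨Z, hZ⟩ : ∃ Z, Z = √(ρ * a ^ 3) := ⟨_, rfl⟩
  have hZ0 : 0 < Z := by rw [hZ]; exact Real.sqrt_pos.2 (by positivity)
  rw [← hZ]
  obtain ⟨N₀, hN₀⟩ := exists_nat_ge (ρ * (L1 + L2) ^ 3 + 3 * |g2| / (2 * (G * ε * Z)))
  refine ⟨N₀ + 1, fun N hN ℓ hℓ hNℓ ψ hψ hψ1 hE => ?_⟩
  have hN1 : 1 ≤ N := by omega
  have hNr : (1 : ℝ) ≤ N := by exact_mod_cast hN1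
  have hN0 : (0 : ℝ) < N := by linarith
  have hNN₀ : (N₀ : ℝ) ≤ N := by exact_mod_cast (by omega : N₀ ≤ N)
  have hpos1 : 0 ≤ 3 * |g2| / (2 * (G * ε * Z)) := by positivity
  have hℓL : L1 + L2 ≤ ℓ := by
    by_contra h
    push Not at h
    have h1 : ρ * (L1 + L2) ^ 3 ≤ ρ * ℓ ^ 3 := by
      rw [← hNℓ]; linarith
    have h2 : ℓ ^ 3 < (L1 + L2) ^ 3 := pow_lt_pow_left₀ h hℓ.le (by norm_num)
    have h3 := mul_lt_mul_of_pos_left h2 hρ
    linarith
  have hNg : 3 * |g2| ≤ 2 * (G * ε * Z) * N := by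
    have h1 : 3 * |g2| / (2 * (G * ε * Z)) ≤ N := by
      have : 0 ≤ ρ * (L1 + L2) ^ 3 := by positivity
      linarith
    rw [div_le_iff₀ (by positivity)] at h1
    linarith
  -- the trivial case
  have hsplit := occE_split hψ hψ1
  have hf1 := occE_fin hψ hψ1 (fun n => n = 0)
  have hf2 := occE_fin hψ hψ1 (fun n => n ≠ 0)
  have hO : (N : ℝ) - (occE ψ (fun n => n = 0)).toReal =
      (occE ψ (fun n => n ≠ 0)).toReal := by
    have h2 : (occE ψ (fun n => n = 0)).toReal + (occE ψ (fun n => n ≠ 0)).toReal = N := by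
      rw [← ENNReal.toReal_add hf1 hf2, hsplit, ENNReal.toReal_ofReal hN0.le]
    linarith
  rw [hO]
  set O : ℝ := (occE ψ (fun n => n ≠ 0)).toReal with hOd
  have hO0 : 0 ≤ O := ENNReal.toReal_nonneg
  by_cases hneg : x / (2 * B) - ε ≤ 0
  · have : (x / (2 * B) - ε) * Z * N ≤ 0 := by
      have h1 : (x / (2 * B) - ε) * Z ≤ 0 := mul_nonpos_of_nonpos_of_nonneg hneg hZ0.le
      exact mul_nonpos_of_nonpos_of_nonneg h1 hN0.le
    linarith
  push Not at hneg
  have hx0 : 0 < x := by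
    by_contra h
    have h1 : x / (2 * B) ≤ 0 := div_nonpos_of_nonpos_of_nonneg (not_lt.1 h) (by linarith)
    linarith
  have hxa : |x| = x := abs_of_pos hx0
  -- the torus
  have hWp := Wr_pot hvm hv he hℓ
  have hWm := Wr_meas hvm ℓ
  obtain ⟨q, hq⟩ : ∃ q, q = b * (2 * Real.pi / ℓ) ^ 2 := ⟨_, rfl⟩
  have hq0 : 0 < q := by rw [hq]; positivity
  have hκ : ∀ n, 0 ≤ q * sq n := fun n => mul_nonneg hq0.le (sq_nonneg' n)
  have hWI : ∫ y, Wr v ℓ y = V0 / ℓ ^ 3 := by rw [Wr_int_one hvm hv h0 hℓ, hV0]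
  have hcong : potE (fun y => ENNReal.ofReal (Wr v ℓ y)) ψ =
      potE (perPot v ℓ) ψ := (potE_congr (perPot_ae hvm hv hℓ) ψ).symm
  obtain ⟨K1, hK1⟩ := hGM2 ℓ (by linarith)
  obtain ⟨R0, hR0⟩ := hSU2 ℓ (by linarith)
  rw [← hb, ← hq] at hK1 hR0
  rw [← hb, ← hq, ← hcong] at hE
  have he2pi : 2 * Real.pi * a * ρ / m = ρ * G / 2 := by
    rw [ha]; field_simp; ring
  rw [he2pi] at hE
  have hE1 : (kinE q ψ + potE (fun y => ENNReal.ofReal (Wr v ℓ y)) ψ).toReal ≤
      ρ * G / 2 * (1 + lam * Z) * N :=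
    ENNReal.toReal_le_of_le_ofReal (by positivity) hE
  have hEtop : kinE q ψ + potE (fun y => ENNReal.ofReal (Wr v ℓ y)) ψ ≠ ⊤ :=
    ne_top_of_le_ne_top ENNReal.ofReal_ne_top hE
  have hLpos : 0 ≤ ρ * Lc := by
    have : 0 < Lc := by linarith
    positivity
  have hcore := coreU hPAIR hN1 hWp hWm (q := q) (μ := μ) (L := ρ * Lc) (gm := g2 / ℓ ^ 3)
    hq0 hμ0 hLpos hψ hψ1 hEtop ⟨K1, fun K hK hKn => by
      filter_upwards [hK1 K hK hKn, Filter.eventually_ge_atTop R0] with R hR1 hR2 c hc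
      have hWKp : Pot (fun y => min (Wr v ℓ y) K) := pot_min hWp hKn
      have hQ := scat_Q hWKp hc
      have hWKI : ∫ y, min (Wr v ℓ y) K ≤ V0 / ℓ ^ 3 := by
        rw [← hWI]
        exact integral_mono hWKp.int hWp.int (fun y => min_le_left _ _)
      have hlo : g2 / ℓ ^ 3 ≤ gh (fun y => min (Wr v ℓ y) K) ((boxM R).erase 0) c 0 := by
        rw [hQ, div_le_iff₀ (by positivity), hg2, hG]
        have := hR1 c
        linarith
      have hup : gh (fun y => min (Wr v ℓ y) K) ((boxM R).erase 0) c 0 ≤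
          (G + e3 / 2) / ℓ ^ 3 := by
        obtain ⟨c', hc', hQ'⟩ := hR0 R hR2
        rw [hQ, le_div_iff₀ (by positivity), hG]
        have h1 := scat_min hWKp hq0 hμ0 hc c'
        have h2 := Qf_mono_pot hWp hWKp (fun y => min_le_left _ _) q μ ((boxM R).erase 0) c'
        have h3 := mul_le_mul_of_nonneg_right (h1.trans h2) (by positivity : 0 ≤ ℓ ^ 3)
        linarith
      refine ⟨hlo, fun n => ?_⟩
      set g0 := gh (fun y => min (Wr v ℓ y) K) ((boxM R).erase 0) c 0 with hg0d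
      set gn := gh (fun y => min (Wr v ℓ y) K) ((boxM R).erase 0) c n with hgnd
      have hg00 : 0 ≤ g0 := by
        rw [hQ]
        unfold Qf
        refine add_nonneg (integral_nonneg (fun y => mul_nonneg (hWKp.nonneg y) (sq_nonneg _)))
          (Finset.sum_nonneg (fun n _ => mul_nonneg ?_ (sq_nonneg _)))
        have := hκ n
        positivity
      have hg0N : g0 * N ≤ ρ * (G + e3) := by
        have h1 := mul_le_mul_of_nonneg_right hup hN0.le
        have h2 : (G + e3 / 2) / ℓ ^ 3 * N = ρ * (G + e3 / 2) := by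
          rw [hNℓ]; field_simp
        have : 0 < ρ * e3 := by positivity
        linarith
      have hmain : (N * gn) ^ 2 / (4 * (q * sq n + μ)) ≤ ρ * ((G + e3) ^ 2 / (4 * (y * G))) := by
        by_cases hPn : q * sq n ≤ P
        · have h1 := ghW_near hWKp (fun m _ => by have := hκ m; linarith) (scat_to_W hc) n
          rw [← hg0d, ← hgnd] at h1
          have h2 : 2 * ∫ y, min (Wr v ℓ y) K * (1 - cs n y) ≤ τ ^ 2 * (V0 / ℓ ^ 3) := by
            refine (mul_le_mul_of_nonneg_left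
              (int_sub_cs_mono hWp hWKp (fun y => min_le_left _ _) n) (by norm_num)).trans ?_
            rw [Wr_cos hvm hv h0 hℓ n]
            have h1 : ∑ a, (2 * Real.pi / ℓ * (n a : ℝ)) ^ 2 ≤ δc := by
              have h2 : ∑ a, (2 * Real.pi / ℓ * (n a : ℝ)) ^ 2 = (2 * Real.pi / ℓ) ^ 2 * sq n := by
                rw [sq, Finset.mul_sum]
                exact Finset.sum_congr rfl (fun a _ => by ring)
              rw [h2]
              have h3 : b * ((2 * Real.pi / ℓ) ^ 2 * sq n) ≤ b * δc := by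
                rw [hq, hP] at hPn; linarith
              exact le_of_mul_le_mul_left h3 hb0
            have h5 := (hnear _ h1).le
            have h6 := mul_le_mul_of_nonneg_left h5 (show 0 ≤ 2 * (1 / ℓ ^ 3) by positivity)
            calc 2 * (1 / ℓ ^ 3 * ∫ x : Fin 3 → ℝ, v x *
                  (1 - Real.cos (∑ a, 2 * Real.pi / ℓ * (n a : ℝ) * x a)))
                ≤ 2 * (1 / ℓ ^ 3) * (τ ^ 2 * V0 / 2) := by linarith
              _ = τ ^ 2 * (V0 / ℓ ^ 3) := by ring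
          have h3 : (g0 - gn) ^ 2 ≤ (τ * (V0 / ℓ ^ 3)) ^ 2 := by
            refine h1.trans ?_
            calc (∫ y, min (Wr v ℓ y) K) * (2 * ∫ y, min (Wr v ℓ y) K * (1 - cs n y)) ≤
                (V0 / ℓ ^ 3) * (τ ^ 2 * (V0 / ℓ ^ 3)) := by
                  apply mul_le_mul hWKI h2 _ (by positivity)
                  have : 0 ≤ ∫ y, min (Wr v ℓ y) K * (1 - cs n y) :=
                    integral_nonneg fun y => mul_nonneg (hWKp.nonneg y)
                      (by linarith [cs_le_one n y])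
                  linarith
              _ = (τ * (V0 / ℓ ^ 3)) ^ 2 := by ring
          have h4 : |g0 - gn| ≤ τ * (V0 / ℓ ^ 3) := abs_le_of_sq_le_sq h3 (by positivity)
          have h5 : τ * (V0 / ℓ ^ 3) = e3 / 2 / ℓ ^ 3 := by rw [hτ]; field_simp
          rw [h5] at h4
          have h6 : |gn| ≤ (G + e3) / ℓ ^ 3 := by
            have h7 := abs_le.1 h4
            have h8 : (G + e3) / ℓ ^ 3 = (G + e3 / 2) / ℓ ^ 3 + e3 / 2 / ℓ ^ 3 := by
              field_simp; ring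
            have h9 : 0 ≤ (G + e3) / ℓ ^ 3 := by positivity
            have h10 : 0 ≤ (G + e3 / 2) / ℓ ^ 3 := by positivity
            rw [abs_le]
            constructor
            · linarith [h7.2]
            · linarith [h7.1]
          have h7 : |N * gn| ≤ ρ * (G + e3) := by
            rw [abs_mul, abs_of_pos hN0]
            have h8 := mul_le_mul_of_nonneg_left h6 hN0.le
            have h9 : (N : ℝ) * ((G + e3) / ℓ ^ 3) = ρ * (G + e3) := by
              rw [hNℓ]; field_simp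
            linarith
          have h8 : (N * gn) ^ 2 ≤ (ρ * (G + e3)) ^ 2 := by
            rw [← sq_abs (N * gn)]
            exact pow_le_pow_left₀ (abs_nonneg _) h7 2
          calc (N * gn) ^ 2 / (4 * (q * sq n + μ)) ≤ (ρ * (G + e3)) ^ 2 / (4 * μ) := by
                apply div_le_div₀ (sq_nonneg _) h8 (by positivity)
                have := hκ n
                linarith
            _ = ρ * ((G + e3) ^ 2 / (4 * (y * G))) := by
                rw [hμd]; field_simp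
        · push Not at hPn
          have h6 : |gn| ≤ V0 / ℓ ^ 3 := (gh_le hWKp hq0 hμ0 hc n).trans hWKI
          have h7 : |N * gn| ≤ ρ * V0 := by
            rw [abs_mul, abs_of_pos hN0]
            have h8 := mul_le_mul_of_nonneg_left h6 hN0.le
            have h9 : (N : ℝ) * (V0 / ℓ ^ 3) = ρ * V0 := by
              rw [hNℓ]; field_simp
            linarith
          have h8 : (N * gn) ^ 2 ≤ (ρ * V0) ^ 2 := by
            rw [← sq_abs (N * gn)]
            exact pow_le_pow_left₀ (abs_nonneg _) h7 2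
          calc (N * gn) ^ 2 / (4 * (q * sq n + μ)) ≤ (ρ * V0) ^ 2 / (4 * P) := by
                apply div_le_div₀ (sq_nonneg _) h8 (by positivity)
                linarith
            _ ≤ ρ * (G ^ 2 / (4 * (y * G))) := by
                rw [div_le_iff₀ (by positivity)]
                have h9 : ρ * (G ^ 2 / (4 * (y * G))) * (4 * P) =
                    ρ ^ 2 * (P * G ^ 2) / μ := by rw [hμd]; field_simp
                rw [h9, le_div_iff₀ hμ0]
                have := mul_le_mul_of_nonneg_left hμP (sq_nonneg ρ)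
                linarith
            _ ≤ ρ * ((G + e3) ^ 2 / (4 * (y * G))) := by
                gcongr
                linarith
      have hμρ : μ = ρ * (y * G) := by rw [hμd]; ring
      rw [hLc]
      linarith⟩
  -- conclusion
  have hscal : (1 / 2) * (g2 / ℓ ^ 3) * ((N : ℝ) ^ 2 - N) = ρ / 2 * g2 * N - ρ / 2 * g2 := by
    rw [hNℓ]; field_simp
  rw [hscal] at hcore
  have hsec := second_eq (y := y) hm hG0 hρ hy
  rw [← hb, ← ha, ← hμd, ← hZ] at hsec
  have hsμ : √μ = √(y * G / a ^ 3) * Z := by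
    rw [hZ, hμd, ← Real.sqrt_mul (by positivity)]
    congr 1
    field_simp
  have he2μ : e2 * √μ = 2 * G * ε / 3 * Z := by
    rw [he2, hsμ]; field_simp
  have hg2' : g2 = G + G * (√(8 * Real.pi * y) * Z) - 2 * G * ε / 3 * Z := by
    rw [hg2, sub_mul, hsec, he2μ]; ring
  have habs : g2 ≤ |g2| := le_abs_self _
  -- it suffices to compare after multiplication with `Lc`
  have hLc0 : 0 < Lc := by linarith
  have hgoal : Lc * ((x / (2 * B) - ε) * Z * N) ≤ Lc * O := by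
    have t1 : Lc * (x / (2 * B) - ε) ≤ G * x / 2 + G * ε / 6 - G * ε := by
      have u1 : Lc * (x / (2 * B)) ≤ (G * B + G * ε / (3 * (x + 1))) * (x / (2 * B)) := by
        rw [hxa] at hLcB
        exact mul_le_mul_of_nonneg_right hLcB (by positivity)
      have u2 : (G * B + G * ε / (3 * (x + 1))) * (x / (2 * B)) =
          G * x / 2 + G * ε / 6 * (x / (x + 1)) * (1 / B) := by
        have : B ≠ 0 := by linarith
        have : x + 1 ≠ 0 := by linarith
        field_simp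
        ring
      have u3 : x / (x + 1) ≤ 1 := by
        rw [div_le_one (by linarith)]; linarith
      have u4 : 1 / B ≤ 1 := by
        rw [div_le_one (by linarith)]; exact hB1
      have u5 : G * ε / 6 * (x / (x + 1)) * (1 / B) ≤ G * ε / 6 * 1 * 1 := by
        have : 0 ≤ x / (x + 1) := by positivity
        have : 0 ≤ 1 / B := by positivity
        gcongr
      have u6 : G * ε ≤ Lc * ε := mul_le_mul_of_nonneg_right hLcG hε.le
      linarith
    have t2 : Lc * ((x / (2 * B) - ε) * Z * N) ≤ (G * x / 2 + G * ε / 6 - G * ε) * (Z * N) := by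
      have := mul_le_mul_of_nonneg_right t1 (by positivity : 0 ≤ Z * N)
      linarith
    have t3 : ρ * ((G * x / 2 + G * ε / 6 - G * ε) * (Z * N)) ≤ ρ * (Lc * O) := by
      have t4 : ρ * (Lc * O) ≥ ρ / 2 * g2 * N - ρ / 2 * g2 - ρ * G / 2 * (1 + lam * Z) * N := by
        linarith
      have t5 : ρ / 2 * g2 * N - ρ / 2 * g2 - ρ * G / 2 * (1 + lam * Z) * N =
          ρ * ((G * x / 2 - G * ε / 3) * (Z * N)) - ρ / 2 * g2 := by
        rw [hg2', hx]; ring
      have t6 : ρ / 2 * g2 ≤ ρ * (G * ε / 3 * (Z * N)) := by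
        have t7 : g2 ≤ 2 * (G * ε * Z) * N / 3 := by linarith
        have t8 := mul_le_mul_of_nonneg_left t7 (by positivity : 0 ≤ ρ / 2)
        linarith
      have t9 : 0 < ρ * (G * ε * (Z * N)) := by positivity
      linarith
    exact t2.trans (le_of_mul_le_mul_left t3 hρ)
  exact le_of_mul_le_mul_left hgoal hLc0

end

end Pool.Agent.H751R2.LHY.G80
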