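import Pool.Agent.J6H80.BG.Stm5
import Pool.Agent.J6H80.BG.UnivF

/-!
# The lower bound on the depletion for the ground state, integrable potentials
-/

set_option autoImplicit false

open MeasureTheory UnitAddTorus
open scoped ENNReal ContDiff

namespace Pool.Agent.H751R2.LHY.G80

open Pool.Agent.J6H80.BG

noncomputable section

theorem ground (hSU : S_SU) (hPAIR : S_PAIR) (hGM : S_GM) (hEU : S_EU) {m : ℝ} (hm : 0 < m)
    {v : (Fin 3 → ℝ) → ℝ} (hvm : Measurable v)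
    (hv : Integrable v) (h0 : ∀ x, 0 ≤ v x) (he : ∀ x, v (-x) = v x) (hne : 0 < ∫ x, v x)
    {y ε : ℝ} (hy : 0 < y) (hε : 0 < ε) :
    ∃ c ρ₀ : ℝ, 0 < c ∧ 0 < ρ₀ ∧ ∀ ρ : ℝ, 0 < ρ → ρ ≤ ρ₀ →
      ∃ N₀ : ℕ, ∀ N : ℕ, N₀ ≤ N → ∀ ℓ : ℝ, 0 < ℓ → (N : ℝ) = ρ * ℓ ^ 3 →
      ∀ ψ : Cfg N → ℂ, MemLp ψ 2 → ∫ x, ‖ψ x‖ ^ 2 = 1 →
      (∀ φ : Cfg N → ℂ, MemLp φ 2 → ∫ x, ‖φ x‖ ^ 2 = 1 →
        kinE (1 / (2 * m) * (2 * Real.pi / ℓ) ^ 2) ψ + potE (perPot v ℓ) ψ ≤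
          kinE (1 / (2 * m) * (2 * Real.pi / ℓ) ^ 2) φ + potE (perPot v ℓ) φ +
            ENNReal.ofReal (c * (ρ * √ρ) * N)) →
      ((√(8 * Real.pi * y) - 2 * √(m * (∫ x, v x) / scatLen m v)) /
          (2 * (y + 1 + 1 / (4 * y))) - ε) *
        √(ρ * scatLen m v ^ 3) * N ≤ N - (occE ψ (fun n => n = 0)).toReal := by
  obtain ⟨G, hG⟩ : ∃ G, G = scatG m v := ⟨_, rfl⟩
  have hG0 : 0 < G := by rw [hG]; exact scatG_pos hSU hm hvm hv h0 he hne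
  obtain ⟨V0, hV0⟩ : ∃ V0, V0 = ∫ x, v x := ⟨_, rfl⟩
  have hPi := Real.pi_pos
  have hV00 : 0 < V0 := by rw [hV0]; exact hne
  obtain ⟨b, hb⟩ : ∃ b, b = 1 / (2 * m) := ⟨_, rfl⟩
  have hb0 : 0 < b := by rw [hb]; positivity
  have hp := P0_pos hb0
  obtain ⟨a, ha⟩ : ∃ a, a = m / (4 * Real.pi) * G := ⟨_, rfl⟩
  have ha0 : 0 < a := by rw [ha]; positivity
  have hscat : scatLen m v = a := by rw [scatLen, ha, hG]
  obtain ⟨y0, hy0⟩ : ∃ y0, y0 = 2 * V0 / G := ⟨_, rfl⟩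
  have hy00 : 0 < y0 := by rw [hy0]; positivity
  have hlam0 : 2 * √(m * V0 / a) = √(8 * Real.pi * y0) := by
    have h1 : (8 * Real.pi * y0) = 2 ^ 2 * (m * V0 / a) := by
      rw [hy0, ha]; field_simp; ring
    rw [h1, Real.sqrt_mul (by positivity), Real.sqrt_sq (by norm_num)]
  obtain ⟨e', he'⟩ : ∃ e', e' = G * ε / (4 * √(y0 * G / a ^ 3)) := ⟨_, rfl⟩
  have hsy : 0 < √(y0 * G / a ^ 3) := Real.sqrt_pos.2 (by positivity)
  have he'0 : 0 < e' := by rw [he']; positivity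
  obtain ⟨ρ1, hρ1, H1⟩ := hEU m hm v hvm hv h0 he hne e' he'0
  have hs0 : 0 ≤ √(8 * Real.pi * y0) := Real.sqrt_nonneg _
  obtain ⟨ρ2, hρ2, H2⟩ := univ hSU hPAIR hGM hm hvm hv h0 he hne
    (lam := √(8 * Real.pi * y0) + ε) (y := y) (ε := ε / 2) (by positivity) hy (by positivity)
  obtain ⟨c, hc⟩ : ∃ c, c = G * ε / 8 * √(a ^ 3) := ⟨_, rfl⟩
  have ha3 : 0 < √(a ^ 3) := Real.sqrt_pos.2 (by positivity)
  refine ⟨c, min ρ1 ρ2, by rw [hc]; positivity, lt_min hρ1 hρ2, fun ρ hρ hρρ => ?_⟩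
  obtain ⟨N1, H3⟩ := H1 ρ hρ (hρρ.trans (min_le_left _ _))
  obtain ⟨N2, H4⟩ := H2 ρ hρ (hρρ.trans (min_le_right _ _))
  refine ⟨N1 + N2, fun N hN ℓ hℓ hNℓ ψ hψ hψ1 hmin => ?_⟩
  obtain ⟨φ, hφ, hφ1, hφE⟩ := H3 N (by omega) ℓ hℓ hNℓ
  obtain ⟨Z, hZ⟩ : ∃ Z, Z = √(ρ * a ^ 3) := ⟨_, rfl⟩
  have hZ0 : 0 < Z := by rw [hZ]; exact Real.sqrt_pos.2 (by positivity)
  have hN0 : (0 : ℝ) ≤ N := Nat.cast_nonneg N
  have hB : 1 ≤ y + 1 + 1 / (4 * y) := by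
    have : 0 < 1 / (4 * y) := by positivity
    linarith
  have hE : kinE (1 / (2 * m) * (2 * Real.pi / ℓ) ^ 2) ψ + potE (perPot v ℓ) ψ ≤
      ENNReal.ofReal (2 * Real.pi * scatLen m v * ρ / m *
        (1 + (√(8 * Real.pi * y0) + ε) * √(ρ * scatLen m v ^ 3)) * N) := by
    refine ((hmin φ hφ hφ1).trans (add_le_add hφE le_rfl)).trans ?_
    rw [← hG, ← hV0, ← hb, hscat]
    have h2 : √(2 * ρ * V0) = √(y0 * ρ * G) := by
      congr 1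
      rw [hy0]; field_simp
    have h3 := second_eq (y := y0) hm hG0 hρ hy00
    rw [← hb, ← ha, ← hZ] at h3
    have h4 : √(y0 * ρ * G) = √(y0 * G / a ^ 3) * Z := by
      rw [hZ, ← Real.sqrt_mul (by positivity)]
      congr 1
      field_simp
    have h5 : e' * √(y0 * ρ * G) = G * ε / 4 * Z := by
      rw [he', h4]; field_simp
    have h6 : √ρ * √(a ^ 3) = Z := by
      rw [hZ, Real.sqrt_mul hρ.le]
    have hpos : 0 ≤ ρ / 2 * (G + (G ^ 2 * Real.pi ^ 2 / P0 b + e') * √(2 * ρ * V0)) * N := by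
      have : 0 ≤ √(2 * ρ * V0) := Real.sqrt_nonneg _
      positivity
    have hpos2 : 0 ≤ c * (ρ * √ρ) * N := by
      have : 0 ≤ c := by rw [hc]; positivity
      positivity
    rw [← ENNReal.ofReal_add hpos hpos2, hZ.symm]
    refine ENNReal.ofReal_le_ofReal ?_
    have h7 : 2 * Real.pi * a * ρ / m = ρ * G / 2 := by
      rw [ha]; field_simp; ring
    have h8 : (G ^ 2 * Real.pi ^ 2 / P0 b + e') * √(2 * ρ * V0) =
        G * (√(8 * Real.pi * y0) * Z) + G * ε / 4 * Z := by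
      rw [add_mul, h2, h5, h3]
    have h9 : c * (ρ * √ρ) * N = ρ * G / 2 * (ε / 4 * Z) * N := by
      rw [hc, ← h6]; ring
    rw [h7, h8, h9]
    have h10 : 0 ≤ ρ * G / 2 * (ε / 2 * Z) * N := by positivity
    have h11 : ρ / 2 * (G + (G * (√(8 * Real.pi * y0) * Z) + G * ε / 4 * Z)) * N +
        ρ * G / 2 * (ε / 4 * Z) * N + ρ * G / 2 * (ε / 2 * Z) * N =
        ρ * G / 2 * (1 + (√(8 * Real.pi * y0) + ε) * Z) * N := by ring
    linarith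
  have h12 := H4 N (by omega) ℓ hℓ hNℓ ψ hψ hψ1 hE
  rw [hscat] at h12 ⊢
  rw [← hV0, hlam0]
  rw [← hZ] at h12 ⊢
  refine le_trans ?_ h12
  have h13 : (√(8 * Real.pi * y) - √(8 * Real.pi * y0)) / (2 * (y + 1 + 1 / (4 * y))) - ε ≤
      (√(8 * Real.pi * y) - (√(8 * Real.pi * y0) + ε)) / (2 * (y + 1 + 1 / (4 * y))) - ε / 2 := by
    have h14 : (√(8 * Real.pi * y) - (√(8 * Real.pi * y0) + ε)) / (2 * (y + 1 + 1 / (4 * y))) =
        (√(8 * Real.pi * y) - √(8 * Real.pi * y0)) / (2 * (y + 1 + 1 / (4 * y))) -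
          ε / (2 * (y + 1 + 1 / (4 * y))) := by
      rw [← sub_div]; congr 1; ring
    have h15 : ε / (2 * (y + 1 + 1 / (4 * y))) ≤ ε / 2 := by
      apply div_le_div_of_nonneg_left hε.le (by norm_num)
      linarith
    rw [h14]
    linarith
  have h16 : 0 ≤ Z * N := by positivity
  have h17 := mul_le_mul_of_nonneg_right h13 h16
  linarith

end

end Pool.Agent.H751R2.LHY.G80
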