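import Pool.Agent.J6H80.BG.UnivH
import Pool.Agent.J6H92.BG.HC
import Pool.Agent.J6H76.BG.SL

/-!
# The lower bound on the depletion for a hard core plus an integrable potential
-/

set_option autoImplicit false

open MeasureTheory UnitAddTorus
open scoped ENNReal ContDiff

namespace Pool.Agent.H751R2.LHY.G80

open Pool.Agent.J6H80.BG

noncomputable section

/-- the scattering length of the hard core of radius `R₀` and the potential `v` -/
def scatLenH (m R₀ : ℝ) (v : (Fin 3 → ℝ) → ℝ) : ℝ := m / (4 * Real.pi) * scatH m R₀ v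

lemma hc_nonempty (m R₀ : ℝ) (v : (Fin 3 → ℝ) → ℝ) (hR : 0 ≤ R₀) :
    {E | ∃ f, IsTest f ∧ (∀ x, √(∑ a, x a ^ 2) < R₀ → f x = 0) ∧ E = dirE m v f}.Nonempty := by
  obtain ⟨χ, h1, -, -, h2, h3, -⟩ := Pool.Agent.J6H92.BG.exists_chi
    (show R₀ ^ 2 < R₀ ^ 2 + 1 by linarith)
  refine ⟨_, χ, ⟨h1, R₀ + 1, fun x hx => h3 x ?_⟩, fun x hx => h2 x ?_, rfl⟩
  · obtain ⟨a, ha⟩ : ∃ a, R₀ + 1 < |x a| := by
      by_contra h
      push Not at h
      exact absurd ((pi_norm_le_iff_of_nonneg (by linarith)).2 fun a => h a) (not_le.2 hx)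
    have h5 : x a ^ 2 ≤ ∑ a, x a ^ 2 :=
      Finset.single_le_sum (f := fun a => x a ^ 2) (fun _ _ => sq_nonneg _) (Finset.mem_univ a)
    have h6 : (R₀ + 1) ^ 2 ≤ x a ^ 2 := by
      rw [← sq_abs (x a)]
      exact pow_le_pow_left₀ (by linarith) ha.le 2
    nlinarith
  · by_contra h
    push Not at h
    have h4 : R₀ ≤ √(∑ a, x a ^ 2) := Real.le_sqrt_of_sq_le h.le
    linarith

lemma hc_sup {m R₀ : ℝ} (hm : 0 < m) (hR : 0 ≤ R₀) {v : (Fin 3 → ℝ) → ℝ} (hv : Integrable v)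
    (h0 : ∀ x, 0 ≤ v x) (w : (Fin 3 → ℝ) → ℝ) (hw : Cls (hcPot R₀ v) w) :
    scatG m w ≤ scatH m R₀ v := by
  refine le_csInf (hc_nonempty m R₀ v hR) ?_
  rintro _ ⟨f, hf, hf0, rfl⟩
  refine (Pool.Agent.J6H76.BG.scatG_le hm hw.nonneg hf).trans ?_
  obtain ⟨C, hC⟩ := Pool.Agent.J6H92.BG.test_bdd hf
  rw [Pool.Agent.J6H92.BG.dirE_split hw.int hf, Pool.Agent.J6H92.BG.dirE_split hv hf]
  have h1 : ∫ x, w x * f x ^ 2 ≤ ∫ x, v x * f x ^ 2 := by
    refine integral_mono (Pool.Agent.J6H92.BG.pot_int hw.int hf.1.continuous hC)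
      (Pool.Agent.J6H92.BG.pot_int hv hf.1.continuous hC) fun x => ?_
    by_cases hx : √(∑ a, x a ^ 2) < R₀
    · simp only
      rw [hf0 x hx]
      simp
    · have h2 := hw.le x
      unfold hcPot at h2
      rw [if_neg hx, ENNReal.ofReal_le_ofReal_iff (h0 x)] at h2
      exact mul_le_mul_of_nonneg_right h2 (sq_nonneg _)
  linarith

lemma hc_meas {R₀ : ℝ} {v : (Fin 3 → ℝ) → ℝ} (hvm : Measurable v) : Measurable (hcPot R₀ v) := by
  unfold hcPot
  refine Measurable.ite ?_ measurable_const hvm.ennreal_ofReal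
  exact (isOpen_lt (Real.continuous_sqrt.comp (continuous_finsetSum _ fun a _ =>
    (continuous_apply a).pow 2)) continuous_const).measurableSet

lemma hc_tail {R₀ : ℝ} {v : (Fin 3 → ℝ) → ℝ} (hR : 0 ≤ R₀) (hv : Integrable v) (h0 : ∀ x, 0 ≤ v x) :
    ∫⁻ x in {x : Fin 3 → ℝ | R₀ < ‖x‖}, hcPot R₀ v x ≠ ⊤ := by
  have h1 : ∫⁻ x in {x : Fin 3 → ℝ | R₀ < ‖x‖}, hcPot R₀ v x ≤ ∫⁻ x, ENNReal.ofReal (v x) := by
    calc ∫⁻ x in {x : Fin 3 → ℝ | R₀ < ‖x‖}, hcPot R₀ v x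
        = ∫⁻ x in {x : Fin 3 → ℝ | R₀ < ‖x‖}, ENNReal.ofReal (v x) := by
          refine setLIntegral_congr_fun (measurableSet_lt measurable_const measurable_norm) ?_
          intro x hx
          have hx' : R₀ < ‖x‖ := hx
          unfold hcPot
          simp only
          rw [if_neg]
          intro h
          obtain ⟨a, ha⟩ : ∃ a, R₀ < |x a| := by
            by_contra h'
            push Not at h'
            exact absurd ((pi_norm_le_iff_of_nonneg hR).2 fun a => h' a) (not_le.2 hx')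
          have h5 : x a ^ 2 ≤ ∑ a, x a ^ 2 :=
            Finset.single_le_sum (f := fun a => x a ^ 2) (fun _ _ => sq_nonneg _)
              (Finset.mem_univ a)
          have h6 : |x a| ≤ √(∑ a, x a ^ 2) := by
            apply Real.le_sqrt_of_sq_le
            rw [sq_abs]; exact h5
          linarith
      _ ≤ _ := setLIntegral_le_lintegral _ _
  refine ne_top_of_le_ne_top ?_ h1
  rw [← ofReal_integral_eq_lintegral_ofReal hv (Filter.Eventually.of_forall h0)]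
  exact ENNReal.ofReal_ne_top

lemma scatH_pos (hSU : S_SU) {m R₀ : ℝ} (hm : 0 < m) (hR : 0 ≤ R₀) {v : (Fin 3 → ℝ) → ℝ}
    (hvm : Measurable v) (hv : Integrable v) (h0 : ∀ x, 0 ≤ v x) (he : ∀ x, v (-x) = v x)
    (hg : 0 < R₀ ∨ 0 < ∫ x, v x) : 0 < scatH m R₀ v := by
  rcases hR.eq_or_lt with h | h
  · have hne : 0 < ∫ x, v x := by
      rcases hg with h1 | h1
      · rw [← h] at h1; exact absurd h1 (lt_irrefl _)
      · exact h1
    have hw : Cls (hcPot R₀ v) v := ⟨hvm, hv, h0, he, fun x => by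
      unfold hcPot
      rw [if_neg]
      rw [← h]
      exact not_lt.2 (Real.sqrt_nonneg _)⟩
    exact (scatG_pos hSU hm hvm hv h0 he hne).trans_le (hc_sup hm hR hv h0 v hw)
  · have hw := Pool.Agent.J6H92.BG.wk_cls h hvm hv h0 he (k := 1) zero_le_one
    refine (scatG_pos hSU hm hw.meas hw.int hw.nonneg hw.even ?_).trans_le
      (hc_sup hm hR hv h0 _ hw)
    have hb := Pool.Agent.J6H92.BG.bi_int h
    have hu := Pool.Agent.J6H92.BG.uu_int (R := R₀) hv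
    have h1 : ∫ x, Pool.Agent.J6H92.BG.bi R₀ x ≤
        ∫ x, Pool.Agent.J6H92.BG.wk R₀ v 1 x := by
      refine integral_mono hb hw.int fun x => ?_
      unfold Pool.Agent.J6H92.BG.wk
      have h2 : 0 ≤ Pool.Agent.J6H92.BG.uu R₀ v x := by
        unfold Pool.Agent.J6H92.BG.uu
        exact Set.indicator_nonneg (fun x _ => h0 x) x
      simp only
      linarith
    refine lt_of_lt_of_le ?_ h1
    unfold Pool.Agent.J6H92.BG.bi
    rw [integral_indicator (Pool.Agent.J6H92.BG.Bl_open R₀).measurableSet, setIntegral_const,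
      smul_eq_mul, mul_one]
    have hne : (Pool.Agent.J6H92.BG.Bl R₀).Nonempty := ⟨0, by
      change √(∑ a, (0 : Fin 3 → ℝ) a ^ 2) < R₀
      simpa using h⟩
    have h3 := (Pool.Agent.J6H92.BG.Bl_open R₀).measure_pos volume hne
    refine ENNReal.toReal_pos h3.ne' ?_
    have h4 : Pool.Agent.J6H92.BG.Bl R₀ ⊆ Metric.closedBall 0 R₀ := fun x hx => by
      rw [mem_closedBall_zero_iff]
      exact Pool.Agent.J6H92.BG.Bl_norm h hx
    exact ((measure_mono h4).trans_lt measure_closedBall_lt_top).ne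

theorem hard (hSU : S_SU) (hPAIR : S_PAIR) (hTU : S_TU) (hGMU : S_GMU) (hHC : S_HC) {m R₀ : ℝ}
    (hm : 0 < m) (hR : 0 ≤ R₀) {v : (Fin 3 → ℝ) → ℝ}
    (hvm : Measurable v) (hv : Integrable v) (h0 : ∀ x, 0 ≤ v x) (he : ∀ x, v (-x) = v x)
    (hg : 0 < R₀ ∨ 0 < ∫ x, v x) {lam y ε : ℝ} (hlam : 0 ≤ lam) (hy : 0 < y) (hε : 0 < ε) :
    0 < scatLenH m R₀ v ∧
    ∃ ρ₀ : ℝ, 0 < ρ₀ ∧ ∀ ρ : ℝ, 0 < ρ → ρ ≤ ρ₀ →
      ∃ N₀ : ℕ, ∀ N : ℕ, N₀ ≤ N → ∀ ℓ : ℝ, 0 < ℓ → (N : ℝ) = ρ * ℓ ^ 3 →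
      ∀ ψ : Cfg N → ℂ, MemLp ψ 2 → ∫ x, ‖ψ x‖ ^ 2 = 1 →
      kinE (1 / (2 * m) * (2 * Real.pi / ℓ) ^ 2) ψ + potE (perE (hcPot R₀ v) ℓ) ψ ≤
        ENNReal.ofReal (2 * Real.pi * scatLenH m R₀ v * ρ / m *
          (1 + lam * √(ρ * scatLenH m R₀ v ^ 3)) * N) →
      ((√(8 * Real.pi * y) - lam) / (2 * (y + 1 + 1 / (4 * y))) - ε) *
        √(ρ * scatLenH m R₀ v ^ 3) * N ≤ N - (occE ψ (fun n => n = 0)).toReal := by
  have hG := scatH_pos hSU hm hR hvm hv h0 he hg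
  have hPi := Real.pi_pos
  refine ⟨by unfold scatLenH; positivity, ?_⟩
  exact univH hPAIR hTU hGMU hm (hc_meas hvm) (hc_tail hR hv h0) hG (hc_sup hm hR hv h0)
    (fun ε hε => hHC m hm R₀ hR v hvm hv h0 he ε hε) rfl hlam hy hε

end

end Pool.Agent.H751R2.LHY.G80
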