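import Pool.Agent.J6H80.BG.Pos
import Pool.Agent.J6H80.BG.Fin1

/-!
# Statements of two modules: the energy of the ground state up to the order of Lee, Huang and Yang

Target (MP_4952d6_mp, the model of the problem itself): the depletion bound for the ground state
without any assumption on the energy, with an explicit constant.
-/

set_option autoImplicit false

open MeasureTheory UnitAddTorus
open scoped ENNReal ContDiff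

namespace Pool.Agent.J6H80.BG

open Pool.Agent.H751R2.LHY Pool.Agent.H751R2.LHY.G80

noncomputable section

/-- UP. Sharp upper bound of the two-body energy with mass `μ` (the counterpart of `S_GM`).

Notation: `b = 1/(2m)`, `q = b (2π/ℓ)²`, `κ_n = q |n|²`, `G = scatG m v`, `A = G² π² / P0 b`,
`E(μ) = min_c Qf WK q μ B0 c = gh 0` at the minimiser (`exists_scat`, `scat_min`, `scat_Q`),
`ω(μ) = ∑ c_n²`, `WK = min (Wr v ℓ) K`. This is `Pool/Agent/J6H53/BG/TU.lean` with the ratio `s² → 1`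
instead of `1/4`:
(1) `E(μ) ≤ E(s² μ) + 2 (1 - s²) μ ω(s² μ)` (`Pool.Agent.H751R2.LHY.G80.GM70.Qf_gap`).
(2) `|gh n| ≤ gh 0 + η` for all `n` (`pos_lim`), so
`ω(s² μ) ≤ ((E(s² μ) + η)² / 4) ∑_n 1/(κ_n + s² μ)²`, and by `Pool.Agent.J6H48.BG.lat` with `q_sqrt`
the sum is `≤ (1 + ε') π² ℓ³ / (P0 b s √μ)` for `ℓ` large. As `ℓ³ E(s² μ) ≤ G + ε'` for `μ ≤ δ` (module
TU, `Pool.Agent.J6H53.BG.tu`), this gives
`ℓ³ E(μ) ≤ ℓ³ E(s² μ) + (1 - s²)/(2 s) A' √μ`, `A' = (1 + ε') (G + 2 ε')² π² / P0 b`.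
(3) Iterate `J` times: `ℓ³ E(μ) ≤ ℓ³ E(s^(2J) μ) + (1 - s²)/(2 s) A' √μ ∑_{j<J} s^j
≤ ℓ³ E(s^(2J) μ) + (1 + s)/(2 s) A' √μ`, and `ℓ³ E(s^(2J) μ) ≤ G + ε √μ / 2` for `J` large
(`Pool.Agent.J6H47.BG.su` with `ε √μ / 2`; `Qf_mono_pot`). Choose `s`, `ε'` from `ε`, then `δ`; for given
`μ` then `J`, `ℓ`, `R`. -/
def S_UP : Prop :=
  ∀ m : ℝ, 0 < m → ∀ v : (Fin 3 → ℝ) → ℝ, Measurable v → Integrable v → (∀ x, 0 ≤ v x) →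
    (∀ x, v (-x) = v x) → 0 < ∫ x, v x → ∀ ε : ℝ, 0 < ε → ∃ δ : ℝ, 0 < δ ∧
      ∀ μ : ℝ, 0 < μ → μ ≤ δ → ∃ L : ℝ, 0 < L ∧ ∀ ℓ : ℝ, L ≤ ℓ →
      ∀ K : ℝ, 0 ≤ K → ∀ᶠ R : ℕ in Filter.atTop, ∀ c : Mom → ℝ,
        Scat (fun y => min (Wr v ℓ y) K) (1 / (2 * m) * (2 * Real.pi / ℓ) ^ 2) μ
          ((boxM R).erase 0) c →
        ℓ ^ 3 * gh (fun y => min (Wr v ℓ y) K) ((boxM R).erase 0) c 0 ≤
          scatG m v + (scatG m v ^ 2 * Real.pi ^ 2 / P0 (1 / (2 * m)) + ε) * √μ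

/-- EU. A state with energy of the order of Lee, Huang and Yang (module with hypothesis `S_UP`).

Proof: put `V0 = ∫ v`, `I = V0 / ℓ³ = ∫ Wr v ℓ` (`Wr_int_one`), `s = N I = ρ V0`, `μ = (2 + θ) s` with small
`θ > 0`. By `S_UP` and `clip` (`Pool/Agent/H751R2/LHY`: for `K` large; see `upG` in
`Pool/Agent/J6H80/BG/Cor1.lean`) there are `B1` symmetric, `c1` even with
`ℓ³ Qf (Wr v ℓ) q μ B1 c1 ≤ G + (A + ε') √μ`. By `Pool.Agent.J6H76.BG.t_SL` with mass `μ/2`: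
`G - η ≤ ℓ³ Qf (Wr v ℓ) q (μ/2) B1 c1 = ℓ³ (Qf (Wr v ℓ) q μ B1 c1 - μ ω)`, `ω = ∑ c1_n²`, so
`μ ℓ³ ω ≤ (A + ε') √μ + η` and `N ω = ρ ℓ³ ω = μ ℓ³ ω / ((2 + θ) V0)` is small for small `ρ`. The trial
state of `upperW` (`Tri.lean`, with `κ n = q sq n`; normalised as in `trialG`, `trig_memLp`,
`trig_norm`, `enG_trig` with `Δ = 0`, or `trig_kinE`, `trig_potE`) has energy at most
`(N²/2) (∫ W (1 - wf)² + 2 ∑ κ c1² + 4 I N ω (1 + N ω)) ≤ (N²/2) Qf (Wr v ℓ) q μ B1 c1` if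
`4 s ω (1 + N ω) ≤ 2 μ ω`, i.e. `1 + N ω ≤ 1 + θ/2`. Finally `N² / ℓ³ = ρ N` and
`√((2 + θ) ρ V0) ≤ (1 + θ) √(2 ρ V0)`, `potE_congr (perPot_ae ..)`. -/
def S_EU : Prop :=
  ∀ m : ℝ, 0 < m → ∀ v : (Fin 3 → ℝ) → ℝ, Measurable v → Integrable v → (∀ x, 0 ≤ v x) →
    (∀ x, v (-x) = v x) → 0 < ∫ x, v x → ∀ ε : ℝ, 0 < ε → ∃ ρ₀ : ℝ, 0 < ρ₀ ∧
      ∀ ρ : ℝ, 0 < ρ → ρ ≤ ρ₀ → ∃ N₀ : ℕ, ∀ N : ℕ, N₀ ≤ N → ∀ ℓ : ℝ, 0 < ℓ → (N : ℝ) = ρ * ℓ ^ 3 →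
      ∃ φ : Cfg N → ℂ, MemLp φ 2 ∧ ∫ x, ‖φ x‖ ^ 2 = 1 ∧
        kinE (1 / (2 * m) * (2 * Real.pi / ℓ) ^ 2) φ + potE (perPot v ℓ) φ ≤
          ENNReal.ofReal (ρ / 2 * (scatG m v +
            (scatG m v ^ 2 * Real.pi ^ 2 / P0 (1 / (2 * m)) + ε) * √(2 * ρ * ∫ x, v x)) * N)

end

end Pool.Agent.J6H80.BG
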