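import Pool.Agent.J6H80.BG.UnivF
import Pool.Agent.J6H17.BG.Pair

/-!
# Lower bound of the energy with different weights at low and at high momenta
-/

set_option autoImplicit false

open MeasureTheory UnitAddTorus
open scoped ComplexConjugate ENNReal

namespace Pool.Agent.H751R2.LHY.G80

open Pool.Agent.J6H80.BG

noncomputable section

lemma pairS_zero_le {N : ℕ} (B : Finset Mom) (a : (Fin N → Mom) → ℂ) :
    (pairS B a 0).re ≤ (N : ℝ) ^ 2 * nrm B a := by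
  rw [Pool.Agent.J6H17.BG.pairS_zero_re, nrm, Finset.mul_sum]
  refine Finset.sum_le_sum fun M _ => mul_le_mul_of_nonneg_right ?_ (sq_nonneg _)
  have h1 : ((Finset.univ.filter (fun i => M i = 0)).card : ℝ) ≤ N := by
    have := Finset.card_le_univ (Finset.univ.filter (fun i => M i = 0))
    rw [Fintype.card_fin] at this
    exact_mod_cast this
  have h2 : (0 : ℝ) ≤ ((Finset.univ.filter (fun i => M i = 0)).card : ℝ) := Nat.cast_nonneg _
  nlinarith

theorem lowerV {N : ℕ} {W : T3 → ℝ} (hW : Pot W) {q : ℝ}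
    {B0 : Finset Mom} (hB0 : Sym B0) {w w' : Mom → ℝ} (hw : ∀ n ∈ B0, 0 < w n)
    (hw' : ∀ n ∈ B0, 0 < w' n)
    (hwe : ∀ n, w' (-n) = w' n) {c : Mom → ℝ} (hc : ScatW W w B0 c)
    (L : Mom → ℝ) {X : ℝ} (hX0 : 0 ≤ X)
    (hX : ∑ n ∈ B0, gh W B0 c n ^ 2 / (4 * w' n) ≤ ∑ n ∈ B0, w n * c n ^ 2 + X)
    (hAL : ∀ n ∈ B0, w' n + (N * gh W B0 c n) ^ 2 / (4 * w' n) ≤
      q * sq n + L n - gh W B0 c 0 * N)
    (a : (Fin N → Mom) → ℂ) :
    nrm (insert 0 B0) a * ((1 / 2) * gh W B0 c 0 * ((N : ℝ) ^ 2 - N) - X * (N : ℝ) ^ 2)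
      ≤ kinF (insert 0 B0) a q + potF (insert 0 B0) a W
        + ∑ n ∈ B0, L n * occ (insert 0 B0) a n := by
  classical
  set B := insert 0 B0 with hB
  set S := nrm B a with hS
  have hS0 : 0 ≤ S := by
    rw [hS]; unfold nrm
    exact Finset.sum_nonneg fun _ _ => sq_nonneg _
  set o : Mom → ℝ := fun n => occ B a n with ho
  have ho0 : ∀ n, 0 ≤ o n := fun n => t5_occ_nonneg B a n
  set g : Mom → ℝ := fun n => gh W B0 c n with hg
  set P := (pairS B a 0).re with hP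
  have hN0 : (0 : ℝ) ≤ N := Nat.cast_nonneg N
  set Sg := ∑ n ∈ B0, 2 * w n * c n ^ 2 with hSg
  set I := ∫ y, W y * (1 - wf B0 c y) ^ 2 with hI
  have hI0 : 0 ≤ I := by
    rw [hI]
    apply integral_nonneg
    intro y
    exact mul_nonneg (hW.nonneg y) (sq_nonneg _)
  have hSg0 : 0 ≤ Sg := by
    rw [hSg]
    apply Finset.sum_nonneg
    intro n hn
    have := hw n hn
    positivity
  have hQ : g 0 = I + Sg := scatW_Q hW hc
  have hg0 : 0 ≤ g 0 := by rw [hQ]; linarith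
  -- kinetic
  have hkin : kinF B a q = ∑ n ∈ B0, q * sq n * o n := t5_kin B0 hB0.zero a q
  -- potential
  have hpot := pot_ge hW hB0 c a
  rw [← hI, Finset.sum_insert hB0.zero, ← hB] at hpot
  -- zero mode
  have hz := pairS_zero_ge B a
  have hPle : P ≤ (N : ℝ) ^ 2 * S := pairS_zero_le B a
  have hP0 : 0 ≤ P := by
    rw [hP, Pool.Agent.J6H17.BG.pairS_zero_re]
    refine Finset.sum_nonneg fun M _ => mul_nonneg ?_ (sq_nonneg _)
    rcases Nat.eq_zero_or_pos (Finset.univ.filter (fun i => M i = 0)).card with h | h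
    · rw [h]; simp
    · have h1 : (1 : ℝ) ≤ ((Finset.univ.filter (fun i => M i = 0)).card : ℝ) := by
        exact_mod_cast h
      exact mul_nonneg (by linarith) (by linarith)
  have herase : B.erase 0 = B0 := Finset.erase_insert hB0.zero
  rw [herase] at hz
  -- pair modes
  have hpair : ∀ n ∈ B0, -(w' n * o n + g n ^ 2 / (4 * w' n) * (P + (N : ℝ) ^ 2 * o (-n))) ≤
      g n * (pairS B a n).re := by
    intro n hn
    have hne : n ≠ 0 := fun h => hB0.zero (h ▸ hn)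
    obtain ⟨h0, h1⟩ := Pool.Agent.J6H17.BG.pair N B (Finset.mem_insert_self _ _) n
      (Finset.mem_insert_of_mem hn) (Finset.mem_insert_of_mem (hB0.neg n hn)) hne a
    have hwn := hw' n hn
    have h2 : |g n * (pairS B a n).re| ≤ |g n| * ‖pairS B a n‖ := by
      rw [abs_mul]
      exact mul_le_mul_of_nonneg_left (Complex.abs_re_le_norm _) (abs_nonneg _)
    set X := P + (N : ℝ) ^ 2 * o (-n) with hX
    have hX0 : 0 ≤ X := by
      have := ho0 (-n)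
      rw [hX]; positivity
    have h3 : |g n| * ‖pairS B a n‖ ≤ w' n * o n + g n ^ 2 / (4 * w' n) * X := by
      have h4 : (|g n| * ‖pairS B a n‖) ^ 2 ≤ (w' n * o n + g n ^ 2 / (4 * w' n) * X) ^ 2 := by
        have h5 : (|g n| * ‖pairS B a n‖) ^ 2 ≤
            4 * (w' n * o n) * (g n ^ 2 / (4 * w' n) * X) := by
          rw [mul_pow, sq_abs]
          calc g n ^ 2 * ‖pairS B a n‖ ^ 2 ≤ g n ^ 2 * (o n * X) :=
                mul_le_mul_of_nonneg_left h1 (sq_nonneg _)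
            _ = 4 * (w' n * o n) * (g n ^ 2 / (4 * w' n) * X) := by field_simp
        nlinarith [sq_nonneg (w' n * o n - g n ^ 2 / (4 * w' n) * X)]
      have h6 : 0 ≤ w' n * o n + g n ^ 2 / (4 * w' n) * X := by
        have := ho0 n
        positivity
      exact abs_le_of_sq_le_sq' h4 h6 |>.2
    exact (abs_le.mp (h2.trans h3)).1
  have hsum := Finset.sum_le_sum hpair
  have hre : ∑ n ∈ B0, g n ^ 2 / (4 * w' n) * ((N : ℝ) ^ 2 * o (-n)) =
      ∑ n ∈ B0, g n ^ 2 / (4 * w' n) * ((N : ℝ) ^ 2 * o n) := by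
    refine Finset.sum_nbij' (fun n => -n) (fun n => -n) (fun n hn => hB0.neg n hn)
      (fun n hn => hB0.neg n hn) (fun n _ => neg_neg n) (fun n _ => neg_neg n) ?_
    intro n _
    have h1 : g (-n) = g n := h464_gh_neg _ _ _ _
    simp only [h1, hwe]
  have hleft : -(∑ n ∈ B0, (w' n + (N * g n) ^ 2 / (4 * w' n)) * o n) - Sg / 2 * P - X * P ≤
      ∑ n ∈ B0, -(w' n * o n + g n ^ 2 / (4 * w' n) * (P + (N : ℝ) ^ 2 * o (-n))) := by
    have e1 : (∑ n ∈ B0, g n ^ 2 / (4 * w' n)) * P ≤ (Sg / 2 + X) * P := by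
      refine mul_le_mul_of_nonneg_right ?_ hP0
      have e2 : Sg / 2 = ∑ n ∈ B0, w n * c n ^ 2 := by
        rw [hSg, Finset.sum_div]
        exact Finset.sum_congr rfl fun n _ => by ring
      rw [e2]
      exact hX
    have e2 : ∑ n ∈ B0, -(w' n * o n + g n ^ 2 / (4 * w' n) * (P + (N : ℝ) ^ 2 * o (-n))) =
        (∑ n ∈ B0, -(w' n * o n)) - (∑ n ∈ B0, g n ^ 2 / (4 * w' n)) * P -
          ∑ n ∈ B0, g n ^ 2 / (4 * w' n) * ((N : ℝ) ^ 2 * o (-n)) := by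
      rw [Finset.sum_mul, ← Finset.sum_sub_distrib, ← Finset.sum_sub_distrib]
      exact Finset.sum_congr rfl fun n _ => by ring
    have e3 : ∑ n ∈ B0, (w' n + (N * g n) ^ 2 / (4 * w' n)) * o n =
        (∑ n ∈ B0, w' n * o n) + ∑ n ∈ B0, g n ^ 2 / (4 * w' n) * ((N : ℝ) ^ 2 * o n) := by
      rw [← Finset.sum_add_distrib]
      exact Finset.sum_congr rfl fun n _ => by ring
    rw [e2, hre, e3, Finset.sum_neg_distrib]
    linarith
  have hmode : g 0 * N * ∑ n ∈ B0, o n ≤ ∑ n ∈ B0, q * sq n * o n + ∑ n ∈ B0, L n * o n -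
      ∑ n ∈ B0, (w' n + (N * g n) ^ 2 / (4 * w' n)) * o n := by
    rw [Finset.mul_sum, ← Finset.sum_add_distrib, ← Finset.sum_sub_distrib]
    refine Finset.sum_le_sum fun n hn => ?_
    have h1 := mul_le_mul_of_nonneg_right (hAL n hn) (ho0 n)
    linarith
  have hzero : g 0 / 2 * ((N : ℝ) * (N - 1) * S) - g 0 * N * ∑ n ∈ B0, o n ≤ g 0 / 2 * P := by
    have h1 := mul_le_mul_of_nonneg_left hz (by linarith : 0 ≤ g 0 / 2)
    have h2 : 0 ≤ g 0 * ∑ n ∈ B0, o n := mul_nonneg hg0 (Finset.sum_nonneg fun n _ => ho0 n)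
    have h3 : g 0 / 2 * ((N : ℝ) * (N - 1) * nrm B a - 2 * (N - 1) * ∑ n ∈ B0, occ B a n) =
      g 0 / 2 * ((N : ℝ) * (N - 1) * S) - g 0 * N * ∑ n ∈ B0, o n + g 0 * ∑ n ∈ B0, o n := by
      rw [hS]; ring
    rw [h3] at h1
    linarith
  have hfin : g 0 * P - 1 / 2 * I * P - Sg / 2 * P = g 0 / 2 * P := by rw [hQ]; ring
  have hgoal : S * ((1 / 2) * g 0 * ((N : ℝ) ^ 2 - N) - X * (N : ℝ) ^ 2) =
      g 0 / 2 * ((N : ℝ) * (N - 1) * S) - X * ((N : ℝ) ^ 2 * S) := by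
    ring
  have hXP := mul_le_mul_of_nonneg_left hPle hX0
  rw [hkin]
  change S * ((1 / 2) * g 0 * ((N : ℝ) ^ 2 - N) - X * (N : ℝ) ^ 2) ≤ _
  rw [hgoal]
  linarith

/-- the core inequality, with the weight `L` at low momenta and the weight `-s` at high momenta -/
theorem coreV {N : ℕ} (hN : 1 ≤ N) {W : T3 → ℝ} (hW : Pot W)
    (hWm : Measurable W) {q μ L s P1 X0 gm : ℝ} (hq : 0 < q) (hμ : 0 < μ) (hL0 : 0 ≤ L)
    (hP1 : 0 ≤ P1) (hX0 : 0 ≤ X0)
    {ψ : Cfg N → ℂ} (hψ : MemLp ψ 2) (hψ1 : ∫ x, ‖ψ x‖ ^ 2 = 1)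
    (hfin : kinE q ψ + potE (fun y => ENNReal.ofReal (W y)) ψ ≠ ⊤)
    (hyp : ∃ K1 : ℝ, ∀ K, K1 ≤ K → 0 ≤ K → ∀ᶠ R : ℕ in Filter.atTop, ∀ c : Mom → ℝ,
      Scat (fun y => min (W y) K) q μ ((boxM R).erase 0) c →
      gm ≤ gh (fun y => min (W y) K) ((boxM R).erase 0) c 0 ∧ ∃ w' : Mom → ℝ,
      (∀ n, 0 < w' n) ∧ (∀ n, w' (-n) = w' n) ∧
      ∑ n ∈ (boxM R).erase 0, gh (fun y => min (W y) K) ((boxM R).erase 0) c n ^ 2 / (4 * w' n) ≤
        ∑ n ∈ (boxM R).erase 0, (q * sq n + μ) * c n ^ 2 + X0 ∧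
      ∀ n, w' n + (N * gh (fun y => min (W y) K) ((boxM R).erase 0) c n) ^ 2 /
        (4 * w' n) + gh (fun y => min (W y) K) ((boxM R).erase 0) c 0 * N ≤
          q * sq n + if q * sq n ≤ P1 then L else -s) :
    (1 / 2) * gm * ((N : ℝ) ^ 2 - N) - X0 * (N : ℝ) ^ 2 ≤
      (kinE q ψ + potE (fun y => ENNReal.ofReal (W y)) ψ).toReal +
        L * (occE ψ (fun n => n ≠ 0 ∧ q * sq n ≤ P1)).toReal -
        s * (occE ψ (fun n => ¬ q * sq n ≤ P1)).toReal := by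
  have hz0 : q * sq (0 : Mom) ≤ P1 := by simp [sq, hP1]
  have hotop := occE_fin hψ hψ1 (fun n => n ≠ 0 ∧ q * sq n ≤ P1)
  have hEtop : enG q (fun y => ENNReal.ofReal (W y)) L (fun n => n ≠ 0 ∧ q * sq n ≤ P1) ψ ≠ ⊤ := by
    unfold enG
    exact ENNReal.add_ne_top.2 ⟨hfin, ENNReal.mul_ne_top ENNReal.ofReal_ne_top hotop⟩
  have hEr : (enG q (fun y => ENNReal.ofReal (W y)) L (fun n => n ≠ 0 ∧ q * sq n ≤ P1) ψ).toReal =
      (kinE q ψ + potE (fun y => ENNReal.ofReal (W y)) ψ).toReal +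
        L * (occE ψ (fun n => n ≠ 0 ∧ q * sq n ≤ P1)).toReal := by
    unfold enG
    rw [ENNReal.toReal_add hfin (ENNReal.mul_ne_top ENNReal.ofReal_ne_top hotop),
      ENNReal.toReal_mul, ENNReal.toReal_ofReal hL0]
  rw [← hEr]
  have hNr : (1 : ℝ) ≤ N := by exact_mod_cast hN
  refine le_of_forall_pos_le_add fun ε hε => ?_
  obtain ⟨K1, hK1⟩ := hyp
  set K := max K1 0 with hK
  have hKK1 : K1 ≤ K := le_max_left _ _
  have hKn : 0 ≤ K := le_max_right _ _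
  have hWKp : Pot (fun y => min (W y) K) := pot_min hW hKn
  set X : ℝ := (1 / 2) * gm * ((N : ℝ) ^ 2 - N) - X0 * (N : ℝ) ^ 2 with hX
  have hlim := limG hW hWm hq hL0 (t := -s) (fun n => n ≠ 0 ∧ q * sq n ≤ P1) (fun h => h.1 rfl)
    (fun n => ¬ q * sq n ≤ P1) (fun h => h hz0) hψ hψ1 hEtop hKn |X| hε
  obtain ⟨R, hR2, hR3⟩ := (hlim.and (hK1 K hKK1 hKn)).exists
  obtain ⟨c, hc⟩ := exists_scat hWKp hq hμ (boxM_sym R)
  obtain ⟨h1, w', hw'0, hw'e, hw'X, h2⟩ := hR3 c hc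
  have hκ : ∀ n, 0 ≤ q * sq n := fun n => mul_nonneg hq.le (sq_nonneg' n)
  have hlow := lowerV hWKp (q := q) (boxM_sym R) (w := fun n => q * sq n + μ) (w' := w')
    (fun n _ => by have := hκ n; linarith) (fun n _ => hw'0 n) hw'e (scat_to_W hc)
    (fun n => (if n ≠ 0 ∧ q * sq n ≤ P1 then L else 0) +
      if (fun n : Mom => ¬ q * sq n ≤ P1) n then -s else (0 : ℝ)) hX0 hw'X
    (fun n hn => by
      have h3 := h2 n
      have h4 := mem_erase_ne hn
      by_cases h5 : q * sq n ≤ P1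
      · rw [if_pos h5] at h3
        rw [if_pos ⟨h4, h5⟩, if_neg (not_not.2 h5)]
        linarith
      · rw [if_neg h5] at h3
        rw [if_neg (fun h => h5 h.2), if_pos h5]
        linarith) (coef ψ)
  rw [insert_box R] at hlow
  have hnn : 0 ≤ nrm (boxM R) (coef ψ) := Finset.sum_nonneg (fun _ _ => sq_nonneg _)
  have hXle : X ≤ 1 / 2 * gh (fun y => min (W y) K) ((boxM R).erase 0) c 0 *
      ((N : ℝ) ^ 2 - N) - X0 * (N : ℝ) ^ 2 := by
    rw [hX]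
    have h5 : 0 ≤ (N : ℝ) ^ 2 - N := by nlinarith
    have := mul_le_mul_of_nonneg_right h1 h5
    linarith
  have hfin2 := hR2 X le_rfl ((mul_le_mul_of_nonneg_left hXle hnn).trans hlow)
  linarith

end

end Pool.Agent.H751R2.LHY.G80
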