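import Pool.Agent.J6H80.BG.HcF
import Pool.Agent.J6H80.BG.UnivM
import Pool.Agent.J6H80.BG.Stm5

/-!
# The lower bounds on the depletion with the momenta of the excited particles
-/

set_option autoImplicit false

open MeasureTheory UnitAddTorus
open scoped ENNReal ContDiff

namespace Pool.Agent.H751R2.LHY.G80

open Pool.Agent.J6H80.BG

noncomputable section

theorem hardM (hSU : S_SU) (hTU : S_TU) (hGMU : S_GMU) (hHC : S_HC) {m R₀ : ℝ}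
    (hm : 0 < m) (hR : 0 ≤ R₀) {v : (Fin 3 → ℝ) → ℝ}
    (hvm : Measurable v) (hv : Integrable v) (h0 : ∀ x, 0 ≤ v x) (he : ∀ x, v (-x) = v x)
    (hg : 0 < R₀ ∨ 0 < ∫ x, v x) {lam y ε : ℝ} (hlam : 0 ≤ lam) (hy : 0 < y) (hε : 0 < ε) :
    0 < scatLenH m R₀ v ∧
    ∃ kap M₀ ρ₀ : ℝ, 0 < kap ∧ 0 < M₀ ∧ 0 < ρ₀ ∧ ∀ ρ : ℝ, 0 < ρ → ρ ≤ ρ₀ → ∀ M : ℝ, M₀ ≤ M →
      ∃ N₀ : ℕ, ∀ N : ℕ, N₀ ≤ N → ∀ ℓ : ℝ, 0 < ℓ → (N : ℝ) = ρ * ℓ ^ 3 →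
      ∀ ψ : Cfg N → ℂ, MemLp ψ 2 → ∫ x, ‖ψ x‖ ^ 2 = 1 →
      kinE (1 / (2 * m) * (2 * Real.pi / ℓ) ^ 2) ψ + potE (perE (hcPot R₀ v) ℓ) ψ ≤
        ENNReal.ofReal (2 * Real.pi * scatLenH m R₀ v * ρ / m *
          (1 + lam * √(ρ * scatLenH m R₀ v ^ 3)) * N) →
      ((√(8 * Real.pi * y) - lam) / (2 * (y + 1 + 1 / (4 * y))) - ε) *
        √(ρ * scatLenH m R₀ v ^ 3) * N +
        kap * √M * (occE ψ (fun n =>
          ¬ (2 * Real.pi / ℓ) ^ 2 * sq n ≤ M * ρ * scatLenH m R₀ v)).toReal ≤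
        (occE ψ (fun n =>
          n ≠ 0 ∧ (2 * Real.pi / ℓ) ^ 2 * sq n ≤ M * ρ * scatLenH m R₀ v)).toReal := by
  have hG := scatH_pos hSU hm hR hvm hv h0 he hg
  have hPi := Real.pi_pos
  refine ⟨by unfold scatLenH; positivity, ?_⟩
  exact univM hTU hGMU hm (hc_meas hvm) (hc_tail hR hv h0) hG (hc_sup hm hR hv h0)
    (fun ε hε => hHC m hm R₀ hR v hvm hv h0 he ε hε) rfl hlam hy hε

lemma scatG_mono {m : ℝ} (hm : 0 < m) {v w : (Fin 3 → ℝ) → ℝ} (hv : Integrable v)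
    (hw : Integrable w) (hw0 : ∀ x, 0 ≤ w x) (hwv : ∀ x, w x ≤ v x) : scatG m w ≤ scatG m v := by
  have hne : {E | ∃ f, IsTest f ∧ E = dirE m v f}.Nonempty :=
    ⟨_, fun _ => 1, ⟨contDiff_const, 0, fun _ _ => rfl⟩, rfl⟩
  refine le_csInf hne ?_
  rintro _ ⟨f, hf, rfl⟩
  refine (Pool.Agent.J6H76.BG.scatG_le hm hw0 hf).trans ?_
  obtain ⟨C, hC⟩ := Pool.Agent.J6H92.BG.test_bdd hf
  rw [Pool.Agent.J6H92.BG.dirE_split hw hf, Pool.Agent.J6H92.BG.dirE_split hv hf]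
  have h1 : ∫ x, w x * f x ^ 2 ≤ ∫ x, v x * f x ^ 2 :=
    integral_mono (Pool.Agent.J6H92.BG.pot_int hw hf.1.continuous hC)
      (Pool.Agent.J6H92.BG.pot_int hv hf.1.continuous hC) fun x =>
        mul_le_mul_of_nonneg_right (hwv x) (sq_nonneg _)
  linarith

/-- the case of an integrable potential -/
theorem softM (hSU : S_SU) (hTU : S_TU) (hGMU : S_GMU) {m : ℝ} (hm : 0 < m)
    {v : (Fin 3 → ℝ) → ℝ}
    (hvm : Measurable v) (hv : Integrable v) (h0 : ∀ x, 0 ≤ v x) (he : ∀ x, v (-x) = v x)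
    (hne : 0 < ∫ x, v x) {lam y ε : ℝ} (hlam : 0 ≤ lam) (hy : 0 < y) (hε : 0 < ε) :
    ∃ kap M₀ ρ₀ : ℝ, 0 < kap ∧ 0 < M₀ ∧ 0 < ρ₀ ∧ ∀ ρ : ℝ, 0 < ρ → ρ ≤ ρ₀ → ∀ M : ℝ, M₀ ≤ M →
      ∃ N₀ : ℕ, ∀ N : ℕ, N₀ ≤ N → ∀ ℓ : ℝ, 0 < ℓ → (N : ℝ) = ρ * ℓ ^ 3 →
      ∀ ψ : Cfg N → ℂ, MemLp ψ 2 → ∫ x, ‖ψ x‖ ^ 2 = 1 →
      kinE (1 / (2 * m) * (2 * Real.pi / ℓ) ^ 2) ψ + potE (perPot v ℓ) ψ ≤
        ENNReal.ofReal (2 * Real.pi * scatLen m v * ρ / m *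
          (1 + lam * √(ρ * scatLen m v ^ 3)) * N) →
      ((√(8 * Real.pi * y) - lam) / (2 * (y + 1 + 1 / (4 * y))) - ε) *
        √(ρ * scatLen m v ^ 3) * N +
        kap * √M * (occE ψ (fun n =>
          ¬ (2 * Real.pi / ℓ) ^ 2 * sq n ≤ M * ρ * scatLen m v)).toReal ≤
        (occE ψ (fun n =>
          n ≠ 0 ∧ (2 * Real.pi / ℓ) ^ 2 * sq n ≤ M * ρ * scatLen m v)).toReal := by
  have hG := scatG_pos hSU hm hvm hv h0 he hne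
  have hcls : Cls (fun x => ENNReal.ofReal (v x)) v := ⟨hvm, hv, h0, he, fun x => le_rfl⟩
  refine univM (V := fun x => ENNReal.ofReal (v x)) hTU hGMU hm hvm.ennreal_ofReal (R₀ := 0) ?_ hG
    (fun w hw => scatG_mono hm hv hw.int hw.nonneg fun x => ?_)
    (fun ε hε => ⟨v, hcls, by linarith⟩) rfl hlam hy hε
  · refine ne_top_of_le_ne_top ?_ (setLIntegral_le_lintegral _ _)
    rw [← ofReal_integral_eq_lintegral_ofReal hv (Filter.Eventually.of_forall h0)]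
    exact ENNReal.ofReal_ne_top
  · exact (ENNReal.ofReal_le_ofReal_iff (h0 x)).1 (hw.le x)

theorem groundM (hSU : S_SU) (hTU : S_TU) (hGMU : S_GMU) (hEU : S_EU) {m : ℝ} (hm : 0 < m)
    {v : (Fin 3 → ℝ) → ℝ} (hvm : Measurable v)
    (hv : Integrable v) (h0 : ∀ x, 0 ≤ v x) (he : ∀ x, v (-x) = v x) (hne : 0 < ∫ x, v x)
    {y ε : ℝ} (hy : 0 < y) (hε : 0 < ε) :
    ∃ c kap M₀ ρ₀ : ℝ, 0 < c ∧ 0 < kap ∧ 0 < M₀ ∧ 0 < ρ₀ ∧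
      ∀ ρ : ℝ, 0 < ρ → ρ ≤ ρ₀ → ∀ M : ℝ, M₀ ≤ M →
      ∃ N₀ : ℕ, ∀ N : ℕ, N₀ ≤ N → ∀ ℓ : ℝ, 0 < ℓ → (N : ℝ) = ρ * ℓ ^ 3 →
      ∀ ψ : Cfg N → ℂ, MemLp ψ 2 → ∫ x, ‖ψ x‖ ^ 2 = 1 →
      (∀ φ : Cfg N → ℂ, MemLp φ 2 → ∫ x, ‖φ x‖ ^ 2 = 1 →
        kinE (1 / (2 * m) * (2 * Real.pi / ℓ) ^ 2) ψ + potE (perPot v ℓ) ψ ≤
          kinE (1 / (2 * m) * (2 * Real.pi / ℓ) ^ 2) φ + potE (perPot v ℓ) φ +
            ENNReal.ofReal (c * (ρ * √ρ) * N)) →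
      ((√(8 * Real.pi * y) - 2 * √(m * (∫ x, v x) / scatLen m v)) /
          (2 * (y + 1 + 1 / (4 * y))) - ε) * √(ρ * scatLen m v ^ 3) * N +
        kap * √M * (occE ψ (fun n =>
          ¬ (2 * Real.pi / ℓ) ^ 2 * sq n ≤ M * ρ * scatLen m v)).toReal ≤
        (occE ψ (fun n =>
          n ≠ 0 ∧ (2 * Real.pi / ℓ) ^ 2 * sq n ≤ M * ρ * scatLen m v)).toReal := by
  obtain ⟨G, hG⟩ : ∃ G, G = scatG m v := ⟨_, rfl⟩
  have hG0 : 0 < G := by rw [hG]; exact scatG_pos hSU hm hvm hv h0 he hne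
  obtain ⟨V0, hV0⟩ : ∃ V0, V0 = ∫ x, v x := ⟨_, rfl⟩
  have hPi := Real.pi_pos
  have hV00 : 0 < V0 := by rw [hV0]; exact hne
  obtain ⟨b, hb⟩ : ∃ b, b = 1 / (2 * m) := ⟨_, rfl⟩
  have hb0 : 0 < b := by rw [hb]; positivity
  have hp := P0_pos hb0
  obtain ⟨a, ha⟩ : ∃ a, a = m / (4 * Real.pi) * G := ⟨_, rfl⟩
  have ha0 : 0 < a := by rw [ha]; positivity
  have hscat : scatLen m v = a := by rw [scatLen, ha, hG]
  obtain ⟨y0, hy0⟩ : ∃ y0, y0 = 2 * V0 / G := ⟨_, rfl⟩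
  have hy00 : 0 < y0 := by rw [hy0]; positivity
  have hlam0 : 2 * √(m * V0 / a) = √(8 * Real.pi * y0) := by
    have h1 : (8 * Real.pi * y0) = 2 ^ 2 * (m * V0 / a) := by
      rw [hy0, ha]; field_simp; ring
    rw [h1, Real.sqrt_mul (by positivity), Real.sqrt_sq (by norm_num)]
  obtain ⟨e', he'⟩ : ∃ e', e' = G * ε / (4 * √(y0 * G / a ^ 3)) := ⟨_, rfl⟩
  have hsy : 0 < √(y0 * G / a ^ 3) := Real.sqrt_pos.2 (by positivity)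
  have he'0 : 0 < e' := by rw [he']; positivity
  obtain ⟨ρ1, hρ1, H1⟩ := hEU m hm v hvm hv h0 he hne e' he'0
  have hs0 : 0 ≤ √(8 * Real.pi * y0) := Real.sqrt_nonneg _
  obtain ⟨kap, M₀, ρ2, hkap, hM₀, hρ2, H2⟩ := softM hSU hTU hGMU hm hvm hv h0 he hne
    (lam := √(8 * Real.pi * y0) + ε) (y := y) (ε := ε / 2) (by positivity) hy (by positivity)
  obtain ⟨c, hc⟩ : ∃ c, c = G * ε / 8 * √(a ^ 3) := ⟨_, rfl⟩
  have ha3 : 0 < √(a ^ 3) := Real.sqrt_pos.2 (by positivity)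
  refine ⟨c, kap, M₀, min ρ1 ρ2, by rw [hc]; positivity, hkap, hM₀, lt_min hρ1 hρ2,
    fun ρ hρ hρρ M hM => ?_⟩
  obtain ⟨N1, H3⟩ := H1 ρ hρ (hρρ.trans (min_le_left _ _))
  obtain ⟨N2, H4⟩ := H2 ρ hρ (hρρ.trans (min_le_right _ _)) M hM
  refine ⟨N1 + N2, fun N hN ℓ hℓ hNℓ ψ hψ hψ1 hmin => ?_⟩
  obtain ⟨φ, hφ, hφ1, hφE⟩ := H3 N (by omega) ℓ hℓ hNℓ
  obtain ⟨Z, hZ⟩ : ∃ Z, Z = √(ρ * a ^ 3) := ⟨_, rfl⟩
  have hZ0 : 0 < Z := by rw [hZ]; exact Real.sqrt_pos.2 (by positivity)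
  have hN0 : (0 : ℝ) ≤ N := Nat.cast_nonneg N
  have hB : 1 ≤ y + 1 + 1 / (4 * y) := by
    have : 0 < 1 / (4 * y) := by positivity
    linarith
  have hE : kinE (1 / (2 * m) * (2 * Real.pi / ℓ) ^ 2) ψ + potE (perPot v ℓ) ψ ≤
      ENNReal.ofReal (2 * Real.pi * scatLen m v * ρ / m *
        (1 + (√(8 * Real.pi * y0) + ε) * √(ρ * scatLen m v ^ 3)) * N) := by
    refine ((hmin φ hφ hφ1).trans (add_le_add hφE le_rfl)).trans ?_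
    rw [← hG, ← hV0, ← hb, hscat]
    have h2 : √(2 * ρ * V0) = √(y0 * ρ * G) := by
      congr 1
      rw [hy0]; field_simp
    have h3 := second_eq (y := y0) hm hG0 hρ hy00
    rw [← hb, ← ha, ← hZ] at h3
    have h4 : √(y0 * ρ * G) = √(y0 * G / a ^ 3) * Z := by
      rw [hZ, ← Real.sqrt_mul (by positivity)]
      congr 1
      field_simp
    have h5 : e' * √(y0 * ρ * G) = G * ε / 4 * Z := by
      rw [he', h4]; field_simp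
    have h6 : √ρ * √(a ^ 3) = Z := by
      rw [hZ, Real.sqrt_mul hρ.le]
    have hpos : 0 ≤ ρ / 2 * (G + (G ^ 2 * Real.pi ^ 2 / P0 b + e') * √(2 * ρ * V0)) * N := by
      have : 0 ≤ √(2 * ρ * V0) := Real.sqrt_nonneg _
      positivity
    have hpos2 : 0 ≤ c * (ρ * √ρ) * N := by
      have : 0 ≤ c := by rw [hc]; positivity
      positivity
    rw [← ENNReal.ofReal_add hpos hpos2, hZ.symm]
    refine ENNReal.ofReal_le_ofReal ?_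
    have h7 : 2 * Real.pi * a * ρ / m = ρ * G / 2 := by
      rw [ha]; field_simp; ring
    have h8 : (G ^ 2 * Real.pi ^ 2 / P0 b + e') * √(2 * ρ * V0) =
        G * (√(8 * Real.pi * y0) * Z) + G * ε / 4 * Z := by
      rw [add_mul, h2, h5, h3]
    have h9 : c * (ρ * √ρ) * N = ρ * G / 2 * (ε / 4 * Z) * N := by
      rw [hc, ← h6]; ring
    rw [h7, h8, h9]
    have h10 : 0 ≤ ρ * G / 2 * (ε / 2 * Z) * N := by positivity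
    have h11 : ρ / 2 * (G + (G * (√(8 * Real.pi * y0) * Z) + G * ε / 4 * Z)) * N +
        ρ * G / 2 * (ε / 4 * Z) * N + ρ * G / 2 * (ε / 2 * Z) * N =
        ρ * G / 2 * (1 + (√(8 * Real.pi * y0) + ε) * Z) * N := by ring
    linarith
  have h12 := H4 N (by omega) ℓ hℓ hNℓ ψ hψ hψ1 hE
  rw [hscat] at h12 ⊢
  rw [← hV0, hlam0]
  rw [← hZ] at h12 ⊢
  refine le_trans ?_ h12
  have h13 : (√(8 * Real.pi * y) - √(8 * Real.pi * y0)) / (2 * (y + 1 + 1 / (4 * y))) - ε ≤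
      (√(8 * Real.pi * y) - (√(8 * Real.pi * y0) + ε)) / (2 * (y + 1 + 1 / (4 * y))) - ε / 2 := by
    have h14 : (√(8 * Real.pi * y) - (√(8 * Real.pi * y0) + ε)) / (2 * (y + 1 + 1 / (4 * y))) =
        (√(8 * Real.pi * y) - √(8 * Real.pi * y0)) / (2 * (y + 1 + 1 / (4 * y))) -
          ε / (2 * (y + 1 + 1 / (4 * y))) := by
      rw [← sub_div]; congr 1; ring
    have h15 : ε / (2 * (y + 1 + 1 / (4 * y))) ≤ ε / 2 := by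
      apply div_le_div_of_nonneg_left hε.le (by norm_num)
      linarith
    rw [h14]
    linarith
  have h16 : 0 ≤ Z * N := by positivity
  have h17 := mul_le_mul_of_nonneg_right h13 h16
  linarith

end

end Pool.Agent.H751R2.LHY.G80
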