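import Pool.Agent.J6H80.BG.ScW
import Pool.Agent.H46R2.LHY.LowA

/-!
# The lower bound for the energy with general weights

`nrm (½ N² QW - s - (s² / μ) N² ∑ c²) ≤ kin + pot + ∑ L_n occ_n` if `w_n = q |n|² + L_n - 2 s ≥ μ ≥ 2 s`
and `c` solves the scattering equation with the weights `w`.
-/

set_option autoImplicit false

open MeasureTheory UnitAddTorus
open scoped ComplexConjugate ENNReal

namespace Pool.Agent.H751R2.LHY.G80


noncomputable section

theorem lowerW {N : ℕ} {W : T3 → ℝ} (hW : Pot W) {q : ℝ}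
    {B0 : Finset Mom} (hB0 : Sym B0) {w : Mom → ℝ} (hw : ∀ n ∈ B0, 0 < w n)
    (hwe : ∀ n, w (-n) = w n) {c : Mom → ℝ} (hc : ScatW W w B0 c)
    (L : Mom → ℝ) (Γ : ℝ)
    (hΓ : Γ = gh W B0 c 0 + ∑ n ∈ B0, 2 * w n * c n ^ 2)
    (hAL : ∀ n ∈ B0, w n ≤ q * sq n + L n - Γ * N)
    (hAg : ∀ n ∈ B0, N * |gh W B0 c n| ≤ w n / 2)
    (a : (Fin N → Mom) → ℂ) :
    nrm (insert 0 B0) a * ((1 / 2) * Γ * ((N : ℝ) ^ 2 - N)
      - ∑ n ∈ B0, ((N * |gh W B0 c n|) ^ 2 / (4 * w n)) * (1 + ((N * |gh W B0 c n|) / w n) ^ 2))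
      ≤ kinF (insert 0 B0) a q + potF (insert 0 B0) a W
        + ∑ n ∈ B0, L n * occ (insert 0 B0) a n := by
  classical
  set B := insert 0 B0 with hB
  set S := nrm B a with hS
  have hS0 : 0 ≤ S := by
    rw [hS]; unfold nrm
    exact Finset.sum_nonneg fun _ _ => sq_nonneg _
  set o : Mom → ℝ := fun n => occ B a n with ho
  have ho0 : ∀ n, 0 ≤ o n := fun n => t5_occ_nonneg B a n
  set b : Mom → ℝ := fun n => N * |gh W B0 c n| with hb
  have hb0 : ∀ n, 0 ≤ b n := fun n => by positivity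
  set Sg := ∑ n ∈ B0, 2 * w n * c n ^ 2 with hSg
  have hSg0 : 0 ≤ Sg := by
    rw [hSg]
    apply Finset.sum_nonneg
    intro n hn
    have := hw n hn
    positivity
  set I := ∫ y, W y * (1 - wf B0 c y) ^ 2 with hI
  have hI0 : 0 ≤ I := by
    rw [hI]
    apply integral_nonneg
    intro y
    exact mul_nonneg (hW.nonneg y) (sq_nonneg _)
  have hQ : gh W B0 c 0 = I + Sg := scatW_Q hW hc
  have hΓ0 : 0 ≤ Γ := by rw [hΓ, hQ]; linarith
  have hI2 : gh W B0 c 0 - 1 / 2 * I = Γ / 2 := by rw [hΓ]; linarith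
  -- kinetic
  have hkin : kinF B a q = ∑ n ∈ B0, q * sq n * o n := t5_kin B0 hB0.zero a q
  -- potential
  have hpot := pot_ge hW hB0 c a
  rw [← hI, Finset.sum_insert hB0.zero, ← hB] at hpot
  -- zero mode
  have hz := pairS_zero_ge B a
  have herase : B.erase 0 = B0 := Finset.erase_insert hB0.zero
  rw [herase] at hz
  -- pair modes
  have hpair : ∀ n ∈ B0, -(b n * Real.sqrt (o (-n) * (o n + S))) ≤
      gh W B0 c n * (pairS B a n).re := by
    intro n hn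
    have hne : n ≠ 0 := fun h => hB0.zero (h ▸ hn)
    have h1 := pairS_le B (Finset.mem_insert_self _ _) n (Finset.mem_insert_of_mem hn)
      (Finset.mem_insert_of_mem (hB0.neg n hn)) hne a
    have h2 : ‖pairS B a n‖ ≤ N * Real.sqrt (o (-n) * (o n + S)) := by
      have h3 : (N : ℝ) * Real.sqrt (o (-n) * (o n + S)) =
          Real.sqrt ((N : ℝ) ^ 2 * (o (-n) * (o n + S))) := by
        rw [Real.sqrt_mul (sq_nonneg _), Real.sqrt_sq (Nat.cast_nonneg _)]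
      rw [h3]
      exact Real.le_sqrt_of_sq_le h1
    have h4 : |gh W B0 c n * (pairS B a n).re| ≤ b n * Real.sqrt (o (-n) * (o n + S)) := by
      rw [abs_mul]
      calc |gh W B0 c n| * |(pairS B a n).re| ≤ |gh W B0 c n| *
            (N * Real.sqrt (o (-n) * (o n + S))) :=
            mul_le_mul_of_nonneg_left ((Complex.abs_re_le_norm _).trans h2) (abs_nonneg _)
        _ = b n * Real.sqrt (o (-n) * (o n + S)) := by rw [hb]; ring
    exact (abs_le.mp h4).1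
  have hmode := mode_sum hB0 w b o S hS0 hw (fun n _ => hwe n) (fun n _ => hb0 n)
    (fun n _ => by rw [hb]; simp only [h464_gh_neg]) hAg (fun n _ => ho0 n)
  have hsum : ∑ n ∈ B0, (w n * o n - b n * Real.sqrt (o (-n) * (o n + S))) ≤
      ∑ n ∈ B0, ((q * sq n + L n - Γ * N) * o n + gh W B0 c n * (pairS B a n).re) := by
    apply Finset.sum_le_sum
    intro n hn
    have h1 := mul_le_mul_of_nonneg_right (hAL n hn) (ho0 n)
    have h2 := hpair n hn
    linarith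
  have hsplit : ∑ n ∈ B0, ((q * sq n + L n - Γ * N) * o n + gh W B0 c n * (pairS B a n).re) =
      ∑ n ∈ B0, q * sq n * o n + ∑ n ∈ B0, L n * o n - Γ * N * ∑ n ∈ B0, o n +
        ∑ n ∈ B0, gh W B0 c n * (pairS B a n).re := by
    rw [Finset.mul_sum, ← Finset.sum_add_distrib, ← Finset.sum_sub_distrib,
      ← Finset.sum_add_distrib]
    apply Finset.sum_congr rfl
    intro n _
    ring
  have hzero : Γ / 2 * ((N : ℝ) * (N - 1) * S) - Γ * N * ∑ n ∈ B0, o n ≤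
      Γ / 2 * (pairS B a 0).re := by
    have h1 := mul_le_mul_of_nonneg_left hz (by linarith : 0 ≤ Γ / 2)
    have h2 : 0 ≤ Γ * ∑ n ∈ B0, o n := mul_nonneg hΓ0 (Finset.sum_nonneg fun n _ => ho0 n)
    have h3 : Γ / 2 * ((N : ℝ) * (N - 1) * nrm B a - 2 * (N - 1) * ∑ n ∈ B0, occ B a n) =
      Γ / 2 * ((N : ℝ) * (N - 1) * S) - Γ * N * ∑ n ∈ B0, o n + Γ * ∑ n ∈ B0, o n := by
      rw [hS]; ring
    rw [h3] at h1
    linarith
  have hfin : gh W B0 c 0 * (pairS B a 0).re - 1 / 2 * I * (pairS B a 0).re =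
      Γ / 2 * (pairS B a 0).re := by rw [← hI2]; ring
  have hgoal : S * ((1 / 2) * Γ * ((N : ℝ) ^ 2 - N) -
      ∑ n ∈ B0, (b n ^ 2 / (4 * w n)) * (1 + (b n / w n) ^ 2)) =
      Γ / 2 * ((N : ℝ) * (N - 1) * S) +
      -(S * ∑ n ∈ B0, (b n ^ 2 / (4 * w n)) * (1 + (b n / w n) ^ 2)) := by ring
  rw [hkin]
  calc _ = S * ((1 / 2) * Γ * ((N : ℝ) ^ 2 - N) -
      ∑ n ∈ B0, (b n ^ 2 / (4 * w n)) * (1 + (b n / w n) ^ 2)) := rfl
    _ ≤ _ := by
      rw [hgoal]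
      have := hmode.trans (hsum.trans (le_of_eq hsplit))
      linarith

/-- the lower bound in terms of the minimal value of the two-body functional -/
theorem lowerW2 {N : ℕ} {W : T3 → ℝ} (hW : Pot W) {q s μ : ℝ}
    (hs : N * (∫ y, W y) ≤ s) (hμ : 2 * s ≤ μ) (hμ0 : 0 < μ)
    {B0 : Finset Mom} (hB0 : Sym B0) {w : Mom → ℝ} (hwμ : ∀ n ∈ B0, μ ≤ w n)
    (hwe : ∀ n, w (-n) = w n) {c : Mom → ℝ} (hc : ScatW W w B0 c)
    (L : Mom → ℝ) (hL : ∀ n ∈ B0, w n + 2 * s ≤ q * sq n + L n)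
    (a : (Fin N → Mom) → ℂ) :
    nrm (insert 0 B0) a * ((N : ℝ) ^ 2 / 2 * QW W w B0 c - s
      - s ^ 2 / μ * ((N : ℝ) ^ 2 * ∑ n ∈ B0, c n ^ 2))
      ≤ kinF (insert 0 B0) a q + potF (insert 0 B0) a W
        + ∑ n ∈ B0, L n * occ (insert 0 B0) a n := by
  have hw : ∀ n ∈ B0, 0 < w n := fun n hn => hμ0.trans_le (hwμ n hn)
  have hWnn : 0 ≤ ∫ y, W y := integral_nonneg hW.nonneg
  have hN0 : (0 : ℝ) ≤ N := Nat.cast_nonneg N
  have hs0 : 0 ≤ s := (mul_nonneg hN0 hWnn).trans hs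
  have hQ : gh W B0 c 0 = QW W w B0 c := scatW_Q hW hc
  set Sg := ∑ n ∈ B0, 2 * w n * c n ^ 2 with hSg
  have hSg0 : 0 ≤ Sg := by
    rw [hSg]
    apply Finset.sum_nonneg
    intro n hn
    have := hw n hn
    positivity
  have hgI : ∀ n, |gh W B0 c n| ≤ ∫ y, W y := fun n => ghW_le hW hw hc n
  have hg0 : gh W B0 c 0 ≤ ∫ y, W y := (le_abs_self _).trans (hgI 0)
  have hSgI : Sg ≤ ∫ y, W y := by
    have h1 : 0 ≤ ∫ y, W y * (1 - wf B0 c y) ^ 2 :=
      integral_nonneg fun y => mul_nonneg (hW.nonneg y) (sq_nonneg _)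
    have h2 : QW W w B0 c = (∫ y, W y * (1 - wf B0 c y) ^ 2) + Sg := rfl
    linarith
  set Γ := gh W B0 c 0 + Sg with hΓ
  have hg00 : 0 ≤ gh W B0 c 0 := by
    rw [hQ]
    unfold QW
    have h1 : 0 ≤ ∫ y, W y * (1 - wf B0 c y) ^ 2 :=
      integral_nonneg fun y => mul_nonneg (hW.nonneg y) (sq_nonneg _)
    linarith
  have hΓ0 : 0 ≤ Γ := by linarith
  have hΓN : Γ * N ≤ 2 * s := by
    have h1 : Γ ≤ 2 * ∫ y, W y := by linarith
    have h2 := mul_le_mul_of_nonneg_right h1 hN0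
    linarith
  have hNg : ∀ n, N * |gh W B0 c n| ≤ s := fun n =>
    (mul_le_mul_of_nonneg_left (hgI n) hN0).trans hs
  have h := lowerW hW hB0 hw hwe hc L Γ rfl
    (fun n hn => by have := hL n hn; linarith)
    (fun n hn => by have := hNg n; have := hwμ n hn; linarith) a
  have hS0 : 0 ≤ nrm (insert 0 B0) a := by
    unfold nrm
    exact Finset.sum_nonneg fun _ _ => sq_nonneg _
  refine le_trans (mul_le_mul_of_nonneg_left ?_ hS0) h
  have key : ∀ n ∈ B0, ((N * |gh W B0 c n|) ^ 2 / (4 * w n)) *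
      (1 + ((N * |gh W B0 c n|) / w n) ^ 2) ≤
      (N : ℝ) ^ 2 / 2 * (2 * w n * c n ^ 2) + s ^ 2 / μ * ((N : ℝ) ^ 2 * c n ^ 2) := by
    intro n hn
    have hwn := hw n hn
    have e1 : (N * |gh W B0 c n|) ^ 2 / (4 * w n) = (N : ℝ) ^ 2 * w n * c n ^ 2 := by
      rw [mul_pow, sq_abs, hc.eq n hn]
      field_simp
      ring
    have e2 : (N : ℝ) ^ 2 * w n * c n ^ 2 * ((N * |gh W B0 c n|) / w n) ^ 2 ≤
        s ^ 2 / μ * ((N : ℝ) ^ 2 * c n ^ 2) := by
      have h1 : ((N * |gh W B0 c n|) / w n) ^ 2 * w n ≤ s ^ 2 / μ := by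
        rw [div_pow, div_mul_eq_mul_div, div_le_div_iff₀ (by positivity) hμ0]
        have h2 : (N * |gh W B0 c n|) ^ 2 ≤ s ^ 2 :=
          pow_le_pow_left₀ (by positivity) (hNg n) 2
        have h3 := hwμ n hn
        calc (N * |gh W B0 c n|) ^ 2 * w n * μ ≤ s ^ 2 * w n * w n := by
              apply mul_le_mul _ h3 hμ0.le (by positivity)
              exact mul_le_mul_of_nonneg_right h2 hwn.le
          _ = s ^ 2 * w n ^ 2 := by ring
      calc (N : ℝ) ^ 2 * w n * c n ^ 2 * ((N * |gh W B0 c n|) / w n) ^ 2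
          = (((N * |gh W B0 c n|) / w n) ^ 2 * w n) * ((N : ℝ) ^ 2 * c n ^ 2) := by ring
        _ ≤ s ^ 2 / μ * ((N : ℝ) ^ 2 * c n ^ 2) :=
            mul_le_mul_of_nonneg_right h1 (by positivity)
    rw [mul_add, mul_one, e1]
    linarith
  have hsum := Finset.sum_le_sum key
  rw [Finset.sum_add_distrib, ← Finset.mul_sum, ← Finset.mul_sum, ← Finset.mul_sum, ← hSg] at hsum
  have e3 : (1 / 2) * Γ * ((N : ℝ) ^ 2 - N) =
      (N : ℝ) ^ 2 / 2 * gh W B0 c 0 + (N : ℝ) ^ 2 / 2 * Sg - Γ * N / 2 := by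
    rw [hΓ]; ring
  rw [e3, ← hQ]
  linarith

end

end Pool.Agent.H751R2.LHY.G80
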