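import Pool.Agent.J6H80.BG.Stm2

/-!
# A sharper lower bound of the energy

`nrm * ½ g₀ (N² - N) ≤ kin + pot + ∑ L_n occ_n` if
`w_n + (N g_n)² / (4 w_n) ≤ κ_n + L_n - g₀ N`.
-/

set_option autoImplicit false

open MeasureTheory UnitAddTorus
open scoped ComplexConjugate ENNReal

namespace Pool.Agent.H751R2.LHY.G80

open Pool.Agent.J6H80.BG

noncomputable section

theorem lowerU (hPAIR : S_PAIR) {N : ℕ} {W : T3 → ℝ} (hW : Pot W) {q : ℝ}
    {B0 : Finset Mom} (hB0 : Sym B0) {w : Mom → ℝ} (hw : ∀ n ∈ B0, 0 < w n)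
    (hwe : ∀ n, w (-n) = w n) {c : Mom → ℝ} (hc : ScatW W w B0 c)
    (L : Mom → ℝ)
    (hAL : ∀ n ∈ B0, w n + (N * gh W B0 c n) ^ 2 / (4 * w n) ≤
      q * sq n + L n - gh W B0 c 0 * N)
    (a : (Fin N → Mom) → ℂ) :
    nrm (insert 0 B0) a * ((1 / 2) * gh W B0 c 0 * ((N : ℝ) ^ 2 - N))
      ≤ kinF (insert 0 B0) a q + potF (insert 0 B0) a W
        + ∑ n ∈ B0, L n * occ (insert 0 B0) a n := by
  classical
  set B := insert 0 B0 with hB
  set S := nrm B a with hS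
  have hS0 : 0 ≤ S := by
    rw [hS]; unfold nrm
    exact Finset.sum_nonneg fun _ _ => sq_nonneg _
  set o : Mom → ℝ := fun n => occ B a n with ho
  have ho0 : ∀ n, 0 ≤ o n := fun n => t5_occ_nonneg B a n
  set g : Mom → ℝ := fun n => gh W B0 c n with hg
  set P := (pairS B a 0).re with hP
  have hN0 : (0 : ℝ) ≤ N := Nat.cast_nonneg N
  set Sg := ∑ n ∈ B0, 2 * w n * c n ^ 2 with hSg
  set I := ∫ y, W y * (1 - wf B0 c y) ^ 2 with hI
  have hI0 : 0 ≤ I := by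
    rw [hI]
    apply integral_nonneg
    intro y
    exact mul_nonneg (hW.nonneg y) (sq_nonneg _)
  have hSg0 : 0 ≤ Sg := by
    rw [hSg]
    apply Finset.sum_nonneg
    intro n hn
    have := hw n hn
    positivity
  have hQ : g 0 = I + Sg := scatW_Q hW hc
  have hg0 : 0 ≤ g 0 := by rw [hQ]; linarith
  -- kinetic
  have hkin : kinF B a q = ∑ n ∈ B0, q * sq n * o n := t5_kin B0 hB0.zero a q
  -- potential
  have hpot := pot_ge hW hB0 c a
  rw [← hI, Finset.sum_insert hB0.zero, ← hB] at hpot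
  -- zero mode
  have hz := pairS_zero_ge B a
  have herase : B.erase 0 = B0 := Finset.erase_insert hB0.zero
  rw [herase] at hz
  -- pair modes
  have hpair : ∀ n ∈ B0, -(w n * o n + g n ^ 2 / (4 * w n) * (P + (N : ℝ) ^ 2 * o (-n))) ≤
      g n * (pairS B a n).re := by
    intro n hn
    have hne : n ≠ 0 := fun h => hB0.zero (h ▸ hn)
    obtain ⟨h0, h1⟩ := hPAIR N B (Finset.mem_insert_self _ _) n (Finset.mem_insert_of_mem hn)
      (Finset.mem_insert_of_mem (hB0.neg n hn)) hne a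
    have hwn := hw n hn
    have h2 : |g n * (pairS B a n).re| ≤ |g n| * ‖pairS B a n‖ := by
      rw [abs_mul]
      exact mul_le_mul_of_nonneg_left (Complex.abs_re_le_norm _) (abs_nonneg _)
    set X := P + (N : ℝ) ^ 2 * o (-n) with hX
    have hX0 : 0 ≤ X := by
      have := ho0 (-n)
      rw [hX]; positivity
    have h3 : |g n| * ‖pairS B a n‖ ≤ w n * o n + g n ^ 2 / (4 * w n) * X := by
      have h4 : (|g n| * ‖pairS B a n‖) ^ 2 ≤ (w n * o n + g n ^ 2 / (4 * w n) * X) ^ 2 := by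
        have h5 : (|g n| * ‖pairS B a n‖) ^ 2 ≤ 4 * (w n * o n) * (g n ^ 2 / (4 * w n) * X) := by
          rw [mul_pow, sq_abs]
          calc g n ^ 2 * ‖pairS B a n‖ ^ 2 ≤ g n ^ 2 * (o n * X) :=
                mul_le_mul_of_nonneg_left h1 (sq_nonneg _)
            _ = 4 * (w n * o n) * (g n ^ 2 / (4 * w n) * X) := by field_simp
        nlinarith [sq_nonneg (w n * o n - g n ^ 2 / (4 * w n) * X)]
      have h6 : 0 ≤ w n * o n + g n ^ 2 / (4 * w n) * X := by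
        have := ho0 n
        positivity
      exact abs_le_of_sq_le_sq' h4 h6 |>.2
    exact (abs_le.mp (h2.trans h3)).1
  have hsum := Finset.sum_le_sum hpair
  -- rewriting the sum of the lower bounds
  have hcw : ∀ n ∈ B0, g n ^ 2 / (4 * w n) = w n * c n ^ 2 := by
    intro n hn
    have h1 : g n = 2 * w n * c n := hc.eq n hn
    have h2 := (hw n hn).ne'
    rw [h1]
    field_simp
    ring
  have hre : ∑ n ∈ B0, g n ^ 2 / (4 * w n) * ((N : ℝ) ^ 2 * o (-n)) =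
      ∑ n ∈ B0, g n ^ 2 / (4 * w n) * ((N : ℝ) ^ 2 * o n) := by
    refine Finset.sum_nbij' (fun n => -n) (fun n => -n) (fun n hn => hB0.neg n hn)
      (fun n hn => hB0.neg n hn) (fun n _ => neg_neg n) (fun n _ => neg_neg n) ?_
    intro n _
    have h1 : g (-n) = g n := h464_gh_neg _ _ _ _
    simp only [h1, hwe]
  have hleft : ∑ n ∈ B0, -(w n * o n + g n ^ 2 / (4 * w n) * (P + (N : ℝ) ^ 2 * o (-n))) =
      -(∑ n ∈ B0, (w n + (N * g n) ^ 2 / (4 * w n)) * o n) - Sg / 2 * P := by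
    have e1 : Sg / 2 * P = ∑ n ∈ B0, g n ^ 2 / (4 * w n) * P := by
      rw [hSg, ← Finset.sum_mul, Finset.sum_div]
      congr 1
      refine Finset.sum_congr rfl fun n hn => ?_
      rw [hcw n hn]
      ring
    rw [e1, ← Finset.sum_neg_distrib, ← Finset.sum_sub_distrib]
    have e2 : ∑ n ∈ B0, -(w n * o n + g n ^ 2 / (4 * w n) * (P + (N : ℝ) ^ 2 * o (-n))) =
        (∑ n ∈ B0, -(w n * o n + g n ^ 2 / (4 * w n) * P)) -
          ∑ n ∈ B0, g n ^ 2 / (4 * w n) * ((N : ℝ) ^ 2 * o (-n)) := by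
      rw [← Finset.sum_sub_distrib]
      exact Finset.sum_congr rfl fun n _ => by ring
    rw [e2, hre, ← Finset.sum_sub_distrib]
    exact Finset.sum_congr rfl fun n _ => by ring
  rw [hleft] at hsum
  have hmode : g 0 * N * ∑ n ∈ B0, o n ≤ ∑ n ∈ B0, q * sq n * o n + ∑ n ∈ B0, L n * o n -
      ∑ n ∈ B0, (w n + (N * g n) ^ 2 / (4 * w n)) * o n := by
    rw [Finset.mul_sum, ← Finset.sum_add_distrib, ← Finset.sum_sub_distrib]
    refine Finset.sum_le_sum fun n hn => ?_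
    have h1 := mul_le_mul_of_nonneg_right (hAL n hn) (ho0 n)
    linarith
  have hzero : g 0 / 2 * ((N : ℝ) * (N - 1) * S) - g 0 * N * ∑ n ∈ B0, o n ≤ g 0 / 2 * P := by
    have h1 := mul_le_mul_of_nonneg_left hz (by linarith : 0 ≤ g 0 / 2)
    have h2 : 0 ≤ g 0 * ∑ n ∈ B0, o n := mul_nonneg hg0 (Finset.sum_nonneg fun n _ => ho0 n)
    have h3 : g 0 / 2 * ((N : ℝ) * (N - 1) * nrm B a - 2 * (N - 1) * ∑ n ∈ B0, occ B a n) =
      g 0 / 2 * ((N : ℝ) * (N - 1) * S) - g 0 * N * ∑ n ∈ B0, o n + g 0 * ∑ n ∈ B0, o n := by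
      rw [hS]; ring
    rw [h3] at h1
    linarith
  have hfin : g 0 * P - 1 / 2 * I * P - Sg / 2 * P = g 0 / 2 * P := by rw [hQ]; ring
  have hgoal : S * ((1 / 2) * g 0 * ((N : ℝ) ^ 2 - N)) = g 0 / 2 * ((N : ℝ) * (N - 1) * S) := by
    ring
  rw [hkin]
  change S * ((1 / 2) * g 0 * ((N : ℝ) ^ 2 - N)) ≤ _
  rw [hgoal]
  linarith

end

end Pool.Agent.H751R2.LHY.G80
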