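import Pool.Agent.J6H80.BG.Stm2
import Pool.Agent.J6H80.BG.Cor4
import Pool.Agent.H44R2.LHY.Clip

/-!
# The minimiser of the two-body functional is almost nonnegative

For bounded `W` and `R → ∞` the minimiser `w` over the trigonometric polynomials with momenta in the
box satisfies `∫ W |1 - w| ≤ ∫ W (1 - w) + o(1)`.
-/

set_option autoImplicit false

open MeasureTheory UnitAddTorus Filter Topology
open scoped ComplexConjugate ENNReal

namespace Pool.Agent.H751R2.LHY.G80

open Pool.Agent.H751R2.LHY.ClipH44 Pool.Agent.J6H80.BG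

noncomputable section

/-- the functional at a continuous function bounds its infimum over polynomials -/
theorem smooth_le {W : T3 → ℝ} (hW : Pot W) {q μ : ℝ} (hq : 0 < q) (hμ : 0 < μ) {f : T3 → ℝ}
    (hf : Continuous f) (he : ∀ y, f (-y) = f y) (h0 : ∫ y, f y = 0) {D S : ℝ}
    (hD : ∀ F : Finset Mom, ∑ n ∈ F, sq n * (∫ y, f y * cs n y) ^ 2 ≤ D)
    (hS : ∀ F : Finset Mom, ∑ n ∈ F, (∫ y, f y * cs n y) ^ 2 ≤ S) {ε : ℝ} (hε : 0 < ε) :
    ∃ B1 : Finset Mom, Sym B1 ∧ ∃ c1 : Mom → ℝ, (∀ n, c1 (-n) = c1 n) ∧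
      Qf W q μ B1 c1 ≤ (∫ y, W y * (1 - f y) ^ 2) + 2 * q * D + 2 * μ * S + ε := by
  obtain ⟨M, hM⟩ := isCompact_univ.exists_bound_of_continuousOn (f := f) hf.continuousOn
  have hM' : ∀ y, |f y| ≤ M := fun y => hM y (Set.mem_univ y)
  have hlim := lim_k hW hf he h0 hM'
  obtain ⟨k, hk⟩ := (hlim.eventually (gt_mem_nhds
    (lt_add_of_pos_right (∫ y, W y * (1 - f y) ^ 2) hε))).exists
  obtain ⟨B1, hB1, c1, hc1, hc1f, hw⟩ := smo_poly hf he h0 k
  refine ⟨B1, hB1, c1, hc1, ?_⟩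
  have hsq : ∀ n, c1 n ^ 2 ≤ (∫ y, f y * cs n y) ^ 2 := fun n => sq_le_sq.mpr (hc1f n)
  have h1 : ∑ n ∈ B1, (2 * (q * sq n) + 2 * μ) * c1 n ^ 2 ≤ 2 * q * D + 2 * μ * S := by
    calc ∑ n ∈ B1, (2 * (q * sq n) + 2 * μ) * c1 n ^ 2
        ≤ ∑ n ∈ B1, (2 * (q * sq n) + 2 * μ) * (∫ y, f y * cs n y) ^ 2 := by
          refine Finset.sum_le_sum fun n _ => mul_le_mul_of_nonneg_left (hsq n) ?_
          have := mul_nonneg hq.le (sq_nonneg' n)
          positivity
      _ = 2 * q * ∑ n ∈ B1, sq n * (∫ y, f y * cs n y) ^ 2 +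
          2 * μ * ∑ n ∈ B1, (∫ y, f y * cs n y) ^ 2 := by
          rw [Finset.mul_sum, Finset.mul_sum, ← Finset.sum_add_distrib]
          exact Finset.sum_congr rfl fun n _ => by ring
      _ ≤ 2 * q * D + 2 * μ * S := by
          have := mul_le_mul_of_nonneg_left (hD B1) (by positivity : 0 ≤ 2 * q)
          have := mul_le_mul_of_nonneg_left (hS B1) (by positivity : 0 ≤ 2 * μ)
          linarith
  unfold Qf
  simp_rw [hw]
  linarith

/-- comparison with the normalised absolute value -/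
theorem pos_key {W : T3 → ℝ} (hW : Pot W) {q μ : ℝ} (hq : 0 < q) (hμ : 0 < μ) {B0 : Finset Mom}
    (hB0 : Sym B0) {c : Mom → ℝ} (hc : ∀ n, c (-n) = c n) :
    1 ≤ ∫ y, |1 - wf B0 c y| ∧ ∀ ε : ℝ, 0 < ε →
      ∃ B1 : Finset Mom, Sym B1 ∧ ∃ c1 : Mom → ℝ, (∀ n, c1 (-n) = c1 n) ∧
        (∫ y, |1 - wf B0 c y|) ^ 2 * (Qf W q μ B1 c1 + 2 * μ) ≤ Qf W q μ B0 c + 2 * μ + ε := by
  set w := wf B0 c with hw
  have hwc : Continuous w := wf_cont _ _
  have hwi : Integrable w := cont_integrable_real hwc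
  have hw0 : ∫ y, w y = 0 := wf_int hB0 c
  have hg : Continuous fun y => |1 - w y| := (continuous_const.sub hwc).abs
  have hone : ∫ _ : T3, (1 : ℝ) = 1 := by simp
  obtain ⟨M, hM⟩ : ∃ M, M = ∫ y, |1 - w y| := ⟨_, rfl⟩
  have hM1 : 1 ≤ M := by
    have h1 : ∫ y, (1 - w y) = 1 := by
      rw [integral_sub (integrable_const _) hwi, hw0, hone, sub_zero]
    calc (1 : ℝ) = ∫ y, (1 - w y) := h1.symm
      _ ≤ ∫ y, |1 - w y| := integral_mono ((integrable_const _).sub hwi)
          (cont_integrable_real hg) (fun y => le_abs_self _)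
      _ = M := hM.symm
  rw [← hM]
  refine ⟨hM1, fun ε hε => ?_⟩
  have hM0 : 0 < M := by linarith
  set f : T3 → ℝ := fun y => 1 - |1 - w y| / M with hf
  have hfc : Continuous f := continuous_const.sub (hg.div_const _)
  have hfe : ∀ y, f (-y) = f y := by
    intro y
    simp only [hf, hw, wf_neg_arg]
  have hf0 : ∫ y, f y = 0 := by
    rw [hf, integral_sub (integrable_const _) ((cont_integrable_real hg).div_const _), hone,
      integral_div, ← hM, div_self hM0.ne', sub_self]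
  have hS0 : ∫ y, (1 - w y) ^ 2 = 1 + ∑ n ∈ B0, c n ^ 2 := by
    have h1 : ∀ y, (1 - w y) ^ 2 = 1 - 2 * w y + w y ^ 2 := fun y => by ring
    simp_rw [h1]
    have i1 : Integrable (fun y => 1 - 2 * w y) := (integrable_const _).sub (hwi.const_mul _)
    have i2 : Integrable (fun y => w y ^ 2) := cont_integrable_real (hwc.pow 2)
    rw [integral_add i1 i2, integral_sub (integrable_const _) (hwi.const_mul _),
      integral_const_mul, hw0, hone, hw, wf_sq_int hB0 hc]
    ring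
  have hS1 : ∫ y, f y ^ 2 = (1 + ∑ n ∈ B0, c n ^ 2) / M ^ 2 - 1 := by
    have h1 : ∀ y, f y ^ 2 = 1 - 2 / M * |1 - w y| + (1 - w y) ^ 2 / M ^ 2 := by
      intro y
      simp only [hf]
      rw [sub_sq, div_pow, sq_abs]
      ring
    simp_rw [h1]
    have i1 : Integrable (fun y => 2 / M * |1 - w y|) := (cont_integrable_real hg).const_mul _
    have i2 : Integrable (fun y => (1 - w y) ^ 2 / M ^ 2) :=
      (cont_integrable_real ((continuous_const.sub hwc).pow 2)).div_const _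
    have i3 : Integrable (fun y => 1 - 2 / M * |1 - w y|) := (integrable_const _).sub i1
    rw [integral_add i3 i2, integral_sub (integrable_const _) i1,
      integral_const_mul, ← hM, hone, integral_div, hS0]
    field_simp
    ring
  have hfw : ∀ x y, |f x - f y| ≤ |wf B0 (fun n => c n / M) x - wf B0 (fun n => c n / M) y| := by
    intro x y
    have h1 : ∀ z, wf B0 (fun n => c n / M) z = w z / M := by
      intro z
      rw [hw]
      unfold wf
      rw [Finset.sum_div]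
      exact Finset.sum_congr rfl fun n _ => by ring
    rw [h1, h1]
    have h2 : f x - f y = (|1 - w y| - |1 - w x|) / M := by
      simp only [hf]; ring
    rw [h2, ← sub_div, abs_div, abs_div, abs_of_pos hM0]
    have h3 := abs_abs_sub_abs_le (1 - w y) (1 - w x)
    have h4 : 1 - w y - (1 - w x) = w x - w y := by ring
    rw [h4] at h3
    exact div_le_div_of_nonneg_right h3 hM0.le
  have hD : ∀ F : Finset Mom, ∑ n ∈ F, sq n * (∫ y, f y * cs n y) ^ 2 ≤
      ∑ n ∈ B0, sq n * (c n / M) ^ 2 := by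
    intro F
    have h1 := dirichlet_le hB0 (c := fun n => c n / M) (fun n => by rw [hc]) hfc hfw F
    simp_rw [coeff_even hfc hfe, Complex.norm_real, Real.norm_eq_abs, sq_abs] at h1
    exact h1
  have hS : ∀ F : Finset Mom, ∑ n ∈ F, (∫ y, f y * cs n y) ^ 2 ≤ ∫ y, f y ^ 2 :=
    fun F => bessel_real hfc hfe F
  obtain ⟨B1, hB1, c1, hc1, hQ⟩ := smooth_le hW hq hμ hfc hfe hf0 hD hS
    (show 0 < ε / M ^ 2 by positivity)
  refine ⟨B1, hB1, c1, hc1, ?_⟩
  have hA : ∫ y, W y * (1 - f y) ^ 2 = (∫ y, W y * (1 - w y) ^ 2) / M ^ 2 := by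
    rw [← integral_div]
    refine integral_congr_ae (Filter.Eventually.of_forall fun y => ?_)
    simp only [hf]
    rw [sub_sub_cancel, div_pow, sq_abs]
    ring
  have hDe : ∑ n ∈ B0, sq n * (c n / M) ^ 2 = (∑ n ∈ B0, sq n * c n ^ 2) / M ^ 2 := by
    rw [Finset.sum_div]
    exact Finset.sum_congr rfl fun n _ => by rw [div_pow]; ring
  have hQe : Qf W q μ B0 c = (∫ y, W y * (1 - w y) ^ 2) + 2 * q * ∑ n ∈ B0, sq n * c n ^ 2 +
      2 * μ * ∑ n ∈ B0, c n ^ 2 := by
    unfold Qf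
    rw [Finset.mul_sum, Finset.mul_sum, add_assoc, ← Finset.sum_add_distrib]
    congr 1
    exact Finset.sum_congr rfl fun n _ => by ring
  rw [hA, hDe, hS1] at hQ
  rw [hQe]
  have h2 := mul_le_mul_of_nonneg_left hQ (sq_nonneg M)
  have h3 : M ^ 2 * ((∫ y, W y * (1 - w y) ^ 2) / M ^ 2 +
      2 * q * ((∑ n ∈ B0, sq n * c n ^ 2) / M ^ 2) +
      2 * μ * ((1 + ∑ n ∈ B0, c n ^ 2) / M ^ 2 - 1) + ε / M ^ 2) =
      (∫ y, W y * (1 - w y) ^ 2) + 2 * q * ∑ n ∈ B0, sq n * c n ^ 2 +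
      2 * μ * ∑ n ∈ B0, c n ^ 2 + 2 * μ + ε - M ^ 2 * (2 * μ) := by
    field_simp
    ring
  rw [h3] at h2
  linarith

/-- extension by zero -/
lemma Qf_ext (W : T3 → ℝ) (q μ : ℝ) {B1 B' : Finset Mom} (h : B1 ⊆ B') (c1 : Mom → ℝ) :
    Qf W q μ B' (fun n => if n ∈ B1 then c1 n else 0) = Qf W q μ B1 c1 := by
  have h1 : ∀ y, wf B' (fun n => if n ∈ B1 then c1 n else 0) y = wf B1 c1 y := by
    intro y
    unfold wf
    rw [← Finset.sum_subset h (fun n _ hn => by simp [hn])]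
    exact Finset.sum_congr rfl fun n hn => by simp [hn]
  unfold Qf
  simp_rw [h1]
  congr 1
  rw [← Finset.sum_subset h (fun n _ hn => by simp [hn])]
  exact Finset.sum_congr rfl fun n hn => by simp [hn]

/-- **The minimiser is almost nonnegative.** -/
theorem pos_lim {W : T3 → ℝ} (hW : Pot W) {K : ℝ} (hK : 0 ≤ K) (hWK : ∀ y, W y ≤ K) {q μ : ℝ}
    (hq : 0 < q) (hμ : 0 < μ) {η : ℝ} (hη : 0 < η) :
    ∀ᶠ R : ℕ in atTop, ∀ c : Mom → ℝ, Scat W q μ ((boxM R).erase 0) c →
      ∫ y, W y * |1 - wf ((boxM R).erase 0) c y| ≤ gh W ((boxM R).erase 0) c 0 + η := by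
  choose cc hcc using fun R : ℕ => exists_scat hW hq hμ (boxM_sym R)
  obtain ⟨E, hE⟩ : ∃ E : ℕ → ℝ, E = fun R => Qf W q μ ((boxM R).erase 0) (cc R) := ⟨_, rfl⟩
  have hQ0 : ∀ (B : Finset Mom) (c : Mom → ℝ), 0 ≤ Qf W q μ B c := by
    intro B c
    unfold Qf
    refine add_nonneg (integral_nonneg (fun y => mul_nonneg (hW.nonneg y) (sq_nonneg _)))
      (Finset.sum_nonneg (fun n _ => mul_nonneg ?_ (sq_nonneg _)))
    have := mul_nonneg hq.le (sq_nonneg' n)
    positivity
  have hEmin : ∀ (R : ℕ) (B1 : Finset Mom) (c1 : Mom → ℝ), B1 ⊆ (boxM R).erase 0 →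
      E R ≤ Qf W q μ B1 c1 := by
    intro R B1 c1 h
    rw [← Qf_ext W q μ h c1, hE]
    exact scat_min hW hq hμ (hcc R) _
  have hanti : Antitone E := by
    intro R R' h
    have h1 := hEmin R' ((boxM R).erase 0) (cc R) (Finset.erase_subset_erase 0 (by
      intro n hn
      simp only [boxM, Fintype.mem_piFinset, Finset.mem_Icc] at hn ⊢
      intro a
      have := hn a
      have h' : (R : ℤ) ≤ R' := by exact_mod_cast h
      omega))
    rw [hE] at h1 ⊢
    exact h1
  have hbdd : BddBelow (Set.range E) := ⟨0, by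
    rintro _ ⟨R, rfl⟩
    rw [hE]
    exact hQ0 _ _⟩
  have hlim := tendsto_atTop_ciInf hanti hbdd
  obtain ⟨E0, hE0⟩ : ∃ E0, E0 = ⨅ R, E R := ⟨_, rfl⟩
  rw [← hE0] at hlim
  have hE0n : 0 ≤ E0 := by
    rw [hE0]
    exact le_ciInf fun R => by rw [hE]; exact hQ0 _ _
  have hE0le : ∀ B1 : Finset Mom, Sym B1 → ∀ c1 : Mom → ℝ, E0 ≤ Qf W q μ B1 c1 := by
    intro B1 hB1 c1
    obtain ⟨R, hR⟩ := (boxM_tendsto.eventually_ge_atTop B1).exists
    have h1 : B1 ⊆ (boxM R).erase 0 := fun n hn =>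
      Finset.mem_erase.2 ⟨fun h => hB1.zero (h ▸ hn), hR hn⟩
    rw [hE0]
    exact (ciInf_le hbdd R).trans (hEmin R B1 c1 h1)
  obtain ⟨e, he⟩ : ∃ e, e = 4 * μ * η / (K + 1) := ⟨_, rfl⟩
  have he0 : 0 < e := by rw [he]; positivity
  filter_upwards [hlim.eventually (gt_mem_nhds (show E0 < E0 + e by linarith))] with R hR c hc
  have hQc : Qf W q μ ((boxM R).erase 0) c ≤ E0 + e := by
    have h1 := scat_min hW hq hμ hc (cc R)
    rw [hE] at hR
    linarith
  obtain ⟨hM1, hkey⟩ := pos_key hW hq hμ (boxM_sym R) hc.even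
  obtain ⟨M, hM⟩ : ∃ M, M = ∫ y, |1 - wf ((boxM R).erase 0) c y| := ⟨_, rfl⟩
  rw [← hM] at hM1 hkey
  have hMle : M ^ 2 * (E0 + 2 * μ) ≤ E0 + e + 2 * μ := by
    refine le_of_forall_pos_le_add fun ε hε => ?_
    obtain ⟨B1, hB1, c1, _, h1⟩ := hkey ε hε
    have h2 := mul_le_mul_of_nonneg_left (hE0le B1 hB1 c1) (sq_nonneg M)
    linarith
  have hM2 : (M - 1) * (4 * μ) ≤ e := by
    have h1 : 0 ≤ (M - 1) * (M + 1) := mul_nonneg (by linarith) (by linarith)
    have h2 : (M - 1) * (M + 1) * (2 * μ) ≤ e := by nlinarith [mul_nonneg h1 hE0n]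
    have h3 : (M - 1) * 2 ≤ (M - 1) * (M + 1) :=
      mul_le_mul_of_nonneg_left (by linarith) (by linarith)
    nlinarith
  -- conclusion
  set w := wf ((boxM R).erase 0) c with hw
  have hwc : Continuous w := wf_cont _ _
  have hwi : Integrable w := cont_integrable_real hwc
  have hg : Continuous fun y => |1 - w y| := (continuous_const.sub hwc).abs
  have hgi := int_mul hW.int hg
  have hgi2 : Integrable (fun y => W y * (1 - w y)) :=
    int_mul hW.int (continuous_const.sub hwc)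
  have hone : ∫ _ : T3, (1 : ℝ) = 1 := by simp
  have h1 : ∫ y, (W y * |1 - w y| - W y * (1 - w y)) ≤ ∫ y, K * (|1 - w y| - (1 - w y)) := by
    refine integral_mono (hgi.sub hgi2)
      (((cont_integrable_real hg).sub ((integrable_const _).sub hwi)).const_mul K) fun y => ?_
    have h2 : 0 ≤ |1 - w y| - (1 - w y) := by linarith [le_abs_self (1 - w y)]
    have h3 := mul_le_mul_of_nonneg_right (hWK y) h2
    simp only
    linarith
  have i1 : Integrable (fun y => 1 - w y) := (integrable_const _).sub hwi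
  rw [integral_sub hgi hgi2, integral_const_mul, integral_sub (cont_integrable_real hg) i1,
    integral_sub (integrable_const _) hwi, hone, wf_int (boxM_sym R) c, ← hM, sub_zero] at h1
  have h4 : gh W ((boxM R).erase 0) c 0 = ∫ y, W y * (1 - w y) := by
    unfold gh
    refine integral_congr_ae (Filter.Eventually.of_forall fun y => ?_)
    simp only [cs_zero, mul_one, hw]
  rw [h4]
  have h5 : K * (M - 1) ≤ η := by
    have h6 : M - 1 ≤ η / (K + 1) := by
      have : (M - 1) * (4 * μ) ≤ η / (K + 1) * (4 * μ) := by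
        rw [he] at hM2
        refine hM2.trans (le_of_eq ?_)
        ring
      exact le_of_mul_le_mul_right this (by positivity)
    calc K * (M - 1) ≤ K * (η / (K + 1)) := mul_le_mul_of_nonneg_left h6 hK
      _ = K / (K + 1) * η := by ring
      _ ≤ 1 * η := by
          gcongr
          rw [div_le_one (by positivity)]
          linarith
      _ = η := one_mul η
  linarith

end

end Pool.Agent.H751R2.LHY.G80
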