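import Pool.Agent.H464R2.LHY.Scat

/-!
# The two-body scattering equation on the torus with general weights

`QW W w B0 c = ∫ W (1 - w_c)² + ∑_{n ∈ B0} 2 w_n c_n²` and its minimisers. The case
`w_n = q |n|² + μ` is `Qf` (`H464R2.LHY.Scat`).
-/

set_option autoImplicit false

open MeasureTheory UnitAddTorus
open scoped ComplexConjugate ENNReal

namespace Pool.Agent.H751R2.LHY.G80


noncomputable section

/-- the two-body functional with weights `w` -/
def QW (W : T3 → ℝ) (w : Mom → ℝ) (B0 : Finset Mom) (c : Mom → ℝ) : ℝ :=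
  (∫ y, W y * (1 - wf B0 c y) ^ 2) + ∑ n ∈ B0, 2 * w n * c n ^ 2

/-- the scattering equation with weights `w` -/
structure ScatW (W : T3 → ℝ) (w : Mom → ℝ) (B0 : Finset Mom) (c : Mom → ℝ) : Prop where
  even : ∀ n, c (-n) = c n
  eq : ∀ n ∈ B0, gh W B0 c n = 2 * w n * c n

theorem QW_eq_Qf (W : T3 → ℝ) (q μ : ℝ) (B0 : Finset Mom) (c : Mom → ℝ) :
    QW W (fun n => q * sq n + μ) B0 c = Qf W q μ B0 c := by
  unfold QW Qf
  congr 1
  exact Finset.sum_congr rfl fun n _ => by ring

theorem exists_scatW {W : T3 → ℝ} (hW : Pot W) {w : Mom → ℝ}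
    {B0 : Finset Mom} (hB0 : Sym B0) (hw : ∀ n ∈ B0, 0 < w n) (hwe : ∀ n, w (-n) = w n) :
    ∃ c, ScatW W w B0 c := by
  classical
  -- extension by zero
  let ext : (B0 → ℝ) →ₗ[ℝ] (Mom → ℝ) :=
    { toFun := fun d n => if h : n ∈ B0 then d ⟨n, h⟩ else 0
      map_add' := by intro d e; ext n; by_cases h : n ∈ B0 <;> simp [h]
      map_smul' := by intro r d; ext n; by_cases h : n ∈ B0 <;> simp [h] }
  have ext_apply : ∀ (d : B0 → ℝ) (n : B0), ext d n = d n := by
    intro d n; simp [ext]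
  let T : (B0 → ℝ) →ₗ[ℝ] (B0 → ℝ) :=
    { toFun := fun d n => 2 * w n * d n
        + ∑ m ∈ B0, ext d m * ∫ y, W y * (cs m y * cs n y)
      map_add' := by
        intro d e; ext n
        simp only [map_add, Pi.add_apply, add_mul, Finset.sum_add_distrib]
        ring
      map_smul' := by
        intro r d; ext n
        simp only [map_smul, Pi.smul_apply, smul_eq_mul, RingHom.id_apply, mul_add,
          Finset.mul_sum]
        congr 1
        · ring
        · exact Finset.sum_congr rfl fun m _ => by ring }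
  have hinj : Function.Injective T := by
    rw [injective_iff_map_eq_zero]
    intro d hd
    have h1 : ∑ n : B0, d n * T d n = 0 := by simp [hd]
    have h2 : ∑ n : B0, d n * T d n = ∑ n : B0, 2 * w n * d n ^ 2
        + ∫ y, W y * (wf B0 (ext d) y) ^ 2 := by
      have h3 : ∫ y, W y * (wf B0 (ext d) y) ^ 2 =
          ∑ n : B0, d n * ∑ m ∈ B0, ext d m * ∫ y, W y * (cs m y * cs n y) := by
        have h4 : ∀ n : B0, ∑ m ∈ B0, ext d m * ∫ y, W y * (cs m y * cs n y) =
            ∫ y, W y * (cs n y * wf B0 (ext d) y) := by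
          intro n
          rw [← h464_int_wf hW.int B0 (ext d) (h464_cs_cont n)]
          exact integral_congr_ae (ae_of_all _ fun y => by simp only []; ring)
        simp_rw [h4]
        have h5 : ∀ n : B0, d n * ∫ y, W y * (cs n y * wf B0 (ext d) y) =
            (fun m : Mom => ext d m * ∫ y, W y * (cs m y * wf B0 (ext d) y)) n := by
          intro n; simp only [ext_apply]
        simp_rw [h5]
        rw [Finset.sum_coe_sort B0 (fun m : Mom => ext d m * ∫ y, W y * (cs m y * wf B0 (ext d) y)),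
          ← h464_int_wf hW.int B0 (ext d) (h464_wf_cont B0 _)]
        exact integral_congr_ae (ae_of_all _ fun y => by simp only []; ring)
      rw [h3, ← Finset.sum_add_distrib]
      refine Finset.sum_congr rfl fun n _ => ?_
      simp only [T, LinearMap.coe_mk, AddHom.coe_mk]
      ring
    have h6 : 0 ≤ ∫ y, W y * (wf B0 (ext d) y) ^ 2 :=
      integral_nonneg fun y => mul_nonneg (hW.nonneg y) (sq_nonneg _)
    have h7 : ∀ n : B0, 0 ≤ 2 * w n * d n ^ 2 := fun n => by
      have := hw n n.2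
      positivity
    have h8 : ∑ n : B0, 2 * w n * d n ^ 2 = 0 :=
      le_antisymm (by linarith) (Finset.sum_nonneg fun n _ => h7 n)
    rw [Finset.sum_eq_zero_iff_of_nonneg fun n _ => h7 n] at h8
    ext n
    have h9 := h8 n (Finset.mem_univ _)
    have h10 : 0 < 2 * w n := by
      have := hw n n.2
      positivity
    simpa using (mul_eq_zero.mp h9).resolve_left h10.ne'
  obtain ⟨d, hd⟩ := (LinearMap.injective_iff_surjective.mp hinj) (fun n => ∫ y, W y * cs n y)
  set c : Mom → ℝ := ext d with hcdef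
  have hc : ∀ n ∈ B0, gh W B0 c n = 2 * w n * c n := by
    intro n hn
    have h1 := congrFun hd ⟨n, hn⟩
    simp only [T, LinearMap.coe_mk, AddHom.coe_mk] at h1
    rw [h464_gh_eq hW.int]
    have h2 : c n = d ⟨n, hn⟩ := ext_apply d ⟨n, hn⟩
    rw [h2, ← h1]
    ring
  refine ⟨fun n => (c n + c (-n)) / 2, ?_, ?_⟩
  · intro n
    simp only [neg_neg]
    ring
  · intro n hn
    have h1 : ∀ y, wf B0 (fun n => (c n + c (-n)) / 2) y = wf B0 c y := by
      intro y
      have h2 : wf B0 (fun n => (c n + c (-n)) / 2) y =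
          (wf B0 c y + wf B0 (fun n => c (-n)) y) / 2 := by
        unfold wf
        rw [← Finset.sum_add_distrib, Finset.sum_div]
        exact Finset.sum_congr rfl fun n _ => by ring
      rw [h2, h464_wf_neg hB0]
      ring
    have h3 : gh W B0 (fun n => (c n + c (-n)) / 2) n = gh W B0 c n := by
      unfold gh
      simp_rw [h1]
    have h4 := hc n hn
    have h5 := hc (-n) (hB0.neg n hn)
    rw [h464_gh_neg, hwe] at h5
    rw [h3]
    linear_combination (1 / 2) * h4 + (1 / 2) * h5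

theorem scatW_Q {W : T3 → ℝ} (hW : Pot W) {w : Mom → ℝ} {B0 : Finset Mom} {c : Mom → ℝ}
    (hc : ScatW W w B0 c) : gh W B0 c 0 = QW W w B0 c := by
  have h1 : ∑ n ∈ B0, 2 * w n * c n ^ 2 =
      ∫ y, W y * (wf B0 c y * (1 - wf B0 c y)) := by
    have hcc : Continuous (fun y => 1 - wf B0 c y) := continuous_const.sub (h464_wf_cont B0 c)
    rw [h464_int_wf hW.int B0 c hcc]
    refine Finset.sum_congr rfl fun n hn => ?_
    have h2 := hc.eq n hn
    have h3 : ∫ y, W y * (cs n y * (1 - wf B0 c y)) = gh W B0 c n := by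
      unfold gh
      exact integral_congr_ae (ae_of_all _ fun y => by simp only []; ring)
    rw [h3, h2]
    ring
  rw [QW, h1, ← integral_add]
  · unfold gh
    exact integral_congr_ae (ae_of_all _ fun y => by simp only [h464_cs_zero]; ring)
  · exact h464_int_mul hW.int ((continuous_const.sub (h464_wf_cont B0 c)).pow 2)
  · exact h464_int_mul hW.int ((h464_wf_cont B0 c).mul (continuous_const.sub (h464_wf_cont B0 c)))

theorem scatW_min {W : T3 → ℝ} (hW : Pot W) {w : Mom → ℝ}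
    {B0 : Finset Mom} (hw : ∀ n ∈ B0, 0 < w n) {c : Mom → ℝ} (hc : ScatW W w B0 c)
    (c' : Mom → ℝ) : QW W w B0 c ≤ QW W w B0 c' := by
  set d : Mom → ℝ := fun n => c' n - c n with hd
  have hcross : ∫ y, W y * (wf B0 d y * (1 - wf B0 c y)) =
      ∑ n ∈ B0, 2 * w n * c n * d n := by
    have hcc : Continuous (fun y => 1 - wf B0 c y) := continuous_const.sub (h464_wf_cont B0 c)
    rw [h464_int_wf hW.int B0 d hcc]
    refine Finset.sum_congr rfl fun n hn => ?_
    have h2 := hc.eq n hn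
    have h3 : ∫ y, W y * (cs n y * (1 - wf B0 c y)) = gh W B0 c n := by
      unfold gh
      exact integral_congr_ae (ae_of_all _ fun y => by simp only []; ring)
    rw [h3, h2]
    ring
  have i1 : Integrable (fun y => W y * (1 - wf B0 c y) ^ 2) :=
    h464_int_mul hW.int ((continuous_const.sub (h464_wf_cont B0 c)).pow 2)
  have i2 : Integrable (fun y => W y * (wf B0 d y * (1 - wf B0 c y))) :=
    h464_int_mul hW.int ((h464_wf_cont B0 d).mul (continuous_const.sub (h464_wf_cont B0 c)))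
  have i3 : Integrable (fun y => W y * (wf B0 d y) ^ 2) :=
    h464_int_mul hW.int ((h464_wf_cont B0 d).pow 2)
  have h1 : ∫ y, W y * (1 - wf B0 c' y) ^ 2 = (∫ y, W y * (1 - wf B0 c y) ^ 2)
      - 2 * (∫ y, W y * (wf B0 d y * (1 - wf B0 c y))) + ∫ y, W y * (wf B0 d y) ^ 2 := by
    have h10 := h464_lin3 i1 i2 i3 1 (-2) 1
    have h11 : ∫ y, W y * (1 - wf B0 c' y) ^ 2 = ∫ y, (1 * (W y * (1 - wf B0 c y) ^ 2)
        + (-2) * (W y * (wf B0 d y * (1 - wf B0 c y))) + 1 * (W y * (wf B0 d y) ^ 2)) := by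
      refine integral_congr_ae (ae_of_all _ fun y => ?_)
      simp only []
      rw [hd, h464_wf_sub]
      ring
    rw [h11, h10]
    ring
  have h2 : ∑ n ∈ B0, 2 * w n * c' n ^ 2 =
      (∑ n ∈ B0, 2 * w n * c n ^ 2)
      + 2 * (∑ n ∈ B0, 2 * w n * c n * d n)
      + ∑ n ∈ B0, 2 * w n * d n ^ 2 := by
    rw [Finset.mul_sum, ← Finset.sum_add_distrib, ← Finset.sum_add_distrib]
    exact Finset.sum_congr rfl fun n _ => by simp only [hd]; ring
  have h3 : 0 ≤ ∫ y, W y * (wf B0 d y) ^ 2 :=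
    integral_nonneg fun y => mul_nonneg (hW.nonneg y) (sq_nonneg _)
  have h4 : 0 ≤ ∑ n ∈ B0, 2 * w n * d n ^ 2 :=
    Finset.sum_nonneg fun n hn => by
      have := hw n hn
      positivity
  rw [QW, QW, h1, h2, hcross]
  linarith

theorem int_sq_le_QW {W : T3 → ℝ} {w : Mom → ℝ} {B0 : Finset Mom} (hw : ∀ n ∈ B0, 0 < w n)
    (c : Mom → ℝ) : ∫ y, W y * (1 - wf B0 c y) ^ 2 ≤ QW W w B0 c := by
  have h4 : 0 ≤ ∑ n ∈ B0, 2 * w n * c n ^ 2 :=
    Finset.sum_nonneg fun n hn => by
      have := hw n hn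
      positivity
  rw [QW]
  linarith

theorem QW_zero (W : T3 → ℝ) (w : Mom → ℝ) (B0 : Finset Mom) :
    QW W w B0 (fun _ => 0) = ∫ y, W y := by
  simp [QW, h464_wf_zero]

theorem ghW_le {W : T3 → ℝ} (hW : Pot W) {w : Mom → ℝ}
    {B0 : Finset Mom} (hw : ∀ n ∈ B0, 0 < w n) {c : Mom → ℝ} (hc : ScatW W w B0 c) (n : Mom) :
    |gh W B0 c n| ≤ ∫ y, W y := by
  have hWnn : 0 ≤ ∫ y, W y := integral_nonneg hW.nonneg
  have h1 : (gh W B0 c n) ^ 2 ≤ (∫ y, W y * (1 - wf B0 c y) ^ 2) * ∫ y, W y * cs n y ^ 2 := by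
    have := h464_cs_ineq hW (continuous_const.sub (h464_wf_cont B0 c) : Continuous
      fun y => (1 : ℝ) - wf B0 c y) (h464_cs_cont n)
    have h2 : gh W B0 c n = ∫ y, W y * ((1 - wf B0 c y) * cs n y) := by
      unfold gh
      exact integral_congr_ae (ae_of_all _ fun y => by simp only []; ring)
    rw [h2]
    exact this
  have h2 : ∫ y, W y * (1 - wf B0 c y) ^ 2 ≤ ∫ y, W y := by
    refine (int_sq_le_QW hw c).trans ((scatW_min hW hw hc (fun _ => 0)).trans ?_)
    rw [QW_zero]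
  have h3 : ∫ y, W y * cs n y ^ 2 ≤ ∫ y, W y := by
    refine integral_mono (h464_int_mul hW.int ((h464_cs_cont n).pow 2)) hW.int fun y => ?_
    have := h464_cs_abs_le n y
    have h4 : cs n y ^ 2 ≤ 1 := by
      rw [← sq_abs]
      nlinarith [abs_nonneg (cs n y)]
    simpa using mul_le_mul_of_nonneg_left h4 (hW.nonneg y)
  have h4 : 0 ≤ ∫ y, W y * cs n y ^ 2 :=
    integral_nonneg fun y => mul_nonneg (hW.nonneg y) (sq_nonneg _)
  refine abs_le_of_sq_le_sq ?_ hWnn
  calc (gh W B0 c n) ^ 2 ≤ (∫ y, W y * (1 - wf B0 c y) ^ 2) * ∫ y, W y * cs n y ^ 2 := h1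
    _ ≤ (∫ y, W y) * ∫ y, W y := mul_le_mul h2 h3 h4 hWnn
    _ = (∫ y, W y) ^ 2 := by ring

/-- closeness of `gh n` and `gh 0` -/
theorem ghW_near {W : T3 → ℝ} (hW : Pot W) {w : Mom → ℝ}
    {B0 : Finset Mom} (hw : ∀ n ∈ B0, 0 < w n) {c : Mom → ℝ} (hc : ScatW W w B0 c) (n : Mom) :
    (gh W B0 c 0 - gh W B0 c n) ^ 2 ≤ (∫ y, W y) * (2 * ∫ y, W y * (1 - cs n y)) := by
  have hcont : Continuous fun y => (1 : ℝ) - wf B0 c y :=
    continuous_const.sub (h464_wf_cont B0 c)
  have hcs1 : Continuous fun y => (1 : ℝ) - cs n y := continuous_const.sub (h464_cs_cont n)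
  have hWnn : 0 ≤ ∫ y, W y := integral_nonneg hW.nonneg
  have h0 : ∫ y, W y * (1 - wf B0 c y) ^ 2 ≤ ∫ y, W y := by
    refine (int_sq_le_QW hw c).trans ((scatW_min hW hw hc (fun _ => 0)).trans ?_)
    rw [QW_zero]
  have h1 : gh W B0 c 0 - gh W B0 c n = ∫ y, W y * ((1 - wf B0 c y) * (1 - cs n y)) := by
    unfold gh
    have j1 : Integrable (fun y => W y * (1 - wf B0 c y) * cs 0 y) := by
      simpa [mul_assoc] using h464_int_mul hW.int (hcont.mul (h464_cs_cont 0))
    have j2 : Integrable (fun y => W y * (1 - wf B0 c y) * cs n y) := by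
      simpa [mul_assoc] using h464_int_mul hW.int (hcont.mul (h464_cs_cont n))
    rw [← integral_sub j1 j2]
    exact integral_congr_ae (ae_of_all _ fun y => by simp only [h464_cs_zero]; ring)
  have h2 := h464_cs_ineq hW hcont hcs1
  have h3 : ∫ y, W y * (1 - cs n y) ^ 2 ≤ 2 * ∫ y, W y * (1 - cs n y) := by
    rw [← integral_const_mul]
    refine integral_mono (h464_int_mul hW.int (hcs1.pow 2))
      ((h464_int_mul hW.int hcs1).const_mul 2) fun y => ?_
    have h5 := abs_le.mp (h464_cs_abs_le n y)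
    have h6 : (1 - cs n y) ^ 2 ≤ 2 * (1 - cs n y) := by nlinarith
    calc W y * (1 - cs n y) ^ 2 ≤ W y * (2 * (1 - cs n y)) :=
          mul_le_mul_of_nonneg_left h6 (hW.nonneg y)
      _ = 2 * (W y * (1 - cs n y)) := by ring
  have h3' : 0 ≤ ∫ y, W y * (1 - cs n y) ^ 2 :=
    integral_nonneg fun y => mul_nonneg (hW.nonneg y) (sq_nonneg _)
  rw [h1]
  exact h2.trans (mul_le_mul h0 h3 h3' hWnn)

end

end Pool.Agent.H751R2.LHY.G80
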