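import Pool.Agent.J6H80.BG.Fin1

/-!
# Statements of two modules for the lower bound on the depletion of the Bose gas without a gap

Target (MP_4952d6_mp, the model of the problem itself): every state with energy at most
`(2π a ρ / m) (1 + λ √(ρ a³)) N` has at least
`((√(8π y) - λ) / (2 (y + 1 + 1/(4y))) - ε) √(ρ a³) N` particles outside the condensate, `y > 0`
arbitrary, in the thermodynamic limit at small density.
-/

set_option autoImplicit false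

open MeasureTheory UnitAddTorus
open scoped ENNReal ContDiff

namespace Pool.Agent.J6H80.BG

open Pool.Agent.H751R2.LHY Pool.Agent.H751R2.LHY.G80

noncomputable section

/-- PAIR. A refined bound for the pair amplitude.

Compare `pairS_le`, `pairS_zero_ge` in `Pool/Agent/H46R2/LHY/Comb.lean`. Write `k(M)` for the number
of `i` with `M i = 0` and `l(M)` for the number of `i` with `M i = -n`.
`pairS B a n = ∑_i ∑_{m, m i = 0} (∑_{j ≠ i, m j = -n} conj (a (m[j → 0]))) * a (m[i → n])`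
(substitute `m = M[j → -n]` in the definition; `t2_sum_update`). Cauchy-Schwarz over the pairs
`(i, m)`: the second factor gives `∑_i ∑_{m, m i = 0} ‖a (m[i → n])‖² = occ B a n`. First factor:
`‖∑_{j ≠ i, m j = -n} a (m[j → 0])‖² ≤ #{j ≠ i | m j = -n} ∑_{j ≠ i, m j = -n} ‖a (m[j → 0])‖²`;
with `M = m[j → 0]` (so `M i = 0`, `M j = 0`, `j ≠ i`) the number is at most `l(M) + 1`, so the first
factor is at most `∑_M k(M) (k(M) - 1) (l(M) + 1) ‖a M‖² ≤ (pairS B a 0).re + N² occ B a (-n)`, as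
`(pairS B a 0).re = ∑_M k(M) (k(M) - 1) ‖a M‖²` (see `hpair` in the proof of `pairS_zero_ge`) and
`k (k - 1) ≤ N²`. -/
def S_PAIR : Prop :=
  ∀ (N : ℕ) (B : Finset Mom), (0 : Mom) ∈ B → ∀ n ∈ B, -n ∈ B → n ≠ 0 →
    ∀ a : (Fin N → Mom) → ℂ,
      0 ≤ (pairS B a 0).re ∧
      ‖pairS B a n‖ ^ 2 ≤ occ B a n * ((pairS B a 0).re + (N : ℝ) ^ 2 * occ B a (-n))

/-- GM. Lower bound of second order for the two-body functional with mass `μ`.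

Notation: `b = 1/(2m)`, `q = b (2π/ℓ)²`, `κ_n = q |n|²`, `P0 b` with `q √q = P0 b / ℓ³` (`q_sqrt`),
`G = scatG m v > 0` (`scatG_pos`), `V0 = ∫ v`, `WK = min (Wr v ℓ) K`, `B0 = (boxM R).erase 0`,
`E(μ) = min_c Qf WK q μ B0 c`, attained at `c` with `Scat WK q μ B0 c` (`exists_scat`, `scat_min`,
`Qf = gh 0` by `scat_Q`), `ω(μ) = ∑ c_n²` at this `c`. You may use `S_LAT` (`lat_fin` and
`Pool.Agent.J6H48.BG.lat`), `S_SL` (`Pool.Agent.J6H76.BG.t_SL`), `S_SU` (`Pool.Agent.J6H47.BG.su`),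
and `near_cos`, `Wr_cos`, `clip`, `hGL_lemma` (with `N = 1`, `ρ = 1/ℓ³`).

Proof. (1) For `μ' < μ`: `E(μ') ≤ Qf WK q μ' B0 c = E(μ) - 2 (μ - μ') ω(μ)` with the minimiser `c`
at `μ`, so `E(μ) ≥ E(μ') + 2 (μ - μ') ω(μ)`.
(2) `ℓ³ E(μ') ≥ G - η` for given `μ', η > 0`, all large `ℓ`, `K` large, all `R` (`hGL_lemma`).
(3) `ℓ³ ω(μ') ≥ (1 - ε') G² π² / (4 P0 √μ')` for given small `μ'`, `ℓ` large, `K` large, `R` large:
`c_n = g_n / (2 (κ_n + μ'))`, `g_n = gh n`, `g_0 = E(μ') ≥ (G - η)/ℓ³`, and for `κ_n ≤ P`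
`|g_0 - g_n| ≤ τ V0 / ℓ³` (`ghW_near` with `QW_eq_Qf`, or as in `gh_near`; `P = b δ` from `near_cos`),
so `ω ≥ ((G - η - τ V0)/(2 ℓ³))² ∑_{n ∈ B0, κ_n ≤ P} 1/(κ_n + μ')²`; the full lattice sum is
`≥ (π²/√μ' - η) ℓ³/P0`, the term `n = 0` is `1/μ'²`, the part `κ_n > P` is at most
`4 (2 π² ℓ³/(P0 √P))` (see `hlarge` in `mkTor`), small compared with `ℓ³/√μ'` for small `μ'`, and the
part outside the box tends to `0` as `R → ∞`.
(4) Apply (1) with `μ_k = μ r^k`, `k = 0, …, k₀`, `r < 1` close to `1`, `r^(k₀/2)` small: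
`ℓ³ E(μ) ≥ ℓ³ E(μ_{k₀}) + ∑_{k<k₀} 2 μ_k (1 - r) ℓ³ ω(μ_k)
 ≥ G - η + (1 - ε') (G² π²/P0) √μ ((1 - r)/2) ∑_{k<k₀} r^(k/2)`
and `((1 - r)/2) ∑_{k<k₀} r^(k/2) = (1 + √r)/2 (1 - r^(k₀/2))`. Order of the choices: `r`, `k₀`, `ε'`
from `ε`, then `τ`, `P`, `δ`, then (for given `μ ≤ δ`) `η = ε √μ / 8`, then `L`, `K1`, `R`. -/
def S_GM : Prop :=
  ∀ m : ℝ, 0 < m → ∀ v : (Fin 3 → ℝ) → ℝ, Measurable v → Integrable v → (∀ x, 0 ≤ v x) →
    (∀ x, v (-x) = v x) → 0 < ∫ x, v x → ∀ ε : ℝ, 0 < ε → ∃ δ : ℝ, 0 < δ ∧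
      ∀ μ : ℝ, 0 < μ → μ ≤ δ → ∃ L : ℝ, 0 < L ∧ ∀ ℓ : ℝ, L ≤ ℓ →
      ∃ K1 : ℝ, ∀ K, K1 ≤ K → 0 ≤ K → ∀ᶠ R : ℕ in Filter.atTop, ∀ c : Mom → ℝ,
        scatG m v + (scatG m v ^ 2 * Real.pi ^ 2 / P0 (1 / (2 * m)) - ε) * √μ ≤
          ℓ ^ 3 * Qf (fun y => min (Wr v ℓ y) K) (1 / (2 * m) * (2 * Real.pi / ℓ) ^ 2) μ
            ((boxM R).erase 0) c

end

end Pool.Agent.J6H80.BG
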