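import Pool.Agent.J6H80.BG.Pos
import Pool.Agent.J6H80.BG.Fin1

/-!
# Statements of four modules: the depletion bound for all potentials of the problem, with hard core

Target (MP_4952d6_mp, the model of the problem itself, now with a hard core): for
`V : ℝ³ → [0, ∞]`, integrable outside a ball, every state with energy at most
`(2π a ρ / m) (1 + λ √(ρ a³)) N` has at least `(C(λ) - ε) √(ρ a³) N` particles outside the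
condensate. `V` is replaced by integrable `w ≤ V` (depending on `ρ`) with almost the same
scattering length; so all estimates have to be uniform in these `w`.

The new tool is `pos_lim` (file `Pos.lean`, proved): the minimiser is almost nonnegative,
`∫ W |1 - wf| ≤ gh W B0 c 0 + η` for large boxes; so `|gh W B0 c n| ≤ gh W B0 c 0 + η` for all `n`.
-/

set_option autoImplicit false

open MeasureTheory UnitAddTorus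
open scoped ENNReal ContDiff

namespace Pool.Agent.J6H80.BG

open Pool.Agent.H751R2.LHY Pool.Agent.H751R2.LHY.G80

noncomputable section

/-- the integrable even potentials `0 ≤ w ≤ V` -/
structure Cls (V : (Fin 3 → ℝ) → ℝ≥0∞) (w : (Fin 3 → ℝ) → ℝ) : Prop where
  meas : Measurable w
  int : Integrable w
  nonneg : ∀ x, 0 ≤ w x
  even : ∀ x, w (-x) = w x
  le : ∀ x, ENNReal.ofReal (w x) ≤ V x

/-- BD. Uniform upper bound of the scattering energies of the `w ≤ V`.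

Proof: take a smooth `f : ℝ³ → [0, 1]` with `f = 0` for `‖x‖ ≤ r`, `f = 1` for `‖x‖ ≥ 2 r`,
`r = max R₀ 1` (one minus a smooth bump function; see `bmp`, `ch` in
`Pool/Agent/J6H76/BG/SL.lean`). `scatG m w ≤ dirE m w f` (`Pool.Agent.J6H76.BG.scatG_le`), and
`dirE m w f ≤ ∫ (1/m) |∇ f|² + ∫_{‖x‖ > R₀} w`, where `∫_{‖x‖ > R₀} w ≤ (∫⁻_{‖x‖ > R₀} V).toReal`. -/
def S_BD : Prop :=
  ∀ m : ℝ, 0 < m → ∀ V : (Fin 3 → ℝ) → ℝ≥0∞, Measurable V → ∀ R₀ : ℝ,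
    ∫⁻ x in {x | R₀ < ‖x‖}, V x ≠ ⊤ → ∃ C : ℝ, ∀ w, Cls V w → scatG m w ≤ C

/-- NB. Comparison of `gh n` with `gh 0`.

Notation: `WK = min (Wr w ℓ) K`, `f = 1 - wf B0 c`. `gh 0 - gh n = ∫ WK f (1 - cs n)`. Let
`w₁ = w 1_{‖x‖ ≤ r}`, `w₂ = w 1_{‖x‖ > r}`; `Wr w ℓ ≤ Wr w₁ ℓ + Wr w₂ ℓ` almost everywhere (the sum
`perPot` is additive; `perPot_fin`). Put `A = min WK (Wr w₁ ℓ)`, so `WK - A ≤ Wr w₂ ℓ`. If `A y > 0`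
there is `x` with `(x : T3) = y` and `‖ℓ x‖ ≤ r`, and
`1 - cs n y = 1 - cos (2π n·x) ≤ ½ (2π)² |n|² ∑ x_a² ≤ (3/2) (2π/ℓ)² |n|² r²` (`cs_coe`,
`Real.one_sub_sq_div_two_le_cos`, Cauchy-Schwarz). And
`(WK - A) |f| (1 - cs n) ≤ 2 (WK - A) |f| ≤ (1/s) (WK - A) + s WK f²`, `∫ WK f² ≤ gh 0`
(`scat_Q`, `Qf`), `∫ Wr w₂ ℓ = (∫ w₂) / ℓ³` (`Wr_int_one`). -/
def S_NB : Prop :=
  ∀ w : (Fin 3 → ℝ) → ℝ, Measurable w → Integrable w → (∀ x, 0 ≤ w x) → (∀ x, w (-x) = w x) →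
    ∀ r ℓ K q μ s : ℝ, 0 ≤ r → 0 < ℓ → 0 ≤ K → 0 < q → 0 < μ → 0 < s →
    ∀ B0 : Finset Mom, Sym B0 → ∀ c : Mom → ℝ,
      Scat (fun y => min (Wr w ℓ y) K) q μ B0 c → ∀ n : Mom,
      |gh (fun y => min (Wr w ℓ y) K) B0 c 0 - gh (fun y => min (Wr w ℓ y) K) B0 c n| ≤
        3 / 2 * ((2 * Real.pi / ℓ) ^ 2 * H751R2.LHY.sq n) * r ^ 2 *
            (∫ y, min (Wr w ℓ y) K * |1 - wf B0 c y|) +
          1 / s * ((∫ x in {x | r < ‖x‖}, w x) / ℓ ^ 3) +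
          s * gh (fun y => min (Wr w ℓ y) K) B0 c 0

/-- TU. Uniform upper bound of the two-body energy with mass `μ`.

Notation: `b = 1/(2m)`, `q = b (2π/ℓ)²`, `κ_n = q |n|²`, `E(μ) = min_c Qf WK q μ B0 c = gh 0` at the
minimiser `c` (`exists_scat`, `scat_min`, `scat_Q`), `ω(μ) = ∑ c_n²`.
(1) `E(μ) ≤ Qf WK q μ B0 c' = E(μ/4) + 2 (3/4) μ ω(μ/4)` with the minimiser `c'` at `μ/4`
(`Pool.Agent.H751R2.LHY.G80.GM70.Qf_gap` in `Pool/Agent/J6H70/BG/GM.lean`).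
(2) `c'_n = gh n / (2 (κ_n + μ/4))` and `|gh n| ≤ gh 0 + η` for all `n` (from `pos_lim` with
`W = WK ≤ K`, `|gh n| ≤ ∫ WK |1 - wf|`), so
`ω(μ/4) ≤ ((E(μ/4) + η)² / 4) ∑ 1/(κ_n + μ/4)² ≤ ((E + η)²/4) 2π² ℓ³ / (P0 b √(μ/4))` (`lat_fin` with
`Pool.Agent.J6H48.BG.lat`). If `ℓ³ E(μ/4) + ℓ³ η ≤ 2 G` this gives `ℓ³ E(μ) ≤ ℓ³ E(μ/4) + A √μ`,
`A = 6 G² π² / P0 b`.
(3) `Pool.Agent.J6H47.BG.su` (with `ε/2`) gives `δ_w` with `ℓ³ E(μ) ≤ scatG m w + ε/2` for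
`μ ≤ δ_w`, `ℓ` and `R` large (`Qf_mono_pot`). By induction on `J`: for `μ ≤ δ`, `μ ≤ 4^J δ_w`:
`ℓ³ E(μ) ≤ scatG m w + ε/2 + 2 A √μ`, where `δ` is such that `2 A √δ ≤ ε/2`. -/
def S_TU : Prop :=
  ∀ m : ℝ, 0 < m → ∀ G : ℝ, 0 < G → ∀ ε : ℝ, 0 < ε → ε ≤ G / 2 → ∃ δ : ℝ, 0 < δ ∧
    ∀ w : (Fin 3 → ℝ) → ℝ, Measurable w → Integrable w → (∀ x, 0 ≤ w x) → (∀ x, w (-x) = w x) →
    scatG m w ≤ G → ∀ μ : ℝ, 0 < μ → μ ≤ δ → ∃ L : ℝ, 0 < L ∧ ∀ ℓ : ℝ, L ≤ ℓ →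
      ∀ K : ℝ, 0 ≤ K → ∀ᶠ R : ℕ in Filter.atTop, ∀ c : Mom → ℝ,
        Scat (fun y => min (Wr w ℓ y) K) (1 / (2 * m) * (2 * Real.pi / ℓ) ^ 2) μ
          ((boxM R).erase 0) c →
        ℓ ^ 3 * gh (fun y => min (Wr w ℓ y) K) ((boxM R).erase 0) c 0 ≤ scatG m w + ε

/-- GMU. The bound `S_GM` (file `Stm2.lean`), uniformly in `w`.

Proof: as in `Pool/Agent/J6H70/BG/GM.lean` (`omega_low`, `tele`, `gm_of`), with `near_cos` replaced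
by `S_NB` and `pos_lim`: for given `τ > 0` take `s = τ/(8 G)`, then `r` with
`(1/s) ∫_{‖x‖ > r} w ≤ (1/s) (∫⁻_{‖x‖ > r} V).toReal ≤ τ/4` (the tail of `V` tends to zero as it is
finite for `r = R₀`), then `P` with `(3/2) (P/b) r² (2 G + 1) ≤ τ/4`: for `κ_n ≤ P` and
`ℓ³ gh 0 ≤ 2 G` one has `|gh 0 - gh n| ≤ τ / ℓ³`. These `s, r, P` and so `δ` depend on
`V, m, G, ε` only. (If `ℓ³ gh 0 = ℓ³ Qf > 2 G` at the minimiser, the conclusion holds anyway for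
small `μ`.) Everything else, `L, K1, R`, may depend on `w` and `μ`. -/
def S_GMU : Prop :=
  ∀ m : ℝ, 0 < m → ∀ V : (Fin 3 → ℝ) → ℝ≥0∞, Measurable V → ∀ R₀ : ℝ,
    ∫⁻ x in {x | R₀ < ‖x‖}, V x ≠ ⊤ → ∀ G : ℝ, 0 < G → ∀ ε : ℝ, 0 < ε → ∃ δ : ℝ, 0 < δ ∧
    ∀ w, Cls V w → G / 2 ≤ scatG m w → scatG m w ≤ G →
      ∀ μ : ℝ, 0 < μ → μ ≤ δ → ∃ L : ℝ, 0 < L ∧ ∀ ℓ : ℝ, L ≤ ℓ →
      ∃ K1 : ℝ, ∀ K, K1 ≤ K → 0 ≤ K → ∀ᶠ R : ℕ in Filter.atTop, ∀ c : Mom → ℝ,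
        scatG m w + (scatG m w ^ 2 * Real.pi ^ 2 / P0 (1 / (2 * m)) - ε) * √μ ≤
          ℓ ^ 3 * Qf (fun y => min (Wr w ℓ y) K) (1 / (2 * m) * (2 * Real.pi / ℓ) ^ 2) μ
            ((boxM R).erase 0) c

end

end Pool.Agent.J6H80.BG
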