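import Pool.Agent.J6H80.BG.Stm3

/-!
# The scattering length of a hard core plus an integrable potential
-/

set_option autoImplicit false

open MeasureTheory UnitAddTorus
open scoped ENNReal ContDiff

namespace Pool.Agent.J6H80.BG

open Pool.Agent.H751R2.LHY Pool.Agent.H751R2.LHY.G80

noncomputable section

/-- the pair potential with a hard core of radius `R₀`: `∞` for `|x| < R₀` and `v` for `|x| ≥ R₀` -/
def hcPot (R₀ : ℝ) (v : (Fin 3 → ℝ) → ℝ) (x : Fin 3 → ℝ) : ℝ≥0∞ :=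
  if √(∑ a, x a ^ 2) < R₀ then ⊤ else ENNReal.ofReal (v x)

/-- the infimum of `∫ ((1/m) |∇ f|² + v f²)` over the test functions vanishing on `|x| < R₀` -/
def scatH (m R₀ : ℝ) (v : (Fin 3 → ℝ) → ℝ) : ℝ :=
  sInf {E | ∃ f, IsTest f ∧ (∀ x, √(∑ a, x a ^ 2) < R₀ → f x = 0) ∧ E = dirE m v f}

/-- HC. The scattering energy of the hard core is the supremum of those of the integrable potentials
below.

Proof. Write `B_r = {|x| < r}` (Euclidean), `u = v 1_{|x| ≥ R₀}`, `w_k = k 1_{B_{R₀}} + u ∈ Cls`, and let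
`S` be the supremum of the `scatG m w_k` (they increase; bounded: `scatG m w_k ≤ dirE m w_k f = dirE m v f` for
any admissible `f`). For `R₀ = 0` take `w = v`. Let `R₀ > 0`, `0 < c < 1`, `0 < δ < 1/2`.
(0) take a test function `f_k` with `dirE m w_k f_k ≤ S + δ`; then `g_k = sin (c f_k) / sin c` is a test
function (`g_k = 1` where `f_k = 1`), `|g_k| ≤ 1 / sin c`, `|g_k| ≤ (c / sin c) |f_k|`,
`|∇ g_k| ≤ (c / sin c) |∇ f_k|`, so `dirE m w_k g_k ≤ (c / sin c)² (S + δ)`, in particular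
`∫_{B_{R₀}} g_k² ≤ C / k`.
(1) take a smooth `χ : ℝ³ → [0, 1]`, `χ = 0` on `B_{(1-δ) R₀}` and `χ = 1` off `B_{R₀}`
(`exists_contMDiff`/`ContDiffBump`-type function, or `exists_smooth_zero_one_of_isClosed`; `|∇ χ| ≤ C_δ`,
as `1 - χ` has compact support), `h_k = χ g_k`:
`|∂ h_k|² ≤ (1 + δ) |∂ g_k|² + (1 + 1/δ) C_δ² g_k² 1_{B_{R₀}}` and `u h_k² = u g_k²`, so
`∫ (1/m)|∇ h_k|² + u h_k² ≤ (1 + δ) (c / sin c)² (S + δ) + (1 + 1/δ) C_δ' C / k`.
(2) dilation: `F(x) = h_k ((1 - δ) x)` vanishes on `B_{R₀}`, is a test function,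
`∫ |∇ F|² = (1 - δ)⁻¹ ∫ |∇ h_k|²`, and `∫ v F² = ∫ u F² = (1-δ)⁻³ ∫ u(x/(1-δ)) h_k(x)² dx
≤ ∫ u h_k² + (1 / sin c)² ∫ |(1-δ)⁻³ u(x/(1-δ)) - u(x)| dx`, the last integral tends to `0` as `δ → 0`
(density of the continuous functions with compact support in `L¹`,
`Integrable.exists_hasCompactSupport_integral_sub_le`).
Choose `c` close to `0`, then `δ`, then `k`: `scatH m R₀ v ≤ dirE m v F ≤ S + ε/2 ≤ scatG m w_k' + ε`. -/
def S_HC : Prop :=
  ∀ m : ℝ, 0 < m → ∀ R₀ : ℝ, 0 ≤ R₀ → ∀ v : (Fin 3 → ℝ) → ℝ, Measurable v → Integrable v →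
    (∀ x, 0 ≤ v x) → (∀ x, v (-x) = v x) → ∀ ε : ℝ, 0 < ε →
      ∃ w, Cls (hcPot R₀ v) w ∧ scatH m R₀ v ≤ scatG m w + ε

end

end Pool.Agent.J6H80.BG
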