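import Pool.Agent.J6H80.BG.Stm3
import Pool.Agent.J6H80.BG.UnivF

/-!
# The lower bound on the depletion for potentials with a hard core
-/

set_option autoImplicit false

open MeasureTheory UnitAddTorus
open scoped ComplexConjugate ENNReal ContDiff

namespace Pool.Agent.H751R2.LHY.G80

open Pool.Agent.J6H80.BG Pool.Agent.H751R2.LHY.ClipH44

noncomputable section

/-- Periodisation of the potential `V`, with values in `[0, ∞]`, on the torus of side `ℓ`, in the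
rescaled variable `y = x / ℓ`: the sum of `V (ℓ x)` over all `x ∈ ℝ³` representing `y`. -/
def perE (V : (Fin 3 → ℝ) → ℝ≥0∞) (ℓ : ℝ) (y : T3) : ℝ≥0∞ :=
  ∑' x : {x : Fin 3 → ℝ // (fun a => (x a : UnitAddCircle)) = y}, V (ℓ • x.1)

lemma perPot_le {V : (Fin 3 → ℝ) → ℝ≥0∞} {w : (Fin 3 → ℝ) → ℝ} (hw : Cls V w) (ℓ : ℝ) (y : T3) :
    perPot w ℓ y ≤ perE V ℓ y :=
  ENNReal.tsum_le_tsum fun x => hw.le _

lemma gh_abs_le {W : T3 → ℝ} (hW : Pot W) (B0 : Finset Mom) (c : Mom → ℝ) (n : Mom) :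
    |gh W B0 c n| ≤ ∫ y, W y * |1 - wf B0 c y| := by
  have hwc : Continuous (wf B0 c) := wf_cont _ _
  have i1 : Integrable (fun y => W y * |1 - wf B0 c y|) :=
    int_mul hW.int (continuous_const.sub hwc).abs
  have i2 : Integrable (fun y => W y * (1 - wf B0 c y) * cs n y) := by
    have h0 : Integrable (fun y => W y * ((1 - wf B0 c y) * cs n y)) :=
      int_mul hW.int ((continuous_const.sub hwc).mul (cs_cont n))
    refine h0.congr (Filter.Eventually.of_forall fun y => ?_)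
    simp only
    ring
  unfold gh
  refine (abs_integral_le_integral_abs).trans (integral_mono i2.abs i1 fun y => ?_)
  simp only
  rw [abs_mul, abs_mul, abs_of_nonneg (hW.nonneg y)]
  have h1 := ClipH44.cs_abs n y
  have h2 : 0 ≤ W y * |1 - wf B0 c y| := mul_nonneg (hW.nonneg y) (abs_nonneg _)
  calc W y * |1 - wf B0 c y| * |cs n y| ≤ W y * |1 - wf B0 c y| * 1 :=
        mul_le_mul_of_nonneg_left h1 h2
    _ = _ := mul_one _

theorem univH (hPAIR : S_PAIR) (hTU : S_TU) (hGMU : S_GMU) {m : ℝ} (hm : 0 < m)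
    {V : (Fin 3 → ℝ) → ℝ≥0∞} (hVm : Measurable V) {R₀ : ℝ}
    (hVt : ∫⁻ x in {x | R₀ < ‖x‖}, V x ≠ ⊤) {G : ℝ} (hG0 : 0 < G)
    (hsup : ∀ w, Cls V w → scatG m w ≤ G)
    (hlim : ∀ ε : ℝ, 0 < ε → ∃ w, Cls V w ∧ G ≤ scatG m w + ε)
    {a : ℝ} (ha : a = m / (4 * Real.pi) * G)
    {lam y ε : ℝ} (hlam : 0 ≤ lam) (hy : 0 < y) (hε : 0 < ε) :
    ∃ ρ₀ : ℝ, 0 < ρ₀ ∧ ∀ ρ : ℝ, 0 < ρ → ρ ≤ ρ₀ →
      ∃ N₀ : ℕ, ∀ N : ℕ, N₀ ≤ N → ∀ ℓ : ℝ, 0 < ℓ → (N : ℝ) = ρ * ℓ ^ 3 →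
      ∀ ψ : Cfg N → ℂ, MemLp ψ 2 → ∫ x, ‖ψ x‖ ^ 2 = 1 →
      kinE (1 / (2 * m) * (2 * Real.pi / ℓ) ^ 2) ψ + potE (perE V ℓ) ψ ≤
        ENNReal.ofReal (2 * Real.pi * a * ρ / m * (1 + lam * √(ρ * a ^ 3)) * N) →
      ((√(8 * Real.pi * y) - lam) / (2 * (y + 1 + 1 / (4 * y))) - ε) *
        √(ρ * a ^ 3) * N ≤ N - (occE ψ (fun n => n = 0)).toReal := by
  have hPi := Real.pi_pos
  obtain ⟨b, hb⟩ : ∃ b, b = 1 / (2 * m) := ⟨_, rfl⟩
  have hb0 : 0 < b := by rw [hb]; positivity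
  have hp := P0_pos hb0
  have ha0 : 0 < a := by rw [ha]; positivity
  obtain ⟨x, hx⟩ : ∃ x, x = √(8 * Real.pi * y) - lam := ⟨_, rfl⟩
  obtain ⟨B, hB⟩ : ∃ B, B = y + 1 + 1 / (4 * y) := ⟨_, rfl⟩
  have hB1 : 1 ≤ B := by
    have : 0 < 1 / (4 * y) := by positivity
    rw [hB]; linarith
  rw [← hx, ← hB]
  -- the small parameters
  obtain ⟨e3, he3⟩ : ∃ e3, e3 = min G (G * ε / (3 * (|x| + 1)) / (3 / (4 * y) + 1)) := ⟨_, rfl⟩
  have hx1 : 0 < |x| + 1 := by positivity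
  have he30 : 0 < e3 := by rw [he3]; exact lt_min hG0 (by positivity)
  have he3G : e3 ≤ G := by rw [he3]; exact min_le_left _ _
  have he3x : e3 * (3 / (4 * y) + 1) ≤ G * ε / (3 * (|x| + 1)) := by
    have : e3 ≤ G * ε / (3 * (|x| + 1)) / (3 / (4 * y) + 1) := by rw [he3]; exact min_le_right _ _
    rwa [le_div_iff₀ (by positivity)] at this
  obtain ⟨Lc, hLc⟩ : ∃ Lc, Lc = y * G + (G + e3) ^ 2 / (4 * (y * G)) + (G + e3) := ⟨_, rfl⟩
  have hLcG : G ≤ Lc := by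
    have : 0 < y * G + (G + e3) ^ 2 / (4 * (y * G)) := by positivity
    rw [hLc]; linarith
  have hLcB : Lc ≤ G * B + G * ε / (3 * (|x| + 1)) := by
    have k1 : (G + e3) ^ 2 / (4 * (y * G)) ≤ G / (4 * y) + e3 * (3 / (4 * y)) := by
      rw [div_le_iff₀ (by positivity)]
      have k2 : (G / (4 * y) + e3 * (3 / (4 * y))) * (4 * (y * G)) = G ^ 2 + 3 * e3 * G := by
        field_simp
      rw [k2]
      nlinarith
    have k3 : G * B = y * G + G + G / (4 * y) := by rw [hB]; field_simp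
    rw [hLc, k3]
    linarith
  obtain ⟨e2, he2⟩ : ∃ e2, e2 = 2 * G * ε / (3 * √(y * G / a ^ 3)) := ⟨_, rfl⟩
  have hsy : 0 < √(y * G / a ^ 3) := Real.sqrt_pos.2 (by positivity)
  have he20 : 0 < e2 := by rw [he2]; positivity
  obtain ⟨δ1, hδ1, hGM1⟩ := hGMU m hm V hVm R₀ hVt G hG0 e2 he20
  obtain ⟨δ2, hδ2, hTU1⟩ := hTU m hm G hG0 (e3 / 2) (by positivity) (by linarith)
  obtain ⟨ρ₀, hρ₀⟩ : ∃ ρ₀, ρ₀ = min (δ1 / (y * G)) (δ2 / (y * G)) := ⟨_, rfl⟩
  refine ⟨ρ₀, by rw [hρ₀]; exact lt_min (by positivity) (by positivity), fun ρ hρ hρρ => ?_⟩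
  obtain ⟨μ, hμd⟩ : ∃ μ, μ = y * ρ * G := ⟨_, rfl⟩
  have hμ0 : 0 < μ := by rw [hμd]; positivity
  have hyG : 0 < y * G := by positivity
  have hμ1 : μ ≤ δ1 := by
    have : ρ ≤ δ1 / (y * G) := hρρ.trans (by rw [hρ₀]; exact min_le_left _ _)
    rw [le_div_iff₀ hyG] at this
    rw [hμd]; linarith
  have hμ2 : μ ≤ δ2 := by
    have : ρ ≤ δ2 / (y * G) := hρρ.trans (by rw [hρ₀]; exact min_le_right _ _)
    rw [le_div_iff₀ hyG] at this
    rw [hμd]; linarith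
  obtain ⟨Z, hZ⟩ : ∃ Z, Z = √(ρ * a ^ 3) := ⟨_, rfl⟩
  have hZ0 : 0 < Z := by rw [hZ]; exact Real.sqrt_pos.2 (by positivity)
  rw [← hZ]
  -- the choice of the integrable potential
  have hs8 : 0 ≤ √(8 * Real.pi * y) := Real.sqrt_nonneg _
  obtain ⟨θ, hθ⟩ : ∃ θ, θ = min (G / 2) (G * ε * Z / (9 * (1 + 2 * √(8 * Real.pi * y) * Z))) :=
    ⟨_, rfl⟩
  have hθ0 : 0 < θ := by rw [hθ]; exact lt_min (by positivity) (by positivity)
  have hθG : θ ≤ G / 2 := by rw [hθ]; exact min_le_left _ _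
  have hθZ : θ * (1 + 2 * √(8 * Real.pi * y) * Z) ≤ G * ε * Z / 9 := by
    have h1 : θ ≤ G * ε * Z / (9 * (1 + 2 * √(8 * Real.pi * y) * Z)) := by
      rw [hθ]; exact min_le_right _ _
    rw [le_div_iff₀ (by positivity)] at h1
    linarith
  obtain ⟨w, hw, hGw⟩ := hlim θ hθ0
  have hwG := hsup w hw
  obtain ⟨L1, hL1, hGM2⟩ := hGM1 w hw (by linarith) hwG μ hμ0 hμ1
  obtain ⟨L2, hL2, hTU2⟩ := hTU1 w hw.meas hw.int hw.nonneg hw.even hwG μ hμ0 hμ2
  -- the energy of second order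
  have hsec := second_eq (y := y) hm hG0 hρ hy
  rw [← hb, ← ha, ← hμd, ← hZ] at hsec
  have hsμ : √μ = √(y * G / a ^ 3) * Z := by
    rw [hZ, hμd, ← Real.sqrt_mul (by positivity)]
    congr 1
    field_simp
  have he2μ : e2 * √μ = 2 * G * ε / 3 * Z := by
    rw [he2, hsμ]; field_simp
  obtain ⟨g2, hg2⟩ : ∃ g2, g2 = G + G * (√(8 * Real.pi * y) * Z) - 7 * G * ε / 9 * Z := ⟨_, rfl⟩
  have hg2w : g2 ≤ scatG m w + (scatG m w ^ 2 * Real.pi ^ 2 / P0 b - e2) * √μ := by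
    have k1 : G ^ 2 - 2 * G * θ ≤ scatG m w ^ 2 := by nlinarith
    have k2 : 0 ≤ Real.pi ^ 2 / P0 b * √μ := by positivity
    have k3 := mul_le_mul_of_nonneg_right k1 k2
    have k4 : G ^ 2 * (Real.pi ^ 2 / P0 b * √μ) = G * (√(8 * Real.pi * y) * Z) := by
      rw [← hsec]; ring
    have k5 : G * (G * (Real.pi ^ 2 / P0 b * √μ)) = G * (√(8 * Real.pi * y) * Z) := by
      rw [← k4]; ring
    have k6 : G * (Real.pi ^ 2 / P0 b * √μ) = √(8 * Real.pi * y) * Z :=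
      mul_left_cancel₀ hG0.ne' k5
    have k7 : (G ^ 2 - 2 * G * θ) * (Real.pi ^ 2 / P0 b * √μ) =
        G * (√(8 * Real.pi * y) * Z) - 2 * θ * (√(8 * Real.pi * y) * Z) := by
      rw [sub_mul, k4]
      have : 2 * G * θ * (Real.pi ^ 2 / P0 b * √μ) = 2 * θ * (G * (Real.pi ^ 2 / P0 b * √μ)) := by
        ring
      rw [this, k6]
    have k8 : (scatG m w ^ 2 * Real.pi ^ 2 / P0 b - e2) * √μ =
        scatG m w ^ 2 * (Real.pi ^ 2 / P0 b * √μ) - 2 * G * ε / 3 * Z := by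
      rw [sub_mul, he2μ]; ring
    rw [k8, hg2]
    rw [k7] at k3
    have k9 : θ * (1 + 2 * √(8 * Real.pi * y) * Z) = θ + 2 * θ * (√(8 * Real.pi * y) * Z) := by ring
    rw [k9] at hθZ
    linarith
  obtain ⟨N₀, hN₀⟩ := exists_nat_ge (ρ * (L1 + L2) ^ 3 + 3 * |g2| / (2 * (G * ε * Z)))
  refine ⟨N₀ + 1, fun N hN ℓ hℓ hNℓ ψ hψ hψ1 hE => ?_⟩
  have hN1 : 1 ≤ N := by omega
  have hNr : (1 : ℝ) ≤ N := by exact_mod_cast hN1
  have hN0 : (0 : ℝ) < N := by linarith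
  have hNN₀ : (N₀ : ℝ) ≤ N := by exact_mod_cast (by omega : N₀ ≤ N)
  have hpos1 : 0 ≤ 3 * |g2| / (2 * (G * ε * Z)) := by positivity
  have hℓL : L1 + L2 ≤ ℓ := by
    by_contra h
    push Not at h
    have h1 : ρ * (L1 + L2) ^ 3 ≤ ρ * ℓ ^ 3 := by
      rw [← hNℓ]; linarith
    have h2 : ℓ ^ 3 < (L1 + L2) ^ 3 := pow_lt_pow_left₀ h hℓ.le (by norm_num)
    have h3 := mul_lt_mul_of_pos_left h2 hρ
    linarith
  have hNg : 3 * |g2| ≤ 2 * (G * ε * Z) * N := by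
    have h1 : 3 * |g2| / (2 * (G * ε * Z)) ≤ N := by
      have : 0 ≤ ρ * (L1 + L2) ^ 3 := by positivity
      linarith
    rw [div_le_iff₀ (by positivity)] at h1
    linarith
  -- the trivial case
  have hsplit := occE_split hψ hψ1
  have hf1 := occE_fin hψ hψ1 (fun n => n = 0)
  have hf2 := occE_fin hψ hψ1 (fun n => n ≠ 0)
  have hO : (N : ℝ) - (occE ψ (fun n => n = 0)).toReal =
      (occE ψ (fun n => n ≠ 0)).toReal := by
    have h2 : (occE ψ (fun n => n = 0)).toReal + (occE ψ (fun n => n ≠ 0)).toReal = N := by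
      rw [← ENNReal.toReal_add hf1 hf2, hsplit, ENNReal.toReal_ofReal hN0.le]
    linarith
  rw [hO]
  set O : ℝ := (occE ψ (fun n => n ≠ 0)).toReal with hOd
  have hO0 : 0 ≤ O := ENNReal.toReal_nonneg
  by_cases hneg : x / (2 * B) - ε ≤ 0
  · have : (x / (2 * B) - ε) * Z * N ≤ 0 := by
      have h1 : (x / (2 * B) - ε) * Z ≤ 0 := mul_nonpos_of_nonpos_of_nonneg hneg hZ0.le
      exact mul_nonpos_of_nonpos_of_nonneg h1 hN0.le
    linarith
  push Not at hneg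
  have hx0 : 0 < x := by
    by_contra h
    have h1 : x / (2 * B) ≤ 0 := div_nonpos_of_nonpos_of_nonneg (not_lt.1 h) (by linarith)
    linarith
  have hxa : |x| = x := abs_of_pos hx0
  -- the torus
  have hWp := Wr_pot hw.meas hw.int hw.even hℓ
  have hWm := Wr_meas hw.meas ℓ
  obtain ⟨q, hq⟩ : ∃ q, q = b * (2 * Real.pi / ℓ) ^ 2 := ⟨_, rfl⟩
  have hq0 : 0 < q := by rw [hq]; positivity
  have hκ : ∀ n, 0 ≤ q * sq n := fun n => mul_nonneg hq0.le (sq_nonneg' n)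
  have hcong : potE (fun y => ENNReal.ofReal (Wr w ℓ y)) ψ =
      potE (perPot w ℓ) ψ := (potE_congr (perPot_ae hw.meas hw.int hℓ) ψ).symm
  have hEV : potE (fun y => ENNReal.ofReal (Wr w ℓ y)) ψ ≤ potE (perE V ℓ) ψ := by
    rw [hcong]
    exact potE_mono (fun y => perPot_le hw ℓ y) ψ
  obtain ⟨K1, hK1⟩ := hGM2 ℓ (by linarith)
  have hR0 := hTU2 ℓ (by linarith)
  rw [← hb, ← hq] at hK1 hR0
  rw [← hb, ← hq] at hE
  have he2pi : 2 * Real.pi * a * ρ / m = ρ * G / 2 := by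
    rw [ha]; field_simp; ring
  rw [he2pi] at hE
  replace hE := (add_le_add (le_refl (kinE q ψ)) hEV).trans hE
  have hE1 : (kinE q ψ + potE (fun y => ENNReal.ofReal (Wr w ℓ y)) ψ).toReal ≤
      ρ * G / 2 * (1 + lam * Z) * N :=
    ENNReal.toReal_le_of_le_ofReal (by positivity) hE
  have hEtop : kinE q ψ + potE (fun y => ENNReal.ofReal (Wr w ℓ y)) ψ ≠ ⊤ :=
    ne_top_of_le_ne_top ENNReal.ofReal_ne_top hE
  have hLpos : 0 ≤ ρ * Lc := by
    have : 0 < Lc := by linarith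
    positivity
  have hℓ3 : 0 < ℓ ^ 3 := by positivity
  have hcore := coreU hPAIR hN1 hWp hWm (q := q) (μ := μ) (L := ρ * Lc) (gm := g2 / ℓ ^ 3)
    hq0 hμ0 hLpos hψ hψ1 hEtop ⟨K1, fun K hK hKn => by
      have hWKp : Pot (fun y => min (Wr w ℓ y) K) := pot_min hWp hKn
      filter_upwards [hK1 K hK hKn, hR0 K hKn, pos_lim hWKp hKn (fun y => min_le_right _ _) hq0 hμ0
        (show 0 < e3 / 2 / ℓ ^ 3 by positivity)] with R hR1 hR2 hR3 c hc
      have hQ := scat_Q hWKp hc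
      have hlo : g2 / ℓ ^ 3 ≤ gh (fun y => min (Wr w ℓ y) K) ((boxM R).erase 0) c 0 := by
        rw [hQ, div_le_iff₀ hℓ3]
        have := hR1 c
        linarith
      have hup : gh (fun y => min (Wr w ℓ y) K) ((boxM R).erase 0) c 0 ≤
          (G + e3 / 2) / ℓ ^ 3 := by
        rw [le_div_iff₀ hℓ3]
        have h1 := hR2 c hc
        linarith
      refine ⟨hlo, fun n => ?_⟩
      set g0 := gh (fun y => min (Wr w ℓ y) K) ((boxM R).erase 0) c 0 with hg0d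
      set gn := gh (fun y => min (Wr w ℓ y) K) ((boxM R).erase 0) c n with hgnd
      have hg0N : g0 * N ≤ ρ * (G + e3) := by
        have h1 := mul_le_mul_of_nonneg_right hup hN0.le
        have h2 : (G + e3 / 2) / ℓ ^ 3 * N = ρ * (G + e3 / 2) := by
          rw [hNℓ]; field_simp
        have : 0 < ρ * e3 := by positivity
        linarith
      have hmain : (N * gn) ^ 2 / (4 * (q * sq n + μ)) ≤ ρ * ((G + e3) ^ 2 / (4 * (y * G))) := by
        have h6 : |gn| ≤ (G + e3) / ℓ ^ 3 := by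
          have h7 := gh_abs_le hWKp ((boxM R).erase 0) c n
          have h8 := hR3 c hc
          have h9 : (G + e3) / ℓ ^ 3 = (G + e3 / 2) / ℓ ^ 3 + e3 / 2 / ℓ ^ 3 := by
            field_simp; ring
          rw [h9]
          linarith
        have h7 : |N * gn| ≤ ρ * (G + e3) := by
          rw [abs_mul, abs_of_pos hN0]
          have h8 := mul_le_mul_of_nonneg_left h6 hN0.le
          have h9 : (N : ℝ) * ((G + e3) / ℓ ^ 3) = ρ * (G + e3) := by
            rw [hNℓ]; field_simp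
          linarith
        have h8 : (N * gn) ^ 2 ≤ (ρ * (G + e3)) ^ 2 := by
          rw [← sq_abs (N * gn)]
          exact pow_le_pow_left₀ (abs_nonneg _) h7 2
        calc (N * gn) ^ 2 / (4 * (q * sq n + μ)) ≤ (ρ * (G + e3)) ^ 2 / (4 * μ) := by
              apply div_le_div₀ (sq_nonneg _) h8 (by positivity)
              have := hκ n
              linarith
          _ = ρ * ((G + e3) ^ 2 / (4 * (y * G))) := by
              rw [hμd]; field_simp
      have hμρ : μ = ρ * (y * G) := by rw [hμd]; ring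
      rw [hLc]
      linarith⟩
  -- conclusion
  have hscal : (1 / 2) * (g2 / ℓ ^ 3) * ((N : ℝ) ^ 2 - N) = ρ / 2 * g2 * N - ρ / 2 * g2 := by
    rw [hNℓ]; field_simp
  rw [hscal] at hcore
  have habs : g2 ≤ |g2| := le_abs_self _
  -- it suffices to compare after multiplication with `Lc`
  have hLc0 : 0 < Lc := by linarith
  have hgoal : Lc * ((x / (2 * B) - ε) * Z * N) ≤ Lc * O := by
    have t1 : Lc * (x / (2 * B) - ε) ≤ G * x / 2 + G * ε / 6 - G * ε := by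
      have u1 : Lc * (x / (2 * B)) ≤ (G * B + G * ε / (3 * (x + 1))) * (x / (2 * B)) := by
        rw [hxa] at hLcB
        exact mul_le_mul_of_nonneg_right hLcB (by positivity)
      have u2 : (G * B + G * ε / (3 * (x + 1))) * (x / (2 * B)) =
          G * x / 2 + G * ε / 6 * (x / (x + 1)) * (1 / B) := by
        have : B ≠ 0 := by linarith
        have : x + 1 ≠ 0 := by linarith
        field_simp
        ring
      have u3 : x / (x + 1) ≤ 1 := by
        rw [div_le_one (by linarith)]; linarith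
      have u4 : 1 / B ≤ 1 := by
        rw [div_le_one (by linarith)]; exact hB1
      have u5 : G * ε / 6 * (x / (x + 1)) * (1 / B) ≤ G * ε / 6 * 1 * 1 := by
        have : 0 ≤ x / (x + 1) := by positivity
        have : 0 ≤ 1 / B := by positivity
        gcongr
      have u6 : G * ε ≤ Lc * ε := mul_le_mul_of_nonneg_right hLcG hε.le
      linarith
    have t2 : Lc * ((x / (2 * B) - ε) * Z * N) ≤ (G * x / 2 + G * ε / 6 - G * ε) * (Z * N) := by
      have := mul_le_mul_of_nonneg_right t1 (by positivity : 0 ≤ Z * N)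
      linarith
    have t3 : ρ * ((G * x / 2 + G * ε / 6 - G * ε) * (Z * N)) ≤ ρ * (Lc * O) := by
      have t4 : ρ * (Lc * O) ≥ ρ / 2 * g2 * N - ρ / 2 * g2 - ρ * G / 2 * (1 + lam * Z) * N := by
        linarith
      have t5 : ρ / 2 * g2 * N - ρ / 2 * g2 - ρ * G / 2 * (1 + lam * Z) * N =
          ρ * ((G * x / 2 - 7 * G * ε / 18) * (Z * N)) - ρ / 2 * g2 := by
        rw [hg2, hx]; ring
      have t6 : ρ / 2 * g2 ≤ ρ * (G * ε / 3 * (Z * N)) := by
        have t7 : g2 ≤ 2 * (G * ε * Z) * N / 3 := by linarith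
        have t8 := mul_le_mul_of_nonneg_left t7 (by positivity : 0 ≤ ρ / 2)
        linarith
      have t9 : 0 < ρ * (G * ε * (Z * N)) := by positivity
      linarith
    exact t2.trans (le_of_mul_le_mul_left t3 hρ)
  exact le_of_mul_le_mul_left hgoal hLc0

end

end Pool.Agent.H751R2.LHY.G80
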